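import Mathlib

/-!
Definitions for the statement of MP_8b4bd2_al: the stable category of vector bundles on the
weighted projective line of type (2,3,7), as the homotopy category of totally acyclic complexes
of finite direct sums of line bundles.
-/

namespace Pool.Agent.Work.MP_8b4bd2_al

open CategoryTheory Limits Pretriangulated MvPolynomial

universe u

variable (k : Type u) [Field k]

/-- The ring `S = k[x₁,x₂,x₃]/(x₁²+x₂³+x₃⁷)`. -/
def S : Type u :=
  MvPolynomial (Fin 3) k ⧸
    Ideal.span {(X 0 ^ 2 + X 1 ^ 3 + X 2 ^ 7 : MvPolynomial (Fin 3) k)}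

noncomputable instance : CommRing (S k) := Ideal.Quotient.commRing _

noncomputable instance : Algebra k (S k) := Ideal.Quotient.algebra k

/-- The quotient map `k[x₁,x₂,x₃] → S`. -/
noncomputable def mkS : MvPolynomial (Fin 3) k →ₐ[k] S k := Ideal.Quotient.mkₐ k _

/-- The homogeneous component `S_d`, with `L = ℤ` and `deg (x₁,x₂,x₃) = (21,14,6)`. -/
noncomputable def Sdeg (d : ℤ) : Submodule k (S k) :=
  (weightedHomogeneousSubmodule k (![21, 14, 6] : Fin 3 → ℤ) d).map (mkS k).toLinearMap

theorem one_mem_Sdeg {d : ℤ} (h : d = 0) : (1 : S k) ∈ Sdeg k d :=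
  ⟨1, h ▸ isWeightedHomogeneous_one k _, map_one (mkS k)⟩

variable {k} in
theorem mul_mem_Sdeg {d e m : ℤ} {s t : S k} (hs : s ∈ Sdeg k d) (ht : t ∈ Sdeg k e)
    (h : m = d + e) : s * t ∈ Sdeg k m := by
  obtain ⟨p, hp, rfl⟩ := hs
  obtain ⟨q, hq, rfl⟩ := ht
  exact ⟨p * q, h ▸ IsWeightedHomogeneous.mul hp hq, map_mul (mkS k) _ _⟩

instance : SetLike.GradedMonoid (Sdeg k) where
  one_mem := one_mem_Sdeg k rfl
  mul_mem _ _ _ _ hs ht := mul_mem_Sdeg hs ht rfl

section

variable {k} {R : Type u} [CommRing R] [Algebra k R]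

/-- The rank one graded free module `R(a)` over a `ℤ`-graded ring `R = ⨁ A d`. -/
structure Tw (A : ℤ → Submodule k R) : Type where
  /-- the twist -/
  a : ℤ

variable (A : ℤ → Submodule k R) [SetLike.GradedMonoid A]

/-- `Hom(R(a), R(b)) = A (b - a)`, composition is multiplication. -/
instance : Category.{u} (Tw A) where
  Hom P Q := A (Q.a - P.a)
  id P := ⟨1, (sub_self P.a).symm ▸ SetLike.one_mem_graded A⟩
  comp {P Q Q'} f g := ⟨f.1 * g.1, sub_add_sub_cancel' Q.a P.a Q'.a ▸ SetLike.mul_mem_graded f.2 g.2⟩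
  id_comp _ := Subtype.ext (one_mul _)
  comp_id _ := Subtype.ext (mul_one _)
  assoc _ _ _ := Subtype.ext (mul_assoc _ _ _)

instance : Preadditive (Tw A) where
  homGroup P Q := Submodule.addCommGroup (A (Q.a - P.a))
  add_comp _ _ _ _ _ _ := Subtype.ext (add_mul _ _ _)
  comp_add _ _ _ _ _ _ := Subtype.ext (mul_add _ _ _)

instance : Linear k (Tw A) where
  homModule P Q := Submodule.module (A (Q.a - P.a))
  smul_comp _ _ _ _ _ _ := Subtype.ext (smul_mul_assoc _ _ _)
  comp_smul _ _ _ _ _ _ := Subtype.ext (mul_smul_comm _ _ _)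

end

/-- The line bundles `O(a)`, `a ∈ L = ℤ`, with `Hom(O(a), O(b)) = S_{b-a}`. -/
def LB : Type := Tw (Sdeg k)

noncomputable instance : Category.{u} (LB k) := (inferInstance : Category (Tw (Sdeg k)))
noncomputable instance : Preadditive (LB k) := (inferInstance : Preadditive (Tw (Sdeg k)))
noncomputable instance : Linear k (LB k) := (inferInstance : Linear k (Tw (Sdeg k)))

/-- Finite direct sums of line bundles (= finitely generated graded free `S`-modules). -/
abbrev Proj : Type 1 := Mat_ (LB k)

instance {C : Type*} [Category C] [Preadditive C] [Linear k C] : Linear k (Mat_ C) where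
  homModule M N := (inferInstance : Module k (∀ i j, M.X i ⟶ N.X j))
  smul_comp M N K c f g := by
    funext i l
    change ∑ j, (c • f i j) ≫ g j l = c • ∑ j, f i j ≫ g j l
    simp [Finset.smul_sum]
  comp_smul M N K f c g := by
    funext i l
    change ∑ j, f i j ≫ (c • g j l) = c • ∑ j, f i j ≫ g j l
    simp [Finset.smul_sum]

section

variable (L : Type*) [Category L] [Preadditive L]

instance : HasBinaryBiproducts (Mat_ L) := hasBinaryBiproducts_of_finite_biproducts _

/-- The homotopy category of unbounded complexes of finite direct sums of objects of `L`. -/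
abbrev KMat := HomotopyCategory (Mat_ L) (ComplexShape.up ℤ)

variable {L} in
/-- The complex with `P` in degree `n` and zero elsewhere. -/
noncomputable def stalk (P : L) (n : ℤ) : KMat L :=
  (HomotopyCategory.singleFunctor (Mat_ L) n).obj ((Mat_.embedding L).obj P)

/-- Totally acyclic complexes: `Hom(P, K)` and `Hom(K, P)` are acyclic for all `P` in `L`. -/
def tac : ObjectProperty (KMat L) := fun K =>
  ∀ (P : L) (n : ℤ), (∀ f : stalk P n ⟶ K, f = 0) ∧ ∀ f : K ⟶ stalk P n, f = 0

theorem tac_eq : tac L =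
    ((ObjectProperty.ofObj fun P : L => stalk P 0).shiftClosure ℤ).rightOrthogonal ⊓
      ((ObjectProperty.ofObj fun P : L => stalk P 0).shiftClosure ℤ).leftOrthogonal := by
  have e : ∀ (a : L) (n : ℤ), (stalk a 0)⟦n⟧ ≅ stalk a (-n) := fun a n =>
    ((HomotopyCategory.singleFunctors (Mat_ L)).shiftIso n (-n) 0 (by simp)).app _
  ext K
  constructor
  · intro h
    refine ⟨?_, ?_⟩
    · rintro _ f ⟨_, n, e', ⟨a⟩⟩
      rw [← cancel_epi (e' ≪≫ e a n).inv, (h a (-n)).1 (_ ≫ f), comp_zero]
    · rintro _ f ⟨_, n, e', ⟨a⟩⟩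
      rw [← cancel_mono (e' ≪≫ e a n).hom, (h a (-n)).2 (f ≫ _), zero_comp]
  · rintro ⟨h₁, h₂⟩ a n
    have hP : ((ObjectProperty.ofObj fun a : L => stalk a 0).shiftClosure ℤ) (stalk a n) :=
      ⟨_, -n, eqToIso (by rw [neg_neg]) ≪≫ (e a (-n)).symm, ⟨a⟩⟩
    exact ⟨fun f => h₁ f hP, fun f => h₂ f hP⟩

instance : (tac L).IsTriangulated := by rw [tac_eq]; infer_instance

/-- The homotopy category of totally acyclic complexes, a full triangulated subcategory. -/
def Ktac := (tac L).FullSubcategory

noncomputable instance : Category (Ktac L) :=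
  (inferInstance : Category (tac L).FullSubcategory)
noncomputable instance : Preadditive (Ktac L) :=
  (inferInstance : Preadditive (tac L).FullSubcategory)
noncomputable instance [Linear k L] : Linear k (Ktac L) :=
  (inferInstance : Linear k (tac L).FullSubcategory)
instance : HasZeroObject (Ktac L) :=
  (inferInstance : HasZeroObject (tac L).FullSubcategory)
noncomputable instance : HasShift (Ktac L) ℤ :=
  (inferInstance : HasShift (tac L).FullSubcategory ℤ)
instance (n : ℤ) : (shiftFunctor (Ktac L) n).Additive :=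
  (inferInstance : (shiftFunctor (tac L).FullSubcategory n).Additive)
noncomputable instance : Pretriangulated (Ktac L) :=
  (inferInstance : Pretriangulated (tac L).FullSubcategory)
instance : IsTriangulated (Ktac L) :=
  (inferInstance : IsTriangulated (tac L).FullSubcategory)

end

/-- The stable category of vector bundles on `X(2,3,7)`, in the form `K_tac(proj^L S)`. -/
abbrev StabVect := Ktac (LB k)

section

variable {T : Type*} [Category T] [HasZeroObject T] [Preadditive T] [HasShift T ℤ]
  [∀ n : ℤ, (shiftFunctor T n).Additive] [Pretriangulated T]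

/-- `F` is exceptional: `End F = k` and `Hom(F, F[n]) = 0` for `n ≠ 0`. -/
def IsExceptional [Linear k T] (F : T) : Prop :=
  Function.Bijective (fun c : k => c • 𝟙 F) ∧ ∀ n : ℤ, n ≠ 0 → ∀ f : F ⟶ F⟦n⟧, f = 0

/-- The right perpendicular category `F^⊥`. -/
def perp (F : T) : ObjectProperty T := fun X => ∀ (n : ℤ) (f : F ⟶ X⟦n⟧), f = 0

omit [HasZeroObject T] [Pretriangulated T] in
theorem perp_eq (F : T) :
    perp F = ((ObjectProperty.singleton F).shiftClosure ℤ).rightOrthogonal := by
  ext X
  constructor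
  · rintro h _ f ⟨_, n, e, ⟨⟩⟩
    apply (shiftFunctor T (-n)).map_injective
    rw [← cancel_epi (((shiftFunctor T (-n)).mapIso e ≪≫ (shiftEquiv T n).unitIso.symm.app F).inv),
      h _ (_ ≫ _), Functor.map_zero, comp_zero]
  · intro h n f
    apply (shiftFunctor T (-n)).map_injective
    have e : X⟦n⟧⟦-n⟧ ≅ X := (shiftEquiv T n).unitIso.symm.app X
    rw [← cancel_mono e.hom, h (_ ≫ _) ⟨F, -n, Iso.refl _, by simp⟩, Functor.map_zero, zero_comp]

instance (F : T) : (perp F).IsTriangulated := by rw [perp_eq]; infer_instance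

end

/-- `Ext²` vanishes on the abelian category `H`. -/
def Hereditary.{w, v', u'} (H : Type u') [Category.{v'} H] [Abelian H] [HasExt.{w} H] : Prop :=
  ∀ A B : H, Subsingleton (Abelian.Ext.{w} A B 2)

/-- There is a triangle equivalence `T' ≌ T`. -/
def TriangleEquivalent (T' T : Type*) [Category T'] [HasZeroObject T'] [Preadditive T']
    [HasShift T' ℤ] [∀ n : ℤ, (shiftFunctor T' n).Additive] [Pretriangulated T']
    [Category T] [HasZeroObject T] [Preadditive T]
    [HasShift T ℤ] [∀ n : ℤ, (shiftFunctor T n).Additive] [Pretriangulated T] : Prop :=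
  ∃ (Φ : T' ⥤ T) (_ : Φ.CommShift ℤ), Φ.IsTriangulated ∧ Φ.IsEquivalence

/-- `T` is triangle-equivalent to `D^b(H)` for a hereditary abelian category `H`. -/
def PiecewiseHereditary.{v', u'} (T : Type u') [Category.{v'} T] [HasZeroObject T] [Preadditive T]
    [HasShift T ℤ] [∀ n : ℤ, (shiftFunctor T n).Additive] [Pretriangulated T] : Prop :=
  ∃ (H : Type u') (_ : Category.{v'} H) (_ : Abelian H) (_ : HasExt.{max u' v'} H)
    (_ : HasDerivedCategory.{max u' v'} H),
    Hereditary.{max u' v'} H ∧ TriangleEquivalent (DerivedCategory.Bounded H) T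

end Pool.Agent.Work.MP_8b4bd2_al
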