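import Pool.Agent.Work.MP_8b4bd2_al.GrMod
import Pool.Agent.Work.MP_8b4bd2_al.Defs

/-!
Coherent sheaves as the Serre quotient of finitely generated graded modules by those of finite
length, vector bundles, line bundles, distinguished exact sequences and the stable category.
-/

set_option backward.isDefEq.respectTransparency false

namespace Pool.Agent.Work.MP_8b4bd2_al

open CategoryTheory Limits Pretriangulated

universe u

section

variable {k R : Type u} [Field k] [CommRing R] [Algebra k R] (A : ℤ → Submodule k R)
  [IsNoetherianRing R]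

/-- Graded modules of finite length. -/
def finLen : ObjectProperty (GrMod A) := fun M => IsFiniteLength R M.obj

instance : PreservesFiniteLimits (GrMod.forget A) := by
  rw [((Functor.preservesFiniteLimits_tfae (GrMod.forget A)).out 3 2 :)]
  exact fun _ _ _ => inferInstance

instance : PreservesFiniteColimits (GrMod.forget A) := by
  rw [((Functor.preservesFiniteColimits_tfae (GrMod.forget A)).out 3 2 :)]
  exact fun _ _ _ => inferInstance

instance : (finLen A).IsSerreClass where
  exists_zero := ⟨GrMod.zero, GrMod.isZero_zero, IsFiniteLength.of_subsingleton (M := PUnit)⟩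
  prop_of_mono f _ h := h.of_injective ((ModuleCat.mono_iff_injective ((GrMod.forget A).map f)).1
    inferInstance)
  prop_of_epi f _ h := h.of_surjective ((ModuleCat.epi_iff_surjective ((GrMod.forget A).map f)).1
    inferInstance)
  prop_X₂_of_shortExact {S} hS h₁ h₃ := by
    have h := (hS.map_of_exact (GrMod.forget A)).exact.moduleCat_range_eq_ker
    obtain ⟨_, _⟩ := isFiniteLength_iff_isNoetherian_isArtinian.1 h₁
    obtain ⟨_, _⟩ := isFiniteLength_iff_isNoetherian_isArtinian.1 h₃
    exact isFiniteLength_iff_isNoetherian_isArtinian.2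
      ⟨inferInstance, isArtinian_of_range_eq_ker (GrMod.lin S.f) (GrMod.lin S.g) h⟩

/-- Coherent sheaves: the Serre quotient of `GrMod A` by the modules of finite length, that is, the
localisation at the maps whose kernel and cokernel have finite length. -/
def Coh : Type (u + 1) := (finLen A).isoModSerre.Localization

noncomputable instance : Category.{u + 1} (Coh A) :=
  (inferInstance : Category (finLen A).isoModSerre.Localization)

/-- Sheafification, the quotient functor. -/
noncomputable def sheaf : GrMod A ⥤ Coh A := (finLen A).isoModSerre.Q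

instance : (sheaf A).IsLocalization (finLen A).isoModSerre :=
  (inferInstance : (finLen A).isoModSerre.Q.IsLocalization _)

noncomputable instance : Abelian (Coh A) :=
  (ObjectProperty.SerreClassLocalization.abelian (finLen A).isoModSerre.Q (finLen A) :
    Abelian (finLen A).isoModSerre.Localization)

instance : (sheaf A).Additive := (inferInstance : (finLen A).isoModSerre.Q.Additive)

/-- Torsion-free sheaves: the sheaves of torsion-free graded modules. -/
def isVect : ObjectProperty (Coh A) := fun F =>
  ∃ M : GrMod A, Module.IsTorsionFree R M.obj ∧ Nonempty ((sheaf A).obj M ≅ F)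

/-- The category of vector bundles, a full subcategory of `Coh A`. -/
abbrev Vect := (isVect A).FullSubcategory

omit [IsNoetherianRing R] in
/-- The graded module `R(a)`, with `R(a)_d = A (a + d)`. -/
def twist [GradedAlgebra A] (a : ℤ) : GrMod A where
  obj := ModuleCat.of R R
  gr d := (A (a + d)).toAddSubgroup
  internal := isInternal_shift (DirectSum.Decomposition.isInternal A) a fun _ _ => Iff.rfl
  smul_mem d e _ _ hs hm := add_left_comm d a e ▸ SetLike.mul_mem_graded hs hm
  fg := inferInstance

/-- The line bundle `O(a)`, the sheaf of `R(a)`. -/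
noncomputable def lineBundle [GradedAlgebra A] (a : ℤ) : Vect A :=
  ⟨(sheaf A).obj (twist A a), twist A a, (inferInstance : Module.IsTorsionFree R R), ⟨Iso.refl _⟩⟩

/-- A sequence of vector bundles is distinguished exact if it is short exact in `Coh A` and stays
short exact under `Hom(O(a), -)` for all `a`. -/
def Distinguished [GradedAlgebra A] (X : ShortComplex (Vect A)) : Prop :=
  (X.map (isVect A).ι).ShortExact ∧
    ∀ a : ℤ, (X.map (preadditiveCoyoneda.obj (Opposite.op (lineBundle A a)))).ShortExact

end

/-- `T` is the stable category of `V`, with the triangulation of Happel, for the class `D` of exact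
sequences whose indecomposable projective-injective objects are the `P a`: the functor `π`
identifies `T` with `V` modulo the maps factoring through finite direct sums of the `P a`, and the
sequences in `D` give distinguished triangles, naturally. -/
structure StableCategory {V : Type*} [Category V] [Preadditive V] (P : ℤ → V)
    (D : ShortComplex V → Prop) (T : Type*) [Category T] [HasZeroObject T] [Preadditive T]
    [HasShift T ℤ] [∀ n : ℤ, (shiftFunctor T n).Additive] [Pretriangulated T] where
  /-- the projection to the stable category -/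
  π : V ⥤ T
  additive : π.Additive
  full : π.Full
  essSurj : π.EssSurj
  map_eq_zero_iff : ∀ {X Y : V} (f : X ⟶ Y), π.map f = 0 ↔
    ∃ (n : ℕ) (a : Fin n → ℤ) (g : ∀ i, X ⟶ P (a i)) (h : ∀ i, P (a i) ⟶ Y), f = ∑ i, g i ≫ h i
  /-- the connecting morphism of an exact sequence -/
  δ : ∀ X : ShortComplex V, D X → (π.obj X.X₃ ⟶ (π.obj X.X₁)⟦(1 : ℤ)⟧)
  δ_naturality : ∀ {X Y : ShortComplex V} (hX : D X) (hY : D Y) (φ : X ⟶ Y),
    π.map φ.τ₃ ≫ δ Y hY = δ X hX ≫ (π.map φ.τ₁)⟦(1 : ℤ)⟧'
  distinguished : ∀ (X : ShortComplex V) (hX : D X),
    Triangle.mk (π.map X.f) (π.map X.g) (δ X hX) ∈ distTriang T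

variable (k : Type u) [Field k]

open MvPolynomial in
theorem isInternal_Sdeg : DirectSum.IsInternal (Sdeg k) := by
  let _ := weightedGradedAlgebra k (![21, 14, 6] : Fin 3 → ℤ)
  have h := DirectSum.Decomposition.isInternal
    (weightedHomogeneousSubmodule k (![21, 14, 6] : Fin 3 → ℤ))
  have hW : (X 0 ^ 2 + X 1 ^ 3 + X 2 ^ 7 : MvPolynomial (Fin 3) k) ∈
      weightedHomogeneousSubmodule k (![21, 14, 6] : Fin 3 → ℤ) 42 :=
    add_mem (add_mem ((isWeightedHomogeneous_X k _ 0).pow 2) ((isWeightedHomogeneous_X k _ 1).pow 3))
      ((isWeightedHomogeneous_X k _ 2).pow 7)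
  refine isInternal_map h (mkS k).toRingHom.toAddMonoidHom Ideal.Quotient.mk_surjective
    (fun _ _ => Iff.rfl) fun d p hp => ?_
  obtain ⟨q, rfl⟩ := Ideal.mem_span_singleton.1 (Ideal.Quotient.eq_zero_iff_mem.1 hp)
  have := icmp_map h h (AddMonoidHom.mulLeft _) 42
    (fun _ _ hm => SetLike.mul_mem_graded hW hm) (d - 42) q
  rw [add_sub_cancel] at this
  exact Ideal.Quotient.eq_zero_iff_mem.2 (Ideal.mem_span_singleton.2 ⟨_, this⟩)

noncomputable instance : GradedAlgebra (Sdeg k) :=
  { (inferInstance : SetLike.GradedMonoid (Sdeg k)), (isInternal_Sdeg k).chooseDecomposition with }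

instance : IsNoetherianRing (S k) := Ideal.Quotient.isNoetherianRing _

end Pool.Agent.Work.MP_8b4bd2_al
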