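import Mathlib
import Pool.Agent.Work.MP_8b4bd2_al.Defs

-- merged part: Pool.Agent.Work.MP_8b4bd2_al.Rho
section
-- merged part: Pool.Agent.Work.MP_8b4bd2_al.Gr
section
/-!
Graded linear algebra over `R = k[y,z]`, `deg y = 14`, `deg z = 6`.
A family `a : ι → ℤ` of heights stands for the graded free module `⊕ R(a i)`
(generator `e i` in degree `-a i`).
-/

namespace Pool.Agent.Work.MP_8b4bd2_al

open MvPolynomial Matrix

universe u

abbrev R (k : Type u) [Field k] : Type u := MvPolynomial (Fin 2) k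

def wt : Fin 2 → ℤ := ![14, 6]

variable {k : Type u} [Field k]

variable (k) in
noncomputable def Rd (d : ℤ) : Submodule k (R k) := weightedHomogeneousSubmodule k wt d

noncomputable abbrev yy : R k := X 0
noncomputable abbrev zz : R k := X 1
noncomputable def ff : R k := X 0 ^ 3 + X 1 ^ 7

noncomputable def cmp (d : ℤ) : R k →ₗ[k] R k := weightedHomogeneousComponent wt d

theorem weight_wt (m : Fin 2 →₀ ℕ) : Finsupp.weight wt m = 14 * (m 0 : ℤ) + 6 * (m 1 : ℤ) := by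
  rw [Finsupp.weight_apply, Finsupp.sum_fintype _ _ (by simp)]
  simp [Fin.sum_univ_two, wt]
  ring

theorem mem_Rd {d : ℤ} {p : R k} :
    p ∈ Rd k d ↔ ∀ m : Fin 2 →₀ ℕ, coeff m p ≠ 0 → 14 * (m 0 : ℤ) + 6 * (m 1 : ℤ) = d := by
  simp only [Rd, mem_weightedHomogeneousSubmodule, IsWeightedHomogeneous, weight_wt]

theorem coeff_cmp (d : ℤ) (p : R k) (m : Fin 2 →₀ ℕ) :
    coeff m (cmp d p) = if 14 * (m 0 : ℤ) + 6 * (m 1 : ℤ) = d then coeff m p else 0 := by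
  rw [cmp, coeff_weightedHomogeneousComponent, weight_wt]

theorem cmp_mem (d : ℤ) (p : R k) : cmp d p ∈ Rd k d :=
  weightedHomogeneousComponent_mem wt p d

theorem cmp_of_mem {d : ℤ} {p : R k} (h : p ∈ Rd k d) : cmp d p = p :=
  IsWeightedHomogeneous.weightedHomogeneousComponent_same h

theorem cmp_of_mem_ne {d e : ℤ} {p : R k} (h : p ∈ Rd k d) (hne : e ≠ d) : cmp e p = 0 :=
  IsWeightedHomogeneous.weightedHomogeneousComponent_ne e h hne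

theorem mem_Rd_congr {d e : ℤ} {p : R k} (h : p ∈ Rd k d) (he : d = e) : p ∈ Rd k e := he ▸ h

theorem mul_mem_Rd {d e m : ℤ} {p q : R k} (hp : p ∈ Rd k d) (hq : q ∈ Rd k e) (h : m = d + e) :
    p * q ∈ Rd k m := h ▸ IsWeightedHomogeneous.mul hp hq

theorem pow_mem_Rd {d m : ℤ} {p : R k} (hp : p ∈ Rd k d) (n : ℕ) (h : m = n * d) :
    p ^ n ∈ Rd k m := by
  have := IsWeightedHomogeneous.pow hp n
  rw [nsmul_eq_mul] at this
  exact h ▸ this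

theorem C_mem_Rd (c : k) {d : ℤ} (h : d = 0) : (C c : R k) ∈ Rd k d :=
  h ▸ isWeightedHomogeneous_C wt c

theorem one_mem_Rd {d : ℤ} (h : d = 0) : (1 : R k) ∈ Rd k d := h ▸ isWeightedHomogeneous_one k wt

theorem monomial_mem_Rd (m : Fin 2 →₀ ℕ) (c : k) {d : ℤ}
    (h : 14 * (m 0 : ℤ) + 6 * (m 1 : ℤ) = d) : (monomial m c : R k) ∈ Rd k d :=
  isWeightedHomogeneous_monomial wt m c (by rw [weight_wt, h])

theorem yy_mem : (yy : R k) ∈ Rd k 14 := isWeightedHomogeneous_X k wt 0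
theorem zz_mem : (zz : R k) ∈ Rd k 6 := isWeightedHomogeneous_X k wt 1
theorem ff_mem : (ff : R k) ∈ Rd k 42 :=
  add_mem (pow_mem_Rd yy_mem 3 (by norm_num)) (pow_mem_Rd zz_mem 7 (by norm_num))

theorem eq_zero_of_neg {d : ℤ} {p : R k} (h : p ∈ Rd k d) (hd : d < 0) : p = 0 := by
  ext m
  by_contra hm
  have := mem_Rd.1 h m hm
  omega

theorem eq_zero_of_odd {d : ℤ} {p : R k} (h : p ∈ Rd k d) (hd : d % 2 = 1) : p = 0 := by
  ext m
  by_contra hm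
  have := mem_Rd.1 h m hm
  omega

theorem fin2_eq_zero {m : Fin 2 →₀ ℕ} (h0 : m 0 = 0) (h1 : m 1 = 0) : m = 0 := by
  ext i
  fin_cases i <;> simp_all

theorem eq_C_of_mem_zero {p : R k} (h : p ∈ Rd k 0) : p = C (constantCoeff p) := by
  ext m
  rw [coeff_C]
  split_ifs with hm
  · subst hm; rfl
  · by_contra hc
    have := mem_Rd.1 h m hc
    exact hm (fin2_eq_zero (by omega) (by omega)).symm

theorem constantCoeff_eq_zero {d : ℤ} {p : R k} (h : p ∈ Rd k d) (hd : d ≠ 0) :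
    constantCoeff p = 0 := by
  by_contra hc
  have := mem_Rd.1 h 0 hc
  simp at this
  exact hd this.symm

theorem constantCoeff_cmp_zero (p : R k) : constantCoeff (cmp 0 p) = constantCoeff p := by
  change coeff 0 (cmp 0 p) = coeff 0 p
  rw [coeff_cmp]; simp

theorem exists_sum_cmp (p : R k) : ∃ s : Finset ℤ, ∀ t : Finset ℤ, s ⊆ t →
    ∑ d ∈ t, cmp d p = p := by
  classical
  refine ⟨p.support.image fun m => 14 * (m 0 : ℤ) + 6 * (m 1 : ℤ), fun t ht => ?_⟩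
  ext m
  rw [coeff_sum]
  simp only [coeff_cmp]
  rw [Finset.sum_ite_eq]
  split_ifs with h
  · rfl
  · by_contra hc
    exact h (ht (Finset.mem_image.2 ⟨m, mem_support_iff.2 (Ne.symm hc), rfl⟩))

theorem cmp_mul_left {e : ℤ} {p : R k} (hp : p ∈ Rd k e) (d : ℤ) (q : R k) :
    cmp d (p * q) = p * cmp (d - e) q := by
  classical
  obtain ⟨s, hs⟩ := exists_sum_cmp q
  conv_lhs => rw [← hs (insert (d - e) s) (Finset.subset_insert _ _)]
  rw [Finset.mul_sum, map_sum, Finset.sum_eq_single (d - e)]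
  · exact cmp_of_mem (mul_mem_Rd hp (cmp_mem _ _) (by ring))
  · intro c _ hc
    exact cmp_of_mem_ne (mul_mem_Rd hp (cmp_mem c q) rfl) (by omega)
  · simp

theorem cmp_mul_right {e : ℤ} {p : R k} (hp : p ∈ Rd k e) (d : ℤ) (q : R k) :
    cmp d (q * p) = cmp (d - e) q * p := by
  rw [mul_comm, cmp_mul_left hp, mul_comm]

theorem prime_X' (i : Fin 2) : Prime (X i : R k) := MvPolynomial.X_prime

theorem not_X_dvd_X : ¬ (yy : R k) ∣ zz := by
  intro h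
  have := map_dvd (eval (![0, 1] : Fin 2 → k)) h
  simp at this

theorem not_yy_dvd_ff : ¬ (yy : R k) ∣ ff := by
  intro h
  have := map_dvd (eval (![0, 1] : Fin 2 → k)) h
  simp [ff] at this

theorem not_zz_dvd_ff : ¬ (zz : R k) ∣ ff := by
  intro h
  have := map_dvd (eval (![1, 0] : Fin 2 → k)) h
  simp [ff] at this

theorem ff_ne_zero : (ff : R k) ≠ 0 := fun h => not_yy_dvd_ff (k := k) (h ▸ dvd_zero _)

/-- `y^m, z^n` is a regular sequence. -/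
theorem koszul (m n : ℕ) {p q : R k} (h : yy ^ m * p + zz ^ n * q = 0) :
    ∃ u, p = zz ^ n * u ∧ q = -(yy ^ m * u) := by
  have h1 : (yy : R k) ^ m ∣ zz ^ n * q := ⟨-p, by linear_combination h⟩
  have h2 : (yy : R k) ^ m ∣ q :=
    (prime_X' 0).pow_dvd_of_dvd_mul_left m
      (fun hd => not_X_dvd_X ((prime_X' 0).dvd_of_dvd_pow hd)) h1
  obtain ⟨u, rfl⟩ := h2
  refine ⟨-u, ?_, by ring⟩
  apply mul_left_cancel₀ (pow_ne_zero m (prime_X' (k := k) 0).ne_zero)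
  linear_combination h

theorem exists_of_constantCoeff {p : R k} (h : constantCoeff p = 0) :
    ∃ p₁ p₂, p = yy * p₁ + zz * p₂ := by
  have : ∀ p : R k, ∃ p₁ p₂, p = C (constantCoeff p) + yy * p₁ + zz * p₂ := by
    intro p
    induction p using MvPolynomial.induction_on with
    | C a => exact ⟨0, 0, by simp⟩
    | add p q hp hq =>
      obtain ⟨p₁, p₂, hp⟩ := hp
      obtain ⟨q₁, q₂, hq⟩ := hq
      exact ⟨p₁ + q₁, p₂ + q₂, by rw [map_add, map_add]; linear_combination hp + hq⟩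
    | mul_X p i _ =>
      fin_cases i
      · exact ⟨p, 0, by simp [mul_comm]⟩
      · exact ⟨0, p, by simp [mul_comm]⟩
  obtain ⟨p₁, p₂, hp⟩ := this p
  exact ⟨p₁, p₂, by rw [hp, h]; simp⟩

/-! ### Vectors -/

variable {ι κ μ : Type*}

variable (k) in
/-- Homogeneous elements of degree `d` of `⊕ R(a i)`. -/
noncomputable def Vdeg (a : ι → ℤ) (d : ℤ) : Submodule k (ι → R k) :=
  Submodule.pi Set.univ fun i => Rd k (a i + d)

theorem mem_Vdeg {a : ι → ℤ} {d : ℤ} {v : ι → R k} :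
    v ∈ Vdeg k a d ↔ ∀ i, v i ∈ Rd k (a i + d) := by simp [Vdeg]

noncomputable def vcmp (a : ι → ℤ) (d : ℤ) : (ι → R k) →ₗ[k] (ι → R k) :=
  LinearMap.pi fun i => cmp (a i + d) ∘ₗ LinearMap.proj i

@[simp] theorem vcmp_apply (a : ι → ℤ) (d : ℤ) (v : ι → R k) (i : ι) :
    vcmp a d v i = cmp (a i + d) (v i) := rfl

theorem vcmp_mem (a : ι → ℤ) (d : ℤ) (v : ι → R k) : vcmp a d v ∈ Vdeg k a d :=
  mem_Vdeg.2 fun _ => cmp_mem _ _

theorem vcmp_of_mem {a : ι → ℤ} {d : ℤ} {v : ι → R k} (h : v ∈ Vdeg k a d) : vcmp a d v = v :=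
  funext fun i => cmp_of_mem (mem_Vdeg.1 h i)

theorem smul_mem_Vdeg {a : ι → ℤ} {d e m : ℤ} {r : R k} {v : ι → R k} (hr : r ∈ Rd k e)
    (hv : v ∈ Vdeg k a d) (h : m = d + e) : r • v ∈ Vdeg k a m :=
  mem_Vdeg.2 fun i => mul_mem_Rd hr (mem_Vdeg.1 hv i) (by omega)

theorem vcmp_smul {e : ℤ} {r : R k} (hr : r ∈ Rd k e) (a : ι → ℤ) (d : ℤ) (v : ι → R k) :
    vcmp a d (r • v) = r • vcmp a (d - e) v := by
  funext i
  simp only [vcmp_apply, Pi.smul_apply, smul_eq_mul, cmp_mul_left hr, add_sub_assoc]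

theorem exists_sum_vcmp [Finite ι] (a : ι → ℤ) (v : ι → R k) :
    ∃ t : Finset ℤ, ∑ d ∈ t, vcmp a d v = v := by
  classical
  have := Fintype.ofFinite ι
  choose s hs using fun i => exists_sum_cmp (v i)
  refine ⟨Finset.univ.biUnion fun i => (s i).image (· - a i), funext fun i => ?_⟩
  rw [Finset.sum_apply]
  simp only [vcmp_apply]
  rw [← Finset.sum_image (s := Finset.univ.biUnion fun i => (s i).image (· - a i))
    (g := fun d => a i + d) (f := fun d => cmp d (v i)) (fun x _ y _ h => by simpa using h)]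
  apply hs
  intro d hd
  exact Finset.mem_image.2 ⟨d - a i, Finset.mem_biUnion.2
    ⟨i, Finset.mem_univ _, Finset.mem_image.2 ⟨d, hd, rfl⟩⟩, by ring⟩

/-! ### Matrices -/

variable (k) in
/-- Matrices of homogeneous maps `⊕ R(a j) → ⊕ R(b i)` of degree `d`. -/
noncomputable def Deg (a : ι → ℤ) (b : κ → ℤ) (d : ℤ) : Submodule k (Matrix κ ι (R k)) where
  carrier := {A | ∀ i j, A i j ∈ Rd k (b i - a j + d)}
  add_mem' hA hB i j := add_mem (hA i j) (hB i j)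
  zero_mem' _ _ := zero_mem _
  smul_mem' c _ hA i j := Submodule.smul_mem _ c (hA i j)

theorem mem_Deg {a : ι → ℤ} {b : κ → ℤ} {d : ℤ} {A : Matrix κ ι (R k)} :
    A ∈ Deg k a b d ↔ ∀ i j, A i j ∈ Rd k (b i - a j + d) := Iff.rfl

theorem mem_Deg_congr {a a' : ι → ℤ} {b b' : κ → ℤ} {d d' : ℤ} {A : Matrix κ ι (R k)}
    (h : A ∈ Deg k a b d) (he : ∀ i j, b i - a j + d = b' i - a' j + d') : A ∈ Deg k a' b' d' :=
  fun i j => mem_Rd_congr (h i j) (he i j)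

theorem mul_mem_Deg [Fintype κ] {a : ι → ℤ} {b : κ → ℤ} {c : μ → ℤ} {d e m : ℤ}
    {A : Matrix μ κ (R k)} {B : Matrix κ ι (R k)} (hA : A ∈ Deg k b c e) (hB : B ∈ Deg k a b d)
    (h : m = e + d) : A * B ∈ Deg k a c m := fun i j => by
  rw [Matrix.mul_apply]
  exact Submodule.sum_mem _ fun l _ => mul_mem_Rd (hA i l) (hB l j) (by omega)

theorem one_mem_Deg [DecidableEq ι] {a b : ι → ℤ} {d : ℤ} (h : ∀ i, b i - a i + d = 0) :
    (1 : Matrix ι ι (R k)) ∈ Deg k a b d := fun i j => by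
  rw [Matrix.one_apply]
  split_ifs with hij
  · subst hij; exact one_mem_Rd (h i)
  · exact zero_mem _

theorem smul_mem_Deg {a : ι → ℤ} {b : κ → ℤ} {d e m : ℤ} {r : R k} {A : Matrix κ ι (R k)}
    (hr : r ∈ Rd k e) (hA : A ∈ Deg k a b d) (h : m = e + d) : r • A ∈ Deg k a b m :=
  fun i j => mul_mem_Rd hr (hA i j) (by omega)

theorem units_smul_mem_Deg {a : ι → ℤ} {b : κ → ℤ} {d : ℤ} (ε : ℤˣ) {A : Matrix κ ι (R k)}
    (hA : A ∈ Deg k a b d) : ε • A ∈ Deg k a b d := by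
  rcases Int.units_eq_one_or ε with rfl | rfl
  · simpa using hA
  · simpa using hA

theorem mulVec_mem_Vdeg [Fintype ι] {a : ι → ℤ} {b : κ → ℤ} {d e m : ℤ} {A : Matrix κ ι (R k)}
    {v : ι → R k} (hA : A ∈ Deg k a b e) (hv : v ∈ Vdeg k a d) (h : m = e + d) :
    A *ᵥ v ∈ Vdeg k b m := mem_Vdeg.2 fun i =>
  Submodule.sum_mem _ fun l _ => mul_mem_Rd (hA i l) (mem_Vdeg.1 hv l) (by omega)

theorem vcmp_mulVec [Fintype ι] {a : ι → ℤ} {b : κ → ℤ} {e : ℤ} {A : Matrix κ ι (R k)}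
    (hA : A ∈ Deg k a b e) (d : ℤ) (v : ι → R k) :
    vcmp b d (A *ᵥ v) = A *ᵥ vcmp a (d - e) v := by
  funext i
  simp only [vcmp_apply, Matrix.mulVec, dotProduct, map_sum]
  refine Finset.sum_congr rfl fun l _ => ?_
  rw [cmp_mul_left (hA i l), show b i + d - (b i - a l + e) = a l + (d - e) by ring]

theorem mem_Deg_iff_col {a : ι → ℤ} {b : κ → ℤ} {d : ℤ} {A : Matrix κ ι (R k)} :
    A ∈ Deg k a b d ↔ ∀ j, A.col j ∈ Vdeg k b (d - a j) := by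
  simp only [mem_Deg, mem_Vdeg, Matrix.col_apply]
  exact ⟨fun h j i => mem_Rd_congr (h i j) (by ring), fun h i j => mem_Rd_congr (h j i) (by ring)⟩

/-- The component of degree `d` of a matrix. -/
noncomputable def mcmp (a : ι → ℤ) (b : κ → ℤ) (d : ℤ) :
    Matrix κ ι (R k) →ₗ[k] Matrix κ ι (R k) where
  toFun A := Matrix.of fun i j => cmp (b i - a j + d) (A i j)
  map_add' A B := by ext i j : 1; simp
  map_smul' c A := by ext i j : 1; simp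

@[simp] theorem mcmp_apply (a : ι → ℤ) (b : κ → ℤ) (d : ℤ) (A : Matrix κ ι (R k)) (i : κ) (j : ι) :
    mcmp a b d A i j = cmp (b i - a j + d) (A i j) := rfl

theorem mcmp_mem (a : ι → ℤ) (b : κ → ℤ) (d : ℤ) (A : Matrix κ ι (R k)) :
    mcmp a b d A ∈ Deg k a b d := fun _ _ => cmp_mem _ _

theorem mcmp_of_mem {a : ι → ℤ} {b : κ → ℤ} {d : ℤ} {A : Matrix κ ι (R k)}
    (h : A ∈ Deg k a b d) : mcmp a b d A = A := by
  ext i j : 1
  exact cmp_of_mem (h i j)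

theorem mcmp_mul_left [Fintype κ] {b : κ → ℤ} {c : μ → ℤ} {e : ℤ} {A : Matrix μ κ (R k)}
    (hA : A ∈ Deg k b c e) (a : ι → ℤ) (d : ℤ) (B : Matrix κ ι (R k)) :
    mcmp a c d (A * B) = A * mcmp a b (d - e) B := by
  ext i j : 1
  simp only [mcmp_apply, Matrix.mul_apply, map_sum]
  refine Finset.sum_congr rfl fun l _ => ?_
  rw [cmp_mul_left (hA i l), show c i - a j + d - (c i - b l + e) = b l - a j + (d - e) by ring]

theorem mcmp_mul_right [Fintype κ] {a : ι → ℤ} {b : κ → ℤ} {e : ℤ} {B : Matrix κ ι (R k)}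
    (hB : B ∈ Deg k a b e) (c : μ → ℤ) (d : ℤ) (A : Matrix μ κ (R k)) :
    mcmp a c d (A * B) = mcmp b c (d - e) A * B := by
  ext i j : 1
  simp only [mcmp_apply, Matrix.mul_apply, map_sum]
  refine Finset.sum_congr rfl fun l _ => ?_
  rw [cmp_mul_right (hB l j), show c i - a j + d - (b l - a j + e) = c i - b l + (d - e) by ring]

theorem mcmp_smul {e : ℤ} {r : R k} (hr : r ∈ Rd k e) (a : ι → ℤ) (b : κ → ℤ) (d : ℤ)
    (A : Matrix κ ι (R k)) : mcmp a b d (r • A) = r • mcmp a b (d - e) A := by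
  ext i j : 1
  simp only [mcmp_apply, Matrix.smul_apply, smul_eq_mul, cmp_mul_left hr, add_sub_assoc]

/-- `N` is a graded submodule of `⊕ R(a i)`. -/
def IsHomog (a : ι → ℤ) (N : Submodule (R k) (ι → R k)) : Prop :=
  ∀ d, ∀ v ∈ N, vcmp a d v ∈ N

/-- `N` is saturated with respect to `(y,z)`. -/
def IsSat (N : Submodule (R k) (ι → R k)) : Prop :=
  ∀ u, (yy : R k) • u ∈ N → (zz : R k) • u ∈ N → u ∈ N

end Pool.Agent.Work.MP_8b4bd2_al
end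

-- merged part: Pool.Agent.Work.MP_8b4bd2_al.M1
section
/-!
A graded saturated submodule of a graded free `k[y,z]`-module is graded free.
-/

namespace Pool.Agent.Work.MP_8b4bd2_al

open MvPolynomial Matrix

universe u

variable {k : Type u} [Field k] {ι κ μ : Type*}

theorem exists_factor [Fintype κ] {a : ι → ℤ} {b : κ → ℤ} {c : μ → ℤ} {d : ℤ}
    {J : Matrix ι κ (R k)} (hJ : J ∈ Deg k b a 0) {A : Matrix ι μ (R k)} (hA : A ∈ Deg k c a d)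
    (h : ∀ j, ∃ t, J *ᵥ t = A.col j) : ∃ B ∈ Deg k c b d, J * B = A := by
  choose t ht using h
  have h1 : J * Matrix.of (fun i j => t j i) = A := by
    ext i j : 1
    exact congrFun (ht j) i
  refine ⟨mcmp c b d (Matrix.of fun i j => t j i), mcmp_mem _ _ _ _, ?_⟩
  have := mcmp_mul_left hJ c d (Matrix.of fun i j => t j i)
  rw [h1, mcmp_of_mem hA, sub_zero] at this
  exact this.symm

theorem left_cancel [Fintype κ] {J : Matrix ι κ (R k)} (hJ : ∀ t, J *ᵥ t = 0 → t = 0)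
    {B B' : Matrix κ μ (R k)} (h : J * B = J * B') : B = B' := by
  ext i j : 1
  have : J *ᵥ (B - B').col j = 0 := by
    funext l
    have := congrFun (congrFun (show J * (B - B') = 0 by rw [Matrix.mul_sub, h, sub_self]) l) j
    exact this
  exact sub_eq_zero.1 (congrFun (hJ _ this) i)

/-- `N` is generated by the columns of a degree zero matrix with `s` columns. -/
def Gen (a : ι → ℤ) (N : Submodule (R k) (ι → R k)) (s : ℕ) : Prop :=
  ∃ (b : Fin s → ℤ) (J : Matrix ι (Fin s) (R k)), J ∈ Deg k b a 0 ∧ ∀ v, v ∈ N ↔ ∃ t, J *ᵥ t = v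

theorem gen_of_fintype [Fintype κ] {a : ι → ℤ} {N : Submodule (R k) (ι → R k)} (b : κ → ℤ)
    (J : Matrix ι κ (R k)) (hJ : J ∈ Deg k b a 0) (h : ∀ v, v ∈ N ↔ ∃ t, J *ᵥ t = v) :
    Gen a N (Fintype.card κ) := by
  let e := (Fintype.equivFin κ).symm
  refine ⟨b ∘ e, J.submatrix id e, fun i j => hJ i (e j), fun v => (h v).trans ?_⟩
  constructor
  · rintro ⟨t, rfl⟩
    refine ⟨t ∘ e, ?_⟩
    rw [Matrix.submatrix_mulVec_equiv]
    simp [Function.comp_def]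
  · rintro ⟨t, rfl⟩
    exact ⟨t ∘ e.symm, by rw [Matrix.submatrix_mulVec_equiv]; rfl⟩

theorem exists_gen [Finite ι] {a : ι → ℤ} {N : Submodule (R k) (ι → R k)} (hH : IsHomog a N) :
    ∃ s, Gen a N s := by
  classical
  obtain ⟨s, hs⟩ : N.FG := IsNoetherian.noetherian N
  choose t ht using fun v : ι → R k => exists_sum_vcmp a v
  let J : Matrix ι (Σ v : s, t v) (R k) := Matrix.of fun i p => vcmp a p.2 p.1 i
  have hcol : ∀ p, J.col p = vcmp a p.2 p.1 := fun _ => rfl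
  refine ⟨_, gen_of_fintype (fun p : Σ v : s, t v => -(p.2 : ℤ)) J
    (mem_Deg_iff_col.2 fun p => by rw [hcol]; simpa using vcmp_mem a p.2 p.1.1) fun v => ?_⟩
  have : N = LinearMap.range J.mulVecLin := by
    rw [Matrix.range_mulVecLin]
    apply le_antisymm
    · rw [← hs, Submodule.span_le]
      intro v hv
      rw [← ht v, ← Finset.sum_coe_sort]
      exact Submodule.sum_mem _ fun d _ => Submodule.subset_span ⟨⟨⟨v, hv⟩, d⟩, rfl⟩
    · rw [Submodule.span_le]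
      rintro _ ⟨p, rfl⟩
      exact hH _ _ (hs ▸ Submodule.subset_span p.1.2)
  rw [this]
  rfl

theorem exists_basis [Finite ι] {a : ι → ℤ} {N : Submodule (R k) (ι → R k)} (hH : IsHomog a N)
    (hS : IsSat N) : ∃ (s : ℕ) (b : Fin s → ℤ) (J : Matrix ι (Fin s) (R k)),
      J ∈ Deg k b a 0 ∧ (∀ t, J *ᵥ t = 0 → t = 0) ∧ ∀ v, v ∈ N ↔ ∃ t, J *ᵥ t = v := by
  classical
  have hex := exists_gen hH
  obtain ⟨b, J, hJ, hN⟩ := Nat.find_spec hex
  refine ⟨_, b, J, hJ, ?_, hN⟩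
  have h1 : ∀ r, J *ᵥ r = 0 → ∀ j, constantCoeff (r j) = 0 := by
    intro r hr j
    by_contra hc
    set c := constantCoeff (r j) with hcdef
    set r' := vcmp b (-b j) r with hr'
    have hr0 : J *ᵥ r' = 0 := by
      have := vcmp_mulVec hJ (-b j) r
      rw [hr, map_zero, sub_zero] at this
      exact this.symm
    have hrj : r' j = C c := by
      rw [hr', vcmp_apply, add_neg_cancel, eq_C_of_mem_zero (cmp_mem 0 (r j)),
        constantCoeff_cmp_zero]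
    have hgen := gen_of_fintype (N := N) (fun i : {i // i ≠ j} => b i) (J.submatrix id Subtype.val)
      (fun i l => hJ i l) (fun v => (hN v).trans ?_)
    · have := Nat.find_min' hex hgen
      rw [Fintype.card_subtype_compl, Fintype.card_fin, Fintype.card_unique] at this
      have := j.pos
      omega
    have key : ∀ t : Fin (Nat.find hex) → R k, t j = 0 →
        J *ᵥ t = J.submatrix id Subtype.val *ᵥ fun i : {i // i ≠ j} => t i := by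
      intro t ht
      funext l
      simp only [Matrix.mulVec, dotProduct, Matrix.submatrix_apply, id]
      rw [Fintype.sum_eq_add_sum_subtype_ne _ j, ht, mul_zero, zero_add]
    constructor
    · rintro ⟨t, rfl⟩
      refine ⟨fun i => (t - (t j * C c⁻¹) • r') i, ?_⟩
      rw [← key, Matrix.mulVec_sub, Matrix.mulVec_smul, hr0, smul_zero, sub_zero]
      rw [Pi.sub_apply, Pi.smul_apply, hrj, smul_eq_mul, mul_assoc, ← map_mul,
        inv_mul_cancel₀ hc, map_one, mul_one, sub_self]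
    · rintro ⟨t, rfl⟩
      refine ⟨fun i => if h : i ≠ j then t ⟨i, h⟩ else 0, ?_⟩
      rw [key _ (by simp)]
      congr 1
      funext i
      simp [i.2]
  let I : Ideal (R k) := RingHom.ker (constantCoeff : R k →+* k)
  have h2 : LinearMap.ker J.mulVecLin ≤ I • LinearMap.ker J.mulVecLin := by
    intro r hr
    have hr : J *ᵥ r = 0 := hr
    choose r₁ r₂ hr₁₂ using fun j => exists_of_constantCoeff (h1 r hr j)
    have hrr : r = (yy : R k) • r₁ + (zz : R k) • r₂ := funext hr₁₂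
    have h3 : ∀ l, (yy : R k) ^ 1 * (J *ᵥ r₁) l + zz ^ 1 * (J *ᵥ r₂) l = 0 := by
      intro l
      rw [hrr, Matrix.mulVec_add, Matrix.mulVec_smul, Matrix.mulVec_smul] at hr
      simpa using congrFun hr l
    choose u hu₁ hu₂ using fun l => koszul 1 1 (h3 l)
    have hz : (zz : R k) • u = J *ᵥ r₁ := funext fun l => by simp [hu₁ l]
    have hy : (yy : R k) • u = J *ᵥ (-r₂) := funext fun l => by simp [Matrix.mulVec_neg, hu₂ l]
    obtain ⟨t, ht⟩ := (hN u).1 (hS u ((hN _).2 ⟨_, hy.symm⟩) ((hN _).2 ⟨_, hz.symm⟩))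
    have : r = (yy : R k) • (r₁ - (zz : R k) • t) + (zz : R k) • (r₂ + (yy : R k) • t) := by
      rw [hrr]; module
    rw [this]
    refine add_mem (Submodule.smul_mem_smul (by simp [I]) ?_)
      (Submodule.smul_mem_smul (by simp [I]) ?_)
    · change J *ᵥ _ = 0
      rw [Matrix.mulVec_sub, Matrix.mulVec_smul, ht, hz, sub_self]
    · change J *ᵥ _ = 0
      rw [Matrix.mulVec_add, Matrix.mulVec_smul, ht, hy, Matrix.mulVec_neg, add_neg_cancel]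
  obtain ⟨ρ, hρ, hρ'⟩ := Submodule.exists_sub_one_mem_and_smul_eq_zero_of_fg_of_le_smul I _
    (IsNoetherian.noetherian _) h2
  intro t ht
  have hρ0 : ρ ≠ 0 := by
    rintro rfl
    simp [I] at hρ
  exact (smul_eq_zero.1 (hρ' t ht)).resolve_left hρ0

end Pool.Agent.Work.MP_8b4bd2_al
end

-- merged part: Pool.Agent.Work.MP_8b4bd2_al.Rho
section
/-!
Dimensions of the graded pieces of `R = k[y,z]` and of graded free modules.
`Rd k e` has the monomials `y^p z^q` with `14 p + 6 q = e` as a basis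
(`weightedHomogeneousSubmodule_eq_finsupp_supported`).
-/

namespace Pool.Agent.Work.MP_8b4bd2_al

open MvPolynomial Matrix Module

universe u

variable {k : Type u} [Field k]

/-- The number of `(p,q)` with `14 p + 6 q = e`. -/
def rho (e : ℤ) : ℤ :=
  ((Finset.range (e.toNat + 1) ×ˢ Finset.range (e.toNat + 1)).filter
    fun x : ℕ × ℕ => 14 * (x.1 : ℤ) + 6 * (x.2 : ℤ) = e).card

/-- The set of `(p,q)` with `14 p + 6 q = e`. -/
def rhoS (e : ℤ) : Finset (ℕ × ℕ) :=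
  (Finset.range (e.toNat + 1) ×ˢ Finset.range (e.toNat + 1)).filter
    fun x : ℕ × ℕ => 14 * (x.1 : ℤ) + 6 * (x.2 : ℤ) = e

theorem rho_eq_card (e : ℤ) : rho e = (rhoS e).card := rfl

theorem mem_rhoS {e : ℤ} {x : ℕ × ℕ} : x ∈ rhoS e ↔ 14 * (x.1 : ℤ) + 6 * (x.2 : ℤ) = e := by
  simp only [rhoS, Finset.mem_filter, Finset.mem_product, Finset.mem_range]
  omega

/-- Exponent vectors of degree `e`. -/
noncomputable def rhoEquiv (e : ℤ) : {d : Fin 2 →₀ ℕ | Finsupp.weight wt d = e} ≃ rhoS e :=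
  (Finsupp.equivFunOnFinite.trans (finTwoArrowEquiv ℕ)).subtypeEquiv fun d => by
    rw [mem_rhoS, Set.mem_ofPred_eq, weight_wt]
    rfl

/-- The monomial basis. -/
noncomputable def rhoBasis (e : ℤ) : Basis (rhoS e) k (Rd k e) :=
  ((basisRestrictSupport k {d : Fin 2 →₀ ℕ | Finsupp.weight wt d = e}).reindex (rhoEquiv e)).map
    (LinearEquiv.ofEq _ _ (weightedHomogeneousSubmodule_eq_finsupp_supported k wt e).symm)

instance (e : ℤ) : FiniteDimensional k (Rd k e) := Module.Finite.of_basis (rhoBasis e)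

theorem finrank_Rd (e : ℤ) : (finrank k (Rd k e) : ℤ) = rho e := by
  rw [finrank_eq_card_basis (rhoBasis e), Fintype.card_coe, rho_eq_card]

theorem rho_neg {e : ℤ} (h : e < 0) : rho e = 0 := by
  rw [rho_eq_card, Finset.eq_empty_of_forall_notMem (s := rhoS e) fun x hx => by
    have := mem_rhoS.1 hx
    omega]
  rfl

theorem rho_odd {e : ℤ} (h : e % 2 = 1) : rho e = 0 := by
  rw [rho_eq_card, Finset.eq_empty_of_forall_notMem (s := rhoS e) fun x hx => by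
    have := mem_rhoS.1 hx
    omega]
  rfl

theorem rho_shift (e : ℤ) (i j : ℕ) {d : ℤ} (hd : d = 14 * (i : ℤ) + 6 * j) :
    rho (e - d) = ((rhoS e).filter fun x => i ≤ x.1 ∧ j ≤ x.2).card := by
  rw [rho_eq_card]
  congr 1
  refine Finset.card_nbij' (fun x => (x.1 + i, x.2 + j)) (fun x => (x.1 - i, x.2 - j))
    (fun x hx => ?_) (fun x hx => ?_) (fun x _ => ?_) fun x hx => ?_
  · have := mem_rhoS.1 hx
    refine Finset.mem_filter.2 ⟨mem_rhoS.2 ?_, ?_⟩ <;> dsimp only <;> omega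
  · obtain ⟨h1, h2⟩ := Finset.mem_filter.1 hx
    have := mem_rhoS.1 h1
    refine mem_rhoS.2 ?_
    dsimp only
    omega
  · simp
  · obtain ⟨-, h2⟩ := Finset.mem_filter.1 hx
    ext <;> dsimp only <;> omega

theorem rho_koszul (e : ℤ) :
    rho e - rho (e - 14) - rho (e - 6) + rho (e - 20) = if e = 0 then 1 else 0 := by
  rw [rho_shift e 1 0 (by norm_num), rho_shift e 0 1 (by norm_num), rho_shift e 1 1 (by norm_num),
    rho_eq_card, Finset.card_eq_sum_ones]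
  simp only [Finset.card_filter, Nat.cast_sum]
  rw [← Finset.sum_sub_distrib, ← Finset.sum_sub_distrib, ← Finset.sum_add_distrib,
    Finset.sum_congr rfl (g := fun x => if x = (0, 0) then (1 : ℤ) else 0), Finset.sum_ite_eq']
  · refine if_congr (mem_rhoS.trans ?_) rfl rfl
    simp [eq_comm]
  · rintro ⟨p, q⟩ -
    simp only [Prod.mk.injEq]
    split_ifs <;> omega

theorem rho_le (e : ℤ) : rho e ≤ rho (e - 42) + 1 := by
  rw [rho_shift e 3 0 (by norm_num), rho_eq_card,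
    ← Finset.card_filter_add_card_filter_not (s := rhoS e) fun x => 3 ≤ x.1 ∧ 0 ≤ x.2]
  have : ((rhoS e).filter fun x => ¬ (3 ≤ x.1 ∧ 0 ≤ x.2)).card ≤ 1 :=
    Finset.card_le_one.2 fun x hx y hy => by
      obtain ⟨h1, h2⟩ := Finset.mem_filter.1 hx
      obtain ⟨h3, h4⟩ := Finset.mem_filter.1 hy
      have := mem_rhoS.1 h1
      have := mem_rhoS.1 h3
      ext <;> omega
  omega

/-- Homogeneous vectors, componentwise. -/
def vdegEquiv {ι : Type*} (a : ι → ℤ) (d : ℤ) : Vdeg k a d ≃ₗ[k] ∀ i, Rd k (a i + d) where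
  toFun v i := ⟨v.1 i, mem_Vdeg.1 v.2 i⟩
  invFun v := ⟨fun i => v i, mem_Vdeg.2 fun i => (v i).2⟩
  map_add' _ _ := rfl
  map_smul' _ _ := rfl
  left_inv _ := rfl
  right_inv _ := rfl

instance {ι : Type*} [Finite ι] (a : ι → ℤ) (d : ℤ) : FiniteDimensional k (Vdeg k a d) :=
  (vdegEquiv a d).symm.finiteDimensional

theorem finrank_Vdeg {ι : Type*} [Fintype ι] (a : ι → ℤ) (d : ℤ) :
    (finrank k (Vdeg k a d) : ℤ) = ∑ i, rho (a i + d) := by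
  rw [(vdegEquiv a d).finrank_eq, Module.finrank_pi_fintype, Nat.cast_sum]
  exact Finset.sum_congr rfl fun i _ => finrank_Rd _

theorem ff_dvd_monomial (m : Fin 2 →₀ ℕ) (c : k) {p q : ℕ} (hp : m 0 % 3 = p)
    (hq : m 1 + 7 * (m 0 / 3) = q) :
    (ff : R k) ∣ monomial m c - C (c * (-1) ^ (m 0 / 3)) * (yy ^ p * zz ^ q) := by
  have h1 : (ff : R k) ∣ (yy ^ 3) ^ (m 0 / 3) - (-zz ^ 7) ^ (m 0 / 3) := by
    have := sub_dvd_pow_sub_pow (yy ^ 3 : R k) (-zz ^ 7) (m 0 / 3)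
    rwa [sub_neg_eq_add] at this
  have h2 : (yy : R k) ^ m 0 = yy ^ p * (yy ^ 3) ^ (m 0 / 3) := by
    rw [← pow_mul, ← pow_add, ← hp, Nat.mod_add_div]
  convert h1.mul_left (C c * (yy ^ p * zz ^ m 1)) using 1
  rw [monomial_eq, Finsupp.prod_fintype _ _ (by simp), Fin.prod_univ_two, h2, ← hq,
    neg_pow (zz ^ 7), map_mul, map_pow, map_neg, C_1, pow_add, pow_mul]
  ring

/-- `(R/f)_e` has dimension at most one, spanned by a monomial. -/
theorem exists_mod_ff (e : ℤ) : (∀ r ∈ Rd k e, r = 0) ∨ ∃ p q : ℕ, 14 * (p : ℤ) + 6 * q = e ∧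
    ∀ r ∈ Rd k e, ∃ c : k, ∃ r' ∈ Rd k (e - 42), r = C c * (yy ^ p * zz ^ q) + ff * r' := by
  by_cases h : ∃ a b : ℕ, 14 * (a : ℤ) + 6 * b = e
  swap
  · refine Or.inl fun r hr => ?_
    ext m
    by_contra hm
    exact h ⟨_, _, mem_Rd.1 hr m hm⟩
  obtain ⟨a, b, h⟩ := h
  have he : 14 * ((a % 3 : ℕ) : ℤ) + 6 * ((b + 7 * (a / 3) : ℕ) : ℤ) = e := by omega
  refine Or.inr ⟨_, _, he, fun r hr => ?_⟩
  obtain ⟨u, hu⟩ : (ff : R k) ∣ r - C (∑ m ∈ r.support, coeff m r * (-1) ^ (m 0 / 3)) *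
      (yy ^ (a % 3) * zz ^ (b + 7 * (a / 3))) := by
    nth_rewrite 1 [r.as_sum]
    rw [map_sum, Finset.sum_mul, ← Finset.sum_sub_distrib]
    refine Finset.dvd_sum fun m hm => ?_
    have := mem_Rd.1 hr m (mem_support_iff.1 hm)
    exact ff_dvd_monomial m _ (by omega) (by omega)
  refine ⟨∑ m ∈ r.support, coeff m r * (-1) ^ (m 0 / 3), cmp (e - 42) u, cmp_mem _ _,
    sub_eq_iff_eq_add'.1 ?_⟩
  rw [← cmp_mul_left ff_mem, ← hu, cmp_of_mem]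
  exact sub_mem hr (mul_mem_Rd (C_mem_Rd _ rfl) (mul_mem_Rd (pow_mem_Rd yy_mem _ rfl)
    (pow_mem_Rd zz_mem _ rfl) rfl) (by omega))

end Pool.Agent.Work.MP_8b4bd2_al
end
end

-- merged part: Pool.Agent.Work.MP_8b4bd2_al.MF
section
/-!
Graded matrix factorisations = graded maximal Cohen-Macaulay `S`-modules, seen as graded free
`R`-modules with the operator `φ` (multiplication by `x`, degree 21, `φ² = -f`).
-/

namespace Pool.Agent.Work.MP_8b4bd2_al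

open MvPolynomial Matrix CategoryTheory

universe u

structure MF (k : Type u) [Field k] : Type (max 1 u) where
  ι : Type
  [fin : Fintype ι]
  [dec : DecidableEq ι]
  a : ι → ℤ
  φ : Matrix ι ι (R k)
  deg : φ ∈ Deg k a a 21
  sq : φ * φ = -((ff : R k) • 1)

attribute [instance] MF.fin MF.dec

variable {k : Type u} [Field k]

def MF.Hom (M N : MF k) : AddSubgroup (Matrix N.ι M.ι (R k)) where
  carrier := {g | g ∈ Deg k M.a N.a 0 ∧ N.φ * g = g * M.φ}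
  add_mem' hg hh := ⟨add_mem hg.1 hh.1, by rw [Matrix.mul_add, Matrix.add_mul, hg.2, hh.2]⟩
  zero_mem' := ⟨zero_mem _, by simp⟩
  neg_mem' hg := ⟨neg_mem hg.1, by rw [Matrix.mul_neg, Matrix.neg_mul, hg.2]⟩

noncomputable instance : Category.{u} (MF k) where
  Hom M N := MF.Hom M N
  id M := ⟨1, one_mem_Deg (by simp), by simp⟩
  comp f g := ⟨g.1 * f.1, mul_mem_Deg g.2.1 f.2.1 (by simp), by
    rw [← Matrix.mul_assoc, g.2.2, Matrix.mul_assoc, f.2.2, Matrix.mul_assoc]⟩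
  id_comp f := Subtype.ext (Matrix.mul_one _)
  comp_id f := Subtype.ext (Matrix.one_mul _)
  assoc f g h := Subtype.ext (Matrix.mul_assoc _ _ _).symm

noncomputable instance : Preadditive (MF k) where
  homGroup M N := inferInstanceAs (AddCommGroup (MF.Hom M N))
  add_comp _ _ _ _ _ _ := Subtype.ext (Matrix.mul_add _ _ _)
  comp_add _ _ _ _ _ _ := Subtype.ext (Matrix.add_mul _ _ _)

namespace MF

/-- The matrix of a morphism. -/
abbrev mat {M N : MF k} (g : M ⟶ N) : Matrix N.ι M.ι (R k) := Subtype.val g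

/-- Constructor for morphisms. -/
def homMk {M N : MF k} (g : Matrix N.ι M.ι (R k)) (h₁ : g ∈ Deg k M.a N.a 0)
    (h₂ : N.φ * g = g * M.φ) : M ⟶ N := ⟨g, h₁, h₂⟩

@[simp] theorem mat_homMk {M N : MF k} (g : Matrix N.ι M.ι (R k)) (h₁ : g ∈ Deg k M.a N.a 0)
    (h₂ : N.φ * g = g * M.φ) : mat (homMk g h₁ h₂) = g := rfl
theorem mat_deg {M N : MF k} (g : M ⟶ N) : mat g ∈ Deg k M.a N.a 0 := g.2.1
theorem mat_comm {M N : MF k} (g : M ⟶ N) : N.φ * mat g = mat g * M.φ := g.2.2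
theorem hom_ext {M N : MF k} {g h : M ⟶ N} (e : mat g = mat h) : g = h := Subtype.ext e
@[simp] theorem mat_id (M : MF k) : mat (𝟙 M) = 1 := rfl
@[simp] theorem mat_comp {M N P : MF k} (f : M ⟶ N) (g : N ⟶ P) : mat (f ≫ g) = mat g * mat f := rfl
@[simp] theorem mat_add {M N : MF k} (f g : M ⟶ N) : mat (f + g) = mat f + mat g := rfl
@[simp] theorem mat_sub {M N : MF k} (f g : M ⟶ N) : mat (f - g) = mat f - mat g := rfl
@[simp] theorem mat_neg {M N : MF k} (f : M ⟶ N) : mat (-f) = -mat f := rfl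
@[simp] theorem mat_zero {M N : MF k} : mat (0 : M ⟶ N) = 0 := rfl

/-- Twist: heights raised by `e`, `φ` multiplied by the sign `ε`. `M[1] = M.tw 21 (-1)`. -/
noncomputable abbrev tw (M : MF k) (e : ℤ) (ε : ℤˣ) : MF k where
  ι := M.ι
  a i := M.a i + e
  φ := ε • M.φ
  deg := units_smul_mem_Deg ε (mem_Deg_congr M.deg fun i j => by ring)
  sq := by rcases Int.units_eq_one_or ε with rfl | rfl <;> simp [M.sq]

noncomputable def twMap (e : ℤ) (ε : ℤˣ) {M N : MF k} (g : M ⟶ N) : M.tw e ε ⟶ N.tw e ε :=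
  homMk (mat (M := M) (N := N) g) (mem_Deg_congr (mat_deg g) fun i j => by simp)
    (by
      change ε • N.φ * mat g = mat g * ε • M.φ
      rw [Matrix.smul_mul, Matrix.mul_smul, mat_comm])

/-- Two structures on the same index set with the same data are isomorphic. -/
noncomputable def twIso (M : MF k) (e e' e'' : ℤ) (ε ε' ε'' : ℤˣ) (h : e + e' = e'')
    (h' : ε' * ε = ε'') : (M.tw e ε).tw e' ε' ≅ M.tw e'' ε'' where
  hom := homMk (1 : Matrix M.ι M.ι (R k)) (one_mem_Deg fun i => by simp; omega)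
    (by
      change ε'' • M.φ * 1 = 1 * ε' • ε • M.φ
      rw [Matrix.mul_one, Matrix.one_mul, smul_smul, h'])
  inv := homMk (1 : Matrix M.ι M.ι (R k)) (one_mem_Deg fun i => by simp; omega)
    (by
      change (ε' • ε • M.φ) * 1 = 1 * ε'' • M.φ
      rw [Matrix.mul_one, Matrix.one_mul, smul_smul, h'])
  hom_inv_id := hom_ext (Matrix.mul_one (1 : Matrix M.ι M.ι (R k)))
  inv_hom_id := hom_ext (Matrix.mul_one (1 : Matrix M.ι M.ι (R k)))

noncomputable def twZeroIso (M : MF k) : M.tw 0 1 ≅ M where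
  hom := homMk (1 : Matrix M.ι M.ι (R k)) (one_mem_Deg fun i => by simp)
    (by
      change M.φ * 1 = 1 * (1 : ℤˣ) • M.φ
      simp)
  inv := homMk (1 : Matrix M.ι M.ι (R k)) (one_mem_Deg fun i => by simp)
    (by
      change ((1 : ℤˣ) • M.φ) * 1 = 1 * M.φ
      simp)
  hom_inv_id := hom_ext (Matrix.mul_one (1 : Matrix M.ι M.ι (R k)))
  inv_hom_id := hom_ext (Matrix.mul_one (1 : Matrix M.ι M.ι (R k)))

theorem φ_mulVec_φ (M : MF k) (v : M.ι → R k) : M.φ *ᵥ M.φ *ᵥ v = -((ff : R k) • v) := by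
  rw [Matrix.mulVec_mulVec, M.sq, Matrix.neg_mulVec, Matrix.smul_mulVec, Matrix.one_mulVec]

theorem φ_inj (M : MF k) (v : M.ι → R k) (h : M.φ *ᵥ v = 0) : v = 0 := by
  have := M.φ_mulVec_φ v
  rw [h, Matrix.mulVec_zero, eq_comm, neg_eq_zero] at this
  exact (smul_eq_zero.1 this).resolve_left ff_ne_zero

theorem φ_mul_φ_mul (M : MF k) {κ : Type*} (A : Matrix M.ι κ (R k)) :
    M.φ * (M.φ * A) = -((ff : R k) • A) := by
  rw [← Matrix.mul_assoc, M.sq, Matrix.neg_mul, Matrix.smul_mul, Matrix.one_mul]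

theorem mul_φ_mul_φ (M : MF k) {κ : Type*} (A : Matrix κ M.ι (R k)) :
    A * M.φ * M.φ = -((ff : R k) • A) := by
  rw [Matrix.mul_assoc, M.sq, Matrix.mul_neg, Matrix.mul_smul, Matrix.mul_one]

/-- A graded saturated `φ`-stable submodule is a matrix factorisation. -/
theorem exists_sub (M : MF k) {N : Submodule (R k) (M.ι → R k)} (hH : IsHomog M.a N)
    (hS : IsSat N) (hφ : ∀ v ∈ N, M.φ *ᵥ v ∈ N) :
    ∃ (X : MF k) (J : X ⟶ M), (∀ t, mat J *ᵥ t = 0 → t = 0) ∧ ∀ v, v ∈ N ↔ ∃ t, mat J *ᵥ t = v := by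
  obtain ⟨s, b, J, hJ, hinj, hN⟩ := exists_basis hH hS
  obtain ⟨ψ, hψ, hJψ⟩ := exists_factor hJ (mul_mem_Deg M.deg hJ (m := 21) (by simp)) fun j =>
    (hN _).1 (by
      have : (M.φ * J).col j = M.φ *ᵥ J.col j := rfl
      rw [this]
      exact hφ _ ((hN _).2 ⟨Pi.single j 1, by rw [Matrix.mulVec_single_one]⟩))
  have hsq : ψ * ψ = -((ff : R k) • 1) := left_cancel hinj (by
    rw [← Matrix.mul_assoc, hJψ, Matrix.mul_assoc, hJψ, M.φ_mul_φ_mul]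
    simp)
  exact ⟨⟨Fin s, b, ψ, hψ, hsq⟩, homMk J hJ hJψ.symm, hinj, hN⟩

end MF

open MF

/-- Exactness of the complex `Hom_R(X,Y)` in degree `d` and sign `ε`. -/
def Ex (X Y : MF k) (d : ℤ) (ε : ℤˣ) : Prop :=
  ∀ g ∈ Deg k X.a Y.a d, Y.φ * g = ε • (g * X.φ) →
    ∃ h ∈ Deg k X.a Y.a (d - 21), g = Y.φ * h + ε • (h * X.φ)

theorem ex_tw {X Y : MF k} {d : ℤ} {ε : ℤˣ} (h : Ex X Y d ε) (e e' d' : ℤ) (η η' ε' : ℤˣ)
    (hd : d' + e' - e = d) (hε : η' * η * ε' = ε) : Ex (X.tw e η) (Y.tw e' η') d' ε' := by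
  intro g hg hc
  have hc' : η' • Y.φ * g = ε' • (g * η • X.φ) := hc
  obtain ⟨h, hh, hgh⟩ := h g (mem_Deg_congr hg fun i j => by simp; omega) (by
    subst hε
    rcases Int.units_eq_one_or η with rfl | rfl <;> rcases Int.units_eq_one_or η' with rfl | rfl <;>
      rcases Int.units_eq_one_or ε' with rfl | rfl <;> simpa [neg_eq_iff_eq_neg] using hc')
  refine ⟨η' • h, units_smul_mem_Deg _ (mem_Deg_congr hh fun i j => by simp; omega), ?_⟩
  change g = η' • Y.φ * η' • h + ε' • (η' • h * η • X.φ)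
  subst hε
  rcases Int.units_eq_one_or η with rfl | rfl <;> rcases Int.units_eq_one_or η' with rfl | rfl <;>
    rcases Int.units_eq_one_or ε' with rfl | rfl <;> simpa using hgh

theorem ex_of_tw {X Y : MF k} {d : ℤ} {ε : ℤˣ} (e e' d' : ℤ) (η η' ε' : ℤˣ)
    (h : Ex (X.tw e η) (Y.tw e' η') d' ε')
    (hd : d' + e' - e = d) (hε : η' * η * ε' = ε) : Ex X Y d ε := by
  intro g hg hc
  obtain ⟨h, hh, hgh⟩ := h g (mem_Deg_congr hg fun i j => by simp; omega) (by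
    change η' • Y.φ * g = ε' • (g * η • X.φ)
    subst hε
    rcases Int.units_eq_one_or η with rfl | rfl <;> rcases Int.units_eq_one_or η' with rfl | rfl <;>
      rcases Int.units_eq_one_or ε' with rfl | rfl <;> simpa [neg_eq_iff_eq_neg] using hc)
  refine ⟨η' • h, units_smul_mem_Deg _ (mem_Deg_congr hh fun i j => by simp; omega), ?_⟩
  have hgh' : g = η' • Y.φ * h + ε' • (h * η • X.φ) := hgh
  subst hε
  rcases Int.units_eq_one_or η with rfl | rfl <;> rcases Int.units_eq_one_or η' with rfl | rfl <;>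
    rcases Int.units_eq_one_or ε' with rfl | rfl <;> simpa using hgh'

/-- Saturation with respect to `(y,z)`. -/
def sat {ι : Type*} (N : Submodule (R k) (ι → R k)) : Submodule (R k) (ι → R k) where
  carrier := {v | ∃ n : ℕ, (yy : R k) ^ n • v ∈ N ∧ (zz : R k) ^ n • v ∈ N}
  add_mem' := by
    rintro v w ⟨n, h₁, h₂⟩ ⟨m, h₃, h₄⟩
    refine ⟨n + m, ?_, ?_⟩
    · rw [smul_add]
      exact add_mem (by rw [add_comm, pow_add, mul_smul]; exact N.smul_mem _ h₁)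
        (by rw [pow_add, mul_smul]; exact N.smul_mem _ h₃)
    · rw [smul_add]
      exact add_mem (by rw [add_comm, pow_add, mul_smul]; exact N.smul_mem _ h₂)
        (by rw [pow_add, mul_smul]; exact N.smul_mem _ h₄)
  zero_mem' := ⟨0, by simp⟩
  smul_mem' := by
    rintro r v ⟨n, h₁, h₂⟩
    exact ⟨n, by rw [smul_comm]; exact N.smul_mem _ h₁, by rw [smul_comm]; exact N.smul_mem _ h₂⟩

theorem mem_sat {ι : Type*} {N : Submodule (R k) (ι → R k)} {v : ι → R k} :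
    v ∈ sat N ↔ ∃ n : ℕ, (yy : R k) ^ n • v ∈ N ∧ (zz : R k) ^ n • v ∈ N := Iff.rfl

/-- Vectors supported on the generators of height `> n`. -/
def Egt {ι : Type*} (a : ι → ℤ) (n : ℤ) : Submodule (R k) (ι → R k) where
  carrier := {v | ∀ i, a i ≤ n → v i = 0}
  add_mem' hv hw i hi := by simp [hv i hi, hw i hi]
  zero_mem' _ _ := rfl
  smul_mem' r v hv i hi := by simp [hv i hi]

theorem mem_Egt {ι : Type*} {a : ι → ℤ} {n : ℤ} {v : ι → R k} :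
    v ∈ Egt a n ↔ ∀ i, a i ≤ n → v i = 0 := Iff.rfl

/-- The `S`-submodule generated by the generators of height `> n`. -/
noncomputable def Mgt (M : MF k) (n : ℤ) : Submodule (R k) (M.ι → R k) :=
  Egt M.a n ⊔ (Egt M.a n).map M.φ.mulVecLin

theorem mem_Mgt {M : MF k} {n : ℤ} {v : M.ι → R k} :
    v ∈ Mgt M n ↔ ∃ e ∈ Egt M.a n, ∃ e' ∈ Egt M.a n, v = e + M.φ *ᵥ e' := by
  rw [Mgt, Submodule.mem_sup]
  constructor
  · rintro ⟨e, he, _, ⟨e', he', rfl⟩, rfl⟩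
    exact ⟨e, he, e', he', rfl⟩
  · rintro ⟨e, he, e', he', rfl⟩
    exact ⟨e, he, _, ⟨e', he', rfl⟩, rfl⟩

/-- `M` is generated, up to finite length, by its generators of height `> n`. -/
def cU (n : ℤ) (M : MF k) : Prop := ∀ v, v ∈ sat (Mgt M n)

/-- The stable right orthogonal of `cU n`. -/
def cV (n : ℤ) (M : MF k) : Prop := ∀ Y : MF k, cU n Y → Ex Y M 0 1

def IsMin (M : MF k) : Prop := ∀ i j, constantCoeff (M.φ i j) = 0

/-- `+1` on `0 mod 42`, `-1` on `21 mod 42`, else `0`. -/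
def sg (e : ℤ) : ℤ := if e % 42 = 0 then 1 else if e % 42 = 21 then -1 else 0

/-- The number of generators of height `c`. -/
def gn (M : MF k) (c : ℤ) : ℤ := (Finset.univ.filter fun i => M.a i = c).card

end Pool.Agent.Work.MP_8b4bd2_al
end

-- merged part: Pool.Agent.Work.MP_8b4bd2_al.Hub6
section
-- merged part: Pool.Agent.Work.MP_8b4bd2_al.Abs
section
/-!
The abstract interfaces between the parts of the proof.
-/

set_option backward.isDefEq.respectTransparency false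
set_option backward.defeqAttrib.useBackward true

namespace Pool.Agent.Work.MP_8b4bd2_al

open CategoryTheory Limits Pretriangulated Triangulated

/-- A presentation of a pretriangulated category by matrix factorisations. -/
structure Model (k : Type*) [Field k] (T : Type*) [Category T] [Preadditive T] [HasShift T ℤ] where
  E : MF k ⥤ T
  additive : E.Additive
  full : E.Full
  essSurj : E.EssSurj
  zero_iff : ∀ {M N : MF k} (g : M ⟶ N), E.map g = 0 ↔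
    ∃ h ∈ Deg k M.a N.a (-21), MF.mat g = N.φ * h + h * M.φ
  sh : ∀ M : MF k, E.obj (M.tw 21 (-1)) ≅ (E.obj M)⟦(1 : ℤ)⟧
  sh_nat : ∀ {M N : MF k} (g : M ⟶ N),
    E.map (MF.twMap 21 (-1) g) ≫ (sh N).hom = (sh M).hom ≫ (E.map g)⟦(1 : ℤ)⟧'

/-- A slicing of period 21 with Serre shift 22 and the gap property. -/
structure Slicing (T : Type*) [Category T] [HasZeroObject T] [Preadditive T] [HasShift T ℤ]
    [∀ n : ℤ, (shiftFunctor T n).Additive] [Pretriangulated T] where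
  U : ℤ → ObjectProperty T
  iso : ∀ (n : ℤ) {X Y : T}, (X ≅ Y) → U n X → U n Y
  mono : ∀ (n : ℤ) (X : T), U (n + 1) X → U n X
  shift : ∀ (n : ℤ) (X : T), U n X ↔ U (n + 21) (X⟦(1 : ℤ)⟧)
  cut : ∀ (X : T) (n : ℤ), ∃ (A B : T) (f : A ⟶ X) (g : X ⟶ B) (h : B ⟶ A⟦(1 : ℤ)⟧),
    Triangle.mk f g h ∈ (distTriang T) ∧ U n A ∧ (U n).rightOrthogonal B
  bddU : ∀ X : T, ∃ n, U n X
  bddV : ∀ X : T, ∃ n, (U n).rightOrthogonal X
  serre : ∀ (a : ℤ) (X Y : T), (U a).rightOrthogonal X → U (a + 22) Y → ∀ f : X ⟶ Y, f = 0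
  star : ∀ (c : ℤ) (D : T), U (c - 1) D → (U c).rightOrthogonal D → ¬ IsZero D →
    ∃ δ : ℤ, 2 ≤ δ ∧ δ ≤ 20 ∧ ∀ X : T, U (c + δ - 1) X → (U (c + δ)).rightOrthogonal X →
      ¬ IsZero X → ∃ g : D ⟶ X, g ≠ 0

variable {T : Type*} [Category T] [HasZeroObject T] [Preadditive T] [HasShift T ℤ]
  [∀ n : ℤ, (shiftFunctor T n).Additive] [Pretriangulated T]

/-- A bounded t-structure whose heart has no `Hom(A, B[n])` for `n ≥ 2`. -/
structure Hered (t : TStructure T) : Prop where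
  bdd : ∀ X : T, t.bounded X
  van : ∀ A B : T, t.heart A → t.heart B → ∀ n : ℤ, 2 ≤ n → ∀ f : A ⟶ B⟦n⟧, f = 0

/-- A direct sum decomposition `X = X' ⊕ X''`. -/
structure Spl {C : Type*} [Category C] [Preadditive C] (X X' X'' : C) where
  i' : X' ⟶ X
  i'' : X'' ⟶ X
  p' : X ⟶ X'
  p'' : X ⟶ X''
  h₁₁ : i' ≫ p' = 𝟙 _
  h₂₂ : i'' ≫ p'' = 𝟙 _
  h₁₂ : i' ≫ p'' = 0
  h₂₁ : i'' ≫ p' = 0
  total : p' ≫ i' + p'' ≫ i'' = 𝟙 _

attribute [reassoc (attr := simp)] Spl.h₁₁ Spl.h₂₂ Spl.h₁₂ Spl.h₂₁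

/-- The image of a decomposition under an additive functor. -/
@[simps]
def Spl.map {C D : Type*} [Category C] [Preadditive C] [Category D] [Preadditive D] {X X' X'' : C}
    (s : Spl X X' X'') (F : C ⥤ D) [F.Additive] : Spl (F.obj X) (F.obj X') (F.obj X'') where
  i' := F.map s.i'
  i'' := F.map s.i''
  p' := F.map s.p'
  p'' := F.map s.p''
  h₁₁ := by simp [← F.map_comp]
  h₂₂ := by simp [← F.map_comp]
  h₁₂ := by simp [← F.map_comp]
  h₂₁ := by simp [← F.map_comp]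
  total := by rw [← F.map_comp, ← F.map_comp, ← F.map_add, s.total, F.map_id]

/-- The split triangle of a decomposition is distinguished. -/
theorem Spl.dist {X X' X'' : T} (s : Spl X X' X'') :
    Triangle.mk s.i'' s.p' 0 ∈ distTriang T := by
  refine isomorphic_distinguished _ (binaryBiproductTriangle_distinguished X'' X') _ ?_
  refine Triangle.isoMk _ _ (Iso.refl _)
    ⟨biprod.lift s.p'' s.p', biprod.desc s.i'' s.i', ?_, ?_⟩ (Iso.refl _) ?_ ?_ ?_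
  · dsimp; rw [biprod.lift_desc, add_comm, s.total]
  · dsimp; ext <;> simp
  · dsimp; ext <;> simp
  · simp
  · simp

end Pool.Agent.Work.MP_8b4bd2_al
end

-- merged part: Pool.Agent.Work.MP_8b4bd2_al.Hub1
section
/-!
The heart of a t-structure: short exact sequences and distinguished triangles.
Use `Mathlib/CategoryTheory/Triangulated/TStructure/AbelianSubcategory.lean`
(`abelian`, `exists_distinguished_triangle_of_epi`, `isLimitKernelForkOfDistTriang`,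
`isColimitCokernelCoforkOfDistTriang`) with `t.hasHeartFullSubcategory`; the heart has finite products
(it contains zero and is closed under extensions). `heart_δ_nat`: complete `(a,b)` to a morphism
of triangles with `c'`; `c' - ι c` factors through `A[1] → ι C'`, which is zero.
-/

set_option backward.isDefEq.respectTransparency false
set_option backward.defeqAttrib.useBackward true

namespace Pool.Agent.Work.MP_8b4bd2_al

open CategoryTheory Limits Pretriangulated Triangulated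

variable {T : Type*} [Category T] [HasZeroObject T] [Preadditive T] [HasShift T ℤ]
  [∀ n : ℤ, (shiftFunctor T n).Additive] [Pretriangulated T]
  (t : TStructure T)

section

variable {H : Type*} [Category H] [Preadditive H] [t.Heart H]

theorem heart_neg ⦃X Y : H⦄ ⦃n : ℤ⦄ (f : t.ιHeart.obj X ⟶ (t.ιHeart.obj Y)⟦n⟧) (hn : n < 0) :
    f = 0 :=
  t.zero_of_isLE_of_isGE f 0 (-n) (by lia) inferInstance (t.isGE_shift _ 0 n (-n) (by lia))

theorem hub1_exists {X : T} (h₁ : t.IsLE X 0) (h₂ : t.IsGE X 0) :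
    ∃ A : H, Nonempty (t.ιHeart.obj A ≅ X) := by
  have h : (t.ιHeart (H := H)).essImage X := by
    rw [t.essImage_ιHeart, t.mem_heart_iff]
    exact ⟨h₁, h₂⟩
  exact h

theorem heart_admissible : AbelianSubcategory.admissibleMorphism (t.ιHeart (H := H)) = ⊤ := by
  ext A B f
  refine ⟨fun _ => trivial, fun _ X₃ f₂ f₃ hT => ?_⟩
  have hA₁ : t.IsLE ((t.ιHeart.obj A)⟦(1 : ℤ)⟧) (-1) := t.isLE_shift _ 0 1 (-1) (by lia)
  have hA₂ : t.IsGE ((t.ιHeart.obj A)⟦(1 : ℤ)⟧) (-1) := t.isGE_shift _ 0 1 (-1) (by lia)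
  have h₁ : t.IsLE X₃ 0 := t.isLE₂ _ (rot_of_distTriang _ hT) 0
    (inferInstanceAs (t.IsLE (t.ιHeart.obj B) 0))
    (t.isLE_of_le ((t.ιHeart.obj A)⟦(1 : ℤ)⟧) (-1) 0 (by lia))
  have h₂ : t.IsGE X₃ (-1) := t.isGE₂ _ (rot_of_distTriang _ hT) (-1)
    (t.isGE_of_ge (t.ιHeart.obj B) (-1) 0 (by lia)) hA₂
  obtain ⟨X, Y, hX, hY, α, β, γ, hT'⟩ := t.exists_triangle X₃ (-1) 0 (by lia)
  have hX₁ : t.IsLE X (-1) := ⟨hX⟩
  have hY₂ : t.IsGE Y 0 := ⟨hY⟩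
  have hY₁ : t.IsLE Y 0 := by
    have := t.isLE_shift X (-1) 1 (-2) (by lia)
    exact t.isLE₂ _ (rot_of_distTriang _ hT') 0 h₁ (t.isLE_of_le (X⟦(1 : ℤ)⟧) (-2) 0 (by lia))
  have hX₂ : t.IsGE X (-1) := by
    have := t.isGE_shift Y 0 (-1) 1 (by lia)
    exact t.isGE₂ _ (inv_rot_of_distTriang _ hT') (-1)
      (t.isGE_of_ge (Y⟦(-1 : ℤ)⟧) (-1) 1 (by lia)) h₂
  obtain ⟨K, ⟨eK⟩⟩ := hub1_exists t (H := H) (t.isLE_shift X (-1) (-1) 0 (by lia))
    (t.isGE_shift X (-1) (-1) 0 (by lia))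
  obtain ⟨Q, ⟨eQ⟩⟩ := hub1_exists t (H := H) hY₁ hY₂
  let e : (t.ιHeart.obj K)⟦(1 : ℤ)⟧ ≅ X :=
    (shiftFunctor T (1 : ℤ)).mapIso eK ≪≫ (shiftEquiv T (1 : ℤ)).counitIso.app X
  refine ⟨K, Q, e.hom ≫ α, β ≫ eQ.inv, eQ.hom ≫ γ ≫ e.inv⟦(1 : ℤ)⟧', ?_⟩
  refine isomorphic_distinguished _ hT' _ (Triangle.isoMk _ _ e (Iso.refl _) eQ ?_ ?_ ?_)
  · simp
  · simp
  · simp [← Functor.map_comp]

theorem heart_exists_ses {A C : H} (ξ : t.ιHeart.obj C ⟶ (t.ιHeart.obj A)⟦(1 : ℤ)⟧) :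
    ∃ (B : H) (f : A ⟶ B) (g : B ⟶ C),
      Triangle.mk (t.ιHeart.map f) (t.ιHeart.map g) ξ ∈ distTriang T := by
  obtain ⟨Y, f, g, hT⟩ := distinguished_cocone_triangle₂ ξ
  obtain ⟨B, ⟨e⟩⟩ := hub1_exists t (H := H)
    (t.isLE₂ _ hT 0 (inferInstanceAs (t.IsLE (t.ιHeart.obj A) 0))
      (inferInstanceAs (t.IsLE (t.ιHeart.obj C) 0)))
    (t.isGE₂ _ hT 0 (inferInstanceAs (t.IsGE (t.ιHeart.obj A) 0))
      (inferInstanceAs (t.IsGE (t.ιHeart.obj C) 0)))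
  refine ⟨B, t.ιHeart.preimage (f ≫ e.inv), t.ιHeart.preimage (e.hom ≫ g), ?_⟩
  refine isomorphic_distinguished _ hT _ (Triangle.isoMk _ _ (Iso.refl _) e (Iso.refl _) ?_ ?_ ?_)
  · simp
  · simp
  · simp

theorem heart_δ_nat {A B C A' B' C' : H} {f : A ⟶ B} {g : B ⟶ C} {f' : A' ⟶ B'} {g' : B' ⟶ C'}
    {ξ : t.ιHeart.obj C ⟶ (t.ιHeart.obj A)⟦(1 : ℤ)⟧}
    {ξ' : t.ιHeart.obj C' ⟶ (t.ιHeart.obj A')⟦(1 : ℤ)⟧}
    (h : Triangle.mk (t.ιHeart.map f) (t.ιHeart.map g) ξ ∈ distTriang T)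
    (h' : Triangle.mk (t.ιHeart.map f') (t.ιHeart.map g') ξ' ∈ distTriang T)
    (a : A ⟶ A') (b : B ⟶ B') (c : C ⟶ C') (h₁ : f ≫ b = a ≫ f') (h₂ : g ≫ c = b ≫ g') :
    t.ιHeart.map c ≫ ξ' = ξ ≫ (t.ιHeart.map a)⟦(1 : ℤ)⟧' := by
  obtain ⟨c', hc₁, hc₂⟩ := complete_distinguished_triangle_morphism _ _ h h' (t.ιHeart.map a)
    (t.ιHeart.map b) (by dsimp; rw [← Functor.map_comp, h₁, Functor.map_comp])
  dsimp at c' hc₁ hc₂
  obtain ⟨l, hl⟩ := Triangle.yoneda_exact₃ _ h (c' - t.ιHeart.map c) (by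
    dsimp
    rw [Preadditive.comp_sub, hc₁, ← Functor.map_comp, ← Functor.map_comp, h₂, sub_self])
  rw [AbelianSubcategory.eq_zero_of_hom_shift_pos (heart_neg t) l (by lia), comp_zero,
    sub_eq_zero] at hl
  rw [hc₂, hl]

theorem heart_complete {A B C A' B' C' : H} {f : A ⟶ B} {g : B ⟶ C} {f' : A' ⟶ B'} {g' : B' ⟶ C'}
    {ξ : t.ιHeart.obj C ⟶ (t.ιHeart.obj A)⟦(1 : ℤ)⟧}
    {ξ' : t.ιHeart.obj C' ⟶ (t.ιHeart.obj A')⟦(1 : ℤ)⟧}
    (h : Triangle.mk (t.ιHeart.map f) (t.ιHeart.map g) ξ ∈ distTriang T)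
    (h' : Triangle.mk (t.ιHeart.map f') (t.ιHeart.map g') ξ' ∈ distTriang T)
    (a : A ⟶ A') (c : C ⟶ C') (hc : t.ιHeart.map c ≫ ξ' = ξ ≫ (t.ιHeart.map a)⟦(1 : ℤ)⟧') :
    ∃ b : B ⟶ B', f ≫ b = a ≫ f' ∧ g ≫ c = b ≫ g' := by
  obtain ⟨b, hb₁, hb₂⟩ := complete_distinguished_triangle_morphism₂ _ _ h h' (t.ιHeart.map a)
    (t.ιHeart.map c) hc.symm
  dsimp at b hb₁ hb₂
  refine ⟨t.ιHeart.preimage b, t.ιHeart.map_injective ?_, t.ιHeart.map_injective ?_⟩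
  · rw [Functor.map_comp, Functor.map_comp, Functor.map_preimage, hb₁]
  · rw [Functor.map_comp, Functor.map_comp, Functor.map_preimage, hb₂]

end

theorem hub1_products : HasFiniteProducts t.heart.FullSubcategory := by
  have : t.heart.ContainsZero := ⟨_, isZero_zero T, by
    rw [t.mem_heart_iff]
    exact ⟨t.isLE_of_isZero (isZero_zero T) 0, t.isGE_of_isZero (isZero_zero T) 0⟩⟩
  have : t.heart.IsTriangulatedClosed₂ := .mk' fun S hS h₁ h₃ => by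
    rw [t.mem_heart_iff] at h₁ h₃ ⊢
    exact ⟨t.isLE₂ S hS 0 h₁.1 h₃.1, t.isGE₂ S hS 0 h₁.2 h₃.2⟩
  have : t.heart.IsClosedUnderBinaryProducts := ⟨by
    rintro X ⟨p⟩
    refine t.heart.prop_of_iso ?_ (t.heart.ext_of_isTriangulatedClosed₂ _
      (binaryProductTriangle_distinguished _ _)
      (p.prop_diag_obj (.mk .left)) (p.prop_diag_obj (.mk .right)))
    exact IsLimit.conePointUniqueUpToIso (prodIsProd _ _)
      ((IsLimit.postcomposeHomEquiv (diagramIsoPair p.diag) _).2 p.isLimit)⟩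
  have : t.heart.IsClosedUnderFiniteProducts := .mk'
  infer_instance

/-- The heart is abelian. -/
@[reducible]
noncomputable def heartAbelian [IsTriangulated T] : Abelian t.heart.FullSubcategory :=
  letI := t.hasHeartFullSubcategory
  haveI := hub1_products t
  AbelianSubcategory.abelian t.ιHeart (heart_neg t) (heart_admissible t)

theorem heartAbelian_preadditive [IsTriangulated T] :
    (heartAbelian t).toPreadditive = inferInstanceAs (Preadditive t.heart.FullSubcategory) := rfl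

variable {H : Type*} [Category H] [Abelian H] [t.Heart H]

theorem heart_shortExact {A B C : H} {f : A ⟶ B} {g : B ⟶ C}
    {ξ : t.ιHeart.obj C ⟶ (t.ιHeart.obj A)⟦(1 : ℤ)⟧}
    (h : Triangle.mk (t.ιHeart.map f) (t.ιHeart.map g) ξ ∈ distTriang T) :
    ∃ w : f ≫ g = 0, (ShortComplex.mk f g w).ShortExact := by
  have h₁ := AbelianSubcategory.isLimitKernelForkOfDistTriang (heart_neg t) f g ξ h
  have h₂ := AbelianSubcategory.isColimitCokernelCoforkOfDistTriang (heart_neg t) f g ξ h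
  have w : f ≫ g = 0 := t.ιHeart.map_injective (by
    rw [Functor.map_comp, Functor.map_zero]
    exact comp_distTriang_mor_zero₁₂ _ h)
  refine ⟨w, ShortComplex.ShortExact.mk' (ShortComplex.exact_of_f_is_kernel _ h₁) ?_ ?_⟩
  · exact mono_of_isLimit_fork h₁
  · exact epi_of_isColimit_cofork h₂

theorem heart_exists_δ {S : ShortComplex H} (hS : S.ShortExact) :
    ∃ ξ, Triangle.mk (t.ιHeart.map S.f) (t.ιHeart.map S.g) ξ ∈ distTriang T := by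
  have := hS.epi_g
  obtain ⟨K, i, δ, hT⟩ := AbelianSubcategory.exists_distinguished_triangle_of_epi (heart_neg t)
    (heart_admissible t) S.g
  have h₁ := AbelianSubcategory.isLimitKernelForkOfDistTriang (heart_neg t) i S.g δ hT
  let e : S.X₁ ≅ K := IsLimit.conePointUniqueUpToIso hS.fIsKernel h₁
  have he : e.hom ≫ i = S.f :=
    IsLimit.conePointUniqueUpToIso_hom_comp hS.fIsKernel h₁ WalkingParallelPair.zero
  refine ⟨δ ≫ (t.ιHeart.map e.inv)⟦(1 : ℤ)⟧', isomorphic_distinguished _ hT _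
    (Triangle.isoMk _ _ (t.ιHeart.mapIso e) (Iso.refl _) (Iso.refl _) ?_ ?_ ?_)⟩
  · simp [← he]
  · simp
  · simp [← Functor.map_comp]

end Pool.Agent.Work.MP_8b4bd2_al
end

-- merged part: Pool.Agent.Work.MP_8b4bd2_al.Hub2
section
/-!
Two t-structures with the same heart have the same `Hom(C, A[1])`.
`Rel ξ₁ ξ₂` iff there are `f, g` in `H` with both triangles distinguished. Total on both sides
(`heart_exists_ses`, `heart_shortExact`, `heart_exists_δ`). If `Rel ξ₁ ξ₂`, `Rel ξ₁' ξ₂'` and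
`ι₂ c ≫ ξ₂' = ξ₂ ≫ ι₂ a[1]` then the same holds on side 1 (`heart_complete`, `heart_δ_nat`), and
symmetrically; this gives uniqueness and naturality. Additivity: `η = ξ ≫ inl[1] + ξ' ≫ inr[1]`
into `A ⊞ A`, apply `post` to `fst`, `snd`, `fst + snd`.
-/

set_option backward.isDefEq.respectTransparency false
set_option backward.defeqAttrib.useBackward true

namespace Pool.Agent.Work.MP_8b4bd2_al

open CategoryTheory Limits Pretriangulated Triangulated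

variable {T₁ : Type*} [Category T₁] [HasZeroObject T₁] [Preadditive T₁] [HasShift T₁ ℤ]
  [∀ n : ℤ, (shiftFunctor T₁ n).Additive] [Pretriangulated T₁]
  {T₂ : Type*} [Category T₂] [HasZeroObject T₂] [Preadditive T₂] [HasShift T₂ ℤ]
  [∀ n : ℤ, (shiftFunctor T₂ n).Additive] [Pretriangulated T₂]
  (t₁ : TStructure T₁) (t₂ : TStructure T₂)
  (H : Type*) [Category H] [Abelian H] [t₁.Heart H] [t₂.Heart H]

structure Eps where
  e : ∀ C A : H, (t₂.ιHeart.obj C ⟶ (t₂.ιHeart.obj A)⟦(1 : ℤ)⟧) ≃+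
    (t₁.ιHeart.obj C ⟶ (t₁.ιHeart.obj A)⟦(1 : ℤ)⟧)
  pre : ∀ {C' C A : H} (c : C' ⟶ C) (ξ : t₂.ιHeart.obj C ⟶ (t₂.ιHeart.obj A)⟦(1 : ℤ)⟧),
    e _ _ (t₂.ιHeart.map c ≫ ξ) = t₁.ιHeart.map c ≫ e _ _ ξ
  post : ∀ {C A A' : H} (a : A ⟶ A') (ξ : t₂.ιHeart.obj C ⟶ (t₂.ιHeart.obj A)⟦(1 : ℤ)⟧),
    e _ _ (ξ ≫ (t₂.ιHeart.map a)⟦(1 : ℤ)⟧') = e _ _ ξ ≫ (t₁.ιHeart.map a)⟦(1 : ℤ)⟧'
  dist : ∀ {A B C : H} (f : A ⟶ B) (g : B ⟶ C) (ξ : t₂.ιHeart.obj C ⟶ (t₂.ιHeart.obj A)⟦(1 : ℤ)⟧),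
    Triangle.mk (t₂.ιHeart.map f) (t₂.ιHeart.map g) ξ ∈ (distTriang T₂) →
      Triangle.mk (t₁.ιHeart.map f) (t₁.ιHeart.map g) (e _ _ ξ) ∈ distTriang T₁

variable {H}

/-- The two classes come from the same short exact sequence. -/
def Hub2Rel {C A : H} (ξ₁ : t₁.ιHeart.obj C ⟶ (t₁.ιHeart.obj A)⟦(1 : ℤ)⟧)
    (ξ₂ : t₂.ιHeart.obj C ⟶ (t₂.ιHeart.obj A)⟦(1 : ℤ)⟧) : Prop :=
  ∃ (B : H) (f : A ⟶ B) (g : B ⟶ C),
    Triangle.mk (t₁.ιHeart.map f) (t₁.ιHeart.map g) ξ₁ ∈ (distTriang T₁) ∧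
      Triangle.mk (t₂.ιHeart.map f) (t₂.ιHeart.map g) ξ₂ ∈ distTriang T₂

theorem hub2_symm {C A : H} {ξ₁ : t₁.ιHeart.obj C ⟶ (t₁.ιHeart.obj A)⟦(1 : ℤ)⟧}
    {ξ₂ : t₂.ιHeart.obj C ⟶ (t₂.ιHeart.obj A)⟦(1 : ℤ)⟧} (h : Hub2Rel t₁ t₂ ξ₁ ξ₂) :
    Hub2Rel t₂ t₁ ξ₂ ξ₁ := by
  obtain ⟨B, f, g, h₁, h₂⟩ := h
  exact ⟨B, f, g, h₂, h₁⟩

theorem hub2_of_dist {A B C : H} {f : A ⟶ B} {g : B ⟶ C}
    {ξ₂ : t₂.ιHeart.obj C ⟶ (t₂.ιHeart.obj A)⟦(1 : ℤ)⟧}
    (h : Triangle.mk (t₂.ιHeart.map f) (t₂.ιHeart.map g) ξ₂ ∈ distTriang T₂) :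
    ∃ ξ₁, Triangle.mk (t₁.ιHeart.map f) (t₁.ιHeart.map g) ξ₁ ∈ distTriang T₁ := by
  obtain ⟨w, hw⟩ := heart_shortExact t₂ h
  exact heart_exists_δ t₁ hw

theorem hub2_total {C A : H} (ξ₂ : t₂.ιHeart.obj C ⟶ (t₂.ιHeart.obj A)⟦(1 : ℤ)⟧) :
    ∃ ξ₁, Hub2Rel t₁ t₂ ξ₁ ξ₂ := by
  obtain ⟨B, f, g, h⟩ := heart_exists_ses t₂ ξ₂
  obtain ⟨ξ₁, h₁⟩ := hub2_of_dist t₁ t₂ h
  exact ⟨ξ₁, B, f, g, h₁, h⟩

theorem hub2_nat {C A C' A' : H} {ξ₁ : t₁.ιHeart.obj C ⟶ (t₁.ιHeart.obj A)⟦(1 : ℤ)⟧}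
    {ξ₂ : t₂.ιHeart.obj C ⟶ (t₂.ιHeart.obj A)⟦(1 : ℤ)⟧}
    {ξ₁' : t₁.ιHeart.obj C' ⟶ (t₁.ιHeart.obj A')⟦(1 : ℤ)⟧}
    {ξ₂' : t₂.ιHeart.obj C' ⟶ (t₂.ιHeart.obj A')⟦(1 : ℤ)⟧}
    (h : Hub2Rel t₁ t₂ ξ₁ ξ₂) (h' : Hub2Rel t₁ t₂ ξ₁' ξ₂') (a : A ⟶ A') (c : C ⟶ C')
    (hc : t₂.ιHeart.map c ≫ ξ₂' = ξ₂ ≫ (t₂.ιHeart.map a)⟦(1 : ℤ)⟧') :
    t₁.ιHeart.map c ≫ ξ₁' = ξ₁ ≫ (t₁.ιHeart.map a)⟦(1 : ℤ)⟧' := by
  obtain ⟨B, f, g, h₁, h₂⟩ := h
  obtain ⟨B', f', g', h₁', h₂'⟩ := h'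
  obtain ⟨b, hb₁, hb₂⟩ := heart_complete t₂ h₂ h₂' a c hc
  exact heart_δ_nat t₁ h₁ h₁' a b c hb₁ hb₂

theorem hub2_uniq {C A : H} {ξ₁ ξ₁' : t₁.ιHeart.obj C ⟶ (t₁.ιHeart.obj A)⟦(1 : ℤ)⟧}
    {ξ₂ : t₂.ιHeart.obj C ⟶ (t₂.ιHeart.obj A)⟦(1 : ℤ)⟧}
    (h : Hub2Rel t₁ t₂ ξ₁ ξ₂) (h' : Hub2Rel t₁ t₂ ξ₁' ξ₂) : ξ₁ = ξ₁' := by
  simpa using (hub2_nat t₁ t₂ h h' (𝟙 A) (𝟙 C) (by simp)).symm

/-- The partner of a class. -/
noncomputable def hub2Map {C A : H} (ξ₂ : t₂.ιHeart.obj C ⟶ (t₂.ιHeart.obj A)⟦(1 : ℤ)⟧) :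
    t₁.ιHeart.obj C ⟶ (t₁.ιHeart.obj A)⟦(1 : ℤ)⟧ := (hub2_total t₁ t₂ ξ₂).choose

theorem hub2Map_spec {C A : H} (ξ₂ : t₂.ιHeart.obj C ⟶ (t₂.ιHeart.obj A)⟦(1 : ℤ)⟧) :
    Hub2Rel t₁ t₂ (hub2Map t₁ t₂ ξ₂) ξ₂ := (hub2_total t₁ t₂ ξ₂).choose_spec

theorem hub2Map_inv {C A : H} (ξ₂ : t₂.ιHeart.obj C ⟶ (t₂.ιHeart.obj A)⟦(1 : ℤ)⟧) :
    hub2Map t₂ t₁ (hub2Map t₁ t₂ ξ₂) = ξ₂ :=
  hub2_uniq t₂ t₁ (hub2Map_spec t₂ t₁ _) (hub2_symm t₁ t₂ (hub2Map_spec t₁ t₂ ξ₂))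

theorem hub2Map_pre {C' C A : H} (c : C' ⟶ C)
    (ξ : t₂.ιHeart.obj C ⟶ (t₂.ιHeart.obj A)⟦(1 : ℤ)⟧) :
    hub2Map t₁ t₂ (t₂.ιHeart.map c ≫ ξ) = t₁.ιHeart.map c ≫ hub2Map t₁ t₂ ξ := by
  simpa using (hub2_nat t₁ t₂ (hub2Map_spec t₁ t₂ (t₂.ιHeart.map c ≫ ξ)) (hub2Map_spec t₁ t₂ ξ)
    (𝟙 A) c (by simp)).symm

theorem hub2Map_post {C A A' : H} (a : A ⟶ A')
    (ξ : t₂.ιHeart.obj C ⟶ (t₂.ιHeart.obj A)⟦(1 : ℤ)⟧) :
    hub2Map t₁ t₂ (ξ ≫ (t₂.ιHeart.map a)⟦(1 : ℤ)⟧') =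
      hub2Map t₁ t₂ ξ ≫ (t₁.ιHeart.map a)⟦(1 : ℤ)⟧' := by
  simpa using hub2_nat t₁ t₂ (hub2Map_spec t₁ t₂ ξ)
    (hub2Map_spec t₁ t₂ (ξ ≫ (t₂.ιHeart.map a)⟦(1 : ℤ)⟧')) a (𝟙 C) (by simp)

theorem hub2Map_add {C A : H} (ξ ξ' : t₂.ιHeart.obj C ⟶ (t₂.ιHeart.obj A)⟦(1 : ℤ)⟧) :
    hub2Map t₁ t₂ (ξ + ξ') = hub2Map t₁ t₂ ξ + hub2Map t₁ t₂ ξ' := by
  let η : t₂.ιHeart.obj C ⟶ (t₂.ιHeart.obj (A ⊞ A))⟦(1 : ℤ)⟧ :=
    ξ ≫ (t₂.ιHeart.map biprod.inl)⟦(1 : ℤ)⟧' + ξ' ≫ (t₂.ιHeart.map biprod.inr)⟦(1 : ℤ)⟧'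
  have h₁ : η ≫ (t₂.ιHeart.map (biprod.fst : A ⊞ A ⟶ A))⟦(1 : ℤ)⟧' = ξ := by
    simp [η, ← Functor.map_comp]
  have h₂ : η ≫ (t₂.ιHeart.map (biprod.snd : A ⊞ A ⟶ A))⟦(1 : ℤ)⟧' = ξ' := by
    simp [η, ← Functor.map_comp]
  have h₃ : η ≫ (t₂.ιHeart.map (biprod.fst + biprod.snd : A ⊞ A ⟶ A))⟦(1 : ℤ)⟧' = ξ + ξ' := by
    rw [Functor.map_add, Functor.map_add, Preadditive.comp_add, h₁, h₂]
  rw [← h₃, hub2Map_post, Functor.map_add, Functor.map_add, Preadditive.comp_add,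
    ← hub2Map_post, ← hub2Map_post, h₁, h₂]

variable (H)

theorem exists_eps : Nonempty (Eps t₁ t₂ H) :=
  ⟨{ e := fun _ _ =>
      { toFun := hub2Map t₁ t₂
        invFun := hub2Map t₂ t₁
        left_inv := hub2Map_inv t₁ t₂
        right_inv := hub2Map_inv t₂ t₁
        map_add' := hub2Map_add t₁ t₂ }
     pre := hub2Map_pre t₁ t₂
     post := hub2Map_post t₁ t₂
     dist := fun f g ξ h => by
      obtain ⟨ξ₁, h₁⟩ := hub2_of_dist t₁ t₂ h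
      have e : hub2Map t₁ t₂ ξ = ξ₁ :=
        hub2_uniq t₁ t₂ (hub2Map_spec t₁ t₂ ξ) ⟨_, f, g, h₁, h⟩
      rw [← e] at h₁
      exact h₁ }⟩

end Pool.Agent.Work.MP_8b4bd2_al
end

-- merged part: Pool.Agent.Work.MP_8b4bd2_al.Hub4
section
/-!
A correspondence between two categories with shift gives an equivalence commuting with shifts.
Choose `d X : M (Φ X) X`; `Φ f` is the partner of `f`. `commShiftIso n` at `X` is the partner of
`𝟙 (X⟦n⟧)` for the pair `d (X⟦n⟧)`, `sh (d X) n`. Every identity is checked with `uniq₁`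
(`Functor.CommShift.isoZero_hom_app`, `isoAdd_hom_app`; inverses of related isomorphisms are related).
-/

set_option backward.isDefEq.respectTransparency false
set_option backward.defeqAttrib.useBackward true

namespace Pool.Agent.Work.MP_8b4bd2_al

open CategoryTheory Limits Pretriangulated Triangulated

universe w

variable (T₁ : Type*) [Category T₁] [Preadditive T₁] [HasShift T₁ ℤ]
  (T₂ : Type*) [Category T₂] [Preadditive T₂] [HasShift T₂ ℤ]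

structure Corr where
  M : T₁ → T₂ → Type w
  Rel : ∀ {X₁ Y₁ : T₁} {X₂ Y₂ : T₂}, M X₁ X₂ → M Y₁ Y₂ → (X₁ ⟶ Y₁) → (X₂ ⟶ Y₂) → Prop
  ex₁ : ∀ {X₁ Y₁ : T₁} {X₂ Y₂ : T₂} (d : M X₁ X₂) (e : M Y₁ Y₂) (f₂ : X₂ ⟶ Y₂), ∃ f₁, Rel d e f₁ f₂
  ex₂ : ∀ {X₁ Y₁ : T₁} {X₂ Y₂ : T₂} (d : M X₁ X₂) (e : M Y₁ Y₂) (f₁ : X₁ ⟶ Y₁), ∃ f₂, Rel d e f₁ f₂
  uniq₁ : ∀ {X₁ Y₁ : T₁} {X₂ Y₂ : T₂} {d : M X₁ X₂} {e : M Y₁ Y₂} {f₁ f₁' : X₁ ⟶ Y₁} {f₂ : X₂ ⟶ Y₂},
    Rel d e f₁ f₂ → Rel d e f₁' f₂ → f₁ = f₁'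
  uniq₂ : ∀ {X₁ Y₁ : T₁} {X₂ Y₂ : T₂} {d : M X₁ X₂} {e : M Y₁ Y₂} {f₁ : X₁ ⟶ Y₁} {f₂ f₂' : X₂ ⟶ Y₂},
    Rel d e f₁ f₂ → Rel d e f₁ f₂' → f₂ = f₂'
  rel_id : ∀ {X₁ : T₁} {X₂ : T₂} (d : M X₁ X₂), Rel d d (𝟙 _) (𝟙 _)
  rel_comp : ∀ {X₁ Y₁ Z₁ : T₁} {X₂ Y₂ Z₂ : T₂} {d : M X₁ X₂} {e : M Y₁ Y₂} {c : M Z₁ Z₂}
    {f₁ : X₁ ⟶ Y₁} {f₂ : X₂ ⟶ Y₂} {g₁ : Y₁ ⟶ Z₁} {g₂ : Y₂ ⟶ Z₂},
    Rel d e f₁ f₂ → Rel e c g₁ g₂ → Rel d c (f₁ ≫ g₁) (f₂ ≫ g₂)
  rel_add : ∀ {X₁ Y₁ : T₁} {X₂ Y₂ : T₂} {d : M X₁ X₂} {e : M Y₁ Y₂} {f₁ g₁ : X₁ ⟶ Y₁}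
    {f₂ g₂ : X₂ ⟶ Y₂}, Rel d e f₁ f₂ → Rel d e g₁ g₂ → Rel d e (f₁ + g₁) (f₂ + g₂)
  surj₁ : ∀ X₁ : T₁, ∃ X₂, Nonempty (M X₁ X₂)
  surj₂ : ∀ X₂ : T₂, ∃ X₁, Nonempty (M X₁ X₂)
  sh : ∀ {X₁ : T₁} {X₂ : T₂}, M X₁ X₂ → ∀ n : ℤ, M (X₁⟦n⟧) (X₂⟦n⟧)
  rel_sh : ∀ {X₁ Y₁ : T₁} {X₂ Y₂ : T₂} {d : M X₁ X₂} {e : M Y₁ Y₂} {f₁ : X₁ ⟶ Y₁} {f₂ : X₂ ⟶ Y₂}
    (n : ℤ), Rel d e f₁ f₂ → Rel (sh d n) (sh e n) (f₁⟦n⟧') (f₂⟦n⟧')
  rel_zero : ∀ {X₁ : T₁} {X₂ : T₂} (d : M X₁ X₂), Rel (sh d 0) d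
    ((shiftFunctorZero T₁ ℤ).hom.app X₁) ((shiftFunctorZero T₂ ℤ).hom.app X₂)
  rel_shiftAdd : ∀ {X₁ : T₁} {X₂ : T₂} (d : M X₁ X₂) (a b : ℤ), Rel (sh d (a + b)) (sh (sh d a) b)
    ((shiftFunctorAdd T₁ a b).hom.app X₁) ((shiftFunctorAdd T₂ a b).hom.app X₂)

variable {T₁ T₂}

namespace Corr

variable (c : Corr.{w} T₁ T₂)

/-- the chosen partner of an object -/
noncomputable def h4o (X : T₂) : T₁ := (c.surj₂ X).choose

/-- the chosen matching -/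
noncomputable def h4d (X : T₂) : c.M (c.h4o X) X := (c.surj₂ X).choose_spec.some

/-- the partner of a morphism -/
noncomputable def h4p {X₁ Y₁ : T₁} {X₂ Y₂ : T₂} (d : c.M X₁ X₂) (e : c.M Y₁ Y₂) (f : X₂ ⟶ Y₂) :
    X₁ ⟶ Y₁ := (c.ex₁ d e f).choose

lemma h4p_rel {X₁ Y₁ : T₁} {X₂ Y₂ : T₂} (d : c.M X₁ X₂) (e : c.M Y₁ Y₂) (f : X₂ ⟶ Y₂) :
    c.Rel d e (c.h4p d e f) f := (c.ex₁ d e f).choose_spec

lemma h4cast {X₁ Y₁ : T₁} {X₂ Y₂ : T₂} {d : c.M X₁ X₂} {e : c.M Y₁ Y₂} {f₁ : X₁ ⟶ Y₁}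
    {f₂ f₂' : X₂ ⟶ Y₂} (h : c.Rel d e f₁ f₂) (h' : f₂ = f₂') : c.Rel d e f₁ f₂' := h' ▸ h

lemma h4inv {X₁ Y₁ : T₁} {X₂ Y₂ : T₂} {d : c.M X₁ X₂} {e : c.M Y₁ Y₂} (f₁ : X₁ ≅ Y₁)
    (f₂ : X₂ ≅ Y₂) (h : c.Rel d e f₁.hom f₂.hom) : c.Rel e d f₁.inv f₂.inv := by
  have h1 := c.h4p_rel e d f₂.inv
  have h2 := c.uniq₁ (c.h4cast (c.rel_comp h h1) f₂.hom_inv_id) (c.rel_id d)
  have h3 : c.h4p e d f₂.inv = f₁.inv := by
    rw [← cancel_epi f₁.hom, h2, f₁.hom_inv_id]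
  exact h3 ▸ h1

/-- two partners of the same object are isomorphic -/
noncomputable def h4iso {X₁ Y₁ : T₁} {X : T₂} (d : c.M X₁ X) (e : c.M Y₁ X) : X₁ ≅ Y₁ where
  hom := c.h4p d e (𝟙 X)
  inv := c.h4p e d (𝟙 X)
  hom_inv_id := c.uniq₁ (c.h4cast (c.rel_comp (c.h4p_rel d e _) (c.h4p_rel e d _))
    (Category.id_comp _)) (c.rel_id d)
  inv_hom_id := c.uniq₁ (c.h4cast (c.rel_comp (c.h4p_rel e d _) (c.h4p_rel d e _))
    (Category.id_comp _)) (c.rel_id e)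

lemma h4iso_rel {X₁ Y₁ : T₁} {X : T₂} (d : c.M X₁ X) (e : c.M Y₁ X) :
    c.Rel d e (c.h4iso d e).hom (𝟙 X) := c.h4p_rel d e _

/-- the functor -/
noncomputable def h4F : T₂ ⥤ T₁ where
  obj := c.h4o
  map f := c.h4p (c.h4d _) (c.h4d _) f
  map_id X := c.uniq₁ (c.h4p_rel _ _ _) (c.rel_id (c.h4d X))
  map_comp f g := c.uniq₁ (c.h4p_rel _ _ _) (c.rel_comp (c.h4p_rel _ _ f) (c.h4p_rel _ _ g))

lemma h4F_rel {X Y : T₂} (f : X ⟶ Y) : c.Rel (c.h4d X) (c.h4d Y) (c.h4F.map f) f :=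
  c.h4p_rel _ _ f

/-- the commutation with the shifts -/
noncomputable def h4sh (n : ℤ) : shiftFunctor T₂ n ⋙ c.h4F ≅ c.h4F ⋙ shiftFunctor T₁ n :=
  NatIso.ofComponents (fun X => c.h4iso (c.h4d (X⟦n⟧)) (c.sh (c.h4d X) n)) fun {X Y} f =>
    c.uniq₁ (c.rel_comp (c.h4F_rel (f⟦n⟧')) (c.h4iso_rel _ (c.sh (c.h4d Y) n)))
      (c.h4cast (c.rel_comp (c.h4iso_rel _ (c.sh (c.h4d X) n)) (c.rel_sh n (c.h4F_rel f)))
        (by rw [Category.id_comp, Category.comp_id]))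

lemma h4sh_rel (n : ℤ) (X : T₂) :
    c.Rel (c.h4d (X⟦n⟧)) (c.sh (c.h4d X) n) ((c.h4sh n).hom.app X) (𝟙 _) := c.h4iso_rel _ _

/-- the coherence conditions -/
@[reducible] noncomputable def h4cs : c.h4F.CommShift ℤ where
  commShiftIso := c.h4sh
  commShiftIso_zero := by
    ext X
    rw [Functor.CommShift.isoZero_hom_app]
    refine c.uniq₁ (c.h4sh_rel 0 X) (c.h4cast (c.rel_comp (c.h4F_rel _)
      (c.h4inv ((shiftFunctorZero T₁ ℤ).app _) ((shiftFunctorZero T₂ ℤ).app X)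
        (c.rel_zero (c.h4d X)))) ?_)
    exact (shiftFunctorZero T₂ ℤ).hom_inv_id_app X
  commShiftIso_add a b := by
    ext X
    rw [Functor.CommShift.isoAdd_hom_app]
    refine c.uniq₁ (c.h4sh_rel (a + b) X) (c.h4cast (c.rel_comp (c.h4F_rel _)
      (c.rel_comp (c.h4sh_rel b _) (c.rel_comp (c.rel_sh b (c.h4sh_rel a X))
        (c.h4inv ((shiftFunctorAdd T₁ a b).app _) ((shiftFunctorAdd T₂ a b).app X)
          (c.rel_shiftAdd (c.h4d X) a b))))) ?_)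
    simp

end Corr

theorem Corr.exists_functor (c : Corr.{w} T₁ T₂) : ∃ (Φ : T₂ ⥤ T₁) (_ : Φ.CommShift ℤ),
    Φ.Additive ∧ Φ.IsEquivalence ∧ ∀ (A₁ : Triangle T₁) (A₂ : Triangle T₂)
      (d₁ : c.M A₁.obj₁ A₂.obj₁) (d₂ : c.M A₁.obj₂ A₂.obj₂) (d₃ : c.M A₁.obj₃ A₂.obj₃),
      c.Rel d₁ d₂ A₁.mor₁ A₂.mor₁ → c.Rel d₂ d₃ A₁.mor₂ A₂.mor₂ →
        c.Rel d₃ (c.sh d₁ 1) A₁.mor₃ A₂.mor₃ → Nonempty (Φ.mapTriangle.obj A₂ ≅ A₁) := by
  letI := c.h4cs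
  refine ⟨c.h4F, c.h4cs, ⟨fun {X Y f g} =>
    c.uniq₁ (c.h4F_rel _) (c.rel_add (c.h4F_rel f) (c.h4F_rel g))⟩, ⟨⟨fun {X Y f g} h => ?_⟩,
      ⟨fun {X Y} f => ?_⟩, ⟨fun X => ?_⟩⟩, fun A₁ A₂ d₁ d₂ d₃ h₁ h₂ h₃ => ⟨?_⟩⟩
  · exact c.uniq₂ (c.h4F_rel f) (h ▸ c.h4F_rel g)
  · obtain ⟨g, hg⟩ := c.ex₂ (c.h4d X) (c.h4d Y) f
    exact ⟨g, c.uniq₁ (c.h4F_rel g) hg⟩
  · obtain ⟨Y, ⟨d⟩⟩ := c.surj₁ X
    exact ⟨Y, ⟨c.h4iso (c.h4d Y) d⟩⟩
  · refine Triangle.isoMk _ _ (c.h4iso (c.h4d _) d₁) (c.h4iso (c.h4d _) d₂)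
      (c.h4iso (c.h4d _) d₃) ?_ ?_ ?_
    · exact c.uniq₁ (c.rel_comp (c.h4F_rel A₂.mor₁) (c.h4iso_rel _ d₂))
        (c.h4cast (c.rel_comp (c.h4iso_rel _ d₁) h₁) (by rw [Category.id_comp, Category.comp_id]))
    · exact c.uniq₁ (c.rel_comp (c.h4F_rel A₂.mor₂) (c.h4iso_rel _ d₃))
        (c.h4cast (c.rel_comp (c.h4iso_rel _ d₂) h₂) (by rw [Category.id_comp, Category.comp_id]))
    · exact c.uniq₁ (c.rel_comp (c.rel_comp (c.h4F_rel A₂.mor₃) (c.h4sh_rel 1 A₂.obj₁))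
          (c.rel_sh 1 (c.h4iso_rel _ d₁)))
        (c.h4cast (c.rel_comp (c.h4iso_rel _ d₃) h₃) (by simp))

end Pool.Agent.Work.MP_8b4bd2_al
end

-- merged part: Pool.Agent.Work.MP_8b4bd2_al.Hub6
section
/-!
The gluing lemma (two octahedra).
-/

set_option backward.isDefEq.respectTransparency false
set_option backward.defeqAttrib.useBackward true

namespace Pool.Agent.Work.MP_8b4bd2_al

open CategoryTheory Limits Pretriangulated Triangulated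

variable {T : Type*} [Category T] [HasZeroObject T] [Preadditive T] [HasShift T ℤ]
  [∀ n : ℤ, (shiftFunctor T n).Additive] [Pretriangulated T]

theorem glue [IsTriangulated T] {X X' X'' Y Y' Y'' Z Z' Z'' : T} (s : Spl X X' X'')
    (r : Spl Y Y' Y'') (f : X ⟶ Y) (hf : s.i'' ≫ f ≫ r.p' = 0)
    {g' : Y' ⟶ Z'} {h' : Z' ⟶ X'⟦(1 : ℤ)⟧} {g'' : Y'' ⟶ Z''} {h'' : Z'' ⟶ X''⟦(1 : ℤ)⟧}
    (hT' : Triangle.mk (s.i' ≫ f ≫ r.p') g' h' ∈ distTriang T)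
    (hT'' : Triangle.mk (s.i'' ≫ f ≫ r.p'') g'' h'' ∈ distTriang T)
    {u : Z'' ⟶ Z} {v : Z ⟶ Z'}
    (hW : Triangle.mk u v (h' ≫ (s.i' ≫ f ≫ r.p'' ≫ g'')⟦(1 : ℤ)⟧') ∈ distTriang T)
    (h₁ : ∀ φ : Y' ⟶ Z'', φ = 0) (h₂ : ∀ φ : Z' ⟶ X''⟦(1 : ℤ)⟧, φ = 0)
    {γ : Y' ⟶ Z} (hγ : γ ≫ v = g') {η : Z ⟶ X''⟦(1 : ℤ)⟧} (hη : u ≫ η = -h'') :
    Triangle.mk f (r.p' ≫ γ - r.p'' ≫ g'' ≫ u)
      (v ≫ h' ≫ s.i'⟦(1 : ℤ)⟧' + η ≫ s.i''⟦(1 : ℤ)⟧') ∈ distTriang T := by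
  obtain ⟨Zt, gt, ht, hT⟩ := distinguished_cocone_triangle f
  obtain ⟨W, v₁, w₁, hW₁⟩ := distinguished_cocone_triangle (s.i'' ≫ f)
  have hr : ∀ {A : T} (φ : A ⟶ Y), φ = φ ≫ r.p' ≫ r.i' + φ ≫ r.p'' ≫ r.i'' := fun φ => by
    rw [← Preadditive.comp_add, r.total, Category.comp_id]
  have c₁ : (s.i'' ≫ f ≫ r.p'') ≫ r.i'' = s.i'' ≫ f := by
    rw [hr (s.i'' ≫ f)]
    simp [reassoc_of% hf]
  obtain ⟨m₁, m₃, a1, a2, a3, -, amem⟩ := someOctahedron c₁ hT'' r.dist hW₁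
  obtain ⟨n₁, n₃, b1, -, b3, b4, bmem⟩ := someOctahedron rfl s.dist hT hW₁
  have hn₁ : n₁ = s.i' ≫ f ≫ v₁ := by rw [← b1, s.h₁₁_assoc]
  have c₃ : n₁ ≫ m₃ = s.i' ≫ f ≫ r.p' := by
    rw [hn₁, Category.assoc, Category.assoc, a3]
  obtain ⟨k₁, k₃, c1, c2, -, c4, cmem⟩ := someOctahedron c₃ bmem (rot_of_distTriang _ amem) hT'
  dsimp at c1 c2 c4 cmem
  have hmono : Mono m₁ := Triangle.mono₁ _ amem (by simp)
  have e₁ : h' ≫ (s.i' ≫ f ≫ r.p')⟦(1 : ℤ)⟧' = 0 := comp_distTriang_mor_zero₃₁ _ hT'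
  have hk₃ : k₃ = -(h' ≫ (s.i' ≫ f ≫ r.p'' ≫ g'')⟦(1 : ℤ)⟧') := by
    rw [← cancel_mono (m₁⟦(1 : ℤ)⟧'), ← neg_inj, ← Preadditive.comp_neg, ← c4, hn₁,
      Preadditive.neg_comp, neg_neg, Category.assoc, ← Functor.map_comp, Category.assoc,
      Category.assoc, Category.assoc, a1, ← Category.assoc s.i' f v₁, hr (s.i' ≫ f)]
    simp only [Preadditive.add_comp, Functor.map_add, Preadditive.comp_add, Category.assoc]
    rw [show s.i' ≫ f ≫ r.p' ≫ r.i' ≫ v₁ = (s.i' ≫ f ≫ r.p') ≫ r.i' ≫ v₁ by simp,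
      Functor.map_comp, reassoc_of% e₁, zero_comp, zero_add]
  have hWt : Triangle.mk (-(m₁ ≫ n₃)) k₁
      (h' ≫ (s.i' ≫ f ≫ r.p'' ≫ g'')⟦(1 : ℤ)⟧') ∈ distTriang T := by
    rw [rotate_distinguished_triangle]
    refine isomorphic_distinguished _ cmem _ ?_
    refine Triangle.isoMk _ _ (Iso.refl _) (Iso.refl _) (-Iso.refl _) ?_ ?_ ?_
    · simp
    · simp [hk₃]
    · simp
  let e := isoTriangleOfIso₁₃ _ _ hWt hW (Iso.refl _) (Iso.refl _) (by simp)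
  let φ : Zt ≅ Z := Triangle.π₂.mapIso e
  have hφ₁ : -(m₁ ≫ n₃ ≫ φ.hom) = u := by simpa [e, φ] using e.hom.comm₁
  have hφ₂ : k₁ = φ.hom ≫ v := by simpa [e, φ] using e.hom.comm₂
  have a₁ : r.i'' ≫ gt ≫ φ.hom = -(g'' ≫ u) := by
    rw [← hφ₁, ← b3, Preadditive.comp_neg, neg_neg, reassoc_of% a1, Category.assoc]
  have a₂ : r.i' ≫ gt ≫ φ.hom = γ := by
    have : (r.i' ≫ gt ≫ φ.hom - γ) ≫ v = 0 := by
      rw [Preadditive.sub_comp, hγ, Category.assoc, Category.assoc, ← hφ₂, ← b3,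
        Category.assoc, c1, reassoc_of% a3, r.h₁₁_assoc, sub_self]
    obtain ⟨ψ, hψ⟩ := Triangle.coyoneda_exact₂ _ hW _ this
    rw [h₁ ψ, zero_comp] at hψ
    exact sub_eq_zero.1 hψ
  have b₁ : ht ≫ s.p'⟦(1 : ℤ)⟧' = φ.hom ≫ v ≫ h' := by
    rw [← c2, hφ₂, Category.assoc]
  have b₂ : ht ≫ s.p''⟦(1 : ℤ)⟧' = φ.hom ≫ η := by
    have : u ≫ (φ.inv ≫ ht ≫ s.p''⟦(1 : ℤ)⟧' - η) = 0 := by
      rw [Preadditive.comp_sub, hη, ← hφ₁, Preadditive.neg_comp, Category.assoc, Category.assoc,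
        φ.hom_inv_id_assoc, ← reassoc_of% b4, ← Functor.map_comp, s.h₂₂, CategoryTheory.Functor.map_id,
        Category.comp_id, a2, sub_self]
    obtain ⟨ψ, hψ⟩ := Triangle.yoneda_exact₂ _ hW _ this
    rw [h₂ ψ, comp_zero] at hψ
    rw [← sub_eq_zero.1 hψ, φ.hom_inv_id_assoc]
  refine isomorphic_distinguished _ hT _ (Iso.symm ?_)
  refine Triangle.isoMk _ _ (Iso.refl _) (Iso.refl _) φ (by simp) ?_ ?_
  · dsimp
    rw [Category.id_comp, ← Category.id_comp (gt ≫ φ.hom), ← r.total, Preadditive.add_comp,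
      Category.assoc, Category.assoc, a₁, a₂, Preadditive.comp_neg, sub_eq_add_neg]
  · dsimp
    rw [← s.total, Functor.map_add, Functor.map_comp, Functor.map_comp, Preadditive.comp_add,
      Preadditive.comp_add, reassoc_of% b₁, reassoc_of% b₂]

end Pool.Agent.Work.MP_8b4bd2_al
end
end

-- merged part: Pool.Agent.Work.MP_8b4bd2_al.EmbK
section
/-!
A graded submodule with torsion-free quotient is the kernel of a homogeneous matrix.
`exists_sep`: copy the first half of `Module.basisOfFiniteTypeTorsionFree` (a maximal independent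
subfamily of generators, `A • M ⊆ N`), then a coordinate of `Basis.span`.
`exists_ker_eq`: `K' = {w | ∀ v ∈ K, w ⬝ᵥ v = 0}` is `IsHomog (-a)` (write `v ∈ K` as the sum of its
components with `exists_sum_vcmp`; for homogeneous `v` apply `cmp` to `w ⬝ᵥ v`, `cmp_mul_right`);
`exists_gen` gives `J`, take `B = Jᵀ`; `exists_sep` for the quotient by `K`.
-/

namespace Pool.Agent.Work.MP_8b4bd2_al

open Matrix

theorem exists_sep {A M : Type*} [CommRing A] [IsDomain A] [AddCommGroup M] [Module A M]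
    [Module.Finite A M] [Module.IsTorsionFree A M] {m : M} (hm : m ≠ 0) :
    ∃ l : M →ₗ[A] A, l m ≠ 0 := by
  classical
  obtain ⟨n, s, hs⟩ := Module.Finite.exists_fin (R := A) (M := M)
  obtain ⟨I, indepI, hI⟩ := exists_maximal_linearIndepOn A s
  have indep : LinearIndependent A (s ∘ (fun x => x) : I → M) := indepI
  let N := Submodule.span A (Set.range (s ∘ (fun x => x) : I → M))
  let bN : Module.Basis I A N := Module.Basis.span indep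
  have exists_a : ∀ i, ∃ a : A, a ≠ 0 ∧ a • s i ∈ N := by
    intro i
    by_cases hi : i ∈ I
    · refine ⟨1, one_ne_zero, ?_⟩
      rw [one_smul]
      exact Submodule.subset_span (Set.mem_range_self (⟨i, hi⟩ : I))
    · obtain ⟨a, ha, ha'⟩ := hI i hi
      refine ⟨a, ha, ?_⟩
      rw [Set.image_eq_range s I] at ha'
      exact ha'
  choose a ha ha' using exists_a
  have hA : (∏ i, a i) ≠ 0 := Finset.prod_ne_zero_iff.2 fun i _ => ha i
  let φ : M →ₗ[A] M := LinearMap.lsmul A M (∏ i, a i)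
  have hφ : ∀ x, φ x ∈ N := by
    have : LinearMap.range φ ≤ N := by
      rw [LinearMap.range_eq_map, ← hs, Submodule.map_span_le]
      rintro _ ⟨i, rfl⟩
      have h1 : (∏ j ∈ {i}ᶜ, a j) • a i • s i ∈ N := N.smul_mem _ (ha' i)
      rw [← mul_smul, ← Fintype.prod_eq_prod_compl_mul i] at h1
      exact h1
    exact fun x => this ⟨x, rfl⟩
  have h0 : φ.codRestrict N hφ m ≠ 0 := by
    intro h
    have h' : (∏ i, a i) • m = 0 := congrArg Subtype.val h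
    exact hm ((smul_eq_zero.1 h').resolve_left hA)
  by_contra hc
  push Not at hc
  exact h0 (bN.forall_coord_eq_zero_iff.1 fun i => hc (bN.coord i ∘ₗ φ.codRestrict N hφ))

theorem exists_ker_eq {k : Type*} [Field k] {ι : Type*} [Fintype ι] {a : ι → ℤ}
    {K : Submodule (R k) (ι → R k)} (hH : IsHomog a K)
    (hT : ∀ r : R k, r ≠ 0 → ∀ v, r • v ∈ K → v ∈ K) :
    ∃ (t : ℕ) (b : Fin t → ℤ) (B : Matrix (Fin t) ι (R k)),
      B ∈ Deg k a b 0 ∧ ∀ v, B *ᵥ v = 0 ↔ v ∈ K := by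
  classical
  let K' : Submodule (R k) (ι → R k) :=
    { carrier := {w | ∀ v ∈ K, w ⬝ᵥ v = 0}
      add_mem' := fun {w w'} hw hw' v hv => by rw [add_dotProduct, hw v hv, hw' v hv, add_zero]
      zero_mem' := fun v _ => zero_dotProduct v
      smul_mem' := fun c w hw v hv => by rw [smul_dotProduct, hw v hv, smul_zero] }
  have hK' : IsHomog (-a) K' := by
    intro e w hw v hv
    obtain ⟨t, ht⟩ := exists_sum_vcmp a v
    rw [← ht, dotProduct_sum]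
    refine Finset.sum_eq_zero fun d _ => ?_
    have h1 : cmp (e + d) (w ⬝ᵥ vcmp a d v) = vcmp (-a) e w ⬝ᵥ vcmp a d v := by
      simp only [dotProduct, map_sum]
      refine Finset.sum_congr rfl fun i _ => ?_
      rw [cmp_mul_right (mem_Vdeg.1 (vcmp_mem a d v) i), vcmp_apply (-a)]
      congr 3
      simp only [Pi.neg_apply]
      ring
    rw [← h1, hw _ (hH d v hv), map_zero]
  obtain ⟨s, b, J, hJ, hN⟩ := exists_gen hK'
  refine ⟨s, -b, Jᵀ, fun j i => mem_Rd_congr (hJ i j) ?_, fun v => ⟨fun h => ?_, fun hv => ?_⟩⟩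
  · simp only [Pi.neg_apply]
    ring
  · by_contra hv
    have : Module.IsTorsionFree (R k) ((ι → R k) ⧸ K) := by
      refine Module.IsTorsionFree.of_smul_eq_zero fun r x hx => ?_
      obtain ⟨u, rfl⟩ := K.mkQ_surjective x
      by_cases hr : r = 0
      · exact Or.inl hr
      · refine Or.inr ?_
        rw [← map_smul, Submodule.mkQ_apply, Submodule.Quotient.mk_eq_zero] at hx
        rw [Submodule.mkQ_apply, Submodule.Quotient.mk_eq_zero]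
        exact hT r hr u hx
    have hne : K.mkQ v ≠ 0 := by
      rw [Ne, Submodule.mkQ_apply, Submodule.Quotient.mk_eq_zero]
      exact hv
    obtain ⟨l, hl⟩ := exists_sep (A := R k) hne
    let w : ι → R k := fun i => l (K.mkQ (Pi.single i 1))
    have hw : ∀ u, w ⬝ᵥ u = l (K.mkQ u) := by
      intro u
      conv_rhs => rw [pi_eq_sum_univ' u]
      simp only [dotProduct, map_sum, map_smul, smul_eq_mul, w]
      exact Finset.sum_congr rfl fun i _ => mul_comm _ _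
    have hwK : w ∈ K' := fun u hu => by
      rw [hw, Submodule.mkQ_apply, (Submodule.Quotient.mk_eq_zero K).2 hu, map_zero]
    obtain ⟨t, ht⟩ := (hN w).1 hwK
    apply hl
    rw [← hw, ← ht, dotProduct_comm, dotProduct_mulVec, ← mulVec_transpose, h, zero_dotProduct]
  · funext j
    have hj : J.col j ∈ K' := (hN _).2 ⟨Pi.single j 1, by rw [mulVec_single_one]⟩
    exact hj v hv

end Pool.Agent.Work.MP_8b4bd2_al
end
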