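import Mathlib

/-!
Internal `ℤ`-gradings of abelian groups through their component maps.
-/

namespace Pool.Agent.Work.MP_8b4bd2_al

open DirectSum

variable {M N σ τ : Type*} [AddCommGroup M] [AddCommGroup N] [SetLike σ M] [AddSubgroupClass σ M]
  [SetLike τ N] [AddSubgroupClass τ N] {g : ℤ → σ} {g' : ℤ → τ}

/-- The component of degree `d`. -/
noncomputable def icmp (h : IsInternal g) (d : ℤ) : M →+ M :=
  letI := h.chooseDecomposition
  { toFun := fun m => (decompose g m d : M)
    map_zero' := by simp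
    map_add' := fun _ _ => by simp }

theorem icmp_mem (h : IsInternal g) (d : ℤ) (m : M) : icmp h d m ∈ g d := SetLike.coe_mem _

theorem icmp_of_mem (h : IsInternal g) {d : ℤ} {m : M} (hm : m ∈ g d) : icmp h d m = m :=
  letI := h.chooseDecomposition
  decompose_of_mem_same g hm

theorem icmp_of_mem_ne (h : IsInternal g) {d e : ℤ} {m : M} (hm : m ∈ g d) (hne : d ≠ e) :
    icmp h e m = 0 :=
  letI := h.chooseDecomposition
  decompose_of_mem_ne g hm hne

theorem exists_sum_icmp' (h : IsInternal g) (m : M) :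
    ∃ s : Finset ℤ, ∀ t, s ⊆ t → ∑ d ∈ t, icmp h d m = m := by
  classical
  let _ := h.chooseDecomposition
  refine ⟨(decompose g m).support, fun t ht => ?_⟩
  rw [← Finset.sum_subset ht fun d _ hd => ?_]
  · exact sum_support_decompose g m
  · change (decompose g m d : M) = 0
    rw [DFinsupp.notMem_support_iff.1 hd]
    rfl

theorem exists_sum_icmp (h : IsInternal g) (m : M) : ∃ s : Finset ℤ, ∑ d ∈ s, icmp h d m = m :=
  (exists_sum_icmp' h m).imp fun s hs => hs s le_rfl

theorem icmp_induction (h : IsInternal g) {p : M → Prop} (h0 : p 0)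
    (h1 : ∀ d, ∀ m ∈ g d, p m) (h2 : ∀ m m', p m → p m' → p (m + m')) (m : M) : p m := by
  obtain ⟨s, hs⟩ := exists_sum_icmp h m
  rw [← hs]
  exact Finset.sum_induction _ p h2 h0 fun d _ => h1 d _ (icmp_mem h d m)

/-- An additive map of degree `c` commutes with the component maps. -/
theorem icmp_map (h : IsInternal g) (h' : IsInternal g') (f : M →+ N) (c : ℤ)
    (hf : ∀ d, ∀ m ∈ g d, f m ∈ g' (c + d)) (d : ℤ) (m : M) :
    icmp h' (c + d) (f m) = f (icmp h d m) := by
  induction m using icmp_induction h with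
  | h0 => simp
  | h1 e m hm =>
    by_cases he : e = d
    · subst he
      rw [icmp_of_mem h hm, icmp_of_mem h' (hf _ _ hm)]
    · rw [icmp_of_mem_ne h hm he, icmp_of_mem_ne h' (hf _ _ hm) (by omega), map_zero]
  | h2 m m' h₁ h₂ => simp only [map_add, h₁, h₂]

theorem isInternal_of_cmp (p : ℤ → M →+ M) (h₁ : ∀ d m, p d m ∈ g d)
    (h₂ : ∀ d, ∀ m ∈ g d, p d m = m) (h₃ : ∀ d e, ∀ m ∈ g d, d ≠ e → p e m = 0)
    (h₄ : ∀ m, ∃ s : Finset ℤ, ∑ d ∈ s, p d m = m) : IsInternal g := by
  have key : ∀ (x : ⨁ d, g d) (e : ℤ), p e (DirectSum.coeAddMonoidHom g x) = x e := by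
    intro x e
    induction x using DirectSum.induction_on with
    | zero => simp
    | of d m =>
      rw [coeAddMonoidHom_of]
      by_cases hd : d = e
      · subst hd
        rw [of_eq_same, h₂ _ _ m.2]
      · rw [of_eq_of_ne _ _ _ (Ne.symm hd), h₃ _ _ _ m.2 hd]
        rfl
    | add x y hx hy => simp [hx, hy]
  refine ⟨fun x y hxy => DFinsupp.ext fun e => Subtype.ext ?_, fun m => ?_⟩
  · rw [← key, ← key, hxy]
  · obtain ⟨s, hs⟩ := h₄ m
    exact ⟨∑ d ∈ s, of (fun d => g d) d ⟨p d m, h₁ d m⟩, by simpa using hs⟩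

/-- The grading induced on a graded subgroup. -/
theorem isInternal_comap (h' : IsInternal g') (f : M →+ N) (hf : Function.Injective f)
    (hg : ∀ d m, m ∈ g d ↔ f m ∈ g' d) (hr : ∀ d m, ∃ m', f m' = icmp h' d (f m)) :
    IsInternal g := by
  choose q hq using hr
  refine isInternal_of_cmp
    (fun d => ⟨⟨q d, hf (by simp [hq])⟩, fun m m' => hf (by simp [hq])⟩)
    (fun d m => (hg _ _).2 ?_) (fun d m hm => hf ?_) (fun d e m hm hne => hf ?_) fun m => ?_
  · exact hq d m ▸ icmp_mem h' d _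
  · exact (hq d m).trans (icmp_of_mem h' ((hg _ _).1 hm))
  · exact (hq e m).trans ((icmp_of_mem_ne h' ((hg _ _).1 hm) hne).trans (map_zero f).symm)
  · obtain ⟨s, hs⟩ := exists_sum_icmp h' (f m)
    exact ⟨s, hf (by simpa [hq] using hs)⟩

/-- The grading induced on a quotient by a graded subgroup. -/
theorem isInternal_map (h : IsInternal g) (f : M →+ N) (hf : Function.Surjective f)
    (hg : ∀ d n, n ∈ g' d ↔ ∃ m ∈ g d, f m = n) (hk : ∀ d m, f m = 0 → f (icmp h d m) = 0) :
    IsInternal g' := by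
  choose s hs using hf
  have hq : ∀ d m, f (icmp h d (s (f m))) = f (icmp h d m) := fun d m => by
    rw [← sub_eq_zero, ← map_sub, ← map_sub]
    exact hk _ _ (by rw [map_sub, hs, sub_self])
  refine isInternal_of_cmp
    (fun d => ⟨⟨fun n => f (icmp h d (s n)), hk _ _ (hs 0)⟩, fun n n' => ?_⟩)
    (fun d n => (hg _ _).2 ⟨_, icmp_mem h d _, rfl⟩) (fun d n hn => ?_) (fun d e n hn hne => ?_)
    fun n => ?_
  · change f (icmp h d (s (n + n'))) = f (icmp h d (s n)) + f (icmp h d (s n'))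
    rw [← map_add, ← map_add, ← hq d (s n + s n'), map_add f, hs, hs]
  · obtain ⟨m, hm, rfl⟩ := (hg _ _).1 hn
    exact (hq d m).trans (by rw [icmp_of_mem h hm])
  · obtain ⟨m, hm, rfl⟩ := (hg _ _).1 hn
    exact (hq e m).trans (by rw [icmp_of_mem_ne h hm hne, map_zero])
  · obtain ⟨t, ht⟩ := exists_sum_icmp h (s n)
    refine ⟨t, ?_⟩
    change ∑ d ∈ t, f (icmp h d (s n)) = n
    rw [← map_sum, ht, hs]

/-- The shifted grading. -/
theorem isInternal_shift {σ' : Type*} [SetLike σ' M] [AddSubgroupClass σ' M] {g₁ : ℤ → σ'}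
    (h : IsInternal g) (a : ℤ) (hg : ∀ d m, m ∈ g₁ d ↔ m ∈ g (a + d)) : IsInternal g₁ := by
  refine isInternal_of_cmp (fun d => icmp h (a + d)) (fun d m => (hg _ _).2 (icmp_mem h _ _))
    (fun d m hm => icmp_of_mem h ((hg _ _).1 hm))
    (fun d e m hm hne => icmp_of_mem_ne h ((hg _ _).1 hm) (by omega)) fun m => ?_
  obtain ⟨s, hs⟩ := exists_sum_icmp h m
  refine ⟨s.map (addLeftEmbedding (-a)), ?_⟩
  simpa using hs

end Pool.Agent.Work.MP_8b4bd2_al
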