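import Pool.Agent.Work.MP_8b4bd2_al.GrI

/-!
The abelian category of finitely generated `ℤ`-graded modules over a `ℤ`-graded noetherian ring.
-/

namespace Pool.Agent.Work.MP_8b4bd2_al

open CategoryTheory Limits

universe u

variable {k R : Type u} [Field k] [CommRing R] [Algebra k R]

/-- A finitely generated `ℤ`-graded module `M = ⨁ gr d` over `R = ⨁ A d`. -/
structure GrMod (A : ℤ → Submodule k R) : Type (u + 1) where
  /-- the underlying module -/
  obj : ModuleCat.{u} R
  /-- the homogeneous components -/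
  gr : ℤ → AddSubgroup obj
  internal : DirectSum.IsInternal gr
  smul_mem : ∀ ⦃d e : ℤ⦄ ⦃s : R⦄ ⦃m : obj⦄, s ∈ A d → m ∈ gr e → s • m ∈ gr (d + e)
  fg : Module.Finite R obj

attribute [instance] GrMod.fg

section

variable {M N P : ModuleCat.{u} R} (g : ℤ → AddSubgroup M) (g' : ℤ → AddSubgroup N)

/-- The group of degree preserving linear maps. -/
def gradedHom : AddSubgroup (M →ₗ[R] N) where
  carrier := {f | ∀ d, ∀ m ∈ g d, f m ∈ g' d}
  add_mem' hf hg d m hm := add_mem (hf d m hm) (hg d m hm)
  zero_mem' _ _ _ := zero_mem _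
  neg_mem' hf d m hm := neg_mem (hf d m hm)

/-- Degree preserving linear maps, as a type. -/
def GradedHom : Type u := gradedHom g g'

instance : AddCommGroup (GradedHom g g') := AddSubgroup.toAddCommGroup (gradedHom g g')

/-- The identity map. -/
def GradedHom.id : GradedHom g g := ⟨LinearMap.id, fun _ _ hm => hm⟩

variable {g g'} in
/-- Composition. -/
def GradedHom.comp {g'' : ℤ → AddSubgroup P} (f : GradedHom g g') (f' : GradedHom g' g'') :
    GradedHom g g'' := ⟨f'.1 ∘ₗ f.1, fun d m hm => f'.2 d _ (f.2 d m hm)⟩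

end

variable {A : ℤ → Submodule k R}

namespace GrMod

instance : Category.{u} (GrMod A) where
  Hom M N := GradedHom M.gr N.gr
  id M := GradedHom.id M.gr
  comp := GradedHom.comp
  id_comp _ := rfl
  comp_id _ := rfl
  assoc _ _ _ := rfl

instance : Preadditive (GrMod A) where
  homGroup M N := (inferInstance : AddCommGroup (GradedHom M.gr N.gr))
  add_comp _ _ _ _ _ _ := Subtype.ext (LinearMap.comp_add _ _ _)
  comp_add _ _ _ _ _ _ := Subtype.ext (LinearMap.add_comp _ _ _)

/-- The linear map underlying a morphism. -/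
abbrev lin {M N : GrMod A} (f : M ⟶ N) : M.obj →ₗ[R] N.obj := Subtype.val f

theorem hom_ext {M N : GrMod A} {f g : M ⟶ N} (h : ∀ m, lin f m = lin g m) : f = g :=
  Subtype.ext (LinearMap.ext h)

theorem lin_mem {M N : GrMod A} (f : M ⟶ N) {d : ℤ} {m : M.obj} (hm : m ∈ M.gr d) :
    lin f m ∈ N.gr d := f.2 d m hm

theorem icmp_lin {M N : GrMod A} (f : M ⟶ N) (d : ℤ) (m : M.obj) :
    icmp N.internal d (lin f m) = lin f (icmp M.internal d m) := by
  have := icmp_map M.internal N.internal (lin f).toAddMonoidHom 0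
    (fun d m hm => by rw [zero_add]; exact lin_mem f hm) d m
  rwa [zero_add] at this

theorem icmp_smul (M : GrMod A) {c : ℤ} {s : R} (hs : s ∈ A c) (d : ℤ) (m : M.obj) :
    icmp M.internal (c + d) (s • m) = s • icmp M.internal d m :=
  icmp_map M.internal M.internal (DistribSMul.toAddMonoidHom _ s) c
    (fun _ _ hm => M.smul_mem hs hm) d m

variable (A) in
/-- The forgetful functor to modules. -/
def forget : GrMod A ⥤ ModuleCat.{u} R where
  obj M := M.obj
  map f := ModuleCat.ofHom (lin f)

instance : (forget A).Additive where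

instance : (forget A).Faithful where
  map_injective h := Subtype.ext (congrArg ModuleCat.Hom.hom h)

theorem isIso_of_bijective {M N : GrMod A} (f : M ⟶ N) (hf : Function.Bijective (lin f)) :
    IsIso f := by
  let e := LinearEquiv.ofBijective (lin f) hf
  refine ⟨⟨e.symm.toLinearMap, fun d n hn => ?_⟩, hom_ext e.symm_apply_apply,
    hom_ext e.apply_symm_apply⟩
  obtain ⟨m, rfl⟩ := hf.2 n
  have : m = icmp M.internal d m := hf.1 (by rw [← icmp_lin, icmp_of_mem _ hn])
  change e.symm (e m) ∈ _
  rw [e.symm_apply_apply, this]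
  exact icmp_mem _ _ _

instance : (forget A).ReflectsIsomorphisms where
  reflects f _ := isIso_of_bijective f (ConcreteCategory.bijective_of_isIso ((forget A).map f))

/-- The cokernel of a morphism. -/
def coker {M N : GrMod A} (f : M ⟶ N) : GrMod A where
  obj := ModuleCat.of R (N.obj ⧸ LinearMap.range (lin f))
  gr d := (N.gr d).map (LinearMap.range (lin f)).mkQ.toAddMonoidHom
  internal := isInternal_map N.internal (LinearMap.range (lin f)).mkQ.toAddMonoidHom
    (Submodule.mkQ_surjective _) (fun _ _ => Iff.rfl) fun d n hn => by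
      obtain ⟨m, rfl⟩ := (Submodule.Quotient.mk_eq_zero _).1 hn
      exact (Submodule.Quotient.mk_eq_zero _).2 ⟨_, (icmp_lin f d m).symm⟩
  smul_mem := by
    rintro d e s _ hs ⟨n, hn, rfl⟩
    exact ⟨s • n, N.smul_mem hs hn, rfl⟩
  fg := inferInstance

/-- The projection to the cokernel. -/
def cokerπ {M N : GrMod A} (f : M ⟶ N) : N ⟶ coker f :=
  ⟨(LinearMap.range (lin f)).mkQ, fun _ n hn => ⟨n, hn, rfl⟩⟩

theorem comp_cokerπ {M N : GrMod A} (f : M ⟶ N) : f ≫ cokerπ f = 0 :=
  hom_ext fun m => (Submodule.Quotient.mk_eq_zero _).2 ⟨m, rfl⟩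

/-- The universal property of the cokernel. -/
def cokerIsColimit {M N : GrMod A} (f : M ⟶ N) :
    IsColimit (CokernelCofork.ofπ _ (comp_cokerπ f)) :=
  CokernelCofork.IsColimit.ofπ _ _
    (fun g hg => ⟨(LinearMap.range (lin f)).liftQ (lin g) (by
      rintro _ ⟨m, rfl⟩
      exact congrArg (lin · m) hg), by
        rintro d _ ⟨n, hn, rfl⟩
        exact lin_mem g hn⟩)
    (fun _ _ => rfl)
    (fun g _ m hm => hom_ext fun n => by
      obtain ⟨n, rfl⟩ := Submodule.mkQ_surjective _ n
      exact congrArg (lin · n) hm)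

instance : HasCokernels (GrMod A) where
  has_colimit f := ⟨_, cokerIsColimit f⟩

instance {M N : GrMod A} (f : M ⟶ N) : PreservesColimit (parallelPair f 0) (forget A) :=
  preservesColimit_of_preserves_colimit_cocone (cokerIsColimit f)
    ((CokernelCofork.isColimitMapCoconeEquiv _ (forget A)).2
      (ModuleCat.cokernelIsColimit ((forget A).map f)))

/-- The zero module. -/
def zero : GrMod A where
  obj := ModuleCat.of R PUnit
  gr _ := ⊤
  internal := isInternal_of_cmp (fun _ => 0) (fun _ _ => trivial) (fun _ _ _ => rfl)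
    (fun _ _ _ _ _ => rfl) fun _ => ⟨∅, rfl⟩
  smul_mem _ _ _ _ _ _ := trivial
  fg := inferInstance

theorem isZero_zero : IsZero (zero : GrMod A) := (IsZero.iff_id_eq_zero _).2 rfl

instance : HasZeroObject (GrMod A) := ⟨_, isZero_zero⟩

/-- The direct sum of two graded modules. -/
def prod (M N : GrMod A) : GrMod A where
  obj := ModuleCat.of R (M.obj × N.obj)
  gr d := (M.gr d).prod (N.gr d)
  internal := isInternal_of_cmp (fun d => (icmp M.internal d).prodMap (icmp N.internal d))
    (fun d m => ⟨icmp_mem M.internal d m.1, icmp_mem N.internal d m.2⟩)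
    (fun d m hm => Prod.ext (icmp_of_mem _ hm.1) (icmp_of_mem _ hm.2))
    (fun d e m hm h => Prod.ext (icmp_of_mem_ne _ hm.1 h) (icmp_of_mem_ne _ hm.2 h))
    fun m => by
      obtain ⟨s, hs⟩ := exists_sum_icmp' M.internal m.1
      obtain ⟨t, ht⟩ := exists_sum_icmp' N.internal m.2
      refine ⟨s ∪ t, Prod.ext ?_ ?_⟩
      · rw [Prod.fst_sum]
        exact hs _ Finset.subset_union_left
      · rw [Prod.snd_sum]
        exact ht _ Finset.subset_union_right
  smul_mem _ _ _ _ hs hm := ⟨M.smul_mem hs hm.1, N.smul_mem hs hm.2⟩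
  fg := inferInstance

instance : HasBinaryProducts (GrMod A) :=
  have (M N : GrMod A) : HasLimit (pair M N) := ⟨BinaryFan.mk (P := prod M N)
    ⟨LinearMap.fst _ _ _, fun _ _ h => And.left h⟩ ⟨LinearMap.snd _ _ _, fun _ _ h => And.right h⟩,
    BinaryFan.IsLimit.mk _
      (fun f g => ⟨(lin f).prod (lin g), fun _ _ h => ⟨lin_mem f h, lin_mem g h⟩⟩)
      (fun _ _ => rfl) (fun _ _ => rfl) fun _ _ _ h₁ h₂ => hom_ext fun m =>
        Prod.ext (congrArg (lin · m) h₁) (congrArg (lin · m) h₂)⟩
  hasBinaryProducts_of_hasLimit_pair _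

instance : HasFiniteProducts (GrMod A) := hasFiniteProducts_of_has_binary_and_terminal

variable [IsNoetherianRing R]

/-- The kernel of a morphism. -/
def ker {M N : GrMod A} (f : M ⟶ N) : GrMod A where
  obj := ModuleCat.of R (LinearMap.ker (lin f))
  gr d := (M.gr d).comap (LinearMap.ker (lin f)).subtype.toAddMonoidHom
  internal := isInternal_comap M.internal (LinearMap.ker (lin f)).subtype.toAddMonoidHom
    Subtype.val_injective (fun _ _ => Iff.rfl) fun d m => ⟨⟨icmp M.internal d m.1, by
      rw [LinearMap.mem_ker, ← icmp_lin, m.2, map_zero]⟩, rfl⟩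
  smul_mem _ _ _ _ hs hm := M.smul_mem hs hm
  fg := inferInstance

/-- The inclusion of the kernel. -/
def kerι {M N : GrMod A} (f : M ⟶ N) : ker f ⟶ M :=
  ⟨(LinearMap.ker (lin f)).subtype, fun _ _ hm => hm⟩

theorem kerι_comp {M N : GrMod A} (f : M ⟶ N) : kerι f ≫ f = 0 := hom_ext fun m => m.2

/-- The universal property of the kernel. -/
def kerIsLimit {M N : GrMod A} (f : M ⟶ N) : IsLimit (KernelFork.ofι _ (kerι_comp f)) :=
  KernelFork.IsLimit.ofι _ _
    (fun g hg => ⟨(lin g).codRestrict _ fun m => congrArg (lin · m) hg, fun _ _ h => lin_mem g h⟩)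
    (fun _ _ => rfl)
    (fun _ _ _ hm => hom_ext fun n => Subtype.ext (congrArg (lin · n) hm))

instance : HasKernels (GrMod A) where
  has_limit f := ⟨_, kerIsLimit f⟩

instance {M N : GrMod A} (f : M ⟶ N) : PreservesLimit (parallelPair f 0) (forget A) :=
  preservesLimit_of_preserves_limit_cone (kerIsLimit f)
    ((KernelFork.isLimitMapConeEquiv _ (forget A)).2
      (ModuleCat.kernelIsLimit ((forget A).map f)))

instance {M N : GrMod A} (f : M ⟶ N) : IsIso (Abelian.coimageImageComparison f) :=
  have := IsIso.of_isIso_fac_right (Abelian.PreservesCoimage.hom_coimageImageComparison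
    (forget A) f).symm
  isIso_of_reflects_iso _ (forget A)

instance : Abelian (GrMod A) := Abelian.ofCoimageImageComparisonIsIso

end GrMod

end Pool.Agent.Work.MP_8b4bd2_al
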