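import Pool.Agent.Work.MP_8b4bd2_al.EmbK

/-!
The linear programming lemma: positivity of the Euler form on the cones (generated certificates).
-/

namespace Pool.Agent.Work.MP_8b4bd2_al

structure Cone (g l : ℤ → ℤ) : Prop where
  nonneg : ∀ c, 0 ≤ g c
  y7 : g (-7) ≤ g 0
  y6 : g (-6) ≤ g 1
  z7 : g (-7) ≤ g 2 + g 8
  z6 : g (-6) ≤ g 3 + g 9
  z5 : g (-5) ≤ g 4 + g 10
  z4 : g (-4) ≤ g 5 + g 11
  med : ∑ c ∈ Finset.Icc (1 : ℤ) 15, g c ≤ ∑ c ∈ Finset.Icc (-7 : ℤ) 0, g c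
  pos : 1 ≤ g 0
  anti : ∀ r, l (r + 21) = -l r
  eq : ∀ r, ∑ c ∈ Finset.Icc (-7 : ℤ) 15, g c * sg (c - r) =
    l r - l (r + 14) - l (r + 6) + l (r + 20)

theorem sum_all (F : ℤ → ℤ) : ∑ c ∈ Finset.Icc (-7 : ℤ) 15, F c =
    F (-7) + F (-6) + F (-5) + F (-4) + F (-3) + F (-2) + F (-1) + F 0 + F 1 + F 2 + F 3 + F 4 + F 5 + F 6 + F 7 + F 8 + F 9 + F 10 + F 11 + F 12 + F 13 + F 14 + F 15 := by
  rw [show Finset.Icc (-7 : ℤ) 15 = {-7, -6, -5, -4, -3, -2, -1, 0, 1, 2, 3, 4, 5, 6, 7, 8, 9, 10, 11, 12, 13, 14, 15} by decide]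
  simp only [Finset.mem_insert, Finset.mem_singleton, Finset.sum_insert, Finset.sum_singleton,
    Int.reduceEq, or_self, not_false_eq_true, add_assoc]

theorem sum_pos (F : ℤ → ℤ) : ∑ c ∈ Finset.Icc (1 : ℤ) 15, F c =
    F 1 + F 2 + F 3 + F 4 + F 5 + F 6 + F 7 + F 8 + F 9 + F 10 + F 11 + F 12 + F 13 + F 14 + F 15 := by
  rw [show Finset.Icc (1 : ℤ) 15 = {1, 2, 3, 4, 5, 6, 7, 8, 9, 10, 11, 12, 13, 14, 15} by decide]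
  simp only [Finset.mem_insert, Finset.mem_singleton, Finset.sum_insert, Finset.sum_singleton,
    Int.reduceEq, or_self, not_false_eq_true, add_assoc]

theorem sum_neg (F : ℤ → ℤ) : ∑ c ∈ Finset.Icc (-7 : ℤ) 0, F c =
    F (-7) + F (-6) + F (-5) + F (-4) + F (-3) + F (-2) + F (-1) + F 0 := by
  rw [show Finset.Icc (-7 : ℤ) 0 = {-7, -6, -5, -4, -3, -2, -1, 0} by decide]
  simp only [Finset.mem_insert, Finset.mem_singleton, Finset.sum_insert, Finset.sum_singleton,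
    Int.reduceEq, or_self, not_false_eq_true, add_assoc]

theorem sum_sg (g : ℤ → ℤ) (r : ℤ) (h0 : 0 ≤ r) (h1 : r ≤ 20) :
    ∑ c ∈ Finset.Icc (-7 : ℤ) 15, g c * sg (c - r) =
      (if r ≤ 15 then g r else 0) - if 14 ≤ r then g (r - 21) else 0 := by
  have : ∀ c ∈ Finset.Icc (-7 : ℤ) 15, g c * sg (c - r) =
      (if c = r then g c else 0) - if c = r - 21 then g c else 0 := by
    intro c hc
    rw [Finset.mem_Icc] at hc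
    unfold sg
    split_ifs <;> omega
  rw [Finset.sum_congr rfl this, Finset.sum_sub_distrib, Finset.sum_ite_eq', Finset.sum_ite_eq']
  simp only [Finset.mem_Icc]
  congr 1 <;> exact if_congr (by omega) rfl rfl

theorem Cone.vals {g l : ℤ → ℤ} (h : Cone g l) :
    g (-5) = -l 1 - l 9 + l 15 - l 16 ∧
    g (-4) = -l 2 - l 10 + l 16 - l 17 ∧
    g (-3) = -l 3 - l 11 + l 17 - l 18 ∧
    g (-2) = -l 4 - l 12 + l 18 - l 19 ∧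
    g (-1) = -l 5 - l 13 + l 19 - l 20 ∧
    g 0 = l 0 - l 6 - l 14 + l 20 ∧
    g 1 = -l 0 + l 1 - l 7 - l 15 ∧
    g 2 = -l 1 + l 2 - l 8 - l 16 ∧
    g 3 = -l 2 + l 3 - l 9 - l 17 ∧
    g 4 = -l 3 + l 4 - l 10 - l 18 ∧
    g 5 = -l 4 + l 5 - l 11 - l 19 ∧
    g 6 = -l 5 + l 6 - l 12 - l 20 ∧
    g 7 = l 0 - l 6 + l 7 - l 13 ∧
    g 8 = l 1 - l 7 + l 8 - l 14 ∧
    g 9 = l 2 - l 8 + l 9 - l 15 ∧
    g 10 = l 3 - l 9 + l 10 - l 16 ∧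
    g 11 = l 4 - l 10 + l 11 - l 17 ∧
    g 12 = l 5 - l 11 + l 12 - l 18 ∧
    g 13 = l 6 - l 12 + l 13 - l 19 ∧
    g 14 = l 7 - l 13 + l 14 - l 20 + g (-7) ∧
    g 15 = l 0 + l 8 - l 14 + l 15 + g (-6) := by
  have a0 : l 21 = -l 0 := h.anti 0
  have a1 : l 22 = -l 1 := h.anti 1
  have a2 : l 23 = -l 2 := h.anti 2
  have a3 : l 24 = -l 3 := h.anti 3
  have a4 : l 25 = -l 4 := h.anti 4
  have a5 : l 26 = -l 5 := h.anti 5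
  have a6 : l 27 = -l 6 := h.anti 6
  have a7 : l 28 = -l 7 := h.anti 7
  have a8 : l 29 = -l 8 := h.anti 8
  have a9 : l 30 = -l 9 := h.anti 9
  have a10 : l 31 = -l 10 := h.anti 10
  have a11 : l 32 = -l 11 := h.anti 11
  have a12 : l 33 = -l 12 := h.anti 12
  have a13 : l 34 = -l 13 := h.anti 13
  have a14 : l 35 = -l 14 := h.anti 14
  have a15 : l 36 = -l 15 := h.anti 15
  have a16 : l 37 = -l 16 := h.anti 16
  have a17 : l 38 = -l 17 := h.anti 17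
  have a18 : l 39 = -l 18 := h.anti 18
  have a19 : l 40 = -l 19 := h.anti 19
  have e0 := (sum_sg g 0 (by norm_num) (by norm_num)).symm.trans (h.eq 0)
  have e1 := (sum_sg g 1 (by norm_num) (by norm_num)).symm.trans (h.eq 1)
  have e2 := (sum_sg g 2 (by norm_num) (by norm_num)).symm.trans (h.eq 2)
  have e3 := (sum_sg g 3 (by norm_num) (by norm_num)).symm.trans (h.eq 3)
  have e4 := (sum_sg g 4 (by norm_num) (by norm_num)).symm.trans (h.eq 4)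
  have e5 := (sum_sg g 5 (by norm_num) (by norm_num)).symm.trans (h.eq 5)
  have e6 := (sum_sg g 6 (by norm_num) (by norm_num)).symm.trans (h.eq 6)
  have e7 := (sum_sg g 7 (by norm_num) (by norm_num)).symm.trans (h.eq 7)
  have e8 := (sum_sg g 8 (by norm_num) (by norm_num)).symm.trans (h.eq 8)
  have e9 := (sum_sg g 9 (by norm_num) (by norm_num)).symm.trans (h.eq 9)
  have e10 := (sum_sg g 10 (by norm_num) (by norm_num)).symm.trans (h.eq 10)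
  have e11 := (sum_sg g 11 (by norm_num) (by norm_num)).symm.trans (h.eq 11)
  have e12 := (sum_sg g 12 (by norm_num) (by norm_num)).symm.trans (h.eq 12)
  have e13 := (sum_sg g 13 (by norm_num) (by norm_num)).symm.trans (h.eq 13)
  have e14 := (sum_sg g 14 (by norm_num) (by norm_num)).symm.trans (h.eq 14)
  have e15 := (sum_sg g 15 (by norm_num) (by norm_num)).symm.trans (h.eq 15)
  have e16 := (sum_sg g 16 (by norm_num) (by norm_num)).symm.trans (h.eq 16)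
  have e17 := (sum_sg g 17 (by norm_num) (by norm_num)).symm.trans (h.eq 17)
  have e18 := (sum_sg g 18 (by norm_num) (by norm_num)).symm.trans (h.eq 18)
  have e19 := (sum_sg g 19 (by norm_num) (by norm_num)).symm.trans (h.eq 19)
  have e20 := (sum_sg g 20 (by norm_num) (by norm_num)).symm.trans (h.eq 20)
  norm_num at e0 e1 e2 e3 e4 e5 e6 e7 e8 e9 e10 e11 e12 e13 e14 e15 e16 e17 e18 e19 e20
  exact ⟨by linarith only [e16, a9, a1, a15],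
    by linarith only [e17, a10, a2, a16],
    by linarith only [e18, a11, a3, a17],
    by linarith only [e19, a12, a4, a18],
    by linarith only [e20, a13, a5, a19],
    by linarith only [e0],
    by linarith only [e1, a0],
    by linarith only [e2, a1],
    by linarith only [e3, a2],
    by linarith only [e4, a3],
    by linarith only [e5, a4],
    by linarith only [e6, a5],
    by linarith only [e7, a0, a6],
    by linarith only [e8, a1, a7],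
    by linarith only [e9, a2, a8],
    by linarith only [e10, a3, a9],
    by linarith only [e11, a4, a10],
    by linarith only [e12, a5, a11],
    by linarith only [e13, a6, a12],
    by linarith only [e14, a7, a13],
    by linarith only [e15, a8, a0, a14]⟩

theorem Cone.rels {g l : ℤ → ℤ} (h : Cone g l) :
    g 0 = -g (-6) + g (-4) + g (-3) - g (-1) + g 9 + g 10 - g 12 - g 13 + g 15 ∧
    g 1 = g (-7) + g (-6) - g (-5) - g (-4) + g (-2) + g (-1) - g 9 + g 11 + g 12 - g 14 - g 15 ∧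
    g 2 = g (-5) + g 9 ∧
    g 3 = g (-4) + g 10 ∧
    g 4 = g (-3) + g 11 ∧
    g 5 = g (-2) + g 12 ∧
    g 6 = g (-1) + g 13 ∧
    g 7 = -g (-7) - g (-6) + g (-4) + g (-3) - g (-1) + g 9 + g 10 - g 12 - g 13 + g 14 + g 15 ∧
    g 8 = g (-7) - g (-5) - g (-4) + g (-2) + g (-1) - g 9 + g 11 + g 12 - g 14 := by
  obtain ⟨v0, v1, v2, v3, v4, v5, v6, v7, v8, v9, v10, v11, v12, v13, v14, v15, v16, v17, v18, v19, v20⟩ := h.vals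
  simp only [v0, v1, v2, v3, v4, v5, v6, v7, v8, v9, v10, v11, v12, v13, v14, v15, v16, v17, v18, v19, v20]
  refine ⟨?_, ?_, ?_, ?_, ?_, ?_, ?_, ?_, ?_⟩ <;> ring

theorem Cone.facets {g l : ℤ → ℤ} (h : Cone g l) :
    0 ≤ g (-6) ∧
    0 ≤ g (-4) ∧
    0 ≤ g (-2) ∧
    0 ≤ g (-1) ∧
    0 ≤ g 9 ∧
    0 ≤ g 10 ∧
    0 ≤ g 11 ∧
    0 ≤ g 12 ∧
    0 ≤ g 13 ∧
    0 ≤ g 14 ∧
    0 ≤ g 15 ∧
    0 ≤ -g (-7) + g 0 ∧
    0 ≤ -g (-6) + g 1 ∧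
    0 ≤ -g (-7) + g 2 + g 8 ∧
    0 ≤ -g (-4) + g 5 + g 11 ∧
    0 ≤ -g (-6) + g 3 + g 9 ∧
    0 ≤ -g (-5) + g 4 + g 10 ∧
    0 ≤ g (-7) + g (-6) + g (-5) + g (-4) + g (-3) + g (-2) + g (-1) + g 0 - g 1 - g 2 - g 3 - g 4 - g 5 - g 6 - g 7 - g 8 - g 9 - g 10 - g 11 - g 12 - g 13 - g 14 - g 15 := by
  have := h.y7; have := h.y6; have := h.z7; have := h.z6; have := h.z5; have := h.z4
  have hm := h.med
  rw [sum_pos, sum_neg] at hm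
  refine ⟨h.nonneg _, h.nonneg _, h.nonneg _, h.nonneg _, h.nonneg _, h.nonneg _, h.nonneg _, h.nonneg _, h.nonneg _, h.nonneg _, h.nonneg _, ?_, ?_, ?_, ?_, ?_, ?_, ?_⟩ <;> omega

private theorem lp_st {a c x y : ℤ} (ha : 0 ≤ a) (hc : 0 ≤ c) (hx : 0 ≤ x) (hy : 0 ≤ y) :
    0 ≤ a + c * (x * y) := add_nonneg ha (mul_nonneg hc (mul_nonneg hx hy))

private theorem lp_anti {g l : ℤ → ℤ} (h : Cone g l) (r : ℤ) : l r = -l (r + 21) := by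
  rw [h.anti, neg_neg]

theorem cert15 (p0 p1 p2 p3 p4 p5 p6 p7 p8 p9 p10 p11 p12 p13 p14 p15 p16 p17 q0 q1 q2 q3 q4 q5 q6 q7 q8 q9 q10 q11 q12 q13 q14 q15 q16 q17 : ℤ)
    (_ : 0 ≤ p0) (_ : 0 ≤ p1) (_ : 0 ≤ p2) (_ : 0 ≤ p3) (_ : 0 ≤ p4) (_ : 0 ≤ p5) (_ : 0 ≤ p6) (_ : 0 ≤ p7) (_ : 0 ≤ p8) (_ : 0 ≤ p9) (_ : 0 ≤ p10) (_ : 0 ≤ p11) (_ : 0 ≤ p12) (_ : 0 ≤ p13) (_ : 0 ≤ p14) (_ : 0 ≤ p15) (_ : 0 ≤ p16) (_ : 0 ≤ p17)
    (_ : 0 ≤ q0) (_ : 0 ≤ q1) (_ : 0 ≤ q2) (_ : 0 ≤ q3) (_ : 0 ≤ q4) (_ : 0 ≤ q5) (_ : 0 ≤ q6) (_ : 0 ≤ q7) (_ : 0 ≤ q8) (_ : 0 ≤ q9) (_ : 0 ≤ q10) (_ : 0 ≤ q11) (_ : 0 ≤ q12) (_ : 0 ≤ q13) (_ : 0 ≤ q14) (_ : 0 ≤ q15) (_ : 0 ≤ q16) (_ : 0 ≤ q17) :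
    0 ≤ 4 * (p0 * q0) + 4 * (p0 * q12) + 4 * (p0 * q14) + 2 * (p0 * q17) + 4 * (p1 * q1) +
      4 * (p1 * q3) + 4 * (p1 * q5) + 4 * (p1 * q7) + 4 * (p1 * q8) + 8 * (p3 * q3) +
      4 * (p3 * q8) + 4 * (p3 * q16) + 4 * (p4 * q15) + 4 * (p4 * q16) + 4 * (p5 * q3) +
      4 * (p5 * q5) + 4 * (p5 * q6) + 4 * (p5 * q7) + 4 * (p5 * q8) + 4 * (p5 * q14) +
      4 * (p5 * q15) + 4 * (p5 * q16) + 2 * (p5 * q17) + 4 * (p6 * q6) + 4 * (p6 * q14) +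
      4 * (p6 * q15) + 4 * (p6 * q16) + 2 * (p6 * q17) + 4 * (p7 * q6) + 4 * (p7 * q7) +
      4 * (p7 * q8) + 4 * (p7 * q9) + 4 * (p7 * q13) + 4 * (p7 * q14) + 4 * (p7 * q15) +
      8 * (p7 * q16) + 4 * (p7 * q17) + 4 * (p8 * q1) + 4 * (p8 * q3) + 4 * (p8 * q8) +
      12 * (p8 * q14) + 4 * (p8 * q15) + 8 * (p8 * q16) + 4 * (p8 * q17) + 4 * (p9 * q1) +
      12 * (p9 * q14) + 4 * (p9 * q15) + 4 * (p9 * q16) + 4 * (p9 * q17) + 4 * (p11 * q9) +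
      4 * (p11 * q11) + 4 * (p11 * q12) + 4 * (p12 * q10) + 4 * (p12 * q12) + 4 * (p12 * q14) +
      4 * (p12 * q15) + 4 * (p12 * q16) + 2 * (p12 * q17) + 4 * (p13 * q0) + 4 * (p13 * q6) +
      4 * (p13 * q7) + 4 * (p13 * q8) + 8 * (p13 * q14) + 4 * (p13 * q15) + 4 * (p13 * q17) +
      4 * (p14 * q0) + 8 * (p14 * q3) + 4 * (p14 * q7) + 4 * (p14 * q8) + 4 * (p15 * q0) +
      4 * (p15 * q14) + 2 * (p15 * q17) + 4 * (p16 * q0) + 4 * (p16 * q3) + 4 * (p16 * q6) +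
      4 * (p16 * q7) + 4 * (p16 * q8) + 4 * (p16 * q14) + 2 * (p16 * q17) + 2 * (p17 * q0) +
      2 * (p17 * q3) + 2 * (p17 * q6) + 2 * (p17 * q7) + 2 * (p17 * q8) + 4 * (p17 * q14) +
      2 * (p17 * q15) + 2 * (p17 * q16) + 2 * (p17 * q17) := by
  repeat refine lp_st ?_ (by decide) ‹_› ‹_›
  exact mul_nonneg (by decide) (mul_nonneg ‹_› ‹_›)

theorem lp15 {gD lD gX lX : ℤ → ℤ} (hD : Cone gD lD) (hX : Cone gX lX) :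
    gD 15 * gX 0 ≤ ∑ c ∈ Finset.Icc (-7 : ℤ) 15, gD c * lX (c - 15) := by
  obtain ⟨p0, p1, p2, p3, p4, p5, p6, p7, p8, p9, p10, p11, p12, p13, p14, p15, p16, p17⟩ := hD.facets
  obtain ⟨q0, q1, q2, q3, q4, q5, q6, q7, q8, q9, q10, q11, q12, q13, q14, q15, q16, q17⟩ := hX.facets
  have key := cert15 _ _ _ _ _ _ _ _ _ _ _ _ _ _ _ _ _ _ _ _ _ _ _ _ _ _ _ _ _ _ _ _ _ _ _ _
    p0 p1 p2 p3 p4 p5 p6 p7 p8 p9 p10 p11 p12 p13 p14 p15 p16 p17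
    q0 q1 q2 q3 q4 q5 q6 q7 q8 q9 q10 q11 q12 q13 q14 q15 q16 q17
  obtain ⟨r0, r1, r2, r3, r4, r5, r6, r7, r8⟩ := hD.rels
  obtain ⟨v0, v1, v2, v3, v4, v5, v6, v7, v8, v9, v10, v11, v12, v13, v14, v15, v16, v17, v18, v19, v20⟩ := hX.vals
  have b21 : lX (-21) = -lX 0 := lp_anti hX (-21)
  have b20 : lX (-20) = -lX 1 := lp_anti hX (-20)
  have b19 : lX (-19) = -lX 2 := lp_anti hX (-19)
  have b18 : lX (-18) = -lX 3 := lp_anti hX (-18)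
  have b17 : lX (-17) = -lX 4 := lp_anti hX (-17)
  have b16 : lX (-16) = -lX 5 := lp_anti hX (-16)
  have b15 : lX (-15) = -lX 6 := lp_anti hX (-15)
  have b14 : lX (-14) = -lX 7 := lp_anti hX (-14)
  have b13 : lX (-13) = -lX 8 := lp_anti hX (-13)
  have b12 : lX (-12) = -lX 9 := lp_anti hX (-12)
  have b11 : lX (-11) = -lX 10 := lp_anti hX (-11)
  have b10 : lX (-10) = -lX 11 := lp_anti hX (-10)
  have b9 : lX (-9) = -lX 12 := lp_anti hX (-9)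
  have b8 : lX (-8) = -lX 13 := lp_anti hX (-8)
  have b7 : lX (-7) = -lX 14 := lp_anti hX (-7)
  have b6 : lX (-6) = -lX 15 := lp_anti hX (-6)
  have b5 : lX (-5) = -lX 16 := lp_anti hX (-5)
  have b4 : lX (-4) = -lX 17 := lp_anti hX (-4)
  have b3 : lX (-3) = -lX 18 := lp_anti hX (-3)
  have b2 : lX (-2) = -lX 19 := lp_anti hX (-2)
  have b1 : lX (-1) = -lX 20 := lp_anti hX (-1)
  have b0 : lX (-22) = -lX (-1) := lp_anti hX (-22)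
  have b22 : lX (-22) = lX 20 := by rw [b0, b1, neg_neg]
  rw [sum_all]
  norm_num only
  rw [b22, b21, b20, b19, b18, b17, b16, b15, b14, b13, b12, b11, b10, b9, b8, b7, b6, b5, b4, b3, b2, b1]
  simp only [r0, r1, r2, r3, r4, r5, r6, r7, r8, v0, v1, v2, v3, v4, v5, v6, v7, v8, v9, v10, v11, v12, v13, v14, v15, v16, v17, v18, v19, v20] at key ⊢
  linarith only [key]

theorem cert9 (p0 p1 p2 p3 p4 p5 p6 p7 p8 p9 p10 p11 p12 p13 p14 p15 p16 p17 q0 q1 q2 q3 q4 q5 q6 q7 q8 q9 q10 q11 q12 q13 q14 q15 q16 q17 : ℤ)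
    (_ : 0 ≤ p0) (_ : 0 ≤ p1) (_ : 0 ≤ p2) (_ : 0 ≤ p3) (_ : 0 ≤ p4) (_ : 0 ≤ p5) (_ : 0 ≤ p6) (_ : 0 ≤ p7) (_ : 0 ≤ p8) (_ : 0 ≤ p9) (_ : 0 ≤ p10) (_ : 0 ≤ p11) (_ : 0 ≤ p12) (_ : 0 ≤ p13) (_ : 0 ≤ p14) (_ : 0 ≤ p15) (_ : 0 ≤ p16) (_ : 0 ≤ p17)
    (_ : 0 ≤ q0) (_ : 0 ≤ q1) (_ : 0 ≤ q2) (_ : 0 ≤ q3) (_ : 0 ≤ q4) (_ : 0 ≤ q5) (_ : 0 ≤ q6) (_ : 0 ≤ q7) (_ : 0 ≤ q8) (_ : 0 ≤ q9) (_ : 0 ≤ q10) (_ : 0 ≤ q11) (_ : 0 ≤ q12) (_ : 0 ≤ q13) (_ : 0 ≤ q14) (_ : 0 ≤ q15) (_ : 0 ≤ q16) (_ : 0 ≤ q17) :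
    0 ≤ 4 * (p0 * q3) + 4 * (p0 * q11) + 4 * (p1 * q0) + 4 * (p1 * q6) + 4 * (p1 * q7) +
      4 * (p1 * q8) + 4 * (p1 * q9) + 4 * (p1 * q12) + 4 * (p1 * q14) + 4 * (p1 * q15) +
      2 * (p1 * q17) + 4 * (p2 * q0) + 4 * (p3 * q5) + 4 * (p3 * q8) + 4 * (p3 * q13) +
      4 * (p3 * q15) + 4 * (p3 * q16) + 4 * (p5 * q0) + 4 * (p5 * q12) + 4 * (p6 * q4) +
      4 * (p6 * q5) + 4 * (p6 * q10) + 4 * (p6 * q13) + 4 * (p6 * q16) + 2 * (p6 * q17) +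
      4 * (p7 * q0) + 4 * (p7 * q5) + 4 * (p7 * q10) + 4 * (p7 * q13) + 4 * (p7 * q15) +
      4 * (p7 * q16) + 2 * (p7 * q17) + 4 * (p8 * q3) + 4 * (p8 * q5) + 4 * (p8 * q6) +
      4 * (p8 * q7) + 4 * (p8 * q8) + 4 * (p8 * q10) + 4 * (p8 * q13) + 4 * (p8 * q14) +
      4 * (p8 * q15) + 8 * (p8 * q16) + 4 * (p8 * q17) + 4 * (p9 * q1) + 4 * (p9 * q3) +
      4 * (p9 * q7) + 4 * (p9 * q10) + 8 * (p9 * q14) + 4 * (p9 * q16) + 4 * (p9 * q17) +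
      4 * (p10 * q3) + 4 * (p10 * q8) + 4 * (p11 * q11) + 4 * (p12 * q3) + 4 * (p12 * q11) +
      4 * (p13 * q0) + 4 * (p13 * q3) + 4 * (p13 * q6) + 8 * (p13 * q7) + 4 * (p13 * q8) +
      4 * (p13 * q9) + 4 * (p13 * q10) + 4 * (p13 * q12) + 4 * (p13 * q14) + 4 * (p13 * q17) +
      4 * (p14 * q5) + 4 * (p14 * q6) + 8 * (p14 * q8) + 4 * (p14 * q9) + 4 * (p14 * q12) +
      4 * (p14 * q13) + 4 * (p14 * q15) + 4 * (p15 * q3) + 4 * (p15 * q8) + 4 * (p16 * q0) +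
      4 * (p16 * q5) + 4 * (p16 * q6) + 4 * (p16 * q7) + 8 * (p16 * q8) + 8 * (p16 * q9) +
      4 * (p16 * q12) + 4 * (p16 * q13) + 2 * (p16 * q17) + 2 * (p17 * q0) + 2 * (p17 * q5) +
      2 * (p17 * q6) + 2 * (p17 * q7) + 4 * (p17 * q8) + 4 * (p17 * q9) + 2 * (p17 * q10) +
      2 * (p17 * q12) + 4 * (p17 * q13) + 2 * (p17 * q15) + 2 * (p17 * q16) + 2 * (p17 * q17) := by
  repeat refine lp_st ?_ (by decide) ‹_› ‹_›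
  exact mul_nonneg (by decide) (mul_nonneg ‹_› ‹_›)

theorem lp9 {gD lD gX lX : ℤ → ℤ} (hD : Cone gD lD) (hX : Cone gX lX) :
    (gD 9 + gD 10) * gX 0 ≤ ∑ c ∈ Finset.Icc (-7 : ℤ) 15, gD c * lX (c - 9) := by
  obtain ⟨p0, p1, p2, p3, p4, p5, p6, p7, p8, p9, p10, p11, p12, p13, p14, p15, p16, p17⟩ := hD.facets
  obtain ⟨q0, q1, q2, q3, q4, q5, q6, q7, q8, q9, q10, q11, q12, q13, q14, q15, q16, q17⟩ := hX.facets
  have key := cert9 _ _ _ _ _ _ _ _ _ _ _ _ _ _ _ _ _ _ _ _ _ _ _ _ _ _ _ _ _ _ _ _ _ _ _ _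
    p0 p1 p2 p3 p4 p5 p6 p7 p8 p9 p10 p11 p12 p13 p14 p15 p16 p17
    q0 q1 q2 q3 q4 q5 q6 q7 q8 q9 q10 q11 q12 q13 q14 q15 q16 q17
  obtain ⟨r0, r1, r2, r3, r4, r5, r6, r7, r8⟩ := hD.rels
  obtain ⟨v0, v1, v2, v3, v4, v5, v6, v7, v8, v9, v10, v11, v12, v13, v14, v15, v16, v17, v18, v19, v20⟩ := hX.vals
  have b16 : lX (-16) = -lX 5 := lp_anti hX (-16)
  have b15 : lX (-15) = -lX 6 := lp_anti hX (-15)
  have b14 : lX (-14) = -lX 7 := lp_anti hX (-14)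
  have b13 : lX (-13) = -lX 8 := lp_anti hX (-13)
  have b12 : lX (-12) = -lX 9 := lp_anti hX (-12)
  have b11 : lX (-11) = -lX 10 := lp_anti hX (-11)
  have b10 : lX (-10) = -lX 11 := lp_anti hX (-10)
  have b9 : lX (-9) = -lX 12 := lp_anti hX (-9)
  have b8 : lX (-8) = -lX 13 := lp_anti hX (-8)
  have b7 : lX (-7) = -lX 14 := lp_anti hX (-7)
  have b6 : lX (-6) = -lX 15 := lp_anti hX (-6)
  have b5 : lX (-5) = -lX 16 := lp_anti hX (-5)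
  have b4 : lX (-4) = -lX 17 := lp_anti hX (-4)
  have b3 : lX (-3) = -lX 18 := lp_anti hX (-3)
  have b2 : lX (-2) = -lX 19 := lp_anti hX (-2)
  have b1 : lX (-1) = -lX 20 := lp_anti hX (-1)
  rw [sum_all]
  norm_num only
  rw [b16, b15, b14, b13, b12, b11, b10, b9, b8, b7, b6, b5, b4, b3, b2, b1]
  simp only [r0, r1, r2, r3, r4, r5, r6, r7, r8, v0, v1, v2, v3, v4, v5, v6, v7, v8, v9, v10, v11, v12, v13, v14, v15, v16, v17, v18, v19, v20] at key ⊢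
  linarith only [key]

theorem cert7 (p0 p1 p2 p3 p4 p5 p6 p7 p8 p9 p10 p11 p12 p13 p14 p15 p16 p17 q0 q1 q2 q3 q4 q5 q6 q7 q8 q9 q10 q11 q12 q13 q14 q15 q16 q17 : ℤ)
    (_ : 0 ≤ p0) (_ : 0 ≤ p1) (_ : 0 ≤ p2) (_ : 0 ≤ p3) (_ : 0 ≤ p4) (_ : 0 ≤ p5) (_ : 0 ≤ p6) (_ : 0 ≤ p7) (_ : 0 ≤ p8) (_ : 0 ≤ p9) (_ : 0 ≤ p10) (_ : 0 ≤ p11) (_ : 0 ≤ p12) (_ : 0 ≤ p13) (_ : 0 ≤ p14) (_ : 0 ≤ p15) (_ : 0 ≤ p16) (_ : 0 ≤ p17)
    (_ : 0 ≤ q0) (_ : 0 ≤ q1) (_ : 0 ≤ q2) (_ : 0 ≤ q3) (_ : 0 ≤ q4) (_ : 0 ≤ q5) (_ : 0 ≤ q6) (_ : 0 ≤ q7) (_ : 0 ≤ q8) (_ : 0 ≤ q9) (_ : 0 ≤ q10) (_ : 0 ≤ q11) (_ : 0 ≤ q12) (_ : 0 ≤ q13) (_ : 0 ≤ q14) (_ : 0 ≤ q15) (_ : 0 ≤ q16) (_ : 0 ≤ q17) :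
    0 ≤ 4 * (p0 * q0) + 4 * (p0 * q6) + 4 * (p0 * q7) + 4 * (p0 * q8) + 4 * (p0 * q9) +
      4 * (p0 * q13) + 4 * (p0 * q15) + 4 * (p0 * q16) + 2 * (p0 * q17) + 4 * (p2 * q2) +
      4 * (p3 * q1) + 4 * (p3 * q3) + 4 * (p3 * q5) + 4 * (p3 * q7) + 4 * (p3 * q8) +
      4 * (p3 * q14) + 4 * (p4 * q4) + 4 * (p4 * q5) + 4 * (p4 * q10) + 4 * (p4 * q12) +
      4 * (p4 * q14) + 2 * (p4 * q17) + 4 * (p5 * q0) + 4 * (p5 * q5) + 4 * (p5 * q10) +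
      4 * (p5 * q12) + 4 * (p5 * q14) + 4 * (p5 * q15) + 2 * (p5 * q17) + 4 * (p6 * q0) +
      4 * (p6 * q5) + 4 * (p6 * q6) + 4 * (p6 * q7) + 4 * (p6 * q8) + 4 * (p6 * q9) +
      4 * (p6 * q12) + 4 * (p6 * q13) + 2 * (p6 * q17) + 4 * (p7 * q0) + 4 * (p7 * q1) +
      4 * (p7 * q5) + 4 * (p7 * q7) + 4 * (p7 * q8) + 4 * (p7 * q9) + 4 * (p7 * q12) +
      4 * (p7 * q13) + 4 * (p7 * q14) + 2 * (p7 * q17) + 4 * (p8 * q0) + 8 * (p8 * q3) +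
      4 * (p8 * q5) + 4 * (p8 * q6) + 8 * (p8 * q7) + 8 * (p8 * q8) + 4 * (p8 * q12) +
      4 * (p8 * q14) + 2 * (p8 * q17) + 4 * (p9 * q9) + 4 * (p9 * q13) + 4 * (p9 * q16) +
      2 * (p9 * q17) + 4 * (p10 * q10) + 4 * (p10 * q12) + 4 * (p12 * q0) + 4 * (p12 * q12) +
      4 * (p13 * q3) + 4 * (p13 * q14) + 4 * (p13 * q16) + 2 * (p13 * q17) + 4 * (p14 * q3) +
      4 * (p14 * q5) + 4 * (p14 * q6) + 8 * (p14 * q7) + 8 * (p14 * q8) + 4 * (p15 * q3) +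
      4 * (p15 * q6) + 4 * (p15 * q7) + 4 * (p15 * q8) + 4 * (p16 * q3) + 4 * (p16 * q7) +
      4 * (p16 * q8) + 2 * (p17 * q0) + 2 * (p17 * q3) + 2 * (p17 * q5) + 2 * (p17 * q6) +
      4 * (p17 * q7) + 4 * (p17 * q8) + 2 * (p17 * q9) + 2 * (p17 * q12) + 2 * (p17 * q13) +
      1 * (p17 * q17) := by
  repeat refine lp_st ?_ (by decide) ‹_› ‹_›
  exact mul_nonneg (by decide) (mul_nonneg ‹_› ‹_›)

theorem lp7 {gD lD gX lX : ℤ → ℤ} (hD : Cone gD lD) (hX : Cone gX lX) :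
    (gD 0 - gD 9 - gD 10 - gD 15) * gX 0 ≤ ∑ c ∈ Finset.Icc (-7 : ℤ) 15, gD c * lX (c - 7) := by
  obtain ⟨p0, p1, p2, p3, p4, p5, p6, p7, p8, p9, p10, p11, p12, p13, p14, p15, p16, p17⟩ := hD.facets
  obtain ⟨q0, q1, q2, q3, q4, q5, q6, q7, q8, q9, q10, q11, q12, q13, q14, q15, q16, q17⟩ := hX.facets
  have key := cert7 _ _ _ _ _ _ _ _ _ _ _ _ _ _ _ _ _ _ _ _ _ _ _ _ _ _ _ _ _ _ _ _ _ _ _ _
    p0 p1 p2 p3 p4 p5 p6 p7 p8 p9 p10 p11 p12 p13 p14 p15 p16 p17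
    q0 q1 q2 q3 q4 q5 q6 q7 q8 q9 q10 q11 q12 q13 q14 q15 q16 q17
  obtain ⟨r0, r1, r2, r3, r4, r5, r6, r7, r8⟩ := hD.rels
  obtain ⟨v0, v1, v2, v3, v4, v5, v6, v7, v8, v9, v10, v11, v12, v13, v14, v15, v16, v17, v18, v19, v20⟩ := hX.vals
  have b14 : lX (-14) = -lX 7 := lp_anti hX (-14)
  have b13 : lX (-13) = -lX 8 := lp_anti hX (-13)
  have b12 : lX (-12) = -lX 9 := lp_anti hX (-12)
  have b11 : lX (-11) = -lX 10 := lp_anti hX (-11)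
  have b10 : lX (-10) = -lX 11 := lp_anti hX (-10)
  have b9 : lX (-9) = -lX 12 := lp_anti hX (-9)
  have b8 : lX (-8) = -lX 13 := lp_anti hX (-8)
  have b7 : lX (-7) = -lX 14 := lp_anti hX (-7)
  have b6 : lX (-6) = -lX 15 := lp_anti hX (-6)
  have b5 : lX (-5) = -lX 16 := lp_anti hX (-5)
  have b4 : lX (-4) = -lX 17 := lp_anti hX (-4)
  have b3 : lX (-3) = -lX 18 := lp_anti hX (-3)
  have b2 : lX (-2) = -lX 19 := lp_anti hX (-2)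
  have b1 : lX (-1) = -lX 20 := lp_anti hX (-1)
  rw [sum_all]
  norm_num only
  rw [b14, b13, b12, b11, b10, b9, b8, b7, b6, b5, b4, b3, b2, b1]
  simp only [r0, r1, r2, r3, r4, r5, r6, r7, r8, v0, v1, v2, v3, v4, v5, v6, v7, v8, v9, v10, v11, v12, v13, v14, v15, v16, v17, v18, v19, v20] at key ⊢
  linarith only [key]

theorem lp {gD lD : ℤ → ℤ} (hD : Cone gD lD) : ∃ δ : ℤ, 2 ≤ δ ∧ δ ≤ 20 ∧
    ∀ gX lX, Cone gX lX → ∑ c ∈ Finset.Icc (-7 : ℤ) 15, gD c * lX (c - δ) ≠ 0 := by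
  have h9 := hD.nonneg 9
  have h10 := hD.nonneg 10
  have h15 := hD.nonneg 15
  have h0 := hD.pos
  by_cases h : 0 < gD 15
  · refine ⟨15, by norm_num, by norm_num, fun gX lX hX => ne_of_gt (lt_of_lt_of_le ?_ (lp15 hD hX))⟩
    exact mul_pos h (by have := hX.pos; omega)
  by_cases h' : 0 < gD 9 + gD 10
  · refine ⟨9, by norm_num, by norm_num, fun gX lX hX => ne_of_gt (lt_of_lt_of_le ?_ (lp9 hD hX))⟩
    exact mul_pos h' (by have := hX.pos; omega)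
  · refine ⟨7, by norm_num, by norm_num, fun gX lX hX => ne_of_gt (lt_of_lt_of_le ?_ (lp7 hD hX))⟩
    exact mul_pos (by omega) (by have := hX.pos; omega)

end Pool.Agent.Work.MP_8b4bd2_al
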