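import Pool.Agent.Work.MP_8b4bd2_al.ZF
import Pool.Agent.Work.MP_8b4bd2_al.EmbK
import Mathlib

-- merged part: Pool.Agent.Work.MP_8b4bd2_al.EssS
section
/-!
Every torsion-free graded module has the same sheaf as a maximal Cohen-Macaulay module.
-/

set_option backward.isDefEq.respectTransparency false

namespace Pool.Agent.Work.MP_8b4bd2_al

open CategoryTheory Limits GrMod Matrix MF

universe u

variable {k : Type u} [Field k]

theorem exists_homog_gen (M : GrMod (Sdeg k)) : ∃ (ι : Type) (_ : Fintype ι) (a : ι → ℤ)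
    (g : ι → M.obj), (∀ i, g i ∈ M.gr (-a i)) ∧ Submodule.span (S k) (Set.range g) = ⊤ := by
  obtain ⟨n, g, hg⟩ := Module.Finite.exists_fin (R := S k) (M := M.obj)
  choose s hs using fun i => exists_sum_icmp M.internal (g i)
  refine ⟨Σ i, s i, inferInstance, fun x => -x.2.1, fun x => icmp M.internal x.2.1 (g x.1),
    fun x => by rw [neg_neg]; exact icmp_mem _ _ _, ?_⟩
  rw [eq_top_iff, ← hg, Submodule.span_le]
  rintro _ ⟨i, rfl⟩
  rw [← hs i]
  exact Submodule.sum_mem _ fun d hd => Submodule.subset_span ⟨⟨i, d, hd⟩, rfl⟩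

theorem exists_desc {M : GrMod (Sdeg k)} {ι : Type} [Fintype ι] {a : ι → ℤ} {g : ι → M.obj}
    (hg : ∀ i, g i ∈ M.gr (-a i)) : ∃ π : (Fr (objP ι a)).gam ⟶ M, ∀ v, lin π v =
      ∑ i, (iota ((Fr (objP ι a)).vec v (Sum.inl i)) +
        xS * iota ((Fr (objP ι a)).vec v (Sum.inr i)) : S k) • g i := by
  classical
  let X : MF k := Fr (objP ι a)
  let l : X.gam.obj →+ M.obj :=
    { toFun := fun v => ∑ i,
        (iota (X.vec v (Sum.inl i)) + xS * iota (X.vec v (Sum.inr i)) : S k) • g i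
      map_zero' := by simp
      map_add' := fun v w => by
        rw [← Finset.sum_add_distrib]
        refine Finset.sum_congr rfl fun i _ => ?_
        rw [← add_smul, map_add, Pi.add_apply, Pi.add_apply, map_add, map_add]
        congr 1
        ring }
  have hl : ∀ v, l v = ∑ i,
    (iota (X.vec v (Sum.inl i)) + xS * iota (X.vec v (Sum.inr i)) : S k) • g i := fun _ => rfl
  have h₁ : ∀ (p : R k) v, l ((iota p : S k) • v) = (iota p : S k) • l v := fun p v => by
    rw [hl, hl, vec_iota_smul, Finset.smul_sum]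
    refine Finset.sum_congr rfl fun i _ => ?_
    rw [smul_smul, Pi.smul_apply, Pi.smul_apply, smul_eq_mul, smul_eq_mul, map_mul, map_mul]
    congr 1
    ring
  have h₂ : ∀ v, l ((xS : S k) • v) = (xS : S k) • l v := fun v => by
    rw [hl, hl, vec_xS_smul, Finset.smul_sum]
    refine Finset.sum_congr rfl fun i _ => ?_
    have e₁ : (X.φ *ᵥ X.vec v) (Sum.inl i) = -(ff * X.vec v (Sum.inr i)) := by
      simp [X, fromBlocks_mulVec, neg_mulVec, smul_mulVec]
    have e₂ : (X.φ *ᵥ X.vec v) (Sum.inr i) = X.vec v (Sum.inl i) := by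
      simp [X, fromBlocks_mulVec]
    rw [smul_smul, e₁, e₂, map_neg, map_mul]
    congr 1
    linear_combination (-iota (X.vec v (Sum.inr i))) * xS_sq (k := k)
  let l' : X.gam.obj →ₗ[S k] M.obj :=
    { l with
      map_smul' := fun s v => by
        obtain ⟨p, q, rfl⟩ := exists_decomp' s
        change l _ = (iota p + xS * iota q : S k) • l v
        rw [add_smul, map_add, mul_smul, h₁, h₂, h₁, add_smul, mul_smul] }
  refine ⟨⟨l', fun d v hv => ?_⟩, hl⟩
  change l v ∈ _
  rw [hl]
  refine sum_mem fun i _ => ?_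
  have := M.smul_mem (add_mem (iota_mem (mem_Vdeg.1 hv (Sum.inl i))) (mul_mem_Sdeg xS_mem
    (iota_mem (mem_Vdeg.1 hv (Sum.inr i))) (by simp [X, hts₂]; ring))) (hg i)
  rwa [show X.a (Sum.inl i) + d + -a i = d by simp [X, hts₂]] at this

theorem exists_surj (M : GrMod (Sdeg k)) :
    ∃ (X : MF k) (π : X.gam ⟶ M), Function.Surjective (lin π) := by
  classical
  obtain ⟨ι, _, a, g, hg, htop⟩ := exists_homog_gen M
  obtain ⟨π, hπ⟩ := exists_desc hg
  refine ⟨_, π, ?_⟩
  rw [← LinearMap.range_eq_top, eq_top_iff, ← htop, Submodule.span_le]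
  rintro _ ⟨i, rfl⟩
  refine ⟨(Fr (objP ι a)).vec.symm (Pi.single (Sum.inl i) 1), ?_⟩
  rw [hπ, AddEquiv.apply_symm_apply, Finset.sum_eq_single i]
  · simp
  · intro j _ hj
    simp [Pi.single_eq_of_ne (show (Sum.inl j : ι ⊕ ι) ≠ Sum.inl i by simpa using hj)]
  · simp

theorem iota_isRegular {r : R k} (hr : r ≠ 0) : IsRegular (iota r : S k) := by
  rw [← isLeftRegular_iff_isRegular, isLeftRegular_iff_right_eq_zero_of_mul]
  intro s hs
  obtain ⟨p, q, rfl⟩ := exists_decomp' s
  obtain ⟨h₁, h₂⟩ := decomp_unique (p := r * p) (q := r * q) (by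
    rw [map_mul, map_mul, ← hs]; ring)
  simp [(mul_eq_zero.1 h₁).resolve_left hr, (mul_eq_zero.1 h₂).resolve_left hr]

theorem vec_icmp (X : MF k) (d : ℤ) (m : X.gam.obj) :
    X.vec (icmp X.gam.internal d m) = vcmp X.a d (X.vec m) := by
  induction m using icmp_induction X.gam.internal with
  | h0 => simp
  | h1 e m hm =>
    by_cases h : e = d
    · subst h
      rw [icmp_of_mem _ hm, vcmp_of_mem (mem_gam_gr.1 hm)]
    · rw [icmp_of_mem_ne _ hm h, map_zero]
      exact funext fun i => (cmp_of_mem_ne (mem_Vdeg.1 (mem_gam_gr.1 hm) i) (by omega)).symm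
  | h2 m m' h₁ h₂ => simp only [map_add, h₁, h₂]

theorem exists_MF (M : GrMod (Sdeg k)) (hM : Module.IsTorsionFree (S k) M.obj) :
    ∃ (X : MF k) (s : M ⟶ X.gam), (finLen _).isoModSerre s := by
  classical
  obtain ⟨X, π, hπ⟩ := exists_surj M
  let K : Submodule (R k) (X.ι → R k) :=
    { carrier := {v | lin π (X.vec.symm v) = 0}
      add_mem' := fun {v w} hv hw => by
        change lin π _ = 0
        rw [map_add, map_add, hv, hw, add_zero]
      zero_mem' := by simp
      smul_mem' := fun p v hv => by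
        change lin π _ = 0
        rw [show X.vec.symm (p • v) = (iota p : S k) • X.vec.symm v from
          X.vec.injective (X.vec_iota_smul p (X.vec.symm v)).symm, map_smul, hv, smul_zero] }
  have hK : ∀ m, X.vec m ∈ K ↔ lin π m = 0 := fun _ => Iff.rfl
  obtain ⟨t, b, B, hB, hBK⟩ := exists_ker_eq (a := X.a) (K := K)
    (fun d v hv => by
      obtain ⟨m, rfl⟩ := X.vec.surjective v
      rw [← vec_icmp, hK, ← icmp_lin, (hK m).1 hv, map_zero])
    (fun r hr v hv => by
      obtain ⟨m, rfl⟩ := X.vec.surjective v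
      rw [← vec_iota_smul, hK, map_smul] at hv
      exact (iota_isRegular hr).isSMulRegular.right_eq_zero_of_smul hv)
  let G : MF k := Fr (objP (Fin t) fun i => b i + 21)
  let g : X ⟶ G := homMk (fromRows (B * X.φ) B) (fromRows_mem.2
    ⟨mem_Deg_congr (mul_mem_Deg hB X.deg rfl) fun i j => by simp [hts]; ring,
      mem_Deg_congr hB fun i j => by simp [hts]; ring⟩) (by
        simp [G, fromBlocks_mul_fromRows, fromRows_mul, X.mul_φ_mul_φ])
  have hg : ∀ m, mat g *ᵥ X.vec m = 0 ↔ lin π m = 0 := fun m => by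
    change fromRows (B * X.φ) B *ᵥ X.vec m = 0 ↔ _
    rw [fromRows_mulVec, ← hK, ← hBK]
    refine ⟨fun h => funext fun i => congrFun h (Sum.inr i), fun h => ?_⟩
    rw [h, ← mulVec_mulVec, ← vec_xS_smul, (hBK _).2, Sum.elim_zero_zero]
    rw [hK, map_smul, (hK m).1 ((hBK _).1 h), smul_zero]
  obtain ⟨Y, J, hinj, hJ⟩ := G.exists_sub (N := sat (LinearMap.range (mat g).mulVecLin))
    (sat_isHomog (by
      rintro d _ ⟨v, rfl⟩
      exact ⟨_, (vcmp_mulVec (mat_deg g) d v).symm⟩)) (sat_isSat _)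
    fun v hv => mulVec_mem_sat (by
      rintro _ ⟨v, rfl⟩
      refine ⟨X.φ *ᵥ v, ?_⟩
      rw [mulVecLin_apply, mulVecLin_apply, mulVec_mulVec, mulVec_mulVec, mat_comm]) hv
  obtain ⟨g', hg', hJg⟩ := exists_factor (mat_deg J) (mat_deg g) fun j =>
    (hJ _).1 (mem_sat.2 ⟨0, by
      simp only [pow_zero, one_smul, and_self]
      exact ⟨Pi.single j 1, mulVec_single_one _ _⟩⟩)
  let g₁ : X ⟶ Y := homMk g' hg' (left_cancel hinj (by
    rw [← Matrix.mul_assoc, ← mat_comm, Matrix.mul_assoc, hJg, mat_comm, ← hJg, Matrix.mul_assoc]))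
  have hv : ∀ m, mat J *ᵥ Y.vec (lin (gamMap g₁) m) = mat g *ᵥ X.vec m := fun m => by
    rw [vec_gamMap, mulVec_mulVec, ← hJg]
    rfl
  have hg₁ : ∀ m, lin (gamMap g₁) m = 0 ↔ lin π m = 0 := fun m => by
    rw [← hg, ← hv]
    exact ⟨fun h => by rw [h, map_zero, mulVec_zero],
      fun h => Y.vec.injective ((hinj _ h).trans (map_zero _).symm)⟩
  have : Epi π := (GrMod.forget _).epi_of_epi_map ((ModuleCat.epi_iff_surjective _).2 hπ)
  have hs := Abelian.comp_epiDesc π (gamMap g₁) (GrMod.hom_ext fun m =>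
    (hg₁ _).2 (congrArg (lin · m) (kernel.condition π)))
  generalize Abelian.epiDesc π (gamMap g₁) _ = s at hs
  have hs' : ∀ m, lin s (lin π m) = lin (gamMap g₁) m := fun m => congrArg (lin · m) hs
  refine ⟨Y, s, (isoModSerre_iff s).2 ⟨fun m hm => ?_, fun m => ?_⟩⟩
  · obtain ⟨m, rfl⟩ := hπ m
    rw [hs', hg₁] at hm
    exact ⟨0, by rw [hm, smul_zero], by rw [hm, smul_zero]⟩
  · obtain ⟨n, h₁, h₂⟩ := (hJ _).2 ⟨Y.vec m, rfl⟩
    have key : ∀ r : R k, r • (mat J *ᵥ Y.vec m) ∈ LinearMap.range (mat g).mulVecLin →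
        (iota r : S k) • m ∈ LinearMap.range (lin s) := by
      rintro r ⟨v, hr⟩
      obtain ⟨v, rfl⟩ := X.vec.surjective v
      refine ⟨lin π v, Y.vec.injective (sub_eq_zero.1 (hinj _ ?_))⟩
      rw [mulVec_sub, hs', hv, vec_iota_smul, mulVec_smul, ← hr, mulVecLin_apply, sub_self]
    exact ⟨n, key _ h₁, key _ h₂⟩

end Pool.Agent.Work.MP_8b4bd2_al
end

-- merged part: Pool.Agent.Work.MP_8b4bd2_al.Bridge
section
/-!
Matrix factorisations are the vector bundles on the weighted projective line.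
-/

set_option backward.isDefEq.respectTransparency false
set_option backward.defeqAttrib.useBackward true

namespace Pool.Agent.Work.MP_8b4bd2_al

open CategoryTheory Limits GrMod Matrix MF Pretriangulated

universe u

variable {k : Type u} [Field k]

variable (k) in
/-- The vector bundle of a matrix factorisation. -/
noncomputable def EV : MF k ⥤ Vect (Sdeg k) :=
  (isVect _).lift (Gam k ⋙ sheaf _) fun M => ⟨M.gam, M.gam_torsionFree, ⟨Iso.refl _⟩⟩

instance : (EV k).Additive := by unfold EV; infer_instance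

instance : (EV k).Faithful where
  map_injective h := (Gam k).map_injective ((sheaf_map_bijective _ _).1 (congrArg (·.hom) h))

instance : (EV k).Full where
  map_surjective {M N} f := by
    obtain ⟨g, hg⟩ := (sheaf_map_bijective M.gam N).2 f.hom
    obtain ⟨g, rfl⟩ := (Gam k).map_surjective g
    exact ⟨g, ObjectProperty.hom_ext _ hg⟩

instance : (EV k).EssSurj where
  mem_essImage F := by
    obtain ⟨M, hM, ⟨e⟩⟩ := F.property
    obtain ⟨X, s, hs⟩ := exists_MF M hM
    exact ⟨X, ⟨ObjectProperty.isoMk _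
      ((Localization.isoOfHom (sheaf _) (finLen _).isoModSerre s hs).symm ≪≫ e)⟩⟩

instance : (EV k).IsEquivalence where

theorem nonempty_isoO (a : ℤ) : Nonempty ((EV k).obj (Fr1 a) ≅ lineBundle (Sdeg k) a) := by
  obtain ⟨π, hπ⟩ := exists_desc (M := twist (Sdeg k) a) (ι := Unit) (a := fun _ => a)
    (g := fun _ => (1 : S k)) fun _ => one_mem_Sdeg k (add_neg_cancel a)
  have h : ∀ v, lin π v = (iota ((Fr1 a).vec v (Sum.inl ())) +
      xS * iota ((Fr1 a).vec v (Sum.inr ())) : S k) := fun v => by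
    rw [hπ, Fintype.sum_unique]
    exact mul_one (_ : S k)
  have : IsIso π := isIso_of_bijective π ⟨(injective_iff_map_eq_zero _).2 fun v hv => by
    obtain ⟨h₁, h₂⟩ := decomp_unique ((h v).symm.trans hv)
    refine (Fr1 a).vec.injective (funext ?_)
    rintro (_ | _)
    exacts [h₁, h₂], fun s => by
      obtain ⟨p, q, rfl⟩ := exists_decomp' s
      exact ⟨(Fr1 a).vec.symm (Sum.elim (fun _ => p) fun _ => q), h _⟩⟩
  exact ⟨ObjectProperty.isoMk _ ((sheaf _).mapIso (asIso π))⟩

/-- The line bundles come from the free modules of rank one. -/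
noncomputable def isoO (a : ℤ) : (EV k).obj (Fr1 a) ≅ lineBundle (Sdeg k) a :=
  (nonempty_isoO a).some

theorem factors_iff {M N : MF k} (g : M ⟶ N) :
    (∃ (n : ℕ) (a : Fin n → ℤ) (u : ∀ i, (EV k).obj M ⟶ lineBundle (Sdeg k) (a i))
      (v : ∀ i, lineBundle (Sdeg k) (a i) ⟶ (EV k).obj N), (EV k).map g = ∑ i, u i ≫ v i) ↔
      ∃ h ∈ Deg k M.a N.a (-21), mat g = N.φ * h + h * M.φ := by
  rw [null_iff_factors]
  constructor
  · rintro ⟨n, a, u, v, h⟩
    refine ⟨n, a, fun i => (EV k).preimage (u i ≫ (isoO _).inv),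
      fun i => (EV k).preimage ((isoO _).hom ≫ v i), (EV k).map_injective ?_⟩
    simp [h, Functor.map_sum]
  · rintro ⟨n, a, u, v, rfl⟩
    exact ⟨n, a, fun i => (EV k).map (u i) ≫ (isoO _).hom, fun i => (isoO _).inv ≫ (EV k).map (v i),
      by simp [Functor.map_sum]⟩

theorem coyoneda_shortExact_iff {V : Type*} [Category V] [Preadditive V] (P : V)
    (X : ShortComplex V) :
    (X.map (preadditiveCoyoneda.obj (Opposite.op P))).ShortExact ↔
      (∀ u : P ⟶ X.X₁, u ≫ X.f = 0 → u = 0) ∧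
      (∀ u : P ⟶ X.X₂, u ≫ X.g = 0 → ∃ v, v ≫ X.f = u) ∧ ∀ u : P ⟶ X.X₃, ∃ v, v ≫ X.g = u := by
  constructor
  · intro h
    exact ⟨(injective_iff_map_eq_zero _).1 ((AddCommGrpCat.mono_iff_injective _).1 h.mono_f),
      (ShortComplex.ab_exact_iff _).1 h.exact, (AddCommGrpCat.epi_iff_surjective _).1 h.epi_g⟩
  · rintro ⟨h₁, h₂, h₃⟩
    exact ShortComplex.ShortExact.mk' ((ShortComplex.ab_exact_iff _).2 h₂)
      ((AddCommGrpCat.mono_iff_injective _).2 ((injective_iff_map_eq_zero _).2 h₁))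
      ((AddCommGrpCat.epi_iff_surjective _).2 h₃)

theorem distinguished_of_splitting (X : ShortComplex (MF k)) {r s} (hr : r ∈ Deg k X.X₂.a X.X₁.a 0)
    (hs : s ∈ Deg k X.X₃.a X.X₂.a 0) (h₁ : r * mat X.f = 1) (h₂ : mat X.g * s = 1)
    (h₃ : mat X.f * r + s * mat X.g = 1) : Distinguished (Sdeg k) (X.map (EV k)) := by
  have e₁ : ∀ v, mat X.f *ᵥ v = 0 → v = 0 := fun v hv => by
    rw [← one_mulVec v, ← h₁, ← mulVec_mulVec, hv, mulVec_zero]
  have e₂ : ∀ v, mat X.g *ᵥ v = 0 → mat X.f *ᵥ (r *ᵥ v) = v := fun v hv => by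
    conv_rhs => rw [← one_mulVec v, ← h₃, add_mulVec, ← mulVec_mulVec, ← mulVec_mulVec, hv,
      mulVec_zero, add_zero]
  have e₃ : ∀ v, mat X.g *ᵥ (s *ᵥ v) = v := fun v => by rw [mulVec_mulVec, h₂, one_mulVec]
  refine ⟨?_, fun a => (coyoneda_shortExact_iff _ _).2 ⟨fun u hu => ?_, fun u hu => ?_, fun u => ?_⟩⟩
  · have := ObjectProperty.SerreClassLocalization.preservesFiniteLimits (sheaf (Sdeg k)) (finLen _)
    have := ObjectProperty.SerreClassLocalization.preservesFiniteColimits (sheaf (Sdeg k)) (finLen _)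
    have h : (X.map (Gam k)).ShortExact :=
      ShortExact.reflects_shortExact_of_faithful (GrMod.forget _) (ShortComplex.ShortExact.mk'
        ((ShortComplex.moduleCat_exact_iff _).2 fun v hv => ⟨_, e₂ v hv⟩)
        ((ModuleCat.mono_iff_injective _).2 ((injective_iff_map_eq_zero _).2 e₁))
        ((ModuleCat.epi_iff_surjective _).2 fun v => ⟨_, e₃ v⟩))
    exact h.map_of_exact (sheaf _)
  · obtain ⟨w, hw⟩ := (EV k).map_surjective ((isoO a).hom ≫ u)
    have : w ≫ X.f = 0 := (EV k).map_injective (by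
      rw [Functor.map_comp, hw, Category.assoc, Functor.map_zero]
      exact (_ ≫= hu).trans comp_zero)
    obtain rfl : w = 0 := ev1_inj (e₁ _ ((ev1_comp _ _).symm.trans (by rw [this]; rfl)))
    rw [← cancel_epi (isoO a).hom, ← hw, Functor.map_zero, comp_zero]
  · obtain ⟨w, hw⟩ := (EV k).map_surjective ((isoO a).hom ≫ u)
    have : w ≫ X.g = 0 := (EV k).map_injective (by
      rw [Functor.map_comp, hw, Category.assoc, Functor.map_zero]
      exact (_ ≫= hu).trans comp_zero)
    obtain ⟨v, hv⟩ := exists_hom_Fr1 (mulVec_mem_Vdeg hr (ev1_mem w) (zero_add _).symm)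
    obtain rfl : v ≫ X.f = w := ev1_inj (by
      rw [ev1_comp, hv, e₂ _ ((ev1_comp _ _).symm.trans (by rw [this]; rfl))])
    refine ⟨(isoO a).inv ≫ (EV k).map v, ?_⟩
    rw [Category.assoc, Iso.inv_comp_eq, ← hw, Functor.map_comp]
    rfl
  · obtain ⟨w, hw⟩ := (EV k).map_surjective ((isoO a).hom ≫ u)
    obtain ⟨v, hv⟩ := exists_hom_Fr1 (mulVec_mem_Vdeg hs (ev1_mem w) (zero_add _).symm)
    obtain rfl : v ≫ X.g = w := ev1_inj (by rw [ev1_comp, hv, e₃])
    refine ⟨(isoO a).inv ≫ (EV k).map v, ?_⟩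
    rw [Category.assoc, Iso.inv_comp_eq, ← hw, Functor.map_comp]
    rfl

/-- The injective hull `0 → M → I(M) → M[1] → 0`. -/
noncomputable def hull (M : MF k) : ShortComplex (MF k) where
  X₁ := M
  X₂ := Fr (objP M.ι fun i => M.a i + 21)
  X₃ := M.tw 21 (-1)
  f := homMk (fromRows M.φ 1) (fromRows_mem.2 ⟨mem_Deg_congr M.deg fun i j => by simp [hts]; ring,
    one_mem_Deg fun i => by simp [hts]⟩) (by
      rw [fromBlocks_mul_fromRows, fromRows_mul, M.sq]
      ext (i | i) j : 1 <;> simp [one_apply])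
  g := homMk (fromCols (1 : Matrix M.ι M.ι (R k)) (-M.φ)) (by
      rintro i (j | j)
      · exact one_mem_Deg (a := fun i => M.a i + 21) (b := fun i => M.a i + 21) (d := 0)
          (fun i => by simp) i j
      · exact mem_Rd_congr (neg_mem M.deg i j) (by simp [hts₂]; ring)) (by
      rw [fromCols_mul_fromBlocks, mul_fromCols]
      ext i (j | j) : 1 <;> simp [one_apply, M.sq])
  zero := MF.hom_ext (by simp [fromCols_mul_fromRows])

theorem hull_distinguished (M : MF k) : Distinguished (Sdeg k) ((hull M).map (EV k)) := by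
  refine distinguished_of_splitting (hull M) (r := fromCols 0 (1 : Matrix M.ι M.ι (R k)))
    (s := fromRows (1 : Matrix M.ι M.ι (R k)) 0) ?_ ?_ ?_ ?_ ?_
  · rintro i (j | j)
    · exact zero_mem _
    · exact one_mem_Deg (a := fun i => M.a i + 21 - 21) (b := M.a) (d := 0)
        (fun i => by simp) i j
  · exact fromRows_mem.2 ⟨one_mem_Deg fun i => by simp [hull, hts], zero_mem _⟩
  · simp [hull, fromCols_mul_fromRows]
  · simp [hull, fromCols_mul_fromRows]
  · refine (congrArg₂ (· + ·) (fromRows_mul_fromCols M.φ 1 0 (1 : Matrix M.ι M.ι (R k)))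
      (fromRows_mul_fromCols 1 0 (1 : Matrix M.ι M.ι (R k)) (-M.φ))).trans ?_
    ext (i | i) (j | j) : 1 <;> simp [one_apply]

/-- Functoriality of the injective hull. -/
noncomputable def hullMap {M N : MF k} (g : M ⟶ N) : hull M ⟶ hull N where
  τ₁ := g
  τ₂ := homMk (fromBlocks (mat g) 0 0 (mat g)) (by
      rintro (i | i) (j | j)
      · exact mem_Rd_congr (mat_deg g i j) (by simp [hull, hts₂, hts])
      · exact zero_mem _
      · exact zero_mem _
      · exact mem_Rd_congr (mat_deg g i j) (by simp [hull, hts₂, hts])) (by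
      simp [hull, fromBlocks_multiply])
  τ₃ := twMap 21 (-1) g
  comm₁₂ := MF.hom_ext (by simp [hull, fromBlocks_mul_fromRows, fromRows_mul, mat_comm])
  comm₂₃ := MF.hom_ext (by simp [hull, twMap, fromCols_mul_fromBlocks, mul_fromCols, mat_comm])

theorem StableCategory.exists_model {T : Type*} [Category T] [HasZeroObject T] [Preadditive T]
    [HasShift T ℤ] [∀ n : ℤ, (shiftFunctor T n).Additive] [Pretriangulated T]
    (hT : StableCategory (lineBundle (Sdeg k)) (Distinguished (Sdeg k)) T) :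
    Nonempty (Model k T) := by
  have := hT.additive
  have := hT.full
  have := hT.essSurj
  have hz : ∀ {M N : MF k} (g : M ⟶ N), (EV k ⋙ hT.π).map g = 0 ↔
      ∃ h ∈ Deg k M.a N.a (-21), mat g = N.φ * h + h * M.φ := fun g =>
    (hT.map_eq_zero_iff _).trans (factors_iff g)
  have hδ : ∀ M : MF k, IsIso (hT.δ _ (hull_distinguished M)) := fun M =>
    (Triangle.isZero₂_iff_isIso₃ _ (hT.distinguished _ (hull_distinguished M))).1
      ((IsZero.iff_id_eq_zero _).2 (((EV k ⋙ hT.π).map_id _).symm.trans ((hz _).2 (Fr_id_null _))))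
  exact ⟨
    { E := EV k ⋙ hT.π
      additive := inferInstance
      full := inferInstance
      essSurj := inferInstance
      zero_iff := hz
      sh := fun M => asIso (hT.δ _ (hull_distinguished M))
      sh_nat := fun g => hT.δ_naturality (hull_distinguished _) (hull_distinguished _)
        ((EV k).mapShortComplex.map (hullMap g)) }⟩

end Pool.Agent.Work.MP_8b4bd2_al
end

-- merged part: Pool.Agent.Work.MP_8b4bd2_al.DNat
section
/-!
The connecting morphism of a degreewise split sequence is natural up to homotopy.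
The homotopy is `(σ n).s ≫ φ.τ₂.f n ≫ (σ' n).r` up to sign (`Homotopy.nullHomotopy'`, or
`CochainComplex.HomComplex.Cochain.equivHomotopy`); `homOfDegreewiseSplit_f`.
-/

set_option backward.isDefEq.respectTransparency false
set_option backward.defeqAttrib.useBackward true

namespace Pool.Agent.Work.MP_8b4bd2_al

open CategoryTheory Limits CochainComplex

theorem homOfDegreewiseSplit_naturality {C : Type*} [Category C] [Preadditive C]
    {S S' : ShortComplex (CochainComplex C ℤ)}
    (σ : ∀ n, (S.map (HomologicalComplex.eval _ _ n)).Splitting)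
    (σ' : ∀ n, (S'.map (HomologicalComplex.eval _ _ n)).Splitting) (φ : S ⟶ S') :
    Nonempty (Homotopy (φ.τ₃ ≫ homOfDegreewiseSplit S' σ')
      (homOfDegreewiseSplit S σ ≫ φ.τ₁⟦(1 : ℤ)⟧')) := by
  let s : ∀ n, S.X₃.X n ⟶ S.X₂.X n := fun n => (σ n).s
  let r : ∀ n, S.X₂.X n ⟶ S.X₁.X n := fun n => (σ n).r
  let s' : ∀ n, S'.X₃.X n ⟶ S'.X₂.X n := fun n => (σ' n).s
  let r' : ∀ n, S'.X₂.X n ⟶ S'.X₁.X n := fun n => (σ' n).r
  have key : ∀ n : ℤ, φ.τ₃.f n ≫ s' n ≫ S'.X₂.d n (n + 1) ≫ r' (n + 1) =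
      S.X₃.d n (n + 1) ≫ s (n + 1) ≫ φ.τ₂.f (n + 1) ≫ r' (n + 1) +
        -(s n ≫ φ.τ₂.f n ≫ r' n ≫ S'.X₁.d n (n + 1)) +
      s n ≫ S.X₂.d n (n + 1) ≫ r (n + 1) ≫ φ.τ₁.f (n + 1) := by
    intro n
    have e1 : S.g.f n ≫ φ.τ₃.f n = φ.τ₂.f n ≫ S'.g.f n := by
      rw [← HomologicalComplex.comp_f, ← HomologicalComplex.comp_f, φ.comm₂₃]
    have e2 : φ.τ₁.f (n + 1) ≫ S'.f.f (n + 1) = S.f.f (n + 1) ≫ φ.τ₂.f (n + 1) := by
      rw [← HomologicalComplex.comp_f, ← HomologicalComplex.comp_f, φ.comm₁₂]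
    have s_g : s n ≫ S.g.f n = 𝟙 _ := (σ n).s_g
    have g_s : S'.g.f n ≫ s' n = 𝟙 _ - r' n ≫ S'.f.f n := (σ' n).g_s
    have f_r : S'.f.f (n + 1) ≫ r' (n + 1) = 𝟙 _ := (σ' (n + 1)).f_r
    have r_f : r (n + 1) ≫ S.f.f (n + 1) = 𝟙 _ - S.g.f (n + 1) ≫ s (n + 1) := (σ (n + 1)).r_f
    have e3 : φ.τ₃.f n = s n ≫ φ.τ₂.f n ≫ S'.g.f n := by
      rw [← e1, reassoc_of% s_g]
    have e4 : φ.τ₁.f (n + 1) = S.f.f (n + 1) ≫ φ.τ₂.f (n + 1) ≫ r' (n + 1) := by
      rw [← reassoc_of% e2, f_r, Category.comp_id]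
    rw [e3, e4, Category.assoc, Category.assoc, reassoc_of% g_s, reassoc_of% r_f]
    simp only [Preadditive.sub_comp, Preadditive.comp_sub, Category.id_comp, Category.assoc]
    rw [S'.f.comm_assoc, f_r, Category.comp_id, ← S.g.comm_assoc, reassoc_of% s_g, φ.τ₂.comm_assoc]
    abel
  refine ⟨{ hom := fun i j => if h : j + 1 = i then
              s i ≫ φ.τ₂.f i ≫ r' i ≫ (S'.X₁.XIsoOfEq h.symm).hom else 0
            zero := fun i j hij => dif_neg hij
            comm := fun n => ?_ }⟩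
  have h₁ : (ComplexShape.up ℤ).Rel (n - 1) n := by simp
  have h₂ : (ComplexShape.up ℤ).Rel n (n + 1) := by simp
  rw [dNext_eq _ h₂, prevD_eq _ h₁, dif_pos rfl, dif_pos (by omega)]
  simpa [cocycleOfDegreewiseSplit] using key n

end Pool.Agent.Work.MP_8b4bd2_al
end

-- merged part: Pool.Agent.Work.MP_8b4bd2_al.NonVac
section
/-!
The homotopy category of totally acyclic complexes is the stable category of vector bundles.
-/

set_option backward.isDefEq.respectTransparency false
set_option backward.defeqAttrib.useBackward true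

namespace Pool.Agent.Work.MP_8b4bd2_al

open CategoryTheory Limits Matrix MF Pretriangulated CochainComplex

universe u

variable {k : Type u} [Field k]

variable (k) in
/-- The matrix factorisation of a vector bundle. -/
noncomputable abbrev VE : Vect (Sdeg k) ⥤ MF k := (EV k).asEquivalence.inverse

instance : (VE k).Additive :=
  have : (EV k).asEquivalence.functor.Additive := (inferInstance : (EV k).Additive)
  Equivalence.inverse_additive _

theorem EV_map_VE_map {X Y : Vect (Sdeg k)} (f : X ⟶ Y) : (EV k).map ((VE k).map f) =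
    (EV k).asEquivalence.counit.app X ≫ f ≫ (EV k).asEquivalence.counitInv.app Y :=
  (EV k).asEquivalence.fun_inv_map _ _ f

/-- Maps from a free module of rank one are maps from a line bundle. -/
noncomputable def theta (a : ℤ) (Z : Vect (Sdeg k)) :
    (Fr1 a ⟶ (VE k).obj Z) ≃ (lineBundle (Sdeg k) a ⟶ Z) :=
  ((EV k).asEquivalence.toAdjunction.homEquiv _ _).symm.trans
    (Iso.homCongr (isoO a) (Iso.refl _))

theorem theta_apply (a : ℤ) {Z : Vect (Sdeg k)} (u : Fr1 a ⟶ (VE k).obj Z) :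
    theta a Z u = (isoO a).inv ≫ (EV k).map u ≫ (EV k).asEquivalence.counit.app Z := by
  simp [theta, Adjunction.homEquiv_counit]

theorem theta_comp (a : ℤ) {Z Z' : Vect (Sdeg k)} (u : Fr1 a ⟶ (VE k).obj Z) (f : Z ⟶ Z') :
    theta a Z' (u ≫ (VE k).map f) = theta a Z u ≫ f := by
  simp [theta_apply, EV_map_VE_map]

theorem theta_zero (a : ℤ) (Z : Vect (Sdeg k)) : theta a Z 0 = 0 := by simp [theta_apply]

theorem nonempty_splitting {X : ShortComplex (Vect (Sdeg k))} (hX : Distinguished _ X) :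
    Nonempty (∀ n, (((X.map (VE k)).map E1).map (HomologicalComplex.eval _ _ n)).Splitting) := by
  have h := fun a => (coyoneda_shortExact_iff _ _).1 (hX.2 a)
  obtain ⟨r, hr, s, hs, h₁, h₂, h₃⟩ := exists_splitting _ _ (X.map (VE k)).zero
    (fun a u hu => (theta a _).injective (((h a).1 _ (((theta_comp a u X.f).symm.trans
      (congrArg _ hu)).trans (theta_zero _ _))).trans (theta_zero _ _).symm))
    (fun a u hu => by
      obtain ⟨v, hv⟩ := (h a).2.1 _ (((theta_comp a u X.g).symm.trans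
        (congrArg _ hu)).trans (theta_zero _ _))
      obtain ⟨v, rfl⟩ := (theta a _).surjective v
      exact ⟨v, (theta a _).injective ((theta_comp a v X.f).trans hv)⟩)
    (fun a u => by
      obtain ⟨v, hv⟩ := (h a).2.2 (theta a _ u)
      obtain ⟨v, rfl⟩ := (theta a _).surjective v
      exact ⟨v, (theta a _).injective ((theta_comp a v X.g).trans hv)⟩)
  generalize X.map (VE k) = Y at *
  refine ⟨fun n =>
    { r := (mkP r 0 (mem_Deg_congr hr fun i j => by dsimp [hts]; omega) (zero_mem _) :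
        EX Y.X₂ n ⟶ EX Y.X₁ n)
      s := (mkP s 0 (mem_Deg_congr hs fun i j => by dsimp [hts]; omega) (zero_mem _) :
        EX Y.X₃ n ⟶ EX Y.X₂ n)
      f_r := smat_inj ?_
      s_g := smat_inj ?_
      id := smat_inj ?_ }⟩
  · refine (smat_comp _ _).trans ((sm_mul r 0 (mat Y.f) 0).trans
      (Eq.trans ?_ (smat_id (EX Y.X₁ n)).symm))
    simp [h₁, sm_one]
  · refine (smat_comp _ _).trans ((sm_mul (mat Y.g) 0 s 0).trans
      (Eq.trans ?_ (smat_id (EX Y.X₃ n)).symm))
    simp [h₂, sm_one]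
  · refine (smat_add _ _).trans (Eq.trans ?_ (smat_id (EX Y.X₂ n)).symm)
    rw [smat_comp, smat_comp]
    change sm (mat Y.f) 0 * sm r 0 + sm s 0 * sm (mat Y.g) 0 = _
    simp [sm_mul, sm_add, h₃, sm_one]

/-- The connecting morphism. -/
noncomputable def dlt (X : ShortComplex (Vect (Sdeg k))) (hX : Distinguished _ X) :
    (VE k ⋙ E2 k).obj X.X₃ ⟶ ((VE k ⋙ E2 k).obj X.X₁)⟦(1 : ℤ)⟧ :=
  ObjectProperty.homMk ((trianglehOfDegreewiseSplit _ (nonempty_splitting hX).some).mor₃ ≫
    ((tac (LB k)).ι.commShiftIso (1 : ℤ)).inv.app ((VE k ⋙ E2 k).obj X.X₁))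

theorem ι_map_dlt (X : ShortComplex (Vect (Sdeg k))) (hX : Distinguished _ X) :
    (tac (LB k)).ι.map (dlt X hX) =
    (HomotopyCategory.quotient _ _).map (homOfDegreewiseSplit _ (nonempty_splitting hX).some) ≫
      ((HomotopyCategory.quotient _ _).commShiftIso (1 : ℤ)).hom.app (E0 ((VE k).obj X.X₁)) ≫
        ((tac (LB k)).ι.commShiftIso (1 : ℤ)).inv.app ((VE k ⋙ E2 k).obj X.X₁) :=
  Category.assoc _ _ _

theorem exists_stable' (k : Type u) [Field k] : Nonempty (StableCategory (lineBundle (Sdeg k))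
    (Distinguished (Sdeg k)) (tac (LB k)).FullSubcategory) := by
  have := (E2_model k).additive
  have := (E2_model k).full
  have := (E2_model k).essSurj
  refine ⟨
    { π := VE k ⋙ (E2_model k).E
      additive := inferInstance
      full := inferInstance
      essSurj := inferInstance
      map_eq_zero_iff := fun {X Y} f => ((E2_model k).zero_iff _).trans
        ((factors_iff _).symm.trans ?_)
      δ := dlt
      δ_naturality := fun {X Y} hX hY φ => (tac (LB k)).ι.map_injective ?_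
      distinguished := fun X hX => ?_ }⟩
  · rw [EV_map_VE_map]
    constructor
    · rintro ⟨n, a, u, v, h⟩
      refine ⟨n, a, fun i => (EV k).asEquivalence.counitInv.app X ≫ u i,
        fun i => v i ≫ (EV k).asEquivalence.counit.app Y, ?_⟩
      have := ((EV k).asEquivalence.counitInv.app X ≫= h) =≫ (EV k).asEquivalence.counit.app Y
      simpa [Preadditive.comp_sum, Preadditive.sum_comp] using this
    · rintro ⟨n, a, u, v, rfl⟩
      exact ⟨n, a, fun i => (EV k).asEquivalence.counit.app X ≫ u i,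
        fun i => v i ≫ (EV k).asEquivalence.counitInv.app Y,
        by simp [Preadditive.comp_sum, Preadditive.sum_comp]⟩
  · obtain ⟨H⟩ := homOfDegreewiseSplit_naturality (nonempty_splitting hX).some
      (nonempty_splitting hY).some (E1.mapShortComplex.map ((VE k).mapShortComplex.map φ))
    have h₃ := HomotopyCategory.eq_of_homotopy _ _ H
    have h₁ := ((tac (LB k)).ι.commShiftIso (1 : ℤ)).inv.naturality ((VE k ⋙ E2 k).map φ.τ₁)
    have h₂ := ((HomotopyCategory.quotient (Proj k) (ComplexShape.up ℤ)).commShiftIso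
      (1 : ℤ)).hom.naturality (Ech ((VE k).map φ.τ₁))
    simp only [Functor.comp_map, Functor.map_comp] at h₁ h₂ h₃
    rw [Functor.map_comp, Functor.map_comp, ι_map_dlt, ι_map_dlt, Category.assoc,
      Category.assoc]
    erw [← h₁, reassoc_of% h₃, reassoc_of% h₂]
    rfl
  · refine (HomotopyCategory.distinguished_iff_iso_trianglehOfDegreewiseSplit _).2
      ⟨_, (nonempty_splitting hX).some, ⟨Triangle.isoMk _ _ (Iso.refl _) (Iso.refl _) (Iso.refl _)
        ?_ ?_ ?_⟩⟩
    · exact (Category.comp_id _).trans (Category.id_comp _).symm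
    · exact (Category.comp_id _).trans (Category.id_comp _).symm
    · change ((tac (LB k)).ι.map (dlt X hX) ≫ _) ≫ (𝟙 _)⟦(1 : ℤ)⟧' = 𝟙 _ ≫ _
      rw [ι_map_dlt, CategoryTheory.Functor.map_id, Category.comp_id, Category.id_comp,
        Category.assoc, Category.assoc]
      erw [Iso.inv_hom_id_app, Category.comp_id]
      rfl

theorem exists_stable (k : Type u) [Field k] : Nonempty (StableCategory (lineBundle (Sdeg k))
    (Distinguished (Sdeg k)) (StabVect k)) := exists_stable' k

end Pool.Agent.Work.MP_8b4bd2_al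
end
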