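import Pool.Agent.Work.MP_8b4bd2_al.Defs
import Pool.Agent.Work.MP_8b4bd2_al.EmbK
import Pool.Agent.Work.MP_8b4bd2_al.Coh

-- merged part: Pool.Agent.Work.MP_8b4bd2_al.Tac
section
-- merged part: Pool.Agent.Work.MP_8b4bd2_al.RingS
section
/-!
`S = R ⊕ x R` as graded modules.
`exists_decomp`: `IsWeightedHomogeneous.induction_on`, then induction on the exponent of `x`.
`decomp_unique`: a ring map `S → QuadraticAlgebra R (-ff) 0` (or `2 × 2` matrices, or `AdjoinRoot`).
-/

namespace Pool.Agent.Work.MP_8b4bd2_al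

open MvPolynomial

universe u

variable {k : Type u} [Field k]

noncomputable def iota : R k →ₐ[k] S k :=
  aeval ![mkS k (X 1), mkS k (X 2)]

noncomputable def xS : S k := mkS k (X 0)

theorem RingS_iota_eq (p : R k) :
    iota p = mkS k (rename (Fin.succ : Fin 2 → Fin 3) p) := by
  have : (iota : R k →ₐ[k] S k) =
      (mkS k).comp (rename (Fin.succ : Fin 2 → Fin 3)) := by
    refine algHom_ext fun i => ?_
    fin_cases i <;> simp [iota]
  rw [this]
  rfl

theorem xS_sq : (xS : S k) * xS = -iota ff := by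
  rw [eq_neg_iff_add_eq_zero, RingS_iota_eq, xS, ← map_mul, ← map_add]
  refine Ideal.Quotient.eq_zero_iff_mem.2 (Ideal.subset_span ?_)
  simp [ff, sq, add_assoc]

theorem iota_mem {d : ℤ} {p : R k} (h : p ∈ Rd k d) : iota p ∈ Sdeg k d := by
  rw [p.as_sum, map_sum]
  refine Submodule.sum_mem _ fun m hm => ?_
  rw [RingS_iota_eq, rename_monomial]
  refine ⟨_, isWeightedHomogeneous_monomial _ _ _ ?_, rfl⟩
  rw [← mem_Rd.1 h m (mem_support_iff.1 hm), Finsupp.weight_apply,
    Finsupp.sum_mapDomain_index (by simp) (by intros; rw [add_smul]),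
    Finsupp.sum_fintype _ _ (by simp)]
  simp [Fin.sum_univ_two]
  ring

theorem xS_mem : (xS : S k) ∈ Sdeg k 21 := ⟨X 0, isWeightedHomogeneous_X k _ 0, rfl⟩

theorem RingS_pow (a : ℕ) {e : ℤ} {r : R k} (hr : r ∈ Rd k e) :
    ∃ p ∈ Rd k (21 * a + e), ∃ q ∈ Rd k (21 * a + e - 21),
      (xS : S k) ^ a * iota r = iota p + xS * iota q := by
  induction a with
  | zero => exact ⟨r, mem_Rd_congr hr (by simp), 0, zero_mem _, by simp⟩
  | succ a ih =>
    obtain ⟨p, hp, q, hq, h⟩ := ih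
    refine ⟨-(ff * q), neg_mem (mul_mem_Rd ff_mem hq (by push_cast; ring)), p,
      mem_Rd_congr hp (by push_cast; ring), ?_⟩
    rw [map_neg, map_mul]
    linear_combination xS * h + iota q * xS_sq (k := k)

theorem exists_decomp {d : ℤ} {s : S k} (h : s ∈ Sdeg k d) :
    ∃ p ∈ Rd k d, ∃ q ∈ Rd k (d - 21), s = iota p + xS * iota q := by
  obtain ⟨P, hP, rfl⟩ := h
  replace hP : IsWeightedHomogeneous (![21, 14, 6] : Fin 3 → ℤ) P d := hP
  induction hP using IsWeightedHomogeneous.induction_on with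
  | zero => exact ⟨0, zero_mem _, 0, zero_mem _, by simp⟩
  | add P Q _ _ ihP ihQ =>
    obtain ⟨p, hp, q, hq, h⟩ := ihP
    obtain ⟨p', hp', q', hq', h'⟩ := ihQ
    refine ⟨p + p', add_mem hp hp', q + q', add_mem hq hq', ?_⟩
    rw [map_add, h, h', map_add, map_add]
    ring
  | monomial m c hm =>
    have hd : 21 * (m 0 : ℤ) + (14 * (m 1 : ℤ) + 6 * (m 2 : ℤ)) = d := by
      rw [← hm, Finsupp.weight_apply, Finsupp.sum_fintype _ _ (by simp)]
      simp [Fin.sum_univ_three]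
      ring
    have hr : (C c * (yy ^ m 1 * zz ^ m 2) : R k) ∈ Rd k (14 * (m 1 : ℤ) + 6 * (m 2 : ℤ)) :=
      mul_mem_Rd (C_mem_Rd c rfl)
        (mul_mem_Rd (pow_mem_Rd yy_mem _ rfl) (pow_mem_Rd zz_mem _ rfl) rfl) (by ring)
    obtain ⟨p, hp, q, hq, h⟩ := RingS_pow (m 0) hr
    rw [hd] at hp hq
    refine ⟨p, hp, q, hq, ?_⟩
    rw [← h, RingS_iota_eq, xS, ← map_pow, ← map_mul, AlgHom.toLinearMap_apply]
    congr 1
    rw [monomial_eq, Finsupp.prod_fintype _ _ (by simp), Fin.prod_univ_three]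
    simp
    ring

theorem decomp_unique {p q : R k} (h : iota p + xS * iota q = (0 : S k)) : p = 0 ∧ q = 0 := by
  let A := QuadraticAlgebra (R k) (-ff) 0
  let φ : MvPolynomial (Fin 3) k →ₐ[k] A :=
    aeval ![QuadraticAlgebra.omega, algebraMap (R k) A (X 0), algebraMap (R k) A (X 1)]
  have hφ : ∀ a ∈ Ideal.span {(X 0 ^ 2 + X 1 ^ 3 + X 2 ^ 7 : MvPolynomial (Fin 3) k)},
      φ a = 0 := by
    intro a ha
    obtain ⟨b, rfl⟩ := Ideal.mem_span_singleton'.1 ha
    have h1 : (QuadraticAlgebra.omega : A) ^ 2 = -algebraMap (R k) A (X 0 ^ 3 + X 1 ^ 7) := by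
      change _ = -algebraMap (R k) A ff
      rw [sq, QuadraticAlgebra.omega_mul_omega_eq_mk]
      ext : 1 <;> simp [A]
    have h2 : φ (X 0 ^ 2 + X 1 ^ 3 + X 2 ^ 7) = 0 := by
      simp only [φ, map_add, map_pow, aeval_X]
      simp only [Matrix.cons_val_zero, Matrix.cons_val_one, Matrix.cons_val]
      rw [h1, map_add, map_pow, map_pow]
      ring
    rw [map_mul, h2, mul_zero]
  let ψ : S k →ₐ[k] A := Ideal.Quotient.liftₐ _ φ hφ
  have h0 : ∀ P, ψ (mkS k P) = φ P := fun _ => rfl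
  have h1 : ∀ r : R k, ψ (iota r) = algebraMap (R k) A r := by
    intro r
    have : ψ.comp iota = IsScalarTower.toAlgHom k (R k) A := by
      refine algHom_ext fun i => ?_
      fin_cases i <;> simp [iota, h0, φ]
    exact DFunLike.congr_fun this r
  have h2 : ψ xS = QuadraticAlgebra.omega := by
    simp [xS, h0, φ]
  have h3 := congrArg ψ h
  rw [map_add, map_mul, h1, h1, h2, map_zero] at h3
  have h4 := congrArg QuadraticAlgebra.re h3
  have h5 := congrArg QuadraticAlgebra.im h3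
  simp [A] at h4 h5
  exact ⟨h4, h5⟩

end Pool.Agent.Work.MP_8b4bd2_al
end

-- merged part: Pool.Agent.Work.MP_8b4bd2_al.SMat
section
/-!
Morphisms of `Proj k` as pairs of matrices over `R`.
-/

set_option backward.isDefEq.respectTransparency false

namespace Pool.Agent.Work.MP_8b4bd2_al

open CategoryTheory Matrix

universe u

variable {k : Type u} [Field k] {ι κ μ : Type*}

/-- The matrix `A + x B` over `S`. -/
noncomputable def sm (A B : Matrix κ ι (R k)) : Matrix κ ι (S k) :=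
  A.map iota + (xS : S k) • B.map iota

theorem sm_apply (A B : Matrix κ ι (R k)) (i : κ) (j : ι) :
    sm A B i j = iota (A i j) + xS * iota (B i j) := rfl

theorem sm_add (A B A' B' : Matrix κ ι (R k)) : sm A B + sm A' B' = sm (A + A') (B + B') := by
  ext i j : 1
  simp only [Matrix.add_apply, sm_apply, map_add]
  ring

theorem sm_sub (A B A' B' : Matrix κ ι (R k)) : sm A B - sm A' B' = sm (A - A') (B - B') := by
  ext i j : 1
  simp only [Matrix.sub_apply, sm_apply, map_sub]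
  ring

theorem sm_neg (A B : Matrix κ ι (R k)) : -sm A B = sm (-A) (-B) := by
  ext i j : 1
  simp only [Matrix.neg_apply, sm_apply, map_neg]
  ring

theorem sm_zero : sm (0 : Matrix κ ι (R k)) 0 = 0 := by
  ext i j : 1
  simp [sm_apply]

theorem sm_one [DecidableEq ι] : sm (1 : Matrix ι ι (R k)) 0 = 1 := by
  ext i j : 1
  by_cases h : i = j <;> simp [sm_apply, Matrix.one_apply, h]

theorem sm_mul [Fintype κ] (A B : Matrix μ κ (R k)) (A' B' : Matrix κ ι (R k)) :
    sm A B * sm A' B' = sm (A * A' - (ff : R k) • (B * B')) (A * B' + B * A') := by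
  ext i j : 1
  simp only [Matrix.mul_apply, sm_apply, Matrix.sub_apply, Matrix.add_apply, Matrix.smul_apply,
    smul_eq_mul, map_sub, map_add, map_mul, map_sum, Finset.mul_sum, ← Finset.sum_sub_distrib,
    ← Finset.sum_add_distrib]
  refine Finset.sum_congr rfl fun l _ => ?_
  linear_combination (iota (B i l) * iota (B' l j)) * (xS_sq (k := k))

theorem sm_inj {A B A' B' : Matrix κ ι (R k)} (h : sm A B = sm A' B') : A = A' ∧ B = B' := by
  have h' : ∀ i j, A i j - A' i j = 0 ∧ B i j - B' i j = 0 := fun i j => decomp_unique (by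
    have := congrFun (congrFun h i) j
    simp only [sm_apply] at this
    simp only [map_sub]
    linear_combination this)
  exact ⟨Matrix.ext fun i j => sub_eq_zero.1 (h' i j).1, Matrix.ext fun i j => sub_eq_zero.1 (h' i j).2⟩

theorem sm_eq_zero {A B : Matrix κ ι (R k)} (h : sm A B = 0) : A = 0 ∧ B = 0 :=
  sm_inj (h.trans sm_zero.symm)

/-- The heights of an object of `Proj k`. -/
abbrev hts (X : Proj k) : X.ι → ℤ := fun i => (X.X i).a

/-- The object `⊕ O(a i)`. -/
abbrev objP (ι : Type) [Fintype ι] (a : ι → ℤ) : Proj k := ⟨ι, fun i => ⟨a i⟩⟩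

/-- The matrix over `S` of a morphism. -/
def smat {X Y : Proj k} (f : X ⟶ Y) : Matrix Y.ι X.ι (S k) := Matrix.of fun j i => (f i j).1

theorem smat_inj {X Y : Proj k} {f g : X ⟶ Y} (h : smat f = smat g) : f = g :=
  Mat_.hom_ext _ _ fun i j => Subtype.ext (congrFun (congrFun h j) i)

theorem smat_comp {X Y Z : Proj k} (f : X ⟶ Y) (g : Y ⟶ Z) : smat (f ≫ g) = smat g * smat f := by
  ext l i : 1
  change (Sdeg k ((Z.X l).a - (X.X i).a)).subtype (∑ j, f i j ≫ g j l) = _
  rw [map_sum, Matrix.mul_apply]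
  exact Finset.sum_congr rfl fun j _ => mul_comm _ _

theorem smat_add {X Y : Proj k} (f g : X ⟶ Y) : smat (f + g) = smat f + smat g := rfl
theorem smat_sub {X Y : Proj k} (f g : X ⟶ Y) : smat (f - g) = smat f - smat g := rfl
theorem smat_neg {X Y : Proj k} (f : X ⟶ Y) : smat (-f) = -smat f := rfl
theorem smat_zero {X Y : Proj k} : smat (0 : X ⟶ Y) = 0 := rfl

theorem smat_id (X : Proj k) [DecidableEq X.ι] : smat (𝟙 X) = 1 := by
  ext j i : 1
  by_cases h : i = j
  · subst h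
    change ((𝟙 X : X ⟶ X) i i).1 = _
    rw [Mat_.id_apply_self, Matrix.one_apply_eq]
    rfl
  · change ((𝟙 X : X ⟶ X) i j).1 = _
    rw [Mat_.id_apply_of_ne _ _ _ h, Matrix.one_apply_ne (Ne.symm h)]
    rfl

/-- The morphism with matrix `A + x B`. -/
noncomputable def mkP {X Y : Proj k} (A B : Matrix Y.ι X.ι (R k))
    (hA : A ∈ Deg k (hts X) (hts Y) 0) (hB : B ∈ Deg k (hts X) (hts Y) (-21)) : X ⟶ Y :=
  fun i j => ⟨sm A B j i, add_mem (iota_mem (mem_Rd_congr (hA j i) (add_zero _)))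
    (mul_mem_Sdeg xS_mem (iota_mem (hB j i)) (by ring))⟩

theorem smat_mkP {X Y : Proj k} (A B : Matrix Y.ι X.ι (R k))
    (hA : A ∈ Deg k (hts X) (hts Y) 0) (hB : B ∈ Deg k (hts X) (hts Y) (-21)) :
    smat (mkP A B hA hB) = sm A B := rfl

theorem exists_sm {X Y : Proj k} (f : X ⟶ Y) : ∃ A ∈ Deg k (hts X) (hts Y) 0,
    ∃ B ∈ Deg k (hts X) (hts Y) (-21), smat f = sm A B := by
  choose p hp q hq h using fun j i => exists_decomp (f i j).2
  exact ⟨Matrix.of p, fun j i => mem_Rd_congr (hp j i) (add_zero _).symm, Matrix.of q,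
    fun j i => mem_Rd_congr (hq j i) (sub_eq_add_neg _ _), Matrix.ext h⟩

end Pool.Agent.Work.MP_8b4bd2_al
end

-- merged part: Pool.Agent.Work.MP_8b4bd2_al.Tac
section
/-!
Comparison lemmas for totally acyclic complexes.
`exists_family`: `Int.inductionOn'` on the subtype `{x // (0 ≤ i → Pu i x) ∧ (i ≤ 0 → Pd i x)}`.
`exists_chain_map`: `ψ 0` from `hK`; upwards the invariant is `L.d (i-1) i ≫ ψ i ≫ K.d i (i+1) = 0`
(use `hL`), downwards the same invariant (use `hK`). `exists_homotopy`: `h i : L.X i ⟶ K.X (i-1)` or a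
family indexed by pairs; start with `h 0 ≫ d = ψ 0`, `h 1 = 0`.
`tac_iff`: `rac_iff`, `lac_iff` and `Mat_.isoBiproductEmbedding`.
-/

set_option backward.isDefEq.respectTransparency false
set_option backward.defeqAttrib.useBackward true

namespace Pool.Agent.Work.MP_8b4bd2_al

open CategoryTheory Limits

section

variable {P : Type*} [Category P] [Preadditive P]

/-- `Hom(Q, K)` is acyclic. -/
def RAc (Q : P) (K : CochainComplex P ℤ) : Prop :=
  ∀ i j l : ℤ, i + 1 = j → j + 1 = l → ∀ α : Q ⟶ K.X j, α ≫ K.d j l = 0 →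
    ∃ β : Q ⟶ K.X i, β ≫ K.d i j = α

/-- `Hom(K, Q)` is acyclic. -/
def LAc (Q : P) (K : CochainComplex P ℤ) : Prop :=
  ∀ i j l : ℤ, i + 1 = j → j + 1 = l → ∀ α : K.X j ⟶ Q, K.d i j ≫ α = 0 →
    ∃ β : K.X l ⟶ Q, K.d j l ≫ β = α

theorem tac_null {L K : CochainComplex P ℤ} (ψ : L ⟶ K) : Nonempty (Homotopy ψ 0) ↔
    ∃ h : ∀ i j, L.X i ⟶ K.X j, ∀ a i b : ℤ, a + 1 = i → i + 1 = b →
      ψ.f i = L.d i b ≫ h b i + h i a ≫ K.d a i := by
  constructor
  · rintro ⟨H⟩
    refine ⟨H.hom, fun a i b ha hb => ?_⟩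
    rw [H.comm i, dNext_eq _ (show (ComplexShape.up ℤ).Rel i b from hb),
      prevD_eq _ (show (ComplexShape.up ℤ).Rel a i from ha), HomologicalComplex.zero_f, add_zero]
  · rintro ⟨h, H⟩
    refine ⟨(Homotopy.ofEq ?_).trans (Homotopy.nullHomotopy' fun i j _ => h i j)⟩
    ext i
    rw [Homotopy.nullHomotopicMap'_f (show (ComplexShape.up ℤ).Rel (i - 1) i from sub_add_cancel i 1)
      (show (ComplexShape.up ℤ).Rel i (i + 1) from rfl), H _ i _ (sub_add_cancel i 1) rfl]

theorem tac_sum {ι : Type*} [Fintype ι] {Q : P} {A : ι → P} (p : ∀ c, Q ⟶ A c) (q : ∀ c, A c ⟶ Q)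
    (h : ∑ c, p c ≫ q c = 𝟙 Q) (K : CochainComplex P ℤ) :
    ((∀ c, RAc (A c) K) → RAc Q K) ∧ ((∀ c, LAc (A c) K) → LAc Q K) := by
  refine ⟨fun H i j l hi hj α hα => ?_, fun H i j l hi hj α hα => ?_⟩
  · choose β hβ using fun c => H c i j l hi hj (q c ≫ α) (by rw [Category.assoc, hα, comp_zero])
    refine ⟨∑ c, p c ≫ β c, ?_⟩
    simp only [Preadditive.sum_comp, Category.assoc, hβ]
    simp only [← Category.assoc, ← Preadditive.sum_comp, h, Category.id_comp]
  · choose β hβ using fun c => H c i j l hi hj (α ≫ p c) (by rw [← Category.assoc, hα, zero_comp])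
    refine ⟨∑ c, β c ≫ q c, ?_⟩
    simp only [Preadditive.comp_sum, ← Category.assoc, hβ]
    simp only [Category.assoc, ← Preadditive.comp_sum, h, Category.comp_id]

/-- Two-sided induction with choice. -/
theorem exists_family {X : ℤ → Type*} (Pu Pd : ∀ i, X i → Prop) (Rel : ∀ i j, X i → X j → Prop)
    (x₀ : X 0) (hu₀ : Pu 0 x₀) (hd₀ : Pd 0 x₀)
    (hu : ∀ i, 0 ≤ i → ∀ x, Pu i x → ∃ y, Pu (i + 1) y ∧ Rel i (i + 1) x y)
    (hd : ∀ i, i ≤ 0 → ∀ y, Pd i y → ∃ x, Pd (i - 1) x ∧ Rel (i - 1) i x y) :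
    ∃ x : ∀ i, X i, x 0 = x₀ ∧ ∀ i j, i + 1 = j → Rel i j (x i) (x j) := by
  choose u u1 u2 using hu
  choose d d1 d2 using hd
  let x : ∀ i, {x : X i // (0 ≤ i → Pu i x) ∧ (i ≤ 0 → Pd i x)} := fun i =>
    Int.inductionOn' i 0 ⟨x₀, fun _ => hu₀, fun _ => hd₀⟩
      (fun i hi y => ⟨u i hi y.1 (y.2.1 hi), fun _ => u1 _ _ _ _, fun h => by omega⟩)
      (fun i hi y => ⟨d i hi y.1 (y.2.2 hi), fun h => by omega, fun _ => d1 _ _ _ _⟩)
  have e₀ : x 0 = _ := Int.inductionOn'_self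
  refine ⟨fun i => (x i).1, congrArg Subtype.val e₀, fun i j h => ?_⟩
  rcases le_or_gt 0 i with hi | hi
  · subst h
    have e : x (i + 1) = _ := Int.inductionOn'_add_one hi
    simp only [e]
    exact u2 _ _ _ _
  · obtain rfl : i = j - 1 := by omega
    have e : x (j - 1) = _ := Int.inductionOn'_sub_one (by omega)
    simp only [e]
    exact d2 _ _ _ _

theorem exists_chain_map {L K : CochainComplex P ℤ} (hL : ∀ Q, LAc Q L) (hK : ∀ Q, RAc Q K)
    (α : L.X 0 ⟶ K.X 1) (h₁ : α ≫ K.d 1 2 = 0) (h₂ : L.d (-1) 0 ≫ α = 0) :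
    ∃ ψ : L ⟶ K, ψ.f 0 ≫ K.d 0 1 = α := by
  obtain ⟨x₀, h₀⟩ := hK _ 0 1 2 rfl rfl α h₁
  have h₃ : ∀ a b : ℤ, a + 1 = 0 → 0 + 1 = b → L.d a 0 ≫ x₀ ≫ K.d 0 b = 0 := fun a b ha hb => by
    obtain rfl : a = -1 := by omega
    obtain rfl : b = 1 := by omega
    rw [h₀, h₂]
  obtain ⟨x, hx, H⟩ := exists_family (X := fun i => L.X i ⟶ K.X i)
    (fun i x => ∀ a b, a + 1 = i → i + 1 = b → L.d a i ≫ x ≫ K.d i b = 0)
    (fun i x => ∀ a b, a + 1 = i → i + 1 = b → L.d a i ≫ x ≫ K.d i b = 0)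
    (fun i j x y => x ≫ K.d i j = L.d i j ≫ y) x₀ h₃ h₃
    (fun i _ x h => by
      obtain ⟨y, hy⟩ := hL _ _ i _ (sub_add_cancel i 1) rfl _ (h _ _ (sub_add_cancel i 1) rfl)
      refine ⟨y, fun a b ha _ => ?_, hy.symm⟩
      obtain rfl : a = i := by omega
      rw [reassoc_of% hy, K.d_comp_d, comp_zero])
    (fun i _ y h => by
      obtain ⟨x, hx⟩ := hK _ _ i _ (sub_add_cancel i 1) rfl (L.d (i - 1) i ≫ y)
        (by rw [Category.assoc, h _ _ (sub_add_cancel i 1) rfl])
      refine ⟨x, fun a b _ hb => ?_, hx⟩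
      obtain rfl : i = b := by omega
      rw [hx, L.d_comp_d_assoc, zero_comp])
  exact ⟨⟨x, H⟩, by rw [← h₀, ← hx]⟩

theorem exists_homotopy {L K : CochainComplex P ℤ} (hL : ∀ Q, LAc Q L) (hK : ∀ Q, RAc Q K)
    (ψ : L ⟶ K) (h : ψ.f 0 ≫ K.d 0 1 = 0) : Nonempty (Homotopy ψ 0) := by
  obtain ⟨x₀, h₀⟩ := hK _ (-1) 0 1 rfl rfl _ h
  have h₃ : ∀ a : ℤ, a + 1 = 0 → L.d a 0 ≫ (ψ.f 0 - (Pi.single (-1) x₀ : ∀ j, L.X 0 ⟶ K.X j) a ≫
      K.d a 0) = 0 := fun a ha => by
    obtain rfl : a = -1 := by omega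
    rw [Pi.single_eq_same, h₀, sub_self, comp_zero]
  obtain ⟨x, -, H⟩ := exists_family (X := fun i => ∀ j, L.X i ⟶ K.X j)
    (fun i x => ∀ a, a + 1 = i → L.d a i ≫ (ψ.f i - x a ≫ K.d a i) = 0)
    (fun i x => ∀ a, a + 1 = i → L.d a i ≫ (ψ.f i - x a ≫ K.d a i) = 0)
    (fun i j x y => ∀ a, a + 1 = i → ψ.f i = L.d i j ≫ y i + x a ≫ K.d a i) _ h₃ h₃
    (fun i _ x h => by
      obtain ⟨y, hy⟩ := hL _ _ i _ (sub_add_cancel i 1) rfl _ (h _ (sub_add_cancel i 1))
      refine ⟨Pi.single i y, fun a ha => ?_, fun a ha => ?_⟩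
      · obtain rfl : a = i := by omega
        rw [Pi.single_eq_same, Preadditive.comp_sub, reassoc_of% hy, Preadditive.sub_comp,
          Category.assoc, K.d_comp_d, comp_zero, sub_zero, ψ.comm, sub_self]
      · obtain rfl : a = i - 1 := by omega
        rw [Pi.single_eq_same, hy, sub_add_cancel])
    (fun i _ y h => by
      obtain ⟨x, hx⟩ := hK _ _ _ i (sub_add_cancel (i - 1) 1) (sub_add_cancel i 1)
        (ψ.f (i - 1) - L.d (i - 1) i ≫ y (i - 1)) (by
          rw [Preadditive.sub_comp, ψ.comm, Category.assoc, ← Preadditive.comp_sub,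
            h _ (sub_add_cancel i 1)])
      refine ⟨Pi.single _ x, fun a ha => ?_, fun a ha => ?_⟩ <;>
        obtain rfl : a = i - 1 - 1 := by omega
      · rw [Pi.single_eq_same, hx, sub_sub_cancel, L.d_comp_d_assoc, zero_comp]
      · rw [Pi.single_eq_same, hx, add_sub_cancel])
  exact (tac_null ψ).2 ⟨x, fun a i b ha hb => H i b hb a ha⟩

variable [HasZeroObject P]

theorem rac_iff (Q : P) (K : CochainComplex P ℤ) : RAc Q K ↔ ∀ (n : ℤ)
    (f : (HomotopyCategory.singleFunctor P n).obj Q ⟶ (HomotopyCategory.quotient _ _).obj K),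
      f = 0 := by
  classical
  let e := fun n : ℤ => HomologicalComplex.singleObjXSelf (ComplexShape.up ℤ) n Q
  constructor
  · intro H n f
    obtain ⟨g, rfl⟩ := (HomotopyCategory.quotient P (ComplexShape.up ℤ)).map_surjective
      (X := (HomologicalComplex.single P _ n).obj Q) f
    obtain ⟨β, hβ⟩ := H _ n _ (sub_add_cancel n 1) rfl ((e n).inv ≫ g.f n) (by
      rw [Category.assoc, g.comm, HomologicalComplex.single_obj_d, zero_comp, comp_zero])
    refine (HomotopyCategory.quotient_map_eq_zero_iff g).2 ((tac_null g).2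
      ⟨Pi.single n (Pi.single _ ((e n).hom ≫ β)), fun a i b ha _ => ?_⟩)
    by_cases hi : i = n
    · subst hi
      obtain rfl : a = i - 1 := by omega
      rw [HomologicalComplex.single_obj_d, zero_comp, zero_add, Pi.single_eq_same,
        Pi.single_eq_same, Category.assoc, hβ, Iso.hom_inv_id_assoc]
    · exact (HomologicalComplex.isZero_single_obj_X _ n Q i hi).eq_of_src _ _
  · intro H i j l hi hj α hα
    obtain ⟨h, hh⟩ := (tac_null (L := (HomologicalComplex.single P _ j).obj Q) _).1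
      ((HomotopyCategory.quotient_map_eq_zero_iff _).1
      (H j ((HomotopyCategory.quotient P _).map (HomologicalComplex.mkHomFromSingle α
        fun l' hl => by rwa [← show l = l' from hj.symm.trans hl]))))
    have h1 := hh i j l hi hj
    rw [HomologicalComplex.mkHomFromSingle_f, HomologicalComplex.single_obj_d, zero_comp,
      zero_add] at h1
    exact ⟨(e j).inv ≫ h j i, by rw [Category.assoc, ← h1, Iso.inv_hom_id_assoc]⟩

theorem lac_iff (Q : P) (K : CochainComplex P ℤ) : LAc Q K ↔ ∀ (n : ℤ)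
    (f : (HomotopyCategory.quotient _ _).obj K ⟶ (HomotopyCategory.singleFunctor P n).obj Q),
      f = 0 := by
  classical
  let e := fun n : ℤ => HomologicalComplex.singleObjXSelf (ComplexShape.up ℤ) n Q
  constructor
  · intro H n f
    obtain ⟨g, rfl⟩ := (HomotopyCategory.quotient P (ComplexShape.up ℤ)).map_surjective
      (Y := (HomologicalComplex.single P _ n).obj Q) f
    obtain ⟨β, hβ⟩ := H _ n _ (sub_add_cancel n 1) rfl (g.f n ≫ (e n).hom) (by
      rw [← g.comm_assoc, HomologicalComplex.single_obj_d, zero_comp, comp_zero])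
    refine (HomotopyCategory.quotient_map_eq_zero_iff g).2 ((tac_null g).2
      ⟨Pi.single (n + 1) (Pi.single _ (β ≫ (e n).inv)), fun a i b _ hb => ?_⟩)
    by_cases hi : i = n
    · subst hi hb
      rw [HomologicalComplex.single_obj_d, comp_zero, add_zero, Pi.single_eq_same,
        Pi.single_eq_same, reassoc_of% hβ, Iso.hom_inv_id, Category.comp_id]
    · exact (HomologicalComplex.isZero_single_obj_X _ n Q i hi).eq_of_tgt _ _
  · intro H i j l hi hj α hα
    obtain ⟨h, hh⟩ := (tac_null (K := (HomologicalComplex.single P _ j).obj Q) _).1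
      ((HomotopyCategory.quotient_map_eq_zero_iff _).1
      (H j ((HomotopyCategory.quotient P _).map (HomologicalComplex.mkHomToSingle α
        fun i' hi' => by
          have hi'' : i' + 1 = j := hi'
          rwa [show i' = i by omega]))))
    have h1 := hh i j l hi hj
    rw [HomologicalComplex.mkHomToSingle_f, HomologicalComplex.single_obj_d, comp_zero,
      add_zero] at h1
    exact ⟨h l j ≫ (e j).hom, by
      rw [← Category.assoc, ← h1, Category.assoc, Iso.inv_hom_id, Category.comp_id]⟩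

end

theorem tac_iff {L : Type*} [Category L] [Preadditive L] (K : CochainComplex (Mat_ L) ℤ) :
    tac L ((HomotopyCategory.quotient _ _).obj K) ↔ (∀ Q, RAc Q K) ∧ ∀ Q, LAc Q K := by
  refine ⟨fun H => ?_, fun H a n => ⟨(rac_iff _ K).1 (H.1 _) n, (lac_iff _ K).1 (H.2 _) n⟩⟩
  have h := fun Q : Mat_ L => tac_sum (fun c => Q.isoBiproductEmbedding.hom ≫ biproduct.π _ c)
    (fun c => biproduct.ι (fun i => (Mat_.embedding L).obj (Q.X i)) c ≫
      Q.isoBiproductEmbedding.inv) (by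
      simp only [Category.assoc, ← Preadditive.comp_sum]
      simp only [← Category.assoc, ← Preadditive.sum_comp, biproduct.total, Category.id_comp,
        Iso.hom_inv_id]) K
  exact ⟨fun Q => (h Q).1 fun c => (rac_iff _ K).2 fun n => (H (Q.X c) n).1,
    fun Q => (h Q).2 fun c => (lac_iff _ K).2 fun n => (H (Q.X c) n).2⟩

end Pool.Agent.Work.MP_8b4bd2_al
end
end

-- merged part: Pool.Agent.Work.MP_8b4bd2_al.Loc
section
-- merged part: Pool.Agent.Work.MP_8b4bd2_al.Key
section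
/-!
The submodule `sat (Mgt M n)`, the key lemma and the truncation `X₁ → M`.
`key`: `h` maps `Egt Y.a n` into `Egt M.a n` (entries of negative degree vanish), and
`h φ e = (h φ - ε φ h) e + ε φ (h e)`, so `h` maps `Mgt Y n` into `sat (Mgt M n)`; then use `hY` and
idempotence of `sat`. `exists_trunc`: `exists_sub` for `sat (Mgt M n)`; for `cU n X` note that for a
generator `e i` of `M` with `n < a i`, `e i = J t` with `t` homogeneous of degree `- a i`
(`vcmp_mulVec`), so `t ∈ Egt X.a n` (`eq_zero_of_neg`); hence `Mgt M n ≤ map J (Mgt X n)`; use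
injectivity of `J`. `exists_cV`: for `n ≥` all heights `Mgt M n = ⊥`, so by `key` every cycle
`Y → M` has columns in `sat ⊥ = ⊥`. `cV_tw`: `ex_of_tw`, `ex_tw`, `cU_tw`.
-/

namespace Pool.Agent.Work.MP_8b4bd2_al

open MvPolynomial Matrix CategoryTheory MF

universe u

variable {k : Type u} [Field k]

theorem le_sat {ι : Type*} (N : Submodule (R k) (ι → R k)) : N ≤ sat N :=
  fun v hv => ⟨0, by simpa using hv, by simpa using hv⟩

theorem mem_sat_of_pow {ι : Type*} {N : Submodule (R k) (ι → R k)} {v : ι → R k} {n m : ℕ}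
    (h₁ : (yy : R k) ^ n • v ∈ N) (h₂ : (zz : R k) ^ m • v ∈ N) : v ∈ sat N :=
  ⟨n + m, by rw [add_comm, pow_add, mul_smul]; exact N.smul_mem _ h₁,
    by rw [pow_add, mul_smul]; exact N.smul_mem _ h₂⟩

theorem sat_sat_le {ι : Type*} (N : Submodule (R k) (ι → R k)) : sat (sat N) ≤ sat N := by
  rintro v ⟨n, ⟨a, ha, -⟩, ⟨b, -, hb⟩⟩
  rw [smul_smul, ← pow_add] at ha hb
  exact mem_sat_of_pow ha hb

theorem mulVec_mem_sat {ι κ : Type*} [Fintype ι] {N : Submodule (R k) (ι → R k)}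
    {N' : Submodule (R k) (κ → R k)} {h : Matrix κ ι (R k)} (hh : ∀ v ∈ N, h *ᵥ v ∈ N')
    {v : ι → R k} (hv : v ∈ sat N) : h *ᵥ v ∈ sat N' := by
  obtain ⟨n, h₁, h₂⟩ := hv
  exact ⟨n, by rw [← Matrix.mulVec_smul]; exact hh _ h₁,
    by rw [← Matrix.mulVec_smul]; exact hh _ h₂⟩

theorem sat_mono {ι : Type*} {N N' : Submodule (R k) (ι → R k)} (h : N ≤ N') : sat N ≤ sat N' := by
  rintro v ⟨n, h₁, h₂⟩
  exact ⟨n, h h₁, h h₂⟩

theorem units_smul_mem {ι : Type*} {N : Submodule (R k) (ι → R k)} (ε : ℤˣ) {v : ι → R k}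
    (hv : v ∈ N) : ε • v ∈ N := by
  rcases Int.units_eq_one_or ε with rfl | rfl
  · simpa using hv
  · simpa using hv

theorem units_smul_mulVec {ι κ : Type*} [Fintype ι] (ε : ℤˣ) (h : Matrix κ ι (R k))
    (v : ι → R k) : (ε • h) *ᵥ v = ε • (h *ᵥ v) := by
  rcases Int.units_eq_one_or ε with rfl | rfl
  · simp
  · simp [Matrix.neg_mulVec]

theorem mulVec_units_smul {ι κ : Type*} [Fintype ι] (ε : ℤˣ) (h : Matrix κ ι (R k))
    (v : ι → R k) : h *ᵥ (ε • v) = ε • (h *ᵥ v) := by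
  rcases Int.units_eq_one_or ε with rfl | rfl
  · simp
  · simp [Matrix.mulVec_neg]

theorem Egt_mono {ι : Type*} (a : ι → ℤ) {n m : ℤ} (h : n ≤ m) :
    Egt (k := k) a m ≤ Egt a n := fun _ hv i hi => hv i (hi.trans h)

theorem Mgt_mono (M : MF k) {n m : ℤ} (h : n ≤ m) : Mgt M m ≤ Mgt M n := by
  intro v hv
  obtain ⟨e, he, e', he', rfl⟩ := mem_Mgt.1 hv
  exact mem_Mgt.2 ⟨e, Egt_mono _ h he, e', Egt_mono _ h he', rfl⟩

theorem mem_Mgt_of_Egt {M : MF k} {n : ℤ} {v : M.ι → R k} (hv : v ∈ Egt M.a n) : v ∈ Mgt M n :=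
  mem_Mgt.2 ⟨v, hv, 0, zero_mem _, by simp⟩

theorem φ_mem_Mgt (M : MF k) (n : ℤ) : ∀ v ∈ Mgt M n, M.φ *ᵥ v ∈ Mgt M n := by
  intro v hv
  obtain ⟨e, he, e', he', rfl⟩ := mem_Mgt.1 hv
  refine mem_Mgt.2 ⟨-((ff : R k) • e'), neg_mem (Submodule.smul_mem _ _ he'), e, he, ?_⟩
  rw [Matrix.mulVec_add, M.φ_mulVec_φ, add_comm]

theorem vcmp_mem_Egt {ι : Type*} {a : ι → ℤ} {n : ℤ} (d : ℤ) {v : ι → R k} (hv : v ∈ Egt a n) :
    vcmp a d v ∈ Egt a n := fun i hi => by
  rw [vcmp_apply, hv i hi, map_zero]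

theorem sat_isSat {ι : Type*} (N : Submodule (R k) (ι → R k)) : IsSat (sat N) :=
  fun _ h₁ h₂ => sat_sat_le N ⟨1, by simpa using h₁, by simpa using h₂⟩

theorem sat_isHomog {ι : Type*} {a : ι → ℤ} {N : Submodule (R k) (ι → R k)} (h : IsHomog a N) :
    IsHomog a (sat N) := by
  rintro d v ⟨n, h₁, h₂⟩
  refine ⟨n, ?_, ?_⟩
  · have := h (d + n * 14) _ h₁
    rwa [vcmp_smul (pow_mem_Rd yy_mem n rfl), add_sub_cancel_right] at this
  · have := h (d + n * 6) _ h₂
    rwa [vcmp_smul (pow_mem_Rd zz_mem n rfl), add_sub_cancel_right] at this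

theorem Mgt_isHomog (M : MF k) (n : ℤ) : IsHomog M.a (Mgt M n) := by
  intro d v hv
  obtain ⟨e, he, e', he', rfl⟩ := mem_Mgt.1 hv
  refine mem_Mgt.2 ⟨_, vcmp_mem_Egt d he, _, vcmp_mem_Egt (d - 21) he', ?_⟩
  rw [map_add, vcmp_mulVec M.deg]

theorem φ_mem_sat (M : MF k) (n : ℤ) : ∀ v ∈ sat (Mgt M n), M.φ *ᵥ v ∈ sat (Mgt M n) :=
  fun _ hv => mulVec_mem_sat (φ_mem_Mgt M n) hv

/-- A degree zero matrix preserves `Egt`. -/
theorem mulVec_mem_Egt {ι κ : Type*} [Fintype ι] {a : ι → ℤ} {b : κ → ℤ} {h : Matrix κ ι (R k)}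
    (hh : h ∈ Deg k a b 0) {n : ℤ} {v : ι → R k} (hv : v ∈ Egt a n) : h *ᵥ v ∈ Egt b n := by
  intro i hi
  refine Finset.sum_eq_zero fun j _ => ?_
  change h i j * v j = 0
  by_cases hj : a j ≤ n
  · rw [hv j hj, mul_zero]
  · rw [eq_zero_of_neg (hh i j) (by omega), zero_mul]

/-- Key lemma. -/
theorem key {Y M : MF k} {n : ℤ} (hY : cU n Y) {h : Matrix M.ι Y.ι (R k)}
    (hh : h ∈ Deg k Y.a M.a 0) (ε : ℤˣ)
    (hc : ∀ v, (h * Y.φ - ε • (M.φ * h)) *ᵥ v ∈ sat (Mgt M n)) (v : Y.ι → R k) :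
    h *ᵥ v ∈ sat (Mgt M n) := by
  refine sat_sat_le _ (mulVec_mem_sat (fun w hw => ?_) (hY v))
  obtain ⟨e, he, e', he', rfl⟩ := mem_Mgt.1 hw
  have h1 : h *ᵥ (Y.φ *ᵥ e') =
      (h * Y.φ - ε • (M.φ * h)) *ᵥ e' + ε • (M.φ *ᵥ (h *ᵥ e')) := by
    rw [Matrix.sub_mulVec, units_smul_mulVec, Matrix.mulVec_mulVec, Matrix.mulVec_mulVec,
      sub_add_cancel]
  rw [Matrix.mulVec_add, h1]
  exact add_mem (le_sat _ (mem_Mgt_of_Egt (mulVec_mem_Egt hh he)))
    (add_mem (hc e') (units_smul_mem ε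
      (le_sat _ (φ_mem_Mgt M n _ (mem_Mgt_of_Egt (mulVec_mem_Egt hh he'))))))

theorem cU_mono {n : ℤ} {M : MF k} (h : cU (n + 1) M) : cU n M :=
  fun v => sat_mono (Mgt_mono M (by omega)) (h v)

theorem cU_of_le {n m : ℤ} {M : MF k} (h : cU m M) (hnm : n ≤ m) : cU n M :=
  fun v => sat_mono (Mgt_mono M hnm) (h v)

theorem cU_tw {n : ℤ} {M : MF k} (h : cU n M) (e : ℤ) (ε : ℤˣ) {m : ℤ} (hm : m = n + e) :
    cU m (M.tw e ε) := by
  intro v
  have hle : Mgt M n ≤ (Mgt (M.tw e ε) m : Submodule (R k) (M.ι → R k)) := by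
    intro w hw
    obtain ⟨u, hu, u', hu', rfl⟩ := mem_Mgt.1 hw
    have hE : ∀ u : M.ι → R k, u ∈ Egt M.a n → u ∈ Egt (M.tw e ε).a m := fun u hu i hi =>
      hu i (by change M.a i + e ≤ m at hi; omega)
    refine (mem_Mgt (M := M.tw e ε)).2 ⟨u, hE u hu, ε • u', units_smul_mem ε (hE u' hu'), ?_⟩
    change u + M.φ *ᵥ u' = u + (ε • M.φ) *ᵥ (ε • u')
    rw [units_smul_mulVec, mulVec_units_smul, smul_smul, Int.units_mul_self, one_smul]
  exact sat_mono hle (h v)

theorem cV_tw {n : ℤ} {M : MF k} (h : cV n M) (e : ℤ) (ε : ℤˣ) {m : ℤ} (hm : m = n + e) :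
    cV m (M.tw e ε) := by
  intro Y hY g hg hc
  have hc' : ε • M.φ * g = (1 : ℤˣ) • (g * Y.φ) := hc
  obtain ⟨t, ht, hgt⟩ := h (Y.tw (-e) ε) (cU_tw hY (-e) ε (by omega)) g
    (mem_Deg_congr hg fun i j => by simp; omega) (by
      change M.φ * g = (1 : ℤˣ) • (g * ε • Y.φ)
      rcases Int.units_eq_one_or ε with rfl | rfl <;> simpa [neg_eq_iff_eq_neg] using hc')
  refine ⟨ε • t, units_smul_mem_Deg _ (mem_Deg_congr ht fun i j => by simp; omega), ?_⟩
  have hgt' : g = M.φ * t + (1 : ℤˣ) • (t * ε • Y.φ) := hgt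
  change g = ε • M.φ * ε • t + (1 : ℤˣ) • (ε • t * Y.φ)
  rcases Int.units_eq_one_or ε with rfl | rfl <;> simpa using hgt'

theorem cU_of_surj {n : ℤ} {M M' : MF k} (h : cU n M) (p : M ⟶ M') (J : M' ⟶ M)
    (hJ : J ≫ p = 𝟙 M') : cU n M' := by
  intro v
  have h1 : mat p * mat J = 1 := by rw [← mat_comp, hJ, mat_id]
  have h2 := key h (mat_deg p) 1 (fun w => by
    rw [one_smul, mat_comm, sub_self, Matrix.zero_mulVec]; exact zero_mem _) (mat J *ᵥ v)
  rwa [Matrix.mulVec_mulVec, h1, Matrix.one_mulVec] at h2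

theorem exists_cU (M : MF k) : ∃ n, cU n M := by
  obtain ⟨c, hc⟩ := (Set.finite_range M.a).bddBelow
  refine ⟨c - 1, fun v => le_sat _ (mem_Mgt_of_Egt fun i hi => ?_)⟩
  have := hc ⟨i, rfl⟩
  omega

theorem exists_cV (M : MF k) : ∃ n, cV n M := by
  obtain ⟨c, hc⟩ := (Set.finite_range M.a).bddAbove
  refine ⟨c, fun Y hY g hg hgc => ⟨0, zero_mem _, ?_⟩⟩
  have hE : ∀ u ∈ Egt (k := k) M.a c, u = 0 := fun u hu => funext fun i => hu i (hc ⟨i, rfl⟩)
  have hM : ∀ u ∈ Mgt M c, u = 0 := fun u hu => by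
    obtain ⟨e, he, e', he', rfl⟩ := mem_Mgt.1 hu
    rw [hE e he, hE e' he', Matrix.mulVec_zero, add_zero]
  have hg0 : ∀ v, g *ᵥ v = 0 := fun v => by
    obtain ⟨n, h₁, -⟩ := key hY hg 1 (fun w => by
      rw [hgc, one_smul, one_smul, sub_self, Matrix.zero_mulVec]; exact zero_mem _) v
    exact (smul_eq_zero.1 (hM _ h₁)).resolve_left (pow_ne_zero n (prime_X' 0).ne_zero)
  have : g = 0 := by
    ext i j : 1
    have := congrFun (hg0 (Pi.single j 1)) i
    rwa [Matrix.mulVec_single_one] at this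
  rw [this]
  simp

/-- The truncation `X₁ = sat (M^{>n}) → M`. -/
theorem exists_trunc (M : MF k) (n : ℤ) : ∃ (X : MF k) (J : X ⟶ M), cU n X ∧
    (∀ t, mat J *ᵥ t = 0 → t = 0) ∧ (∀ v, v ∈ sat (Mgt M n) ↔ ∃ t, mat J *ᵥ t = v) := by
  obtain ⟨X, J, hinj, hN⟩ := M.exists_sub (sat_isHomog (Mgt_isHomog M n)) (sat_isSat _)
    (φ_mem_sat M n)
  refine ⟨X, J, ?_, hinj, hN⟩
  have hE : ∀ e ∈ Egt (k := k) M.a n, ∃ t ∈ Egt X.a n, mat J *ᵥ t = e := by
    intro e he
    have hi : ∀ i, ∃ t ∈ Egt X.a n, mat J *ᵥ t = Pi.single i (e i) := by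
      intro i
      by_cases hi : M.a i ≤ n
      · exact ⟨0, zero_mem _, by rw [he i hi]; simp⟩
      · have hs : (Pi.single i 1 : M.ι → R k) ∈ Egt M.a n := fun j hj =>
          Pi.single_eq_of_ne (by rintro rfl; exact hi hj) _
        obtain ⟨t, ht⟩ := (hN _).1 (le_sat _ (mem_Mgt_of_Egt hs))
        have hd : (Pi.single i 1 : M.ι → R k) ∈ Vdeg k M.a (-M.a i) := mem_Vdeg.2 fun j => by
          by_cases hj : j = i
          · subst hj
            rw [Pi.single_eq_same]
            exact one_mem_Rd (by ring)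
          · rw [Pi.single_eq_of_ne hj]
            exact zero_mem _
        have h1 := vcmp_mulVec (mat_deg J) (-M.a i) t
        rw [ht, vcmp_of_mem hd, sub_zero] at h1
        refine ⟨e i • vcmp X.a (-M.a i) t, Submodule.smul_mem _ _ fun j hj => ?_, ?_⟩
        · exact eq_zero_of_neg (mem_Vdeg.1 (vcmp_mem X.a (-M.a i) t) j) (by omega)
        · rw [Matrix.mulVec_smul, ← h1, ← Pi.single_smul, smul_eq_mul, mul_one]
    choose t ht hJt using hi
    refine ⟨∑ i, t i, Submodule.sum_mem _ fun i _ => ht i, ?_⟩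
    rw [Matrix.mulVec_sum]
    simp only [hJt]
    exact Finset.univ_sum_single e
  have hM : ∀ t, mat J *ᵥ t ∈ Mgt M n → t ∈ Mgt X n := by
    intro t ht
    obtain ⟨e, he, e', he', h⟩ := mem_Mgt.1 ht
    obtain ⟨s, hs, rfl⟩ := hE e he
    obtain ⟨s', hs', rfl⟩ := hE e' he'
    refine mem_Mgt.2 ⟨s, hs, s', hs', sub_eq_zero.1 (hinj _ ?_)⟩
    rw [Matrix.mulVec_sub, h, Matrix.mulVec_add, Matrix.mulVec_mulVec, Matrix.mulVec_mulVec,
      mat_comm, sub_self]
  intro t
  obtain ⟨m, h₁, h₂⟩ := (hN _).2 ⟨t, rfl⟩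
  rw [← Matrix.mulVec_smul] at h₁ h₂
  exact ⟨m, hM _ h₁, hM _ h₂⟩

end Pool.Agent.Work.MP_8b4bd2_al
end

-- merged part: Pool.Agent.Work.MP_8b4bd2_al.Constr
section
/-!
Numerical constraints on minimal matrix factorisations.
See /team-store/h86_8b4bd2_plan.md, section 5.
`hall`: for `i₀ ∈ A`, `t^N e_{i₀} = e + φ e'` (`t = y` or `z` with `eval pt t = 1`); evaluate the rows
`i ∈ A`: a product of an `A × B` and a `B × A` matrix over `k` is the identity; compare ranks.
`constr_U`: `eval ![1,0] p ≠ 0`, `p ∈ Rd d`, no constant term force `d = 14 s`, `s ≥ 1`; for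
`![0,1]`, `d = 6 s`. `constr_V`: `exists_trunc M 0` gives `J : X ⟶ M`; `hV X` gives
`J = φ h + h φ₁`; `key` for `Y = X.tw 21 (-1)` (`cU_tw`, `cU_of_le`), `ε = 1` gives `h = J h₁`
(`exists_factor`), so `1 = φ₁ h₁ + h₁ φ₁` (`left_cancel`). Apply `constantCoeff` entrywise (bar):
`Jb φb = 0`, `φb φb = 0`, `φb hb + hb φb = 1`, so `ker φb = im φb ≤ ker Jb`,
`2 rank Jb ≤ card X.ι ≤ card M.ι`, and `im Jb` contains the basis vectors of height `> 0`.
If `a i > 15`: `φ e_i = y e₁ + z e₂` with `e₁, e₂ ∈ Egt a 0` (entries have degree `≥ 6`), so for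
`J u = e_i`, `φ₁ u ∈ (y,z)`, `φb ub = 0`, `ub ∈ im φb`, `Jb ub = 0`, contradiction.
`constr_pos`: if no height is `0` then `Egt a (-1) = Egt a 0`.
-/

namespace Pool.Agent.Work.MP_8b4bd2_al

open MvPolynomial Matrix CategoryTheory MF

universe u

variable {k : Type u} [Field k]

/-- Hall-type inequality: evaluate at a point `pt ≠ (0,0)` with coordinates in `{0,1}`. -/
theorem hall {M : MF k} (hU : cU (-1) M) (pt : Fin 2 → k) (hpt : pt 0 = 1 ∨ pt 1 = 1)
    (A B : Finset M.ι) (hA : ∀ i ∈ A, M.a i < 0)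
    (hB : ∀ i ∈ A, ∀ j, 0 ≤ M.a j → eval pt (M.φ i j) ≠ 0 → j ∈ B) : A.card ≤ B.card := by
  classical
  have h1 : ∀ i₀ : M.ι, ∃ t : R k, eval pt t = 1 ∧
      t • (Pi.single i₀ 1 : M.ι → R k) ∈ Mgt M (-1) := by
    intro i₀
    obtain ⟨n, hy, hz⟩ := mem_sat.1 (hU (Pi.single i₀ 1))
    rcases hpt with h | h
    · exact ⟨yy ^ n, by simp [h], hy⟩
    · exact ⟨zz ^ n, by simp [h], hz⟩
  choose t ht hm using h1
  choose e he e' he' hee using fun i₀ => mem_Mgt.1 (hm i₀)
  let P : Matrix A B k := Matrix.of fun i j => eval pt (M.φ i j)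
  let Q : Matrix B A k := Matrix.of fun j i => eval pt (e' i j)
  have hPQ : P * Q = 1 := by
    ext i i₀
    have h2 := congrArg (eval pt) (congrFun (hee i₀) i)
    have h3 : e i₀ i = 0 := he i₀ i (by have := hA i i.2; omega)
    rw [Pi.add_apply, h3, zero_add, Pi.smul_apply, smul_eq_mul, map_mul, ht, one_mul] at h2
    have h4 : eval pt ((M.φ *ᵥ e' i₀) i) = ∑ j ∈ B, eval pt (M.φ i j) * eval pt (e' i₀ j) := by
      simp only [Matrix.mulVec, dotProduct, map_sum, map_mul]
      symm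
      refine Finset.sum_subset (Finset.subset_univ _) fun j _ hj => ?_
      by_cases hj0 : 0 ≤ M.a j
      · by_cases hz : eval pt (M.φ i j) = 0
        · rw [hz, zero_mul]
        · exact absurd (hB i i.2 j hj0 hz) hj
      · rw [he' i₀ j (by omega), map_zero, mul_zero]
    rw [Matrix.mul_apply]
    simp only [P, Q, Matrix.of_apply]
    rw [Finset.sum_coe_sort B (fun j => eval pt (M.φ i j) * eval pt (e' i₀ j)), ← h4, ← h2,
      Matrix.one_apply, Pi.single_apply]
    by_cases hi : i = i₀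
    · subst hi; simp
    · rw [if_neg hi, if_neg (fun h => hi (Subtype.ext h)), map_zero]
  have h5 := Matrix.rank_mul_le_left P Q
  rw [hPQ, Matrix.rank_one] at h5
  simpa using h5.trans (Matrix.rank_le_card_width P)

theorem Constr_eval10 {d : ℤ} {p : R k} (hp : p ∈ Rd k d) (h0 : constantCoeff p = 0)
    (he : eval (![1, 0] : Fin 2 → k) p ≠ 0) : ∃ s : ℕ, 1 ≤ s ∧ d = 14 * s := by
  rw [eval_eq'] at he
  obtain ⟨m, hm, hne⟩ := Finset.exists_ne_zero_of_sum_ne_zero he
  have hc : coeff m p ≠ 0 := mem_support_iff.1 hm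
  have h1 : m 1 = 0 := by
    by_contra h
    apply hne
    simp [Fin.prod_univ_two, h]
  have h2 := mem_Rd.1 hp m hc
  refine ⟨m 0, ?_, by rw [← h2, h1]; simp⟩
  by_contra h
  have : m = 0 := fin2_eq_zero (by omega) h1
  subst this
  exact hc h0

theorem Constr_eval01 {d : ℤ} {p : R k} (hp : p ∈ Rd k d) (h0 : constantCoeff p = 0)
    (he : eval (![0, 1] : Fin 2 → k) p ≠ 0) : ∃ s : ℕ, 1 ≤ s ∧ d = 6 * s := by
  rw [eval_eq'] at he
  obtain ⟨m, hm, hne⟩ := Finset.exists_ne_zero_of_sum_ne_zero he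
  have hc : coeff m p ≠ 0 := mem_support_iff.1 hm
  have h1 : m 0 = 0 := by
    by_contra h
    apply hne
    simp [Fin.prod_univ_two, h]
  have h2 := mem_Rd.1 hp m hc
  refine ⟨m 1, ?_, by rw [← h2, h1]; simp⟩
  by_contra h
  have : m = 0 := fin2_eq_zero h1 (by omega)
  subst this
  exact hc h0

theorem Constr_hall10 {M : MF k} (hmin : IsMin M) (hU : cU (-1) M) (c c' : ℤ) (hc : c < 0)
    (hc' : c' = c + 7) : gn M c ≤ gn M c' := by
  have := hall hU ![1, 0] (Or.inl rfl) (Finset.univ.filter fun i => M.a i = c)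
    (Finset.univ.filter fun i => M.a i = c') (fun i hi => by
      rw [(Finset.mem_filter.1 hi).2]; exact hc) (fun i hi j hj hne => by
      have hi' := (Finset.mem_filter.1 hi).2
      obtain ⟨s, hs, hd⟩ := Constr_eval10 (M.deg i j) (hmin i j) hne
      exact Finset.mem_filter.2 ⟨Finset.mem_univ _, by omega⟩)
  unfold gn
  exact_mod_cast this

theorem Constr_hall01 {M : MF k} (hmin : IsMin M) (hU : cU (-1) M) (c c' c'' : ℤ) (hc : c ≤ -4)
    (hc' : c' = c + 9) (hc'' : c'' = c + 15) : gn M c ≤ gn M c' + gn M c'' := by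
  classical
  have := hall hU ![0, 1] (Or.inr rfl) (Finset.univ.filter fun i => M.a i = c)
    ((Finset.univ.filter fun i => M.a i = c') ∪ (Finset.univ.filter fun i => M.a i = c''))
    (fun i hi => by rw [(Finset.mem_filter.1 hi).2]; omega) (fun i hi j hj hne => by
      have hi' := (Finset.mem_filter.1 hi).2
      obtain ⟨s, hs, hd⟩ := Constr_eval01 (M.deg i j) (hmin i j) hne
      have : M.a j = c' ∨ M.a j = c'' := by omega
      rcases this with h | h
      · exact Finset.mem_union_left _ (Finset.mem_filter.2 ⟨Finset.mem_univ _, h⟩)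
      · exact Finset.mem_union_right _ (Finset.mem_filter.2 ⟨Finset.mem_univ _, h⟩))
  have h2 := this.trans (Finset.card_union_le _ _)
  unfold gn
  exact_mod_cast h2

theorem constr_U {M : MF k} (hmin : IsMin M) (hU : cU (-1) M) :
    (∀ i, -7 ≤ M.a i) ∧ gn M (-7) ≤ gn M 0 ∧ gn M (-6) ≤ gn M 1 ∧ gn M (-7) ≤ gn M 2 + gn M 8 ∧
      gn M (-6) ≤ gn M 3 + gn M 9 ∧ gn M (-5) ≤ gn M 4 + gn M 10 ∧
      gn M (-4) ≤ gn M 5 + gn M 11 := by
  refine ⟨fun i => ?_, Constr_hall10 hmin hU _ _ (by norm_num) (by norm_num),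
    Constr_hall10 hmin hU _ _ (by norm_num) (by norm_num),
    Constr_hall01 hmin hU _ _ _ (by norm_num) (by norm_num) (by norm_num),
    Constr_hall01 hmin hU _ _ _ (by norm_num) (by norm_num) (by norm_num),
    Constr_hall01 hmin hU _ _ _ (by norm_num) (by norm_num) (by norm_num),
    Constr_hall01 hmin hU _ _ _ (by norm_num) (by norm_num) (by norm_num)⟩
  by_contra hi
  have := hall hU ![1, 0] (Or.inl rfl) {i} ∅ (fun l hl => by
      rw [Finset.mem_singleton.1 hl]; omega) (fun l hl j hj hne => by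
      rw [Finset.mem_singleton.1 hl] at hne
      obtain ⟨s, hs, hd⟩ := Constr_eval10 (M.deg i j) (hmin i j) hne
      omega)
  simp at this

theorem Constr_rank_add {m n : Type*} [Fintype n] [Finite m] (A B : Matrix m n k) :
    (A + B).rank ≤ A.rank + B.rank := by
  unfold Matrix.rank
  rw [Matrix.mulVecLin_add]
  refine le_trans (Submodule.finrank_mono ?_)
    (Submodule.finrank_add_le_finrank_add_finrank (LinearMap.range A.mulVecLin)
      (LinearMap.range B.mulVecLin))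
  rintro _ ⟨v, rfl⟩
  exact Submodule.add_mem_sup ⟨v, rfl⟩ ⟨v, rfl⟩

theorem Constr_small {d : ℤ} {p : R k} (hp : p ∈ Rd k d) (h0 : constantCoeff p = 0)
    (hd : d < 6) : p = 0 := by
  ext m
  by_contra hm
  have h2 := mem_Rd.1 hp m hm
  have : m = 0 := fin2_eq_zero (by omega) (by omega)
  subst this
  exact hm h0

theorem Constr_bar {ι κ : Type*} [Fintype κ] (A : Matrix ι κ (R k)) (v : κ → R k) :
    A.map (constantCoeff : R k →+* k) *ᵥ (fun j => constantCoeff (v j)) =
      fun i => constantCoeff ((A *ᵥ v) i) := by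
  funext i
  simp [Matrix.mulVec, dotProduct, map_sum]

theorem Constr_homotopy {M : MF k} (hV : cV 0 M) : ∃ (X : MF k) (J : X ⟶ M)
    (h₁ : Matrix X.ι X.ι (R k)), (∀ t, mat J *ᵥ t = 0 → t = 0) ∧
      (∀ v ∈ Egt M.a 0, ∃ t, mat J *ᵥ t = v) ∧ X.φ * h₁ + h₁ * X.φ = 1 := by
  obtain ⟨X, J, hX, hinj, hJ⟩ := exists_trunc M 0
  obtain ⟨h, hh, hJh⟩ := hV X hX (mat J) (mat_deg J) (by rw [one_smul]; exact mat_comm J)
  rw [one_smul] at hJh
  have hY : cU 0 (X.tw 21 (-1)) := cU_of_le (cU_tw hX 21 (-1) (m := 21) (by norm_num)) (by norm_num)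
  have hkey := key (Y := X.tw 21 (-1)) (M := M) hY (h := h)
    (mem_Deg_congr hh fun i j => by simp; ring) 1 (fun v => by
      have e1 : h * (X.tw 21 (-1)).φ - (1 : ℤˣ) • (M.φ * h) = -mat J := by
        change h * ((-1 : ℤˣ) • X.φ) - (1 : ℤˣ) • (M.φ * h) = -mat J
        rw [hJh, one_smul, Units.neg_smul, one_smul, Matrix.mul_neg]
        abel
      rw [e1, Matrix.neg_mulVec]
      exact neg_mem ((hJ _).2 ⟨v, rfl⟩))
  obtain ⟨h₁, -, hJ₁⟩ := exists_factor (mat_deg J) hh fun j =>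
    (hJ _).1 (by rw [← Matrix.mulVec_single_one]; exact hkey _)
  refine ⟨X, J, h₁, hinj, fun v hv => (hJ v).1 (le_sat _ (Submodule.mem_sup_left hv)), ?_⟩
  apply left_cancel hinj
  rw [Matrix.mul_one, Matrix.mul_add, ← Matrix.mul_assoc, ← Matrix.mul_assoc, ← mat_comm,
    Matrix.mul_assoc, hJ₁]
  exact hJh.symm

theorem constr_V {M : MF k} (hmin : IsMin M) (hV : cV 0 M) :
    (∀ i, M.a i ≤ 15) ∧ (Finset.univ.filter fun i => 0 < M.a i).card ≤
      (Finset.univ.filter fun i => M.a i ≤ 0).card := by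
  classical
  obtain ⟨X, J, h₁, hinj, hJ, hone⟩ := Constr_homotopy hV
  set φb := X.φ.map (constantCoeff : R k →+* k) with hφb
  set hb := h₁.map (constantCoeff : R k →+* k) with hhb
  set Jb := (mat J).map (constantCoeff : R k →+* k) with hJb
  have hM0 : M.φ.map (constantCoeff : R k →+* k) = 0 := by
    ext i j
    exact hmin i j
  have hJφ : Jb * φb = 0 := by
    rw [hJb, hφb, ← Matrix.map_mul, ← mat_comm, Matrix.map_mul, hM0, Matrix.zero_mul]
  have hb1 : φb * hb + hb * φb = 1 := by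
    rw [hφb, hhb, ← Matrix.map_mul, ← Matrix.map_mul, ← Matrix.map_add _ (map_add _), hone]
    exact Matrix.map_one _ (map_zero _) (map_one _)
  have hsing : ∀ i, 0 < M.a i → (Pi.single i 1 : M.ι → R k) ∈ Egt M.a 0 := by
    intro i hi j hj
    rw [Pi.single_apply, if_neg]
    rintro rfl
    omega
  constructor
  · intro i
    by_contra hi
    obtain ⟨u, hu⟩ := hJ _ (hsing i (by omega))
    have h1 : ∀ j, ∃ p₁ p₂ : R k, M.φ j i = yy * p₁ + zz * p₂ ∧
        (M.a j ≤ 0 → p₁ = 0 ∧ p₂ = 0) := by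
      intro j
      by_cases hj : M.a j ≤ 0
      · exact ⟨0, 0, by simp [Constr_small (M.deg j i) (hmin j i) (by omega)], fun _ => ⟨rfl, rfl⟩⟩
      · obtain ⟨p₁, p₂, hp⟩ := exists_of_constantCoeff (hmin j i)
        exact ⟨p₁, p₂, hp, fun h => absurd h hj⟩
    choose e₁ e₂ he h0 using h1
    obtain ⟨u₁, hu₁⟩ := hJ e₁ fun j hj => (h0 j hj).1
    obtain ⟨u₂, hu₂⟩ := hJ e₂ fun j hj => (h0 j hj).2
    have h2 : X.φ *ᵥ u = (yy : R k) • u₁ + (zz : R k) • u₂ := by
      rw [← sub_eq_zero]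
      apply hinj
      rw [Matrix.mulVec_sub, Matrix.mulVec_add, Matrix.mulVec_smul, Matrix.mulVec_smul, hu₁, hu₂,
        Matrix.mulVec_mulVec, ← mat_comm, ← Matrix.mulVec_mulVec, hu, Matrix.mulVec_single_one,
        sub_eq_zero]
      funext j
      exact he j
    have h3 : φb *ᵥ (fun j => constantCoeff (u j)) = 0 := by
      rw [hφb, Constr_bar, h2]
      funext j
      simp
    have h4 : Jb *ᵥ (fun j => constantCoeff (u j)) = 0 := by
      rw [← Matrix.one_mulVec (fun j => constantCoeff (u j)), ← hb1, Matrix.add_mulVec,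
        ← Matrix.mulVec_mulVec, ← Matrix.mulVec_mulVec, h3, Matrix.mulVec_zero, add_zero,
        Matrix.mulVec_mulVec, hJφ, Matrix.zero_mulVec]
    rw [hJb, Constr_bar, hu] at h4
    simpa using congrFun h4 i
  · set P := Finset.univ.filter fun i => 0 < M.a i with hP
    choose t ht using fun i : P => hJ _ (hsing i (Finset.mem_filter.1 i.2).2)
    let T : Matrix X.ι P k := Matrix.of fun j i => constantCoeff (t i j)
    let J' : Matrix P X.ι k := Jb.submatrix Subtype.val id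
    have hT : J' * T = 1 := by
      ext i i₀
      have h1 := congrFun (Constr_bar (mat J) (t i₀)) i
      rw [ht] at h1
      have h2 : (J' * T) i i₀ = (Jb *ᵥ fun j => constantCoeff (t i₀ j)) i := rfl
      rw [h2, hJb, h1, Matrix.one_apply, Pi.single_apply]
      by_cases hi : i = i₀
      · subst hi; simp
      · rw [if_neg hi, if_neg (fun h => hi (Subtype.ext h)), map_zero]
    have hJ' : J' * φb = 0 := by
      ext i j
      exact congrFun (congrFun hJφ i) j
    have r1 := Matrix.rank_mul_le_left J' T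
    rw [hT, Matrix.rank_one, Fintype.card_coe] at r1
    have r2 := Matrix.rank_add_rank_le_card_of_mul_eq_zero hJ'
    have r3 := Constr_rank_add (φb * hb) (hb * φb)
    rw [hb1, Matrix.rank_one] at r3
    have r4 := Matrix.rank_mul_le_left φb hb
    have r5 := Matrix.rank_mul_le_right hb φb
    have r6 : Fintype.card X.ι ≤ Fintype.card M.ι := by
      have := LinearMap.finrank_le_finrank_of_injective (f := (mat J).mulVecLin)
        ((injective_iff_map_eq_zero _).2 hinj)
      rwa [Module.finrank_pi, Module.finrank_pi] at this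
    have r7 := Finset.card_filter_add_card_filter_not (s := (Finset.univ : Finset M.ι))
      (fun i => 0 < M.a i)
    simp only [not_lt, Finset.card_univ] at r7
    rw [← hP] at r7
    omega

theorem constr_pos {M : MF k} (hU : cU (-1) M) (h0 : ¬ cU 0 M) : 1 ≤ gn M 0 := by
  by_contra hc
  apply h0
  have h1 : ∀ i, M.a i ≠ 0 := by
    intro i hi
    apply hc
    have : 0 < (Finset.univ.filter fun i => M.a i = 0).card :=
      Finset.card_pos.2 ⟨i, Finset.mem_filter.2 ⟨Finset.mem_univ _, hi⟩⟩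
    unfold gn
    omega
  have h2 : (Egt M.a (-1) : Submodule (R k) (M.ι → R k)) = Egt M.a 0 := by
    ext v
    rw [mem_Egt, mem_Egt]
    exact ⟨fun h i hi => h i (by have := h1 i; omega), fun h i hi => h i (by omega)⟩
  intro v
  have := hU v
  unfold Mgt at this ⊢
  rwa [h2] at this

end Pool.Agent.Work.MP_8b4bd2_al
end

-- merged part: Pool.Agent.Work.MP_8b4bd2_al.Gam
section
/-!
The graded `S`-module of a matrix factorisation.
-/

set_option backward.isDefEq.respectTransparency false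

namespace Pool.Agent.Work.MP_8b4bd2_al

open CategoryTheory Limits GrMod Matrix MF MvPolynomial

universe u

variable {k : Type u} [Field k]

/-- `S` as a quadratic algebra over `R`. -/
noncomputable def psiS : S k →ₐ[k] QuadraticAlgebra (R k) (-ff) 0 :=
  Ideal.Quotient.liftₐ _
    (aeval ![QuadraticAlgebra.omega, algebraMap (R k) _ (X 0), algebraMap (R k) _ (X 1)]) (by
    intro a ha
    obtain ⟨b, rfl⟩ := Ideal.mem_span_singleton'.1 ha
    have h1 : (QuadraticAlgebra.omega : QuadraticAlgebra (R k) (-ff) 0) ^ 2 =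
        -algebraMap (R k) _ (X 0 ^ 3 + X 1 ^ 7) := by
      change _ = -algebraMap (R k) _ ff
      rw [_root_.sq, QuadraticAlgebra.omega_mul_omega_eq_mk]
      ext : 1 <;> simp
    rw [map_mul]
    simp only [map_add, map_pow, aeval_X]
    simp only [Matrix.cons_val_zero, Matrix.cons_val_one, Matrix.cons_val]
    rw [h1, map_add, map_pow, map_pow]
    ring)

theorem psiS_mk (P : MvPolynomial (Fin 3) k) : psiS (mkS k P) =
    aeval ![QuadraticAlgebra.omega, algebraMap (R k) _ (X 0), algebraMap (R k) _ (X 1)] P := rfl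

theorem psiS_iota (r : R k) : psiS (iota r) = algebraMap (R k) _ r := by
  have : (psiS (k := k)).comp iota = IsScalarTower.toAlgHom k (R k) _ := by
    refine algHom_ext fun i => ?_
    fin_cases i <;> simp [iota, psiS_mk]
  exact DFunLike.congr_fun this r

theorem psiS_xS : psiS (xS : S k) = QuadraticAlgebra.omega := by simp [xS, psiS_mk]

theorem exists_decomp' (s : S k) : ∃ p q : R k, s = iota p + xS * iota q := by
  induction s using icmp_induction (isInternal_Sdeg k) with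
  | h0 => exact ⟨0, 0, by simp⟩
  | h1 d s hs =>
    obtain ⟨p, -, q, -, h⟩ := exists_decomp hs
    exact ⟨p, q, h⟩
  | h2 s t hs ht =>
    obtain ⟨p, q, rfl⟩ := hs
    obtain ⟨p', q', rfl⟩ := ht
    exact ⟨p + p', q + q', by rw [map_add, map_add]; ring⟩

namespace MF

/-- The action of the quadratic algebra. -/
noncomputable def act₀ (M : MF k) :
    QuadraticAlgebra (R k) (-ff) 0 →ₐ[R k] Module.End (R k) (M.ι → R k) :=
  QuadraticAlgebra.lift ⟨M.φ.mulVecLin, LinearMap.ext fun v => by simpa using M.φ_mulVec_φ v⟩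

/-- The action of `S`. -/
noncomputable def act (M : MF k) : S k →+* Module.End (R k) (M.ι → R k) :=
  M.act₀.toRingHom.comp psiS.toRingHom

theorem act_iota (M : MF k) (p : R k) (v : M.ι → R k) : M.act (iota p) v = p • v := by
  change M.act₀ (psiS (iota p)) v = _
  rw [psiS_iota, AlgHom.commutes]
  rfl

theorem act_xS (M : MF k) (v : M.ι → R k) : M.act xS v = M.φ *ᵥ v := by
  change M.act₀ (psiS xS) v = _
  rw [psiS_xS]
  simp [act₀, QuadraticAlgebra.lift]

theorem act_apply (M : MF k) (p q : R k) (v : M.ι → R k) :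
    M.act (iota p + xS * iota q) v = p • v + q • (M.φ *ᵥ v) := by
  rw [map_add, map_mul, LinearMap.add_apply, Module.End.mul_apply, act_iota, act_iota, act_xS,
    mulVec_smul]

/-- The underlying `S`-module. -/
def Mod (M : MF k) : Type u := M.ι → R k

noncomputable instance (M : MF k) : AddCommGroup M.Mod := Pi.addCommGroup

noncomputable instance (M : MF k) : Module (S k) M.Mod := Module.compHom (M.ι → R k) M.act

theorem isInternal_Vdeg {ι : Type*} [Finite ι] (a : ι → ℤ) : DirectSum.IsInternal (Vdeg k a) :=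
  isInternal_of_cmp (fun d => (vcmp a d).toAddMonoidHom) (fun d v => vcmp_mem a d v)
    (fun _ _ hv => vcmp_of_mem hv)
    (fun _ _ _ hv h => funext fun i => cmp_of_mem_ne (mem_Vdeg.1 hv i) (by omega))
    (exists_sum_vcmp a)

/-- The graded module of a matrix factorisation. -/
noncomputable def gam (M : MF k) : GrMod (Sdeg k) where
  obj := ModuleCat.of (S k) M.Mod
  gr d := (Vdeg k M.a d).toAddSubgroup
  internal := isInternal_shift (isInternal_Vdeg M.a) 0 fun d v => by rw [zero_add]; rfl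
  smul_mem d e s v hs hv := by
    obtain ⟨p, hp, q, hq, rfl⟩ := exists_decomp hs
    change M.act _ v ∈ Vdeg k M.a _
    rw [act_apply]
    exact add_mem (smul_mem_Vdeg hp hv (by ring))
      (smul_mem_Vdeg hq (mulVec_mem_Vdeg M.deg hv rfl) (by ring))
  fg := by
    let f : (M.ι → R k) →ₛₗ[(iota : R k →ₐ[k] S k).toRingHom] M.Mod :=
      { toFun := id, map_add' := fun _ _ => rfl, map_smul' := fun p v => (M.act_iota p v).symm }
    refine ⟨(Set.finite_range fun i => f (Pi.single i 1)).toFinset, eq_top_iff.2 fun v _ => ?_⟩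
    have : v = f (∑ i, (v i) • Pi.single i 1) := by
      funext j
      change v j = (∑ i, (v i) • (Pi.single i 1 : M.ι → R k)) j
      simp [Pi.single_apply]
    rw [this, map_sum]
    refine Submodule.sum_mem _ fun i _ => ?_
    rw [map_smulₛₗ]
    exact Submodule.smul_mem _ _ (Submodule.subset_span (by simp))

/-- Elements of `M.gam` as vectors. -/
noncomputable def vec (M : MF k) : M.gam.obj ≃+ (M.ι → R k) := AddEquiv.refl _

theorem vec_smul (M : MF k) (p q : R k) (m : M.gam.obj) :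
    M.vec ((iota p + xS * iota q : S k) • m) = p • M.vec m + q • (M.φ *ᵥ M.vec m) :=
  M.act_apply p q m

theorem vec_iota_smul (M : MF k) (p : R k) (m : M.gam.obj) :
    M.vec ((iota p : S k) • m) = p • M.vec m := M.act_iota p m

theorem vec_xS_smul (M : MF k) (m : M.gam.obj) :
    M.vec ((xS : S k) • m) = M.φ *ᵥ M.vec m := M.act_xS m

theorem mem_gam_gr {M : MF k} {d : ℤ} {m : M.gam.obj} :
    m ∈ M.gam.gr d ↔ M.vec m ∈ Vdeg k M.a d := Iff.rfl

/-- The map induced by a morphism of matrix factorisations. -/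
noncomputable def gamMap {M N : MF k} (g : M ⟶ N) : M.gam ⟶ N.gam :=
  ⟨{ toFun := fun m => N.vec.symm (mat g *ᵥ M.vec m)
     map_add' := fun _ _ => by rw [map_add, mulVec_add, map_add]
     map_smul' := fun s m => N.vec.injective (by
       obtain ⟨p, q, rfl⟩ := exists_decomp' s
       rw [RingHom.id_apply, vec_smul, AddEquiv.apply_symm_apply, vec_smul,
         AddEquiv.apply_symm_apply, mulVec_add, mulVec_smul, mulVec_smul, mulVec_mulVec, mulVec_mulVec,
         mat_comm]) },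
    fun d _ hm => mulVec_mem_Vdeg (mat_deg g) hm (zero_add d).symm⟩

theorem vec_gamMap {M N : MF k} (g : M ⟶ N) (m : M.gam.obj) :
    N.vec (lin (gamMap g) m) = mat g *ᵥ M.vec m := rfl

theorem gam_torsionFree (M : MF k) : Module.IsTorsionFree (S k) M.gam.obj where
  isSMulRegular s hs := by
    obtain ⟨p, q, rfl⟩ := exists_decomp' s
    have h₁ : (iota p + xS * iota q : S k) * (iota p + xS * iota (-q)) =
        iota (p * p + ff * (q * q)) := by
      simp only [map_add, map_mul, map_neg]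
      linear_combination (-(iota q * iota q)) * xS_sq (k := k)
    have h₂ : p * p + ff * (q * q) ≠ 0 := fun h => by
      rw [h, map_zero, ← mul_zero (iota p + xS * iota q)] at h₁
      obtain ⟨rfl, hq⟩ := decomp_unique (hs.1 h₁)
      obtain rfl := neg_eq_zero.1 hq
      have : (iota 1 + xS * iota 0 : S k) = 0 := hs.1 (by simp)
      exact one_ne_zero (decomp_unique this).1
    refine IsSMulRegular.of_right_eq_zero_of_smul fun m hm => M.vec.injective ?_
    have h₃ := M.vec_iota_smul (p * p + ff * (q * q)) m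
    rw [← h₁, mul_comm, mul_smul, hm, smul_zero, map_zero] at h₃
    rw [map_zero]
    exact (smul_eq_zero.1 h₃.symm).resolve_left h₂

end MF

variable (k) in
/-- Matrix factorisations as graded `S`-modules. -/
noncomputable def Gam : MF k ⥤ GrMod (Sdeg k) where
  obj := gam
  map := gamMap
  map_id M := GrMod.hom_ext fun m => M.vec.injective (one_mulVec _)
  map_comp {_ _ P} _ _ := GrMod.hom_ext fun _ => P.vec.injective (mulVec_mulVec _ _ _).symm

instance : (Gam k).Additive where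
  map_add {_ N _ _} := GrMod.hom_ext fun _ => N.vec.injective (add_mulVec _ _ _)

instance : (Gam k).Faithful where
  map_injective {M N f g} h := MF.hom_ext (mulVec_injective (funext fun v =>
    congrArg (fun φ : M.gam ⟶ N.gam => N.vec (lin φ (M.vec.symm v))) h))

instance : (Gam k).Full where
  map_surjective {M N} f := by
    let l : (M.ι → R k) →ₗ[R k] (N.ι → R k) :=
      { toFun := fun v => N.vec (lin (M := M.gam) (N := N.gam) f (M.vec.symm v))
        map_add' := fun _ _ => by simp only [map_add]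
        map_smul' := fun p v => by
          rw [RingHom.id_apply, ← vec_iota_smul, ← map_smul]
          congr 2
          exact M.vec.injective (M.vec_iota_smul p (M.vec.symm v)).symm }
    have hl : ∀ v, LinearMap.toMatrix' l *ᵥ v = l v := LinearMap.toMatrix'_mulVec l
    refine ⟨homMk (LinearMap.toMatrix' l) (mem_Deg_iff_col.2 fun j => ?_)
      (mulVec_injective (funext fun v => ?_)), GrMod.hom_ext fun m => N.vec.injective (hl _)⟩
    · rw [← mulVec_single_one, hl]
      refine lin_mem (M := M.gam) (N := N.gam) f (mem_gam_gr.2 (mem_Vdeg.2 fun i => ?_))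
      change (Pi.single j 1 : M.ι → R k) i ∈ _
      rw [Pi.single_apply]
      split_ifs with h
      · exact one_mem_Rd (by rw [h]; ring)
      · exact zero_mem _
    · change (_ * _) *ᵥ v = (_ * _) *ᵥ v
      rw [← mulVec_mulVec, ← mulVec_mulVec, hl, hl]
      change N.φ *ᵥ N.vec _ = N.vec _
      rw [← vec_xS_smul, ← map_smul]
      congr 2
      exact M.vec.injective (M.vec_xS_smul (M.vec.symm v))

end Pool.Agent.Work.MP_8b4bd2_al
end

-- merged part: Pool.Agent.Work.MP_8b4bd2_al.FinLen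
section
/-!
Finite length means that `y` and `z` act nilpotently.
`nil_of_finLen`: reduce to homogeneous `m` (`icmp_induction`); the chain of the `span {y^n • m}` is
stationary, so `y^n • m = s • y^(n+1) • m`; apply `icmp` in the degree of the left side, write `s` as
the sum of its components (`exists_sum_icmp (isInternal_Sdeg k)`), `Sdeg k d = 0` for `d < 0`
(`exists_decomp`, `eq_zero_of_neg`).
`finLen_of_nil`: finitely many generators, a common exponent `N`; `M` is spanned over `k`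
(`Module.compHom` or `RestrictScalars`) by the `y^i z^j x^e • g`, `i, j < N`, `e < 2`;
`isArtinian_of_tower`. (Or: `S ⧸ (y^N, z^N)` is finite over `k`, hence artinian.)
`isoModSerre_iff`: compare `kernel f`, `cokernel f` with `GrMod.ker f`, `GrMod.coker f`
(`kerIsLimit`, `cokerIsColimit`, `IsLimit.conePointUniqueUpToIso`, `prop_iff_of_iso`).
-/

set_option backward.isDefEq.respectTransparency false

namespace Pool.Agent.Work.MP_8b4bd2_al

open CategoryTheory Limits GrMod

universe u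

variable {k : Type u} [Field k]

theorem FinLen_neg {d : ℤ} {s : S k} (h : s ∈ Sdeg k d) (hd : d < 0) : s = 0 := by
  obtain ⟨p, hp, q, hq, rfl⟩ := exists_decomp h
  rw [eq_zero_of_neg hp hd, eq_zero_of_neg hq (by omega), map_zero, mul_zero, add_zero]

theorem FinLen_nil {M : GrMod (Sdeg k)} [IsArtinian (S k) M.obj] {c : ℤ} {t : S k}
    (ht : t ∈ Sdeg k c) (hc : 0 < c) (m : M.obj) : ∃ n : ℕ, t ^ n • m = 0 := by
  induction m using icmp_induction M.internal with
  | h0 => exact ⟨0, smul_zero _⟩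
  | h2 m m' h h' =>
    obtain ⟨a, ha⟩ := h
    obtain ⟨b, hb⟩ := h'
    exact ⟨a + b, by
      rw [smul_add, pow_add, mul_smul, mul_smul, hb, smul_comm, ha, smul_zero, smul_zero, add_zero]⟩
  | h1 d m hm =>
    obtain ⟨n, ⟨y, hy⟩, h⟩ := IsArtinian.exists_pow_succ_smul_dvd t
      (⟨m, Submodule.mem_span_singleton_self m⟩ : Submodule.span (S k) {m})
    obtain ⟨s, rfl⟩ := Submodule.mem_span_singleton.1 hy
    replace h : t ^ (n + 1) • s • m = t ^ n • m := congrArg Subtype.val h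
    refine ⟨n, ?_⟩
    rw [← icmp_of_mem M.internal (M.smul_mem (SetLike.pow_mem_graded n ht) hm), ← h]
    obtain ⟨u, hu⟩ := exists_sum_icmp (isInternal_Sdeg k) s
    rw [← hu, Finset.sum_smul, Finset.smul_sum, map_sum]
    refine Finset.sum_eq_zero fun e _ => ?_
    have he := icmp_mem (isInternal_Sdeg k) e s
    by_cases h0 : e < 0
    · rw [FinLen_neg he h0, zero_smul, smul_zero, map_zero]
    · refine icmp_of_mem_ne _ (M.smul_mem (SetLike.pow_mem_graded (n + 1) ht) (M.smul_mem he hm)) ?_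
      rw [succ_nsmul]
      omega

theorem nil_of_finLen {M : GrMod (Sdeg k)} (h : finLen _ M) (m : M.obj) :
    ∃ n : ℕ, (iota (yy ^ n) : S k) • m = 0 ∧ (iota (zz ^ n) : S k) • m = 0 := by
  have : IsArtinian (S k) M.obj := (isFiniteLength_iff_isNoetherian_isArtinian.1 h).2
  obtain ⟨a, ha⟩ := FinLen_nil (iota_mem yy_mem) (by norm_num) m
  obtain ⟨b, hb⟩ := FinLen_nil (iota_mem zz_mem) (by norm_num) m
  exact ⟨a + b, by rw [map_pow, pow_add, mul_comm, mul_smul, ha, smul_zero],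
    by rw [map_pow, pow_add, mul_smul, hb, smul_zero]⟩

theorem FinLen_artinian (n : ℕ) :
    IsArtinian (S k) (S k ⧸ Ideal.span {(iota (yy ^ n) : S k), iota (zz ^ n)}) := by
  set I := Ideal.span {(iota (yy ^ n) : S k), iota (zz ^ n)}
  let φ : MvPolynomial (Fin 3) k →ₐ[k] S k ⧸ I := (Ideal.Quotient.mkₐ k I).comp (mkS k)
  have hφ : Function.Surjective φ :=
    (Ideal.Quotient.mkₐ_surjective k I).comp Ideal.Quotient.mk_surjective
  have hy : IsNilpotent (Ideal.Quotient.mk I (iota yy)) := ⟨n, by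
    rw [← map_pow, ← map_pow]
    exact Ideal.Quotient.eq_zero_iff_mem.2 (Ideal.subset_span (Or.inl rfl))⟩
  have hz : IsNilpotent (Ideal.Quotient.mk I (iota zz)) := ⟨n, by
    rw [← map_pow, ← map_pow]
    exact Ideal.Quotient.eq_zero_iff_mem.2 (Ideal.subset_span (Or.inr rfl))⟩
  have hx : IsNilpotent (Ideal.Quotient.mk I xS) := by
    refine IsNilpotent.of_pow (m := 2) ?_
    rw [← map_pow, sq, xS_sq, map_neg, ff, map_add, map_add, map_pow, map_pow, map_pow, map_pow]
    exact ((Commute.all _ _).isNilpotent_add (hy.pow_succ 2) (hz.pow_succ 6)).neg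
  have hI : ∀ s : S k ⧸ I, IsNilpotent s → IsIntegral k s := fun s ⟨m, hm⟩ =>
    .of_pow m.succ_pos (by rw [pow_succ, hm, zero_mul]; exact isIntegral_zero)
  have hX : ∀ i, IsNilpotent (φ (MvPolynomial.X i)) := by
    intro i
    fin_cases i
    · exact hx
    · simpa [iota, φ] using hy
    · simpa [iota, φ] using hz
  have : Algebra.FiniteType k (S k ⧸ I) := .of_surjective φ hφ
  have : Algebra.IsIntegral k (S k ⧸ I) := ⟨fun s => by
    obtain ⟨p, rfl⟩ := hφ s
    induction p using MvPolynomial.induction_on with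
    | C a => exact (φ.commutes a).symm ▸ isIntegral_algebraMap
    | add p q hp hq => exact map_add φ p q ▸ hp.add hq
    | mul_X p i hp => exact map_mul φ p _ ▸ hp.mul (hI _ (hX i))⟩
  have : Module.Finite k (S k ⧸ I) := Algebra.IsIntegral.finite
  exact isArtinian_of_tower k inferInstance

theorem finLen_of_nil {M : GrMod (Sdeg k)}
    (h : ∀ m : M.obj, ∃ n : ℕ, (iota (yy ^ n) : S k) • m = 0 ∧ (iota (zz ^ n) : S k) • m = 0) :
    finLen _ M := by
  refine isFiniteLength_iff_isNoetherian_isArtinian.2 ⟨inferInstance, ?_⟩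
  have key : ∀ N : Submodule (S k) M.obj, N.FG → IsArtinian (S k) N := by
    intro N hN
    induction N, hN using Submodule.fg_induction with
    | singleton m =>
      obtain ⟨n, hy, hz⟩ := h m
      have := FinLen_artinian (k := k) n
      have h1 := isArtinian_range ((Ideal.span {(iota (yy ^ n) : S k), iota (zz ^ n)}).liftQ
        (LinearMap.toSpanSingleton (S k) M.obj m) (Submodule.span_le.2 (by
          rintro _ (rfl | rfl)
          exacts [hy, hz])))
      rwa [Submodule.range_liftQ, LinearMap.range_toSpanSingleton] at h1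
    | sup N N' _ _ h₁ h₂ => infer_instance
  have := key ⊤ M.fg.1
  exact isArtinian_of_linearEquiv Submodule.topEquiv

theorem isoModSerre_iff {M N : GrMod (Sdeg k)} (f : M ⟶ N) : (finLen _).isoModSerre f ↔
    (∀ m, lin f m = 0 →
      ∃ n : ℕ, (iota (yy ^ n) : S k) • m = 0 ∧ (iota (zz ^ n) : S k) • m = 0) ∧
    ∀ m, ∃ n : ℕ, (iota (yy ^ n) : S k) • m ∈ LinearMap.range (lin f) ∧
      (iota (zz ^ n) : S k) • m ∈ LinearMap.range (lin f) := by
  have e₁ : kernel f ≅ GrMod.ker f :=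
    IsLimit.conePointUniqueUpToIso (kernelIsKernel f) (kerIsLimit f)
  have e₂ : cokernel f ≅ GrMod.coker f :=
    IsColimit.coconePointUniqueUpToIso (cokernelIsCokernel f) (cokerIsColimit f)
  rw [ObjectProperty.isoModSerre_iff, ObjectProperty.monoModSerre_iff,
    ObjectProperty.epiModSerre_iff, (finLen _).prop_iff_of_iso e₁, (finLen _).prop_iff_of_iso e₂]
  refine and_congr ⟨fun h m hm => ?_, fun h => finLen_of_nil fun m => ?_⟩
    ⟨fun h m => ?_, fun h => finLen_of_nil fun m => ?_⟩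
  · obtain ⟨n, hy, hz⟩ := nil_of_finLen h ⟨m, hm⟩
    exact ⟨n, congrArg Subtype.val hy, congrArg Subtype.val hz⟩
  · obtain ⟨n, hy, hz⟩ := h m.1 m.2
    exact ⟨n, Subtype.ext hy, Subtype.ext hz⟩
  · obtain ⟨n, hy, hz⟩ := nil_of_finLen h ((LinearMap.range (lin f)).mkQ m)
    exact ⟨n, (Submodule.Quotient.mk_eq_zero _).1 hy, (Submodule.Quotient.mk_eq_zero _).1 hz⟩
  · obtain ⟨m, rfl⟩ := Submodule.mkQ_surjective _ m
    obtain ⟨n, hy, hz⟩ := h m
    exact ⟨n, (Submodule.Quotient.mk_eq_zero _).2 hy, (Submodule.Quotient.mk_eq_zero _).2 hz⟩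

end Pool.Agent.Work.MP_8b4bd2_al
end

-- merged part: Pool.Agent.Work.MP_8b4bd2_al.Loc
section
/-!
Maximal Cohen-Macaulay modules are local for the maps that become invertible in `coh X`.
-/

set_option backward.isDefEq.respectTransparency false

namespace Pool.Agent.Work.MP_8b4bd2_al

open CategoryTheory Limits GrMod Matrix MF

universe u

variable {k : Type u} [Field k]

theorem gam_eq_zero (N : MF k) {n : ℕ} {m : N.gam.obj} (h : (iota (yy ^ n) : S k) • m = 0) :
    m = 0 := by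
  apply N.vec.injective
  have := N.vec_iota_smul (yy ^ n) m
  rw [h, map_zero] at this
  rw [map_zero]
  exact (smul_eq_zero.1 this.symm).resolve_left (pow_ne_zero _ (prime_X' 0).ne_zero)

theorem gam_koszul (N : MF k) {n : ℕ} {v w : N.gam.obj}
    (h : (iota (zz ^ n) : S k) • v = (iota (yy ^ n) : S k) • w) :
    ∃ u : N.gam.obj, v = (iota (yy ^ n) : S k) • u := by
  have h₁ := congrArg N.vec h
  rw [vec_iota_smul, vec_iota_smul] at h₁
  have h₂ : ∀ i, ∃ u, N.vec v i = yy ^ n * u := fun i => by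
    obtain ⟨u, -, hu⟩ := koszul n n (p := -N.vec w i) (q := N.vec v i) (by
      have := congrFun h₁ i
      simp only [Pi.smul_apply, smul_eq_mul] at this
      rw [this]; ring)
    exact ⟨-u, by rw [hu]; ring⟩
  choose u hu using h₂
  refine ⟨N.vec.symm u, N.vec.injective ?_⟩
  rw [vec_iota_smul, AddEquiv.apply_symm_apply]
  exact funext hu

theorem exists_retraction (N : MF k) {Y : GrMod (Sdeg k)} (s : N.gam ⟶ Y)
    (hs : (finLen _).isoModSerre s) : ∃ r : Y ⟶ N.gam, s ≫ r = 𝟙 _ := by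
  obtain ⟨h₁, h₂⟩ := (isoModSerre_iff s).1 hs
  have hinj : ∀ v, lin s v = 0 → v = 0 := fun v hv =>
    (h₁ v hv).elim fun _ h => gam_eq_zero N h.1
  let P : Y.obj → N.gam.obj → Prop := fun m u =>
    ∃ n : ℕ, (iota (yy ^ n) : S k) • (m - lin s u) = 0
  have hadd : ∀ {m m' u u'}, P m u → P m' u' → P (m + m') (u + u') := by
    rintro m m' u u' ⟨n, hn⟩ ⟨n', hn'⟩
    refine ⟨n + n', ?_⟩
    rw [map_add, add_sub_add_comm, smul_add, pow_add, map_mul, mul_smul, mul_smul, hn',
      smul_comm, hn, smul_zero, smul_zero, add_zero]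
  have hsmul : ∀ (c : S k) {m u}, P m u → P (c • m) (c • u) := by
    rintro c m u ⟨n, hn⟩
    exact ⟨n, by rw [map_smul, ← smul_sub, smul_comm, hn, smul_zero]⟩
  have huniq : ∀ {m u u'}, P m u → P m u' → u = u' := by
    intro m u u' h h'
    obtain ⟨n, hn⟩ := hadd h (hsmul (-1) h')
    rw [neg_one_smul, neg_one_smul, add_neg_cancel, zero_sub, smul_neg, neg_eq_zero,
      ← map_smul] at hn
    exact add_neg_eq_zero.1 (gam_eq_zero N (hinj _ hn))
  have hex : ∀ m, ∃ u, P m u := fun m => by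
    obtain ⟨n, ⟨v, hv⟩, w, hw⟩ := h₂ m
    obtain ⟨u, rfl⟩ := gam_koszul N (n := n) (v := v) (w := w) (sub_eq_zero.1 (hinj _ (by
      rw [map_sub, map_smul, map_smul, hv, hw, smul_comm, sub_self])))
    exact ⟨u, n, by rw [smul_sub, ← hv, map_smul, sub_self]⟩
  choose r hr using hex
  refine ⟨⟨⟨⟨r, fun _ _ => huniq (hr _) (hadd (hr _) (hr _))⟩,
    fun c _ => huniq (hr _) (hsmul c (hr _))⟩, fun d m hm => ?_⟩,
    GrMod.hom_ext fun v => huniq (hr _) ⟨0, smul_eq_zero_of_right _ (sub_self _)⟩⟩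
  obtain ⟨n, hn⟩ := hr m
  have h₃ : P m (icmp N.gam.internal d (r m)) := ⟨n, by
    rw [← icmp_lin, ← icmp_of_mem Y.internal hm, ← map_sub, icmp_of_mem Y.internal hm,
      ← Y.icmp_smul (iota_mem (pow_mem_Rd yy_mem n rfl)), hn, map_zero]⟩
  change r m ∈ _
  rw [huniq (hr m) h₃]
  exact icmp_mem _ _ _

theorem sheaf_map_bijective (X : GrMod (Sdeg k)) (N : MF k) :
    Function.Bijective ((sheaf (Sdeg k)).map : (X ⟶ N.gam) → _) := by
  refine ⟨fun f g h => ?_, fun f => ?_⟩
  · obtain ⟨Z, s, hs, h⟩ := (MorphismProperty.map_eq_iff_postcomp (sheaf (Sdeg k))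
      (finLen _).isoModSerre f g).1 h
    obtain ⟨r, hr⟩ := exists_retraction N s hs
    rw [← Category.comp_id f, ← hr, reassoc_of% h, hr, Category.comp_id]
  · obtain ⟨φ, rfl⟩ := Localization.exists_leftFraction (sheaf (Sdeg k)) (finLen _).isoModSerre f
    obtain ⟨r, hr⟩ := exists_retraction N φ.s φ.hs
    refine ⟨φ.f ≫ r, ?_⟩
    rw [Functor.map_comp, ← φ.map_comp_map_s (sheaf (Sdeg k)) (Localization.inverts _ _),
      Category.assoc, ← Functor.map_comp, hr, CategoryTheory.Functor.map_id, Category.comp_id]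

end Pool.Agent.Work.MP_8b4bd2_al
end
end

-- merged part: Pool.Agent.Work.MP_8b4bd2_al.EFun0
section
/-!
The complete resolution of a matrix factorisation, as a functor to cochain complexes.
-/

set_option backward.isDefEq.respectTransparency false
set_option backward.defeqAttrib.useBackward true

namespace Pool.Agent.Work.MP_8b4bd2_al

open CategoryTheory Limits Matrix MF

universe u

variable {k : Type u} [Field k]

noncomputable abbrev EX (M : MF k) (i : ℤ) : Proj k := objP M.ι fun j => M.a j + 21 * i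

noncomputable def Ed (M : MF k) (i j : ℤ) (h : i + 1 = j) : EX M i ⟶ EX M j :=
  mkP (i.negOnePow • M.φ) (1 : Matrix M.ι M.ι (R k))
    (units_smul_mem_Deg _ (mem_Deg_congr M.deg fun a b => by dsimp [hts]; omega))
    (one_mem_Deg fun a => by dsimp [hts]; omega)

theorem smat_Ed (M : MF k) (i j : ℤ) (h : i + 1 = j) :
    smat (Ed M i j h) = sm (i.negOnePow • M.φ) 1 := rfl

noncomputable abbrev E0 (M : MF k) : CochainComplex (Proj k) ℤ where
  X i := EX M i
  d i j := if h : i + 1 = j then Ed M i j h else 0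
  shape i j h := dif_neg h
  d_comp_d' i j l hij hjl := by
    obtain rfl : i + 1 = j := hij
    obtain rfl : i + 1 + 1 = l := hjl
    apply smat_inj
    rw [dif_pos rfl, dif_pos rfl, smat_comp, smat_Ed, smat_Ed, sm_mul, smat_zero, Int.negOnePow_succ]
    rcases Int.units_eq_one_or i.negOnePow with h | h <;> simp [h, M.sq, sm_zero]

theorem smat_E0_d (M : MF k) {i j : ℤ} (h : i + 1 = j) :
    smat ((E0 M).d i j) = sm (i.negOnePow • M.φ) 1 := by
  change smat (dite _ _ _) = _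
  rw [dif_pos h, smat_Ed]

noncomputable def Emap {M N : MF k} (g : M ⟶ N) (i : ℤ) : EX M i ⟶ EX N i :=
  mkP (mat g) 0 (mem_Deg_congr (mat_deg g) fun a b => by dsimp [hts]; omega) (zero_mem _)

theorem smat_Emap {M N : MF k} (g : M ⟶ N) (i : ℤ) : smat (Emap g i) = sm (mat g) 0 := rfl

noncomputable def Ech {M N : MF k} (g : M ⟶ N) : E0 M ⟶ E0 N where
  f := Emap g
  comm' i j h := smat_inj (by
    rw [smat_comp, smat_comp, smat_E0_d _ h, smat_E0_d _ h, smat_Emap, smat_Emap, sm_mul, sm_mul]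
    simp [mat_comm])

theorem smat_E1 {M N : MF k} (g : M ⟶ N) (i : ℤ) : smat ((Ech g).f i) = sm (mat g) 0 := rfl

noncomputable def E1 : MF k ⥤ CochainComplex (Proj k) ℤ where
  obj M := E0 M
  map g := Ech g
  map_id M := by
    ext i : 1
    apply smat_inj
    rw [HomologicalComplex.id_f, smat_id, smat_E1, mat_id, sm_one]
  map_comp f g := by
    ext i : 1
    apply smat_inj
    rw [HomologicalComplex.comp_f, smat_comp, smat_E1, smat_E1, smat_E1, sm_mul]
    simp

instance : (E1 (k := k)).Additive where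
  map_add {M N f g} := by
    change Ech (f + g) = Ech f + Ech g
    ext i : 1
    apply smat_inj
    rw [HomologicalComplex.add_f_apply, smat_add, smat_E1, smat_E1, smat_E1, sm_add]
    simp

theorem rac_E0 (M : MF k) (Q : Proj k) : RAc Q (E0 M) := by
  rintro i _ _ rfl rfl α hα
  obtain ⟨A, hA, B, hB, h⟩ := exists_sm α
  have h1 := congrArg smat hα
  rw [smat_comp, smat_E0_d _ rfl, h, sm_mul, smat_zero, Int.negOnePow_succ] at h1
  have h2 := (sm_eq_zero h1).2
  refine ⟨mkP B 0 (mem_Deg_congr hB fun a b => by dsimp [hts]; omega) (zero_mem _), smat_inj ?_⟩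
  rw [smat_comp, smat_E0_d _ rfl, smat_mkP, sm_mul, h]
  rw [Matrix.one_mul, add_eq_zero_iff_neg_eq] at h2
  simp [← h2]

theorem lac_E0 (M : MF k) (Q : Proj k) : LAc Q (E0 M) := by
  rintro i _ _ rfl rfl α hα
  obtain ⟨A, hA, B, hB, h⟩ := exists_sm α
  have h1 := congrArg smat hα
  rw [smat_comp, smat_E0_d _ rfl, h, sm_mul, smat_zero] at h1
  have h2 := (sm_eq_zero h1).2
  refine ⟨mkP B 0 (mem_Deg_congr hB fun a b => by dsimp [hts]; omega) (zero_mem _), smat_inj ?_⟩
  rw [smat_comp, smat_E0_d _ rfl, smat_mkP, sm_mul, h, Int.negOnePow_succ]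
  rw [Matrix.mul_one, add_eq_zero_iff_eq_neg] at h2
  simp [h2]

/-- Two chain maps that agree on the cycles of degree one are homotopic. -/
theorem quotient_map_eq {P : Type*} [Category P] [Preadditive P] {L K : CochainComplex P ℤ}
    (hL : ∀ Q, LAc Q L) (hK : ∀ Q, RAc Q K) (ψ ψ' : L ⟶ K)
    (h : (ψ.f 0 - ψ'.f 0) ≫ K.d 0 1 = 0) :
    (HomotopyCategory.quotient _ _).map ψ = (HomotopyCategory.quotient _ _).map ψ' := by
  rw [← sub_eq_zero, ← Functor.map_sub, HomotopyCategory.quotient_map_eq_zero_iff]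
  exact exists_homotopy hL hK _ h

theorem E1_full {M N : MF k} (ψ : E0 M ⟶ E0 N) : ∃ g : M ⟶ N,
    (HomotopyCategory.quotient _ _).map (Ech g) = (HomotopyCategory.quotient _ _).map ψ := by
  obtain ⟨A, hA, B, hB, h⟩ := exists_sm (ψ.f 0)
  obtain ⟨A', -, B', -, h'⟩ := exists_sm (ψ.f (-1))
  have h1 := congrArg smat (ψ.comm (-1) 0)
  rw [smat_comp, smat_comp, smat_E0_d _ (by simp), smat_E0_d _ (by simp), h, h', sm_mul,
    sm_mul] at h1
  obtain ⟨h2, h3⟩ := sm_inj h1
  simp only [Int.negOnePow_neg, Int.negOnePow_one, Units.neg_smul, one_smul, Matrix.one_mul,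
    Matrix.mul_one, Matrix.neg_mul, Matrix.mul_neg] at h2 h3
  have h4 : N.φ * (A + N.φ * B) = (A + N.φ * B) * M.φ := by
    have h5 := congrArg (N.φ * ·) h3
    simp only [Matrix.mul_add, Matrix.mul_neg, N.φ_mul_φ_mul] at h5
    rw [Matrix.mul_add, Matrix.add_mul, N.φ_mul_φ_mul, Matrix.mul_assoc]
    linear_combination (norm := module) -h5 - h2
  refine ⟨homMk (A + N.φ * B) (add_mem (mem_Deg_congr hA fun a b => by simp [hts])
    (mul_mem_Deg N.deg (d := -21) (mem_Deg_congr hB fun a b => by simp [hts]) (by simp))) h4, ?_⟩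
  refine quotient_map_eq (lac_E0 M) (rac_E0 N) _ _ (smat_inj ?_)
  rw [smat_comp, smat_sub, smat_E1, h, smat_E0_d _ (by simp), sm_sub, sm_mul, smat_zero]
  simp [N.φ_mul_φ_mul, sm_zero]

theorem E1_zero_iff {M N : MF k} (g : M ⟶ N) : Nonempty (Homotopy (Ech g) 0) ↔
    ∃ h ∈ Deg k M.a N.a (-21), mat g = N.φ * h + h * M.φ := by
  constructor
  · rintro ⟨H⟩
    have h0 := H.comm 0
    rw [dNext_eq H.hom (show (ComplexShape.up ℤ).Rel 0 1 by simp),
      prevD_eq H.hom (show (ComplexShape.up ℤ).Rel (-1) 0 by simp)] at h0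
    obtain ⟨C₁, hC₁, D₁, hD₁, h₁⟩ := exists_sm (H.hom 1 0)
    obtain ⟨C₀, -, D₀, -, h₀⟩ := exists_sm (H.hom 0 (-1))
    have h1 := congrArg smat h0
    rw [HomologicalComplex.zero_f, add_zero, smat_add, smat_comp, smat_comp, smat_E1, h₁, h₀] at h1
    rw [smat_E0_d M (show (0 : ℤ) + 1 = 1 by simp), smat_E0_d N (show (-1 : ℤ) + 1 = 0 by simp)] at h1
    rw [sm_mul, sm_mul, sm_add] at h1
    obtain ⟨h2, h3⟩ := sm_inj h1
    simp only [Int.negOnePow_neg, Int.negOnePow_one, Int.negOnePow_zero, Units.neg_smul, one_smul,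
      Matrix.one_mul, Matrix.mul_one, Matrix.neg_mul] at h2 h3
    refine ⟨C₁ + N.φ * D₁, add_mem (mem_Deg_congr hC₁ fun a b => by dsimp [hts]; omega)
      (mul_mem_Deg N.deg (d := -42) (mem_Deg_congr hD₁ fun a b => by dsimp [hts]; omega) (by simp)), ?_⟩
    have h5 := congrArg (N.φ * ·) h3
    simp only [Matrix.mul_add, Matrix.mul_neg, N.φ_mul_φ_mul, Matrix.mul_zero] at h5
    rw [Matrix.mul_add, Matrix.add_mul, N.φ_mul_φ_mul, Matrix.mul_assoc]
    linear_combination (norm := module) h2 + h5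
  · rintro ⟨h, hh, hg⟩
    let H : ∀ i j, (ComplexShape.up ℤ).Rel j i → ((E0 M).X i ⟶ (E0 N).X j) := fun i j hij =>
      mkP (j.negOnePow • h) 0 (units_smul_mem_Deg _ (mem_Deg_congr hh fun a b => by
        have : j + 1 = i := hij
        dsimp [hts]
        omega)) (zero_mem _)
    have : Ech g = Homotopy.nullHomotopicMap' H := by
      ext i : 1
      rw [Homotopy.nullHomotopicMap'_f (show (ComplexShape.up ℤ).Rel (i - 1) i by simp)
        (show (ComplexShape.up ℤ).Rel i (i + 1) by simp)]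
      apply smat_inj
      rw [smat_add, smat_comp, smat_comp, smat_E0_d _ rfl, smat_E0_d _ (by simp), smat_mkP, smat_mkP,
        smat_E1, sm_mul, sm_mul, sm_add, hg, Int.negOnePow_sub]
      rcases Int.units_eq_one_or i.negOnePow with h | h <;> simp [h, add_comm]
    exact ⟨this ▸ Homotopy.nullHomotopy' H⟩

noncomputable def shX (M : MF k) (i : ℤ) : EX (M.tw 21 (-1)) i ≅ EX M (i + 1) where
  hom := mkP (i.negOnePow • (1 : Matrix M.ι M.ι (R k))) 0
    (units_smul_mem_Deg _ (one_mem_Deg fun a => by dsimp [hts]; omega)) (zero_mem _)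
  inv := mkP (i.negOnePow • (1 : Matrix M.ι M.ι (R k))) 0
    (units_smul_mem_Deg _ (one_mem_Deg fun a => by dsimp [hts]; omega)) (zero_mem _)
  hom_inv_id := smat_inj (by
    rw [smat_comp, smat_mkP, smat_mkP, sm_mul, smat_id]
    rcases Int.units_eq_one_or i.negOnePow with h | h <;> simp [h, sm_one])
  inv_hom_id := smat_inj (by
    rw [smat_comp, smat_mkP, smat_mkP, sm_mul, smat_id]
    rcases Int.units_eq_one_or i.negOnePow with h | h <;> simp [h, sm_one])

theorem smat_shX (M : MF k) (i : ℤ) :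
    smat (shX M i).hom = sm (i.negOnePow • (1 : Matrix M.ι M.ι (R k))) 0 := rfl

noncomputable def shE0 (M : MF k) : E0 (M.tw 21 (-1)) ≅ (E0 M)⟦(1 : ℤ)⟧ :=
  HomologicalComplex.Hom.isoOfComponents (fun i => shX M i) (by
    rintro i _ rfl
    apply smat_inj
    rw [CochainComplex.shiftFunctor_obj_d', Int.negOnePow_one, Units.neg_smul, one_smul, smat_comp,
      smat_comp, smat_neg, smat_E0_d _ rfl, smat_E0_d _ rfl, smat_shX, smat_shX, sm_neg, sm_mul,
      sm_mul, Int.negOnePow_succ]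
    rcases Int.units_eq_one_or i.negOnePow with h | h <;> simp [h])

theorem shE0_nat {M N : MF k} (g : M ⟶ N) :
    Ech (twMap 21 (-1) g) ≫ (shE0 N).hom = (shE0 M).hom ≫ (Ech g)⟦(1 : ℤ)⟧' := by
  ext i : 1
  apply smat_inj
  rw [HomologicalComplex.comp_f, HomologicalComplex.comp_f, smat_comp, smat_comp,
    CochainComplex.shiftFunctor_map_f', smat_E1, smat_E1]
  change sm (i.negOnePow • (1 : Matrix N.ι N.ι (R k))) 0 * sm (mat g) 0 =
    sm (mat g) 0 * sm (i.negOnePow • (1 : Matrix M.ι M.ι (R k))) 0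
  rw [sm_mul, sm_mul]
  simp

end Pool.Agent.Work.MP_8b4bd2_al
end

-- merged part: Pool.Agent.Work.MP_8b4bd2_al.ZF
section
-- merged part: Pool.Agent.Work.MP_8b4bd2_al.EFun
section
/-!
The complete resolution of a matrix factorisation: essential surjectivity and the model.
-/

set_option backward.isDefEq.respectTransparency false
set_option backward.defeqAttrib.useBackward true

namespace Pool.Agent.Work.MP_8b4bd2_al

open CategoryTheory Limits Matrix MF

universe u

variable {k : Type u} [Field k]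

/-- Heights of an `R`-basis `e i, x e i` of a free `S`-module. -/
def hts₂ {ι : Type*} (a : ι → ℤ) : ι ⊕ ι → ℤ := Sum.elim a fun i => a i - 21

open Classical in
/-- A free `S`-module as a matrix factorisation. -/
noncomputable abbrev Fr (X : Proj k) : MF k where
  ι := X.ι ⊕ X.ι
  a := hts₂ (hts X)
  φ := fromBlocks 0 (-((ff : R k) • 1)) 1 0
  deg := by
    have h1 : ∀ {a b : X.ι → ℤ} {d : ℤ}, (∀ i, b i - a i + d = 0) →
        (1 : Matrix X.ι X.ι (R k)) ∈ Deg k a b d := fun h => one_mem_Deg h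
    rintro (i | i) (j | j)
    · exact zero_mem _
    · exact neg_mem (smul_mem_Deg ff_mem (h1 (a := fun i => hts X i - 21) (b := hts X) (d := -21)
        fun i => by ring) (m := 21) (by norm_num)) i j
    · exact h1 (a := hts X) (b := fun i => hts X i - 21) (d := 21) (fun i => by ring) i j
    · exact zero_mem _
  sq := by
    rw [fromBlocks_multiply, ← fromBlocks_one, fromBlocks_smul, fromBlocks_neg]
    simp

theorem fromRows_mem {ι κ : Type*} {a : ι → ℤ} {b : κ → ℤ} {A B : Matrix κ ι (R k)} :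
    fromRows A B ∈ Deg k a (hts₂ b) 0 ↔ A ∈ Deg k a b 0 ∧ B ∈ Deg k a b (-21) := by
  constructor
  · intro h
    exact ⟨fun i j => h (Sum.inl i) j, fun i j => mem_Rd_congr (h (Sum.inr i) j) (by
      simp [hts₂]; ring)⟩
  · rintro ⟨hA, hB⟩ (i | i) j
    · exact hA i j
    · exact mem_Rd_congr (hB i j) (by simp [hts₂]; ring)

/-- The cycles of a morphism of free modules form a matrix factorisation. -/
theorem exists_cycles {Y Z : Proj k} (d : Y ⟶ Z) : ∃ (X : MF k) (J : EX X 0 ⟶ Y), J ≫ d = 0 ∧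
    (E0 X).d (-1) 0 ≫ J = 0 ∧
    (∀ (Q : Proj k) (α : Q ⟶ EX X 0), α ≫ J = 0 ↔ α ≫ (E0 X).d 0 1 = 0) ∧
    ∀ (Q : Proj k) (f : Q ⟶ Y), f ≫ d = 0 → ∃ p : Q ⟶ EX X 0, p ≫ J = f := by
  classical
  obtain ⟨A, hA, B, hB, hd⟩ := exists_sm d
  let Dm : Matrix (Z.ι ⊕ Z.ι) (Y.ι ⊕ Y.ι) (R k) := fromBlocks A (-((ff : R k) • B)) B A
  have hDm : Dm ∈ Deg k (hts₂ (hts Y)) (hts₂ (hts Z)) 0 := by
    rintro (i | i) (j | j)
    · exact hA i j
    · exact mem_Rd_congr (neg_mem (smul_mem_Deg ff_mem hB rfl) i j) (by simp [hts₂]; ring)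
    · exact mem_Rd_congr (hB i j) (by simp [hts₂]; ring)
    · exact mem_Rd_congr (hA i j) (by simp [hts₂])
  have hφ : Dm * (Fr Y).φ = (Fr Z).φ * Dm := by
    simp [Dm, fromBlocks_multiply]
  have hz : ∀ {κ : Type} (P Q : Matrix Y.ι κ (R k)),
      sm A B * sm P Q = 0 ↔ Dm * fromRows P Q = 0 := by
    intro κ P Q
    rw [sm_mul, fromBlocks_mul_fromRows, ← fromRows_zero, fromRows_ext_iff]
    constructor
    · intro h
      obtain ⟨h₁, h₂⟩ := sm_eq_zero h
      exact ⟨by simpa [sub_eq_add_neg] using h₁, by rw [add_comm, h₂]⟩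
    · rintro ⟨h₁, h₂⟩
      rw [add_comm (A * Q), h₂, show A * P - ff • (B * Q) = 0 by simpa [sub_eq_add_neg] using h₁,
        sm_zero]
  obtain ⟨X, J, hinj, hJ⟩ := (Fr Y).exists_sub (N := LinearMap.ker Dm.mulVecLin)
    (fun e v hv => by
      have hv' : Dm *ᵥ v = 0 := hv
      have := vcmp_mulVec hDm e v
      rw [hv', map_zero, sub_zero] at this
      exact this.symm)
    (fun v hv _ => by
      have hv' : Dm *ᵥ ((yy : R k) • v) = 0 := hv
      rw [mulVec_smul] at hv'
      exact (smul_eq_zero.1 hv').resolve_left (prime_X' 0).ne_zero)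
    (fun v hv => by
      have hv' : Dm *ᵥ v = 0 := hv
      change Dm *ᵥ _ = 0
      rw [mulVec_mulVec, hφ, ← mulVec_mulVec, hv', mulVec_zero])
  obtain ⟨J₁, J₂, hJ₁₂⟩ : ∃ J₁ J₂, mat J = fromRows J₁ J₂ := ⟨_, _, (fromRows_toRows _).symm⟩
  have hdeg := mat_deg J
  have hcomm := mat_comm J
  rw [hJ₁₂] at hdeg hcomm hinj hJ
  rw [fromRows_mem] at hdeg
  rw [fromBlocks_mul_fromRows, fromRows_mul, fromRows_ext_iff] at hcomm
  obtain ⟨c₁, c₂⟩ := hcomm
  simp only [Matrix.zero_mul, zero_add, Matrix.neg_mul, Matrix.smul_mul, Matrix.one_mul,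
    add_zero] at c₁ c₂
  let Jt : EX X 0 ⟶ Y := mkP J₁ J₂ (mem_Deg_congr hdeg.1 fun a b => by simp [hts])
    (mem_Deg_congr hdeg.2 fun a b => by simp [hts])
  have hJt : smat Jt = sm J₁ J₂ := rfl
  refine ⟨X, Jt, smat_inj ?_, smat_inj ?_, fun Q α => ?_, fun Q f hf => ?_⟩
  · rw [smat_comp, hd, hJt, smat_zero, hz]
    ext i j : 1
    exact congrFun ((hJ _).2 ⟨Pi.single j 1, mulVec_single_one _ _⟩) i
  · rw [smat_comp, hJt, smat_E0_d _ (by simp), sm_mul, smat_zero]
    simp [← c₁, ← c₂, sm_zero]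
  · obtain ⟨C, -, D, -, hα⟩ := exists_sm α
    have h₁ : α ≫ Jt = 0 ↔ C + X.φ * D = 0 := by
      constructor
      · intro h
        have h' := congrArg smat h
        rw [smat_comp, hJt, hα, sm_mul, smat_zero] at h'
        obtain ⟨e₁, e₂⟩ := sm_eq_zero h'
        refine left_cancel hinj ?_
        rw [fromRows_mul, fromRows_mul, Matrix.mul_zero, Matrix.mul_zero, fromRows_ext_iff,
          Matrix.mul_add, Matrix.mul_add, ← Matrix.mul_assoc, ← Matrix.mul_assoc, ← c₁, ← c₂]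
        exact ⟨by simpa [sub_eq_add_neg] using e₁, by rw [add_comm, e₂]⟩
      · intro h
        apply smat_inj
        rw [smat_comp, hJt, hα, sm_mul, smat_zero, add_eq_zero_iff_eq_neg.1 h, Matrix.mul_neg,
          Matrix.mul_neg, ← Matrix.mul_assoc, ← Matrix.mul_assoc, ← c₁, ← c₂]
        simp [sm_zero]
    rw [h₁]
    constructor
    · intro h
      apply smat_inj
      rw [smat_comp, hα, smat_E0_d _ (by simp), sm_mul, smat_zero, add_eq_zero_iff_eq_neg.1 h]
      simp [X.φ_mul_φ_mul, sm_zero]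
    · intro h
      have h' := congrArg smat h
      rw [smat_comp, hα, smat_E0_d _ (by simp), sm_mul, smat_zero] at h'
      simpa [add_comm] using (sm_eq_zero h').2
  · obtain ⟨C, hC, D, hD, hα⟩ := exists_sm f
    have h' := congrArg smat hf
    rw [smat_comp, hd, hα, smat_zero, hz] at h'
    obtain ⟨p, hp, hJp⟩ := exists_factor (fromRows_mem.2 hdeg) (fromRows_mem.2 ⟨hC, hD⟩) fun j =>
      (hJ _).1 (funext fun i => congrFun (congrFun h' i) j)
    rw [fromRows_mul, fromRows_ext_iff] at hJp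
    refine ⟨mkP p 0 (mem_Deg_congr hp fun a b => by simp [hts]) (zero_mem _), smat_inj ?_⟩
    rw [smat_comp, hJt, smat_mkP, sm_mul, hα]
    simp [hJp.1, hJp.2]

theorem E0_essSurj {K : CochainComplex (Proj k) ℤ} (hR : ∀ Q, RAc Q K) (hL : ∀ Q, LAc Q K) :
    ∃ X : MF k, Nonempty ((HomotopyCategory.quotient _ _).obj (E0 X) ≅
      (HomotopyCategory.quotient _ _).obj K) := by
  obtain ⟨X, J, h₁, h₂, h₃, h₄⟩ := exists_cycles (K.d 1 2)
  obtain ⟨p, hp⟩ := h₄ _ (K.d 0 1) (K.d_comp_d _ _ _)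
  obtain ⟨ψ, hψ⟩ := exists_chain_map (lac_E0 X) hR J h₁ h₂
  obtain ⟨χ, hχ⟩ := exists_chain_map hL (rac_E0 X) (p ≫ (E0 X).d 0 1)
    (by rw [Category.assoc, (E0 X).d_comp_d, comp_zero])
    (by rw [← Category.assoc, ← h₃, Category.assoc, hp, K.d_comp_d])
  refine ⟨X, ⟨⟨(HomotopyCategory.quotient _ _).map ψ, (HomotopyCategory.quotient _ _).map χ,
    ?_, ?_⟩⟩⟩
  · rw [← Functor.map_comp, ← CategoryTheory.Functor.map_id]
    refine quotient_map_eq (lac_E0 X) (rac_E0 X) _ _ ?_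
    have : (ψ.f 0 ≫ p - 𝟙 _) ≫ (E0 X).d 0 1 = 0 := by
      rw [← h₃, Preadditive.sub_comp, Category.assoc, hp, hψ, Category.id_comp, sub_self]
    rw [Preadditive.sub_comp, Category.assoc] at this
    rw [Preadditive.sub_comp, HomologicalComplex.comp_f, Category.assoc, hχ,
      HomologicalComplex.id_f, this]
  · rw [← Functor.map_comp, ← CategoryTheory.Functor.map_id]
    refine quotient_map_eq hL hR _ _ ?_
    have : (χ.f 0 - p) ≫ J = 0 := by
      rw [h₃, Preadditive.sub_comp, hχ, sub_self]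
    rw [Preadditive.sub_comp, hp] at this
    rw [Preadditive.sub_comp, HomologicalComplex.comp_f, Category.assoc, hψ,
      HomologicalComplex.id_f, Category.id_comp, this]

variable (k) in
noncomputable def E2 : MF k ⥤ (tac (LB k)).FullSubcategory :=
  (tac (LB k)).lift (E1 ⋙ HomotopyCategory.quotient _ _) fun M =>
    (tac_iff _).2 ⟨rac_E0 M, lac_E0 M⟩

noncomputable def shE2 (M : MF k) : (E2 k).obj (M.tw 21 (-1)) ≅ ((E2 k).obj M)⟦(1 : ℤ)⟧ :=
  (tac (LB k)).fullyFaithfulι.preimageIso ((HomotopyCategory.quotient _ _).mapIso (shE0 M) ≪≫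
    ((HomotopyCategory.quotient _ _).commShiftIso (1 : ℤ)).app (E0 M) ≪≫
    (((tac (LB k)).ι.commShiftIso (1 : ℤ)).app ((E2 k).obj M)).symm)

theorem ι_map_shE2 (M : MF k) : (tac (LB k)).ι.map (shE2 M).hom =
    (HomotopyCategory.quotient _ _).map (shE0 M).hom ≫
      ((HomotopyCategory.quotient _ _).commShiftIso (1 : ℤ)).hom.app (E0 M) ≫
        ((tac (LB k)).ι.commShiftIso (1 : ℤ)).inv.app ((E2 k).obj M) := rfl

noncomputable def E2_model (k : Type*) [Field k] : Model k (tac (LB k)).FullSubcategory :=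
  { E := E2 k
    additive := by unfold E2; infer_instance
    full := ⟨fun {M N} f => by
      obtain ⟨ψ, hψ⟩ := (HomotopyCategory.quotient _ _).map_surjective f.hom
      obtain ⟨g, hg⟩ := E1_full ψ
      exact ⟨g, ObjectProperty.hom_ext _ (hg.trans hψ)⟩⟩
    essSurj := ⟨fun K => by
      obtain ⟨hR, hL⟩ := (tac_iff K.obj.as).1 K.property
      obtain ⟨X, ⟨e⟩⟩ := E0_essSurj hR hL
      exact ⟨X, ⟨ObjectProperty.isoMk _ e⟩⟩⟩
    zero_iff := fun g => by
      rw [← E1_zero_iff, ← HomotopyCategory.quotient_map_eq_zero_iff]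
      exact ⟨fun h => congrArg (·.hom) h, fun h => ObjectProperty.hom_ext _ h⟩
    sh := shE2
    sh_nat := fun {M N} g => (tac (LB k)).ι.map_injective (by
      have h₁ := ((tac (LB k)).ι.commShiftIso (1 : ℤ)).inv.naturality ((E2 k).map g)
      have h₂ := ((HomotopyCategory.quotient (Proj k) (ComplexShape.up ℤ)).commShiftIso
        (1 : ℤ)).hom.naturality (Ech g)
      have h₃ := congrArg (HomotopyCategory.quotient (Proj k) (ComplexShape.up ℤ)).map (shE0_nat g)
      simp only [Functor.comp_map, Functor.map_comp] at h₁ h₂ h₃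
      rw [Functor.map_comp, Functor.map_comp, ι_map_shE2, ι_map_shE2, Category.assoc,
        Category.assoc, ← h₁]
      erw [reassoc_of% h₃, reassoc_of% h₂]
      rfl) }

theorem exists_model (k : Type*) [Field k] : Nonempty (Model k (StabVect k)) := ⟨E2_model k⟩

end Pool.Agent.Work.MP_8b4bd2_al
end

-- merged part: Pool.Agent.Work.MP_8b4bd2_al.ZF
section
/-!
Null-homotopic maps of matrix factorisations are those factoring through free modules.
`null_of_factors`: `𝟙 (Fr X) = φ h + h φ` for `h = fromBlocks 0 1 0 0`.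
`factors_of_null`: for `i : M.ι`, `u i : M ⟶ Fr1 (M.a i + 21)` has the rows (row `i` of `M.φ`,
row `i` of `1`), `v i` has the columns (column `i` of `h`, column `i` of `N.φ * h`); reindex with
`Fintype.equivFin`.
`exists_hom_Fr1`: the matrix with columns `w`, `Y.φ *ᵥ w`.
`exists_splitting`: `exists_factor`, `exists_sum_vcmp`, `vcmp_mulVec`, `left_cancel`.
-/

set_option backward.isDefEq.respectTransparency false

namespace Pool.Agent.Work.MP_8b4bd2_al

open CategoryTheory Matrix MF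

universe u

variable {k : Type u} [Field k]

/-- The free module `S(a)` as a matrix factorisation. -/
noncomputable abbrev Fr1 (a : ℤ) : MF k := Fr (objP Unit fun _ => a)

theorem Fr_id_null (X : Proj k) :
    ∃ h ∈ Deg k (Fr X).a (Fr X).a (-21), mat (𝟙 (Fr X)) = (Fr X).φ * h + h * (Fr X).φ := by
  classical
  refine ⟨fromBlocks 0 1 0 0, ?_, ?_⟩
  · rintro (i | i) (j | j)
    · exact zero_mem _
    · exact one_mem_Deg (a := fun i => hts X i - 21) (b := hts X) (d := -21) (fun i => by ring) i j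
    · exact zero_mem _
    · exact zero_mem _
  · rw [mat_id, fromBlocks_multiply, fromBlocks_multiply, fromBlocks_add, ← fromBlocks_one]
    simp

theorem ZF_sum {M N : MF k} {α : Type*} (s : Finset α) (f : α → (M ⟶ N)) :
    mat (∑ i ∈ s, f i) = ∑ i ∈ s, mat (f i) := map_sum (MF.Hom M N).subtype f s

theorem ZF_col {a : ℤ} {Y : MF k} (f : Fr1 a ⟶ Y) (l : Y.ι) :
    mat f l (Sum.inr ()) = (Y.φ *ᵥ (mat f).col (Sum.inl ())) l := by
  have h := congrFun (congrFun (mat_comm f) l) (Sum.inl ())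
  rw [Matrix.mul_apply (M := mat f), Fintype.sum_sum_type] at h
  refine Eq.trans ?_ h.symm
  simp

theorem ZF_hom {a : ℤ} {Y : MF k} {w : Y.ι → R k} (hw : w ∈ Vdeg k Y.a (-a)) :
    ∃ f : Fr1 a ⟶ Y, (mat f).col (Sum.inl ()) = w := by
  refine ⟨homMk (Matrix.of fun l => Sum.elim (fun _ => w l) fun _ => (Y.φ *ᵥ w) l) ?_ ?_, rfl⟩
  · rintro l (j | j)
    · exact mem_Rd_congr (mem_Vdeg.1 hw l) (by simp [hts₂]; ring)
    · exact mem_Rd_congr (mem_Vdeg.1 (mulVec_mem_Vdeg Y.deg hw rfl) l) (by simp [hts₂]; ring)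
  · ext l j : 1
    rw [Matrix.mul_apply (N := (Fr1 a).φ), Fintype.sum_sum_type]
    rcases j with j | j
    · refine Eq.trans (b := (Y.φ *ᵥ w) l) rfl ?_
      simp
    · refine Eq.trans (b := (Y.φ *ᵥ Y.φ *ᵥ w) l) rfl ?_
      rw [φ_mulVec_φ]
      simp [mul_comm]

theorem ZF_row (M : MF k) (i : M.ι) : ∃ u : M ⟶ Fr1 (M.a i + 21),
    mat u (Sum.inl ()) = M.φ i ∧ mat u (Sum.inr ()) = (1 : Matrix M.ι M.ι (R k)) i := by
  refine ⟨homMk (Matrix.of (Sum.elim (fun _ => M.φ i) fun _ => (1 : Matrix M.ι M.ι (R k)) i))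
    ?_ ?_, rfl, rfl⟩
  · rintro (l | l) j
    · exact mem_Rd_congr (M.deg i j) (by simp [hts₂]; ring)
    · exact mem_Rd_congr (one_mem_Deg (a := M.a) (b := M.a) (d := 0) (by simp) i j)
        (by simp [hts₂, hts])
  · ext l j : 1
    rw [Matrix.mul_apply (M := (Fr1 _).φ), Fintype.sum_sum_type]
    rcases l with l | l
    · refine Eq.trans ?_ (Eq.symm (b := (M.φ * M.φ) i j) rfl)
      rw [M.sq]
      simp
    · refine Eq.trans ?_ (Eq.symm (b := ((1 : Matrix M.ι M.ι (R k)) * M.φ) i j) rfl)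
      simp

theorem null_iff_factors {M N : MF k} (g : M ⟶ N) :
    (∃ h ∈ Deg k M.a N.a (-21), mat g = N.φ * h + h * M.φ) ↔
      ∃ (n : ℕ) (a : Fin n → ℤ) (u : ∀ i, M ⟶ Fr1 (a i)) (v : ∀ i, Fr1 (a i) ⟶ N),
        g = ∑ i, u i ≫ v i := by
  constructor
  · rintro ⟨h, hh, e⟩
    choose u hu hu' using ZF_row M
    choose v hv using fun i => ZF_hom (Y := N) (a := M.a i + 21) (w := h.col i)
      (by rw [show -(M.a i + 21) = -21 - M.a i by ring]; exact mem_Deg_iff_col.1 hh i)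
    refine ⟨_, fun i => M.a ((Fintype.equivFin M.ι).symm i) + 21, fun i => u _, fun i => v _, ?_⟩
    rw [(Fintype.equivFin M.ι).symm.sum_comp fun i => u i ≫ v i]
    refine hom_ext ?_
    rw [ZF_sum, e, ← Matrix.mul_one (N.φ * h)]
    ext l j : 1
    rw [Matrix.sum_apply, Matrix.add_apply, Matrix.mul_apply, Matrix.mul_apply (M := h),
      ← Finset.sum_add_distrib]
    refine Finset.sum_congr rfl fun i _ => ?_
    rw [mat_comp, Matrix.mul_apply (M := mat (v i)), Fintype.sum_sum_type, Fintype.sum_unique,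
      Fintype.sum_unique, add_comm, ZF_col, hu, hu', hv]
    congr 2
    exact (congrFun (hv i) l).symm
  · rintro ⟨n, a, u, v, rfl⟩
    choose h hh e using fun i => Fr_id_null (k := k) (objP Unit fun _ => a i)
    refine ⟨∑ i, mat (v i) * h i * mat (u i), Submodule.sum_mem _ fun i _ =>
      mul_mem_Deg (mul_mem_Deg (mat_deg _) (hh i) rfl) (mat_deg _) (by simp), ?_⟩
    rw [ZF_sum, Matrix.mul_sum, Matrix.sum_mul, ← Finset.sum_add_distrib]
    refine Finset.sum_congr rfl fun i _ => ?_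
    conv_lhs => rw [← Category.comp_id (u i), mat_comp, mat_comp, e, Matrix.add_mul, Matrix.mul_add]
    simp only [Matrix.mul_assoc]
    rw [mat_comm (u i), ← Matrix.mul_assoc, ← mat_comm (v i), Matrix.mul_assoc]

/-- The image of the generator under a map from `S(a)`. -/
noncomputable def ev1 {a : ℤ} {Y : MF k} (f : Fr1 a ⟶ Y) : Y.ι → R k := (mat f).col (Sum.inl ())

theorem ev1_mem {a : ℤ} {Y : MF k} (f : Fr1 a ⟶ Y) : ev1 f ∈ Vdeg k Y.a (-a) := by
  have h := mem_Deg_iff_col.1 (mat_deg f) (Sum.inl ())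
  rw [zero_sub] at h
  exact h

theorem ev1_comp {a : ℤ} {Y Z : MF k} (f : Fr1 a ⟶ Y) (g : Y ⟶ Z) :
    ev1 (f ≫ g) = mat g *ᵥ ev1 f := rfl

theorem ev1_inj {a : ℤ} {Y : MF k} {f g : Fr1 a ⟶ Y} (h : ev1 f = ev1 g) : f = g := by
  refine hom_ext (Matrix.ext ?_)
  rintro l (j | j)
  · exact congrFun h l
  · exact (ZF_col f l).trans ((congrArg (fun w => (Y.φ *ᵥ w) l) h).trans (ZF_col g l).symm)

theorem exists_hom_Fr1 {a : ℤ} {Y : MF k} {w : Y.ι → R k} (hw : w ∈ Vdeg k Y.a (-a)) :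
    ∃ f : Fr1 a ⟶ Y, ev1 f = w := ZF_hom hw

/-- A sequence that is exact under all `Hom(S(a), -)` splits over `R`. -/
theorem exists_splitting {X Y Z : MF k} (f : X ⟶ Y) (g : Y ⟶ Z) (hfg : f ≫ g = 0)
    (h₁ : ∀ (a : ℤ) (u : Fr1 a ⟶ X), u ≫ f = 0 → u = 0)
    (h₂ : ∀ (a : ℤ) (u : Fr1 a ⟶ Y), u ≫ g = 0 → ∃ v, v ≫ f = u)
    (h₃ : ∀ (a : ℤ) (u : Fr1 a ⟶ Z), ∃ v, v ≫ g = u) :
    ∃ r ∈ Deg k Y.a X.a 0, ∃ s ∈ Deg k Z.a Y.a 0,
      r * mat f = 1 ∧ mat g * s = 1 ∧ mat f * r + s * mat g = 1 := by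
  have hom : ∀ {W : MF k} {d : ℤ} {w : W.ι → R k}, w ∈ Vdeg k W.a d →
      ∃ u : Fr1 (-d) ⟶ W, ev1 u = w := fun hw => exists_hom_Fr1 (by rwa [neg_neg])
  have inj : ∀ t, mat f *ᵥ t = 0 → t = 0 := fun t ht => by
    obtain ⟨s, hs⟩ := exists_sum_vcmp X.a t
    rw [← hs]
    refine Finset.sum_eq_zero fun d _ => ?_
    obtain ⟨u, hu⟩ := hom (vcmp_mem X.a d t)
    have h := vcmp_mulVec (mat_deg f) d t
    rw [ht, map_zero, sub_zero, ← hu] at h
    rw [← hu, h₁ _ u (ev1_inj h.symm)]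
    rfl
  have one : ∀ W : MF k, (1 : Matrix W.ι W.ι (R k)) ∈ Deg k W.a W.a 0 := fun W =>
    one_mem_Deg (by simp)
  obtain ⟨s, hs, hs'⟩ := exists_factor (mat_deg g) (one Z) fun j => by
    obtain ⟨u, hu⟩ := hom (mem_Deg_iff_col.1 (one Z) j)
    obtain ⟨v, rfl⟩ := h₃ _ u
    exact ⟨ev1 v, hu⟩
  have hA : 1 - s * mat g ∈ Deg k Y.a Y.a 0 :=
    sub_mem (one Y) (mul_mem_Deg hs (mat_deg g) (by simp))
  have h0 : mat g * (1 - s * mat g) = 0 := by
    rw [Matrix.mul_sub, ← Matrix.mul_assoc, hs', Matrix.mul_one, Matrix.one_mul, sub_self]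
  obtain ⟨r, hr, hr'⟩ := exists_factor (mat_deg f) hA fun j => by
    obtain ⟨u, hu⟩ := hom (mem_Deg_iff_col.1 hA j)
    obtain ⟨v, rfl⟩ := h₂ _ u (ev1_inj (by
      rw [ev1_comp, hu]
      exact funext fun l => congrFun (congrFun h0 l) j))
    exact ⟨ev1 v, hu⟩
  refine ⟨r, hr, s, hs, left_cancel inj ?_, hs', by rw [hr', sub_add_cancel]⟩
  rw [← Matrix.mul_assoc, hr', Matrix.sub_mul, Matrix.mul_assoc, ← mat_comp, hfg]
  simp

end Pool.Agent.Work.MP_8b4bd2_al
end
end
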