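import Pool.Agent.Work.MP_8b4bd2_al.EmbK
import Mathlib
import Pool.Agent.Work.MP_8b4bd2_al.ZF
import Pool.Agent.Work.MP_8b4bd2_al.LP
import Pool.Agent.Work.MP_8b4bd2_al.NonVac

-- merged part: Pool.Agent.Work.MP_8b4bd2_al.K1c
section
-- merged part: Pool.Agent.Work.MP_8b4bd2_al.K1a
section
/-!
For even `d` put `N d = M_d / φ M_{d-21}`, `n d = dim M_d - dim M_{d-21}` (`φ` is injective).
`n d ≤ dim M_d - dim M_{d-42} ≤ card ι` by `rho_le`. `y` and `z` act injectively on `N`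
(`y v = φ u` gives `y φ v = - f u`, so `y ∣ u`). Choose an even `d₀` with `n d₀` maximal and `W` a
basis of a complement of `φ M_{d₀-21}` in `M_{d₀}`. Then `y^p z^q W` spans `M_{d₀+14p+6q}` modulo
`φ M` (dimension count), and every even number `≥ 24` is `14 p + 6 q`. (P1) uses `exists_mod_ff`.
-/

namespace Pool.Agent.Work.MP_8b4bd2_al

open MvPolynomial Matrix CategoryTheory MF

universe u

variable {k : Type u} [Field k]

structure WData (M : MF k) where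
  w : ℕ
  d₀ : ℤ
  even : d₀ % 2 = 0
  W : Matrix M.ι (Fin w) (R k)
  deg : W ∈ Deg k (fun _ => -d₀) M.a 0
  P1 : ∀ d, ∀ t ∈ Vdeg k (fun _ : Fin w => -d₀) d, (∃ u, W *ᵥ t = M.φ *ᵥ u) →
    ∃ t' ∈ Vdeg k (fun _ : Fin w => -d₀) (d - 42), t = (ff : R k) • t'
  P2 : ∃ B : ℤ, ∀ d, B ≤ d → d % 2 = 0 → ∀ v ∈ Vdeg k M.a d, ∃ u ∈ Vdeg k M.a (d - 21),
    ∃ t ∈ Vdeg k (fun _ : Fin w => -d₀) d, v = M.φ *ᵥ u + W *ᵥ t

theorem K1a_prime (M : MF k) {r : R k} (hr : Prime r) (hf : ¬ r ∣ ff) {v : M.ι → R k}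
    (h : ∃ u, r • v = M.φ *ᵥ u) : ∃ u, v = M.φ *ᵥ u := by
  obtain ⟨u, hu⟩ := h
  have h1 : r • M.φ *ᵥ v = -((ff : R k) • u) := by
    rw [← Matrix.mulVec_smul, hu, M.φ_mulVec_φ]
  have h2 : ∀ i, ∃ s, u i = r * s := fun i => by
    have h3 := congrFun h1 i
    simp only [Pi.smul_apply, smul_eq_mul, Pi.neg_apply] at h3
    exact (hr.dvd_or_dvd (show r ∣ ff * u i from ⟨-(M.φ *ᵥ v) i, by
      linear_combination h3⟩)).resolve_left hf
  choose s hs using h2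
  have h4 : u = r • s := funext hs
  refine ⟨s, smul_right_injective _ hr.ne_zero ?_⟩
  simp only
  rw [hu, h4, Matrix.mulVec_smul]

theorem K1a_pow (M : MF k) {r : R k} (hr : Prime r) (hf : ¬ r ∣ ff) (n : ℕ) {v : M.ι → R k}
    (h : ∃ u, r ^ n • v = M.φ *ᵥ u) : ∃ u, v = M.φ *ᵥ u := by
  induction n with
  | zero => simpa using h
  | succ n ih =>
    rw [pow_succ', mul_smul] at h
    exact ih (K1a_prime M hr hf h)

theorem K1a_mon (M : MF k) (p q : ℕ) {v : M.ι → R k}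
    (h : ∃ u, ((yy : R k) ^ p * zz ^ q) • v = M.φ *ᵥ u) : ∃ u, v = M.φ *ᵥ u := by
  rw [mul_smul] at h
  exact K1a_pow M (prime_X' 1) not_zz_dvd_ff q (K1a_pow M (prime_X' 0) not_yy_dvd_ff p h)

/-- Families of degree `d` that are linearly independent modulo the image of `φ`. -/
def K1a_Good (M : MF k) (d : ℤ) {w : ℕ} (W : Matrix M.ι (Fin w) (R k)) : Prop :=
  W ∈ Deg k (fun _ => -d) M.a 0 ∧
    ∀ c : Fin w → k, (∃ u, W *ᵥ (fun j => C (c j)) = M.φ *ᵥ u) → c = 0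

theorem K1a_C_mem {w : ℕ} (d : ℤ) (c : Fin w → k) :
    (fun j => (C (c j) : R k)) ∈ Vdeg k (fun _ : Fin w => -d) d :=
  mem_Vdeg.2 fun _ => C_mem_Rd _ (by ring)

theorem K1a_bound (M : MF k) {d : ℤ} {w : ℕ} {W : Matrix M.ι (Fin w) (R k)}
    (h : K1a_Good M d W) : w ≤ Fintype.card M.ι := by
  let L : ((Fin w → k) × Vdeg k M.a (d - 42)) →ₗ[k] Vdeg k M.a d :=
    { toFun := fun x => ⟨W *ᵥ (fun j => C (x.1 j)) + (ff : R k) • x.2.1,
        add_mem (mulVec_mem_Vdeg h.1 (K1a_C_mem d x.1) (by ring))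
          (smul_mem_Vdeg ff_mem x.2.2 (by ring))⟩
      map_add' := fun x y => Subtype.ext (by
        have e : (fun j => (C ((x + y).1 j) : R k)) =
            (fun j => C (x.1 j)) + fun j => C (y.1 j) := by
          funext j
          simp
        simp only [e, Matrix.mulVec_add, Prod.snd_add, Submodule.coe_add, smul_add]
        abel)
      map_smul' := fun a x => Subtype.ext (by
        have e : (fun j => (C ((a • x).1 j) : R k)) = a • fun j => (C (x.1 j) : R k) := by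
          funext j
          simp [smul_eq_C_mul]
        simp only [e, Matrix.mulVec_smul, Prod.smul_snd, Submodule.coe_smul, RingHom.id_apply,
          smul_add, smul_comm a (ff : R k)]) }
  have hL : Function.Injective L := by
    refine (injective_iff_map_eq_zero L).2 fun x hx => ?_
    have h1 : W *ᵥ (fun j => C (x.1 j)) + (ff : R k) • x.2.1 = 0 := congrArg Subtype.val hx
    have h2 : x.1 = 0 := h.2 x.1 ⟨M.φ *ᵥ x.2.1, by
      rw [M.φ_mulVec_φ]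
      exact eq_neg_of_add_eq_zero_left h1⟩
    have e : (fun j => (C (x.1 j) : R k)) = 0 := by
      funext j
      simp [h2]
    rw [e, Matrix.mulVec_zero, zero_add] at h1
    exact Prod.ext h2 (Subtype.ext ((smul_eq_zero.1 h1).resolve_left ff_ne_zero))
  have h1 := LinearMap.finrank_le_finrank_of_injective hL
  rw [Module.finrank_prod, Module.finrank_fin_fun] at h1
  have h2 := finrank_Vdeg (k := k) M.a d
  have h3 := finrank_Vdeg (k := k) M.a (d - 42)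
  have h4 : ∑ i, rho (M.a i + d) ≤ ∑ i, (rho (M.a i + (d - 42)) + 1) :=
    Finset.sum_le_sum fun i _ => by
      rw [← add_sub_assoc]
      exact rho_le _
  rw [Finset.sum_add_distrib, Finset.sum_const, Finset.card_univ, nsmul_eq_mul, mul_one] at h4
  omega

theorem K1a_span (M : MF k) {d₀ d : ℤ} {w : ℕ} {W : Matrix M.ι (Fin w) (R k)}
    (h : K1a_Good M d₀ W) (p q : ℕ) (hd : d = d₀ + 14 * p + 6 * q)
    (hmax : ∀ W' : Matrix M.ι (Fin (w + 1)) (R k), ¬ K1a_Good M d W') {v : M.ι → R k}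
    (hv : v ∈ Vdeg k M.a d) : ∃ u ∈ Vdeg k M.a (d - 21),
      ∃ t ∈ Vdeg k (fun _ : Fin w => -d₀) d, v = M.φ *ᵥ u + W *ᵥ t := by
  have hm : (yy : R k) ^ p * zz ^ q ∈ Rd k (14 * p + 6 * q) :=
    mul_mem_Rd (pow_mem_Rd yy_mem p rfl) (pow_mem_Rd zz_mem q rfl) (by ring)
  let W' : Matrix M.ι (Fin (w + 1)) (R k) :=
    fun i => Fin.cons (v i) fun j => (yy ^ p * zz ^ q) * W i j
  have hdeg : W' ∈ Deg k (fun _ => -d) M.a 0 := fun i j => by
    refine Fin.cases ?_ (fun j => ?_) j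
    · exact mem_Rd_congr (mem_Vdeg.1 hv i) (by ring)
    · exact mul_mem_Rd hm (h.1 i j) (by rw [hd]; ring)
  have hmul : ∀ c : Fin (w + 1) → k, W' *ᵥ (fun j => C (c j)) =
      c 0 • v + ((yy : R k) ^ p * zz ^ q) • W *ᵥ fun j => C (c j.succ) := fun c => by
    funext i
    simp only [Matrix.mulVec, dotProduct, Fin.sum_univ_succ, W', Fin.cons_zero, Fin.cons_succ,
      Pi.add_apply, Pi.smul_apply, smul_eq_C_mul, smul_eq_mul, Finset.mul_sum, mul_assoc,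
      mul_comm (v i)]
  obtain ⟨c, ⟨u, hu⟩, hc⟩ : ∃ c : Fin (w + 1) → k,
      (∃ u, W' *ᵥ (fun j => C (c j)) = M.φ *ᵥ u) ∧ c ≠ 0 := by
    by_contra hcon
    push Not at hcon
    exact hmax W' ⟨hdeg, fun c ⟨u, hu⟩ => hcon c ⟨u, hu⟩⟩
  rw [hmul] at hu
  have h0 : c 0 ≠ 0 := fun h0 => by
    rw [h0, zero_smul, zero_add] at hu
    have h1 := h.2 _ (K1a_mon M p q ⟨u, hu⟩)
    refine hc (funext fun j => Fin.cases h0 (fun j => congrFun h1 j) j)
  have ht : -((c 0)⁻¹ • ((yy : R k) ^ p * zz ^ q) • fun j : Fin w => (C (c j.succ) : R k)) ∈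
      Vdeg k (fun _ : Fin w => -d₀) d :=
    neg_mem (Submodule.smul_mem _ _ (smul_mem_Vdeg hm (K1a_C_mem d₀ _) (by rw [hd]; ring)))
  have e : v = M.φ *ᵥ ((c 0)⁻¹ • u) + W *ᵥ
      -((c 0)⁻¹ • ((yy : R k) ^ p * zz ^ q) • fun j : Fin w => (C (c j.succ) : R k)) := by
    rw [Matrix.mulVec_neg, Matrix.mulVec_smul, Matrix.mulVec_smul, Matrix.mulVec_smul, ← hu,
      smul_add, smul_smul, inv_mul_cancel₀ h0, one_smul, add_neg_cancel_right]
  refine ⟨vcmp M.a (d - 21) ((c 0)⁻¹ • u), vcmp_mem _ _ _, _, ht, ?_⟩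
  rw [← vcmp_mulVec M.deg, ← vcmp_of_mem (mulVec_mem_Vdeg h.1 ht (m := d) (by ring)), ← map_add,
    ← e, vcmp_of_mem hv]

theorem exists_wdata (M : MF k) : Nonempty (WData M) := by
  classical
  let P : ℕ → Prop := fun w => ∃ d : ℤ, d % 2 = 0 ∧ ∃ W : Matrix M.ι (Fin w) (R k), K1a_Good M d W
  have h0 : P 0 := ⟨0, rfl, 0, zero_mem _, fun c _ => Subsingleton.elim _ _⟩
  obtain ⟨d₀, hd₀, W, hW⟩ : P (Nat.findGreatest P (Fintype.card M.ι)) :=
    Nat.findGreatest_spec (Nat.zero_le _) h0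
  refine ⟨⟨_, d₀, hd₀, W, hW.1, fun d t ht ⟨u, hu⟩ => ?_, d₀ + 24, fun d hd hd2 v hv => ?_⟩⟩
  · rcases exists_mod_ff (k := k) (-d₀ + d) with h | ⟨p, q, -, h⟩
    · exact ⟨0, zero_mem _, by
        rw [smul_zero]
        exact funext fun j => h _ (mem_Vdeg.1 ht j)⟩
    · choose c r hr e using fun j => h _ (mem_Vdeg.1 ht j)
      have e' : t = ((yy : R k) ^ p * zz ^ q) • (fun j => C (c j)) + (ff : R k) • r := by
        funext j
        rw [e j, mul_comm]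
        rfl
      have hc : c = 0 := hW.2 c (K1a_mon M p q ⟨u + M.φ *ᵥ W *ᵥ r, by
        rw [Matrix.mulVec_add, M.φ_mulVec_φ, ← hu, e', Matrix.mulVec_add, Matrix.mulVec_smul,
          Matrix.mulVec_smul, add_neg_cancel_right]⟩)
      refine ⟨r, mem_Vdeg.2 fun j => mem_Rd_congr (hr j) (by ring), funext fun j => ?_⟩
      rw [e j, hc]
      simp
  · obtain ⟨p, q, hpq⟩ : ∃ p q : ℕ, d = d₀ + 14 * p + 6 * q := by
      obtain ⟨n, hn⟩ : ∃ n : ℕ, d = d₀ + 24 + 2 * n := ⟨((d - d₀ - 24) / 2).toNat, by omega⟩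
      rcases (show n % 3 = 0 ∨ n % 3 = 1 ∨ n % 3 = 2 by omega) with h | h | h
      · exact ⟨0, 4 + n / 3, by omega⟩
      · exact ⟨1, 2 + n / 3, by omega⟩
      · exact ⟨2, n / 3, by omega⟩
    refine K1a_span M hW p q hpq (fun W' hW' => ?_) hv
    exact Nat.findGreatest_is_greatest (Nat.lt_succ_self _) (K1a_bound M hW') ⟨d, hd2, W', hW'⟩

end Pool.Agent.Work.MP_8b4bd2_al
end

-- merged part: Pool.Agent.Work.MP_8b4bd2_al.Euler
section
/-!
Euler characteristic of a finite exact complex of subquotients `C m / A m` of a fixed space.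
With `Z m = C m ⊓ comap T (A (m+1))`, rank-nullity for `C m → V ⧸ A (m+1)` and for
`Z (m+1) → V ⧸ A (m+1)` (same range) gives `q m = z m + z (m+1)`, `q = dim C - dim A`,
`z = dim Z - dim A`, `0 ≤ z ≤ q`; the alternating sum telescopes.
-/

namespace Pool.Agent.Work.MP_8b4bd2_al

open Module

theorem euler_rank {k V W : Type*} [Field k] [AddCommGroup V] [Module k V] [AddCommGroup W]
    [Module k W] (f : V →ₗ[k] W) (C : Submodule k V) [FiniteDimensional k C] :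
    finrank k C = finrank k (C.map f) + finrank k (C ⊓ LinearMap.ker f : Submodule k V) := by
  rw [← LinearMap.finrank_range_add_finrank_ker (f.domRestrict C), LinearMap.range_domRestrict,
    LinearMap.ker_domRestrict, ← Submodule.map_comap_subtype, Submodule.finrank_map_subtype_eq]

theorem euler_tel (w : ℤ → ℤ) (a : ℤ) (j : ℕ) :
    ∑ m ∈ Finset.Icc a (a + j), (w m - w (m + 1)) = w a - w (a + j + 1) := by
  induction j with
  | zero => simp
  | succ j ih =>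
    have h : Finset.Icc a (a + (j + 1 : ℕ)) = insert (a + j + 1) (Finset.Icc a (a + j)) := by
      ext x
      simp only [Finset.mem_insert, Finset.mem_Icc]
      omega
    rw [h, Finset.sum_insert (by simp), ih, Nat.cast_succ, ← add_assoc]
    ring

theorem euler_char {k V : Type*} [Field k] [AddCommGroup V] [Module k V] (T : V →ₗ[k] V)
    (C A : ℤ → Submodule k V) [∀ m, FiniteDimensional k (C m)] (hAC : ∀ m, A m ≤ C m)
    (hC : ∀ m, ∀ g ∈ C m, T g ∈ C (m + 1)) (hA : ∀ m, ∀ g ∈ A m, T g ∈ A (m + 1))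
    (hT : ∀ m, ∀ g ∈ C m, T (T g) ∈ A (m + 1 + 1))
    (hex : ∀ m, ∀ g ∈ C (m + 1), T g ∈ A (m + 1 + 1) → ∃ g' ∈ C m, g - T g' ∈ A (m + 1))
    (N : ℕ) (hN : ∀ m : ℤ, (N : ℤ) ≤ |m| → C m ≤ A m) :
    ∑ m ∈ Finset.Icc (-(N : ℤ)) N,
      (m.negOnePow : ℤ) * ((finrank k (C m) : ℤ) - finrank k (A m)) = 0 := by
  obtain ⟨Z, hZ⟩ : ∃ Z : ℤ → Submodule k V, ∀ m, Z m = C m ⊓ (A (m + 1)).comap T :=
    ⟨_, fun _ => rfl⟩
  have hZC : ∀ m, Z m ≤ C m := fun m => hZ m ▸ inf_le_left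
  have hAZ : ∀ m, A m ≤ Z m := fun m => hZ m ▸ le_inf (hAC m) (hA m)
  have h1 : ∀ m, finrank k (C m) + finrank k (A (m + 1)) =
      finrank k (Z m) + finrank k (Z (m + 1)) := by
    intro m
    have := Submodule.finiteDimensional_of_le (hZC (m + 1))
    have e1 := euler_rank ((A (m + 1)).mkQ ∘ₗ T) (C m)
    have e2 := euler_rank (A (m + 1)).mkQ (Z (m + 1))
    have e3 : (C m).map ((A (m + 1)).mkQ ∘ₗ T) = (Z (m + 1)).map (A (m + 1)).mkQ := by
      rw [hZ]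
      apply le_antisymm
      · rintro _ ⟨g, hg, rfl⟩
        exact ⟨T g, ⟨hC m g hg, hT m g hg⟩, rfl⟩
      · rintro _ ⟨g, hg, rfl⟩
        obtain ⟨g', h1, h2⟩ := hex m g hg.1 hg.2
        exact ⟨g', h1, ((Submodule.Quotient.eq _).2 h2).symm⟩
    rw [LinearMap.ker_comp, Submodule.ker_mkQ, ← hZ, e3] at e1
    rw [Submodule.ker_mkQ, inf_eq_right.2 (hAZ _)] at e2
    omega
  have h2 : ∀ m : ℤ, (N : ℤ) ≤ |m| → Z m = A m := fun m hm =>
    le_antisymm ((hZC m).trans (hN m hm)) (hAZ m)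
  have h3 := euler_tel (fun m => (m.negOnePow : ℤ) * ((finrank k (Z m) : ℤ) - finrank k (A m)))
    (-(N : ℤ)) (N + N)
  have h4 : -(N : ℤ) + (N + N : ℕ) = N := by omega
  rw [h4, h2 _ (by rw [abs_neg]; exact le_abs_self _),
    h2 _ ((le_add_of_nonneg_right zero_le_one).trans (le_abs_self _)), sub_self, sub_self,
    mul_zero, mul_zero, sub_self] at h3
  refine Eq.trans (Finset.sum_congr rfl fun m _ => ?_) h3
  have h5 : (finrank k (C m) : ℤ) + finrank k (A (m + 1)) =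
      finrank k (Z m) + finrank k (Z (m + 1)) := by exact_mod_cast h1 m
  rw [Int.negOnePow_succ, Units.val_neg]
  linear_combination (m.negOnePow : ℤ) * h5

end Pool.Agent.Work.MP_8b4bd2_al
end

-- merged part: Pool.Agent.Work.MP_8b4bd2_al.K1c
section
/-!
The Euler form. See /team-store/h86_8b4bd2_plan.md, section 3.
Take `w : WData M`. For `d` even let `A d = map φ (Vdeg a (d-21)) ⊔ map W (Vdeg (-d₀) d)`, for `d`
odd `A d = Vdeg a d`. `ℓ d = dim Vdeg a d - dim A d` has finite support (P2; `Vdeg a d = ⊥` for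
`d ≪ 0`), and for even `d`, `dim A d = μ (d-21) + w ρ(d-d₀) - w ρ(d-d₀-42)` (rank-nullity for
`(u,t) ↦ φ u + W t`, kernel `{(φ W t', f t')}` by P1), `μ d = ∑ j, rho (a j + d)`.
Put `l r = ∑ᶠ d, ℓ d * sg (d + r)`. Second claim: reindex, `rho_koszul`, `rho_odd`:
`ℓ d - ℓ (d-14) - ℓ (d-6) + ℓ (d-20) = #{j | d = -a j} - #{j | d = 21 - a j} - w([d=d₀] - [d=d₀+42])`
for even `d` and `0` for odd `d`. Third claim: `euler_char` on `V = Matrix M.ι D.ι R`,
`T g = g * D.φ`, `C m = Deg D.a M.a (21 m)`, `A m =` matrices whose column `i` is in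
`A (21 m - D.a i)`. Exactness: with `σ₀ = diagonal [M.a j even]`, `g - σ₀ g ∈ A m`; if
`σ₀ g φ = φ u + W w` (`σ₀ u = 0`) then `W w φ ∈ φ M`, so `w φ = f w'`, `w = - w' φ`,
`g₁ = σ₀ g + W w'` has `g₁ φ = φ u`; `G = g₁ + ε u` is a cycle, `G = φ h + ε h φ`, and
`g₁ = σ₀ G = φ (1-σ₀) h + ε σ₀ h φ`. Finally `∑ m, (-1)^m ℓ (21 m - a) = l a`.
-/

namespace Pool.Agent.Work.MP_8b4bd2_al

open MvPolynomial Matrix CategoryTheory MF

universe u

variable {k : Type u} [Field k]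

namespace K1cAux

open Module

theorem finrank_map_of_inj {V V' : Type*} [AddCommGroup V] [Module k V] [AddCommGroup V']
    [Module k V'] (f : V →ₗ[k] V') (p : Submodule k V) (h : ∀ x ∈ p, f x = 0 → x = 0) :
    finrank k (p.map f) = finrank k p := by
  rw [← LinearMap.range_domRestrict]
  refine LinearMap.finrank_range_of_inj ?_
  rw [injective_iff_map_eq_zero]
  intro x hx
  exact Subtype.ext (h x x.2 hx)

/-- Multiplication by a matrix as a `k`-linear map. -/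
noncomputable def mv {ι κ : Type*} [Fintype κ] (A : Matrix ι κ (R k)) :
    (κ → R k) →ₗ[k] (ι → R k) := A.mulVecLin.restrictScalars k

theorem mv_apply {ι κ : Type*} [Fintype κ] (A : Matrix ι κ (R k)) (v : κ → R k) :
    mv A v = A *ᵥ v := rfl

/-- Matrices with prescribed columns. -/
def colSub {ι κ : Type*} (P : κ → Submodule k (ι → R k)) : Submodule k (Matrix ι κ (R k)) where
  carrier := {A | ∀ j, A.col j ∈ P j}
  add_mem' hA hB j := add_mem (hA j) (hB j)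
  zero_mem' _ := zero_mem _
  smul_mem' c _ hA j := Submodule.smul_mem _ c (hA j)

theorem mem_colSub {ι κ : Type*} {P : κ → Submodule k (ι → R k)} {A : Matrix ι κ (R k)} :
    A ∈ colSub P ↔ ∀ j, A.col j ∈ P j := Iff.rfl

/-- A matrix is the family of its columns. -/
def colEquiv {ι κ : Type*} (P : κ → Submodule k (ι → R k)) : colSub P ≃ₗ[k] ∀ j, P j where
  toFun A j := ⟨A.1.col j, A.2 j⟩
  invFun v := ⟨Matrix.of fun i j => (v j).1 i, fun j => (v j).2⟩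
  map_add' _ _ := rfl
  map_smul' _ _ := rfl
  left_inv _ := rfl
  right_inv _ := rfl

instance {ι κ : Type*} [Finite κ] (P : κ → Submodule k (ι → R k))
    [∀ j, FiniteDimensional k (P j)] : FiniteDimensional k (colSub P) :=
  (colEquiv P).symm.finiteDimensional

theorem finrank_colSub {ι κ : Type*} [Fintype κ] (P : κ → Submodule k (ι → R k))
    [∀ j, FiniteDimensional k (P j)] : finrank k (colSub P) = ∑ j, finrank k (P j) := by
  rw [(colEquiv P).finrank_eq, Module.finrank_pi_fintype]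

theorem col_mul {ι κ μ : Type*} [Fintype κ] (A : Matrix ι κ (R k)) (B : Matrix κ μ (R k)) (j : μ) :
    (A * B).col j = A *ᵥ B.col j := rfl

theorem col_mul_sum {ι κ μ : Type*} [Fintype κ] (A : Matrix ι κ (R k)) (B : Matrix κ μ (R k))
    (j : μ) : (A * B).col j = ∑ l, B l j • A.col l := by
  funext i
  simp [Matrix.mul_apply, Finset.sum_apply, mul_comm]

theorem ff_cancel {ι κ : Type*} {A B : Matrix ι κ (R k)} (h : (ff : R k) • A = (ff : R k) • B) :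
    A = B := by
  ext i j : 1
  exact mul_left_cancel₀ ff_ne_zero (congrFun (congrFun h i) j)

theorem sg_add (e : ℤ) : sg (e + 21) = -sg e := by
  unfold sg
  split_ifs <;> omega

theorem sg_mul (m : ℤ) : sg (21 * m) = (m.negOnePow : ℤ) := by
  rcases Int.even_or_odd m with h | h
  · rw [Int.negOnePow_even m h]
    obtain ⟨n, rfl⟩ := h
    exact if_pos (by omega)
  · rw [Int.negOnePow_odd m h]
    obtain ⟨n, rfl⟩ := h
    exact (if_neg (by omega)).trans (if_pos (by omega))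

/-- Projection onto the generators of even height. -/
noncomputable def s0 (M : MF k) : Matrix M.ι M.ι (R k) :=
  Matrix.diagonal fun j => if M.a j % 2 = 0 then 1 else 0

theorem s0_mul_apply (M : MF k) {κ : Type*} (g : Matrix M.ι κ (R k)) (i : M.ι) (j : κ) :
    (s0 M * g) i j = if M.a i % 2 = 0 then g i j else 0 := by
  simp [s0, Matrix.diagonal_mul]

theorem s0_mulVec_apply (M : MF k) (v : M.ι → R k) (i : M.ι) :
    (s0 M *ᵥ v) i = if M.a i % 2 = 0 then v i else 0 := by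
  simp [s0, Matrix.mulVec_diagonal]

theorem s0_deg (M : MF k) : s0 M ∈ Deg k M.a M.a 0 := fun i j => by
  rw [s0, Matrix.diagonal_apply]
  split_ifs with h h'
  · subst h
    exact one_mem_Rd (by simp)
  · exact zero_mem _
  · exact zero_mem _

theorem s0_even (M : MF k) {d : ℤ} {v : M.ι → R k} (hv : v ∈ Vdeg k M.a d) (hd : d % 2 = 0) :
    s0 M *ᵥ v = v := by
  funext i
  rw [s0_mulVec_apply]
  split_ifs with h
  · rfl
  · exact (eq_zero_of_odd (mem_Vdeg.1 hv i) (by omega)).symm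

theorem s0_odd (M : MF k) {d : ℤ} {v : M.ι → R k} (hv : v ∈ Vdeg k M.a d) (hd : d % 2 = 1) :
    s0 M *ᵥ v = 0 := by
  funext i
  rw [s0_mulVec_apply]
  split_ifs with h
  · exact eq_zero_of_odd (mem_Vdeg.1 hv i) (by omega)
  · rfl

theorem s0_s0 (M : MF k) {κ : Type*} (g : Matrix M.ι κ (R k)) : s0 M * (s0 M * g) = s0 M * g := by
  ext i j : 1
  simp only [s0_mul_apply]
  split_ifs <;> rfl

theorem s0_φ (M : MF k) : s0 M * M.φ = M.φ - M.φ * s0 M := by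
  ext i j : 1
  have h := M.deg i j
  rw [s0_mul_apply, Matrix.sub_apply, s0, Matrix.mul_diagonal]
  split_ifs with h1 h2 h2
  · rw [eq_zero_of_odd h (by omega)]
    simp
  · simp
  · simp
  · rw [eq_zero_of_odd h (by omega)]
    simp

variable {M : MF k} (w : WData M)

theorem s0_W : s0 M * w.W = w.W := by
  ext i j : 1
  rw [s0_mul_apply]
  split_ifs with h
  · rfl
  · have h1 := w.even
    have h2 : w.W i j ∈ Rd k (M.a i - -w.d₀ + 0) := w.deg i j
    exact (eq_zero_of_odd h2 (by omega)).symm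

theorem W_inj (n : ℕ) : ∀ d, d < w.d₀ + n → ∀ t ∈ Vdeg k (fun _ : Fin w.w => -w.d₀) d,
    w.W *ᵥ t = 0 → t = 0 := by
  induction n with
  | zero =>
    intro d hd t ht _
    funext i
    exact eq_zero_of_neg (mem_Vdeg.1 ht i) (by simp at hd; omega)
  | succ n ih =>
    intro d hd t ht h
    obtain ⟨t', ht', rfl⟩ := w.P1 d t ht ⟨0, by rw [h, Matrix.mulVec_zero]⟩
    rw [Matrix.mulVec_smul, smul_eq_zero] at h
    rw [ih (d - 42) (by push_cast at hd; omega) t' ht' (h.resolve_left ff_ne_zero), smul_zero]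

theorem W_inj' {d : ℤ} {t : Fin w.w → R k} (ht : t ∈ Vdeg k (fun _ : Fin w.w => -w.d₀) d)
    (h : w.W *ᵥ t = 0) : t = 0 :=
  W_inj w ((d - w.d₀).toNat + 1) d (by push_cast; omega) t ht h

/-- The graded pieces of the submodule of finite colength. -/
noncomputable def A (d : ℤ) : Submodule k (M.ι → R k) :=
  if d % 2 = 0 then (Vdeg k M.a (d - 21)).map (mv M.φ) ⊔
    (Vdeg k (fun _ : Fin w.w => -w.d₀) d).map (mv w.W) else Vdeg k M.a d

theorem mem_A {d : ℤ} {v : M.ι → R k} : v ∈ A w d ↔ v ∈ Vdeg k M.a d ∧ (d % 2 = 0 →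
    ∃ u ∈ Vdeg k M.a (d - 21), ∃ t ∈ Vdeg k (fun _ : Fin w.w => -w.d₀) d,
      v = M.φ *ᵥ u + w.W *ᵥ t) := by
  unfold A
  split_ifs with h
  · rw [Submodule.mem_sup]
    constructor
    · rintro ⟨_, ⟨u, hu, rfl⟩, _, ⟨t, ht, rfl⟩, rfl⟩
      exact ⟨add_mem (mulVec_mem_Vdeg M.deg hu (by ring)) (mulVec_mem_Vdeg w.deg ht (by ring)),
        fun _ => ⟨u, hu, t, ht, rfl⟩⟩
    · rintro ⟨_, h'⟩
      obtain ⟨u, hu, t, ht, rfl⟩ := h' h
      exact ⟨_, ⟨u, hu, rfl⟩, _, ⟨t, ht, rfl⟩, rfl⟩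
  · exact ⟨fun h' => ⟨h', fun h'' => absurd h'' h⟩, fun h' => h'.1⟩

theorem A_le (d : ℤ) : A w d ≤ Vdeg k M.a d := fun _ hv => ((mem_A w).1 hv).1

instance (d : ℤ) : FiniteDimensional k (A w d) := Submodule.finiteDimensional_of_le (A_le w d)

theorem smul_mem_A {d e m : ℤ} {r : R k} {v : M.ι → R k} (hr : r ∈ Rd k e) (hv : v ∈ A w d)
    (h : m = d + e) : r • v ∈ A w m := by
  by_cases he : e % 2 = 1
  · rw [eq_zero_of_odd hr he, zero_smul]
    exact zero_mem _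
  obtain ⟨h1, h2⟩ := (mem_A w).1 hv
  refine (mem_A w).2 ⟨smul_mem_Vdeg hr h1 h, fun hm => ?_⟩
  obtain ⟨u, hu, t, ht, rfl⟩ := h2 (by omega)
  exact ⟨r • u, smul_mem_Vdeg hr hu (by omega), r • t, smul_mem_Vdeg hr ht h, by
    rw [Matrix.mulVec_smul, Matrix.mulVec_smul, smul_add]⟩

theorem exists_bound : ∃ B : ℕ, ∀ d : ℤ, (B : ℤ) ≤ |d| → Vdeg k M.a d ≤ A w d := by
  obtain ⟨B, hB⟩ := w.P2
  refine ⟨B.natAbs + ∑ i, (M.a i).natAbs + 1, fun d hd v hv => ?_⟩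
  by_cases h0 : 0 ≤ d
  · rw [abs_of_nonneg h0] at hd
    exact (mem_A w).2 ⟨hv, fun h => hB d (by omega) h v hv⟩
  · rw [abs_of_neg (by omega)] at hd
    have : v = 0 := by
      funext i
      have h1 : (M.a i).natAbs ≤ ∑ i, (M.a i).natAbs :=
        Finset.single_le_sum (f := fun i => (M.a i).natAbs) (fun _ _ => Nat.zero_le _)
          (Finset.mem_univ i)
      exact eq_zero_of_neg (mem_Vdeg.1 hv i) (by omega)
    rw [this]
    exact zero_mem _

theorem finrank_A {d : ℤ} (hd : d % 2 = 0) : (finrank k (A w d) : ℤ) =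
    ∑ j, rho (M.a j + (d - 21)) + w.w * rho (d - w.d₀) - w.w * rho (d - w.d₀ - 42) := by
  have h0 : A w d = (Vdeg k M.a (d - 21)).map (mv M.φ) ⊔
      (Vdeg k (fun _ : Fin w.w => -w.d₀) d).map (mv w.W) := if_pos hd
  have h1 := Submodule.finrank_sup_add_finrank_inf_eq ((Vdeg k M.a (d - 21)).map (mv M.φ))
    ((Vdeg k (fun _ : Fin w.w => -w.d₀) d).map (mv w.W))
  have h2 : (Vdeg k M.a (d - 21)).map (mv M.φ) ⊓
      (Vdeg k (fun _ : Fin w.w => -w.d₀) d).map (mv w.W) =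
      (Vdeg k (fun _ : Fin w.w => -w.d₀) (d - 42)).map (mv ((ff : R k) • w.W)) := by
    ext v
    constructor
    · rintro ⟨⟨u, _, hu⟩, t, ht, rfl⟩
      obtain ⟨t', ht', rfl⟩ := w.P1 d t ht ⟨u, hu.symm⟩
      exact ⟨t', ht', by rw [mv_apply, mv_apply, Matrix.smul_mulVec, Matrix.mulVec_smul]⟩
    · rintro ⟨t, ht, rfl⟩
      refine ⟨⟨-(M.φ *ᵥ w.W *ᵥ t), neg_mem (mulVec_mem_Vdeg M.deg
        (mulVec_mem_Vdeg w.deg ht (m := d - 42) (by ring)) (by ring)), ?_⟩,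
        (ff : R k) • t, smul_mem_Vdeg ff_mem ht (by ring), ?_⟩
      · rw [mv_apply, mv_apply, Matrix.mulVec_neg, M.φ_mulVec_φ, neg_neg, Matrix.smul_mulVec]
      · rw [mv_apply, mv_apply, Matrix.smul_mulVec, Matrix.mulVec_smul]
  have e1 := finrank_map_of_inj (mv M.φ) (Vdeg k M.a (d - 21)) (fun x _ hx => M.φ_inj x hx)
  have e2 := finrank_map_of_inj (mv w.W) (Vdeg k (fun _ : Fin w.w => -w.d₀) d)
    (fun x hx hx' => W_inj' w hx hx')
  have e3 := finrank_map_of_inj (mv ((ff : R k) • w.W)) (Vdeg k (fun _ : Fin w.w => -w.d₀) (d - 42))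
    (fun x hx hx' => W_inj' w hx (by
      rw [mv_apply, Matrix.smul_mulVec, smul_eq_zero] at hx'
      exact hx'.resolve_left ff_ne_zero))
  rw [h2, ← h0, e1, e2, e3] at h1
  have h3 := congrArg (Nat.cast : ℕ → ℤ) h1
  push_cast at h3
  simp only [finrank_Vdeg, Finset.sum_const, Finset.card_univ, Fintype.card_fin, nsmul_eq_mul] at h3
  rw [show -w.d₀ + (d - 42) = d - w.d₀ - 42 by ring, show -w.d₀ + d = d - w.d₀ by ring] at h3
  linarith

/-- The colength in degree `d`. -/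
noncomputable def ell (d : ℤ) : ℤ := (finrank k (Vdeg k M.a d) : ℤ) - finrank k (A w d)

theorem ell_eq_zero {d : ℤ} (h : Vdeg k M.a d ≤ A w d) : ell w d = 0 := by
  rw [ell, le_antisymm h (A_le w d), sub_self]

theorem ell_odd {d : ℤ} (h : d % 2 = 1) : ell w d = 0 :=
  ell_eq_zero w fun _ hv => (mem_A w).2 ⟨hv, fun h' => by omega⟩

theorem ell_even {d : ℤ} (h : d % 2 = 0) : ell w d = ∑ j, (rho (M.a j + d) - rho (M.a j + d - 21)) -
    w.w * (rho (d - w.d₀) - rho (d - w.d₀ - 42)) := by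
  rw [ell, finrank_A w h, finrank_Vdeg, Finset.sum_sub_distrib]
  simp only [add_sub_assoc]
  ring

/-- The colength as a finitely supported function. -/
noncomputable def L : ℤ →₀ ℤ := Finsupp.ofSupportFinite (ell w) (by
  obtain ⟨B, hB⟩ := exists_bound w
  refine (Set.finite_Icc (-(B : ℤ)) B).subset fun d hd => ?_
  by_contra hc
  refine hd (ell_eq_zero w (hB d ?_))
  rw [Set.mem_Icc, ← abs_le] at hc
  omega)

theorem L_apply (d : ℤ) : L w d = ell w d := rfl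

theorem koszul_ell (d : ℤ) : ell w d - ell w (d - 14) - ell w (d - 6) + ell w (d - 20) =
    ∑ j, (if (if M.a j % 2 = 0 then -M.a j else 21 - M.a j) = d then
      (if M.a j % 2 = 0 then 1 else -1) else 0) -
      (if w.d₀ = d then (w.w : ℤ) else 0) + (if w.d₀ + 42 = d then (w.w : ℤ) else 0) := by
  have hw := w.even
  by_cases h : d % 2 = 1
  · rw [ell_odd w h, ell_odd w (by omega), ell_odd w (by omega), ell_odd w (by omega),
      if_neg (by omega), if_neg (by omega), Finset.sum_eq_zero]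
    · simp
    · intro j _
      split_ifs <;> omega
  · rw [ell_even w (by omega), ell_even w (by omega), ell_even w (by omega), ell_even w (by omega)]
    have h1 : ∑ j, (if (if M.a j % 2 = 0 then -M.a j else 21 - M.a j) = d then
        (if M.a j % 2 = 0 then (1 : ℤ) else -1) else 0) =
        ∑ j, (rho (M.a j + d) - rho (M.a j + d - 21)) -
          ∑ j, (rho (M.a j + (d - 14)) - rho (M.a j + (d - 14) - 21)) -
          ∑ j, (rho (M.a j + (d - 6)) - rho (M.a j + (d - 6) - 21)) +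
          ∑ j, (rho (M.a j + (d - 20)) - rho (M.a j + (d - 20) - 21)) := by
      rw [← Finset.sum_sub_distrib, ← Finset.sum_sub_distrib, ← Finset.sum_add_distrib]
      refine Finset.sum_congr rfl fun j _ => ?_
      have e1 := rho_koszul (M.a j + d)
      have e2 := rho_koszul (M.a j + d - 21)
      rw [show M.a j + (d - 14) - 21 = M.a j + d - 21 - 14 by ring,
        show M.a j + (d - 6) - 21 = M.a j + d - 21 - 6 by ring,
        show M.a j + (d - 20) - 21 = M.a j + d - 21 - 20 by ring,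
        show M.a j + (d - 14) = M.a j + d - 14 by ring,
        show M.a j + (d - 6) = M.a j + d - 6 by ring,
        show M.a j + (d - 20) = M.a j + d - 20 by ring]
      split_ifs at e1 e2 ⊢ <;> omega
    have e1 := rho_koszul (d - w.d₀)
    have e2 := rho_koszul (d - w.d₀ - 42)
    have e3 : (if w.d₀ = d then (w.w : ℤ) else 0) = w.w * if d - w.d₀ = 0 then 1 else 0 := by
      split_ifs <;> omega
    have e4 : (if w.d₀ + 42 = d then (w.w : ℤ) else 0) =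
        w.w * if d - w.d₀ - 42 = 0 then 1 else 0 := by
      split_ifs <;> omega
    rw [h1, e3, e4, ← e1, ← e2,
      show d - 14 - w.d₀ - 42 = d - w.d₀ - 42 - 14 by ring,
      show d - 6 - w.d₀ - 42 = d - w.d₀ - 42 - 6 by ring,
      show d - 20 - w.d₀ - 42 = d - w.d₀ - 42 - 20 by ring,
      show d - 14 - w.d₀ = d - w.d₀ - 14 by ring,
      show d - 6 - w.d₀ = d - w.d₀ - 6 by ring,
      show d - 20 - w.d₀ = d - w.d₀ - 20 by ring]
    ring

/-- The Euler function. -/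
noncomputable def lam (r : ℤ) : ℤ := Finsupp.linearCombination ℤ (fun d => sg (d + r)) (L w)

theorem lam_shift (r e : ℤ) : lam w (r + e) =
    Finsupp.linearCombination ℤ (fun d => sg (d + r)) (Finsupp.mapDomain (· + e) (L w)) := by
  rw [Finsupp.linearCombination_mapDomain, lam]
  congr 2
  funext d
  simp only [Function.comp]
  congr 1
  ring

theorem shift_apply (e d : ℤ) : Finsupp.mapDomain (· + e) (L w) d = ell w (d - e) := by
  have := Finsupp.mapDomain_apply (add_left_injective e) (L w) (d - e)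
  rwa [sub_add_cancel] at this

theorem lam_anti (r : ℤ) : lam w (r + 21) = -lam w r := by
  simp only [lam, Finsupp.linearCombination_apply, Finsupp.sum, ← Finset.sum_neg_distrib,
    ← add_assoc, sg_add, smul_neg]

theorem lam_koszul (r : ℤ) :
    ∑ j, sg (M.a j - r) = lam w r - lam w (r + 14) - lam w (r + 6) + lam w (r + 20) := by
  have h1 : L w - Finsupp.mapDomain (· + 14) (L w) - Finsupp.mapDomain (· + 6) (L w) +
      Finsupp.mapDomain (· + 20) (L w) =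
      ∑ j, Finsupp.single (if M.a j % 2 = 0 then -M.a j else 21 - M.a j)
        (if M.a j % 2 = 0 then (1 : ℤ) else -1) - Finsupp.single w.d₀ (w.w : ℤ) +
        Finsupp.single (w.d₀ + 42) (w.w : ℤ) := by
    ext d
    simp only [Finsupp.add_apply, Finsupp.sub_apply, shift_apply, L_apply, koszul_ell,
      Finsupp.finsetSum_apply, Finsupp.single_apply]
  rw [lam_shift, lam_shift, lam_shift, lam, ← map_sub, ← map_sub, ← map_add, h1, map_add, map_sub,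
    map_sum]
  simp only [Finsupp.linearCombination_single, smul_eq_mul]
  have h2 : sg (w.d₀ + 42 + r) = sg (w.d₀ + r) := by
    unfold sg
    split_ifs <;> omega
  rw [h2, sub_add_cancel]
  refine Finset.sum_congr rfl fun j _ => ?_
  unfold sg
  split_ifs <;> omega

theorem lam_eq_sum (r : ℤ) (N : ℕ) (hN : ∀ m : ℤ, (N : ℤ) ≤ |m| → ell w (21 * m - r) = 0) :
    ∑ m ∈ Finset.Icc (-(N : ℤ)) N, (m.negOnePow : ℤ) * ell w (21 * m - r) = lam w r := by
  classical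
  rw [lam, Finsupp.linearCombination_apply, Finsupp.sum_of_support_subset _
    (Finset.subset_union_left (s₂ := (Finset.Icc (-(N : ℤ)) N).image fun m => 21 * m - r))
    (fun i a => a • sg (i + r)) (fun _ _ => zero_smul _ _)]
  refine Finset.sum_of_injOn (fun m => 21 * m - r) (fun x _ y _ h => ?_) (fun m hm => ?_)
    (fun d _ hd => ?_) (fun m _ => ?_)
  · simp only at h
    omega
  · exact Finset.mem_coe.2 (Finset.mem_union_right _ (Finset.mem_image_of_mem _ hm))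
  · by_cases h : (d + r) % 21 = 0
    · have h1 : d = 21 * ((d + r) / 21) - r := by omega
      have h2 : (N : ℤ) ≤ |(d + r) / 21| := by
        by_contra hc
        refine hd ⟨(d + r) / 21, ?_, h1.symm⟩
        rw [Finset.coe_Icc, Set.mem_Icc, ← abs_le]
        omega
      rw [L_apply, h1, hN _ h2, zero_smul]
    · have : sg (d + r) = 0 := by
        unfold sg
        split_ifs <;> omega
      simp [this]
  · rw [L_apply, sub_add_cancel, sg_mul, smul_eq_mul, mul_comm]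

variable (D : MF k)

theorem mem_AA {n : ℤ} {g : Matrix M.ι D.ι (R k)} (hg : g ∈ Deg k D.a M.a n)
    {u : Matrix M.ι D.ι (R k)} (hu : u ∈ Deg k D.a M.a (n - 21))
    {t : Matrix (Fin w.w) D.ι (R k)} (ht : t ∈ Deg k D.a (fun _ => -w.d₀) n)
    (h : s0 M * g = M.φ * u + w.W * t) : g ∈ colSub fun i => A w (n - D.a i) := by
  intro i
  have h1 := mem_Deg_iff_col.1 hg i
  refine (mem_A w).2 ⟨h1, fun hd => ⟨u.col i, ?_, t.col i, mem_Deg_iff_col.1 ht i, ?_⟩⟩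
  · have := mem_Deg_iff_col.1 hu i
    rwa [show n - 21 - D.a i = n - D.a i - 21 by ring] at this
  · rw [← s0_even M h1 hd, ← col_mul, h]
    rfl

theorem exists_of_mem_AA {n : ℤ} {g : Matrix M.ι D.ι (R k)}
    (hg : g ∈ colSub fun i => A w (n - D.a i)) : ∃ u ∈ Deg k D.a M.a (n - 21),
      ∃ t ∈ Deg k D.a (fun _ : Fin w.w => -w.d₀) n,
        s0 M * g = M.φ * u + w.W * t ∧ s0 M * u = 0 := by
  have h1 : ∀ i, ∃ u ∈ Vdeg k M.a (n - 21 - D.a i),
      ∃ t ∈ Vdeg k (fun _ : Fin w.w => -w.d₀) (n - D.a i),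
        s0 M *ᵥ g.col i = M.φ *ᵥ u + w.W *ᵥ t ∧ s0 M *ᵥ u = 0 := by
    intro i
    obtain ⟨h1, h2⟩ := (mem_A w).1 (hg i)
    by_cases hd : (n - D.a i) % 2 = 0
    · obtain ⟨u, hu, t, ht, h3⟩ := h2 hd
      refine ⟨u, ?_, t, ht, by rw [s0_even M h1 hd, h3], s0_odd M hu (by omega)⟩
      rwa [show n - 21 - D.a i = n - D.a i - 21 by ring]
    · exact ⟨0, zero_mem _, 0, zero_mem _, by rw [s0_odd M h1 (by omega)]; simp, by simp⟩
  choose u hu t ht h2 h3 using h1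
  refine ⟨Matrix.of fun j i => u i j, mem_Deg_iff_col.2 hu, Matrix.of fun j i => t i j,
    mem_Deg_iff_col.2 ht, ?_, ?_⟩
  · ext j i : 1
    exact congrFun (h2 i) j
  · ext j i : 1
    exact congrFun (h3 i) j

theorem exact_AA {n : ℤ} {ε : ℤˣ} (hE : Ex D M n ε) {g : Matrix M.ι D.ι (R k)}
    (hg : g ∈ Deg k D.a M.a n) (h : g * D.φ ∈ colSub fun i => A w (n + 21 - D.a i)) :
    ∃ g' ∈ Deg k D.a M.a (n - 21), g - g' * D.φ ∈ colSub fun i => A w (n - D.a i) := by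
  obtain ⟨u, hu, t, ht, h1, h2⟩ := exists_of_mem_AA w D h
  rw [add_sub_cancel_right] at hu
  have h3 : w.W * (t * D.φ) = M.φ * (M.φ * (s0 M * g) - u * D.φ) := by
    have := congrArg (· * D.φ) h1
    simp only [Matrix.add_mul] at this
    rw [← Matrix.mul_assoc (s0 M) g, D.mul_φ_mul_φ] at this
    rw [Matrix.mul_sub, M.φ_mul_φ_mul, this, Matrix.mul_assoc, Matrix.mul_assoc]
    abel
  have h4 : ∀ i, ∃ t' ∈ Vdeg k (fun _ : Fin w.w => -w.d₀) (n - D.a i),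
      (t * D.φ).col i = (ff : R k) • t' := by
    intro i
    have := w.P1 _ _ (mem_Deg_iff_col.1 (mul_mem_Deg ht D.deg (m := n + 42) (by ring)) i)
      ⟨(M.φ * (s0 M * g) - u * D.φ).col i, by rw [← col_mul, ← col_mul, h3]⟩
    rwa [show n + 42 - D.a i - 42 = n - D.a i by ring] at this
  choose t₀ ht₀ h5 using h4
  obtain ⟨t', ht', h6⟩ : ∃ t' ∈ Deg k D.a (fun _ : Fin w.w => -w.d₀) n,
      t * D.φ = (ff : R k) • t' := by
    refine ⟨Matrix.of fun j i => t₀ i j, mem_Deg_iff_col.2 ht₀, ?_⟩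
    ext j i : 1
    exact congrFun (h5 i) j
  have h7 : t' * D.φ = -t := by
    apply ff_cancel
    rw [← Matrix.smul_mul, ← h6, D.mul_φ_mul_φ, smul_neg]
  obtain ⟨g₁, hg₁⟩ : ∃ g₁, g₁ = s0 M * g + w.W * t' := ⟨_, rfl⟩
  have h8 : g₁ ∈ Deg k D.a M.a n := by
    rw [hg₁]
    exact add_mem (mul_mem_Deg (s0_deg M) hg (by ring)) (mul_mem_Deg w.deg ht' (by ring))
  have h9 : g₁ * D.φ = M.φ * u := by
    rw [hg₁, Matrix.add_mul, Matrix.mul_assoc, Matrix.mul_assoc, h1, h7, Matrix.mul_neg]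
    abel
  have h10 : M.φ * g₁ = u * D.φ := by
    apply left_cancel M.φ_inj
    rw [M.φ_mul_φ_mul, ← Matrix.mul_assoc, ← h9, D.mul_φ_mul_φ]
  have h11 : s0 M * g₁ = g₁ := by
    rw [hg₁, Matrix.mul_add, s0_s0, ← Matrix.mul_assoc, s0_W]
  obtain ⟨x, hx, h12⟩ := hE (g₁ + ε • u) (add_mem h8 (units_smul_mem_Deg ε hu)) (by
    rw [Matrix.mul_add, Matrix.add_mul, Matrix.mul_smul, Matrix.smul_mul, h9, h10, smul_add,
      smul_smul, Int.units_mul_self, one_smul, add_comm])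
  have h13 := congrArg (s0 M * ·) h12
  simp only [Matrix.mul_add, Matrix.mul_smul] at h13
  rw [h11, h2, smul_zero, add_zero, ← Matrix.mul_assoc, s0_φ, hg₁] at h13
  refine ⟨ε • x, units_smul_mem_Deg ε hx, mem_AA w D
    (sub_mem hg (mul_mem_Deg (units_smul_mem_Deg ε hx) D.deg (by ring)))
    (sub_mem hx (mul_mem_Deg (s0_deg M) hx (by ring))) (neg_mem ht') ?_⟩
  rw [Matrix.mul_sub, Matrix.smul_mul, Matrix.mul_smul, Matrix.mul_sub, Matrix.mul_neg,
    ← Matrix.mul_assoc M.φ, ← Matrix.sub_mul, eq_sub_of_add_eq h13]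
  abel

/-- Right multiplication by the operator of `D`. -/
noncomputable def rmul (M D : MF k) : Matrix M.ι D.ι (R k) →ₗ[k] Matrix M.ι D.ι (R k) where
  toFun g := g * D.φ
  map_add' _ _ := Matrix.add_mul _ _ _
  map_smul' _ _ := Matrix.smul_mul _ _ _

theorem lam_sum (hD : ∀ m : ℤ, Ex D M (21 * m) m.negOnePow) : ∑ i, lam w (D.a i) = 0 := by
  obtain ⟨B, hB⟩ := exists_bound w
  have hN : ∀ m : ℤ, ((B + ∑ i, (D.a i).natAbs : ℕ) : ℤ) ≤ |m| → ∀ i,
      Vdeg k M.a (21 * m - D.a i) ≤ A w (21 * m - D.a i) := by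
    intro m hm i
    have h1 : (D.a i).natAbs ≤ ∑ i, (D.a i).natAbs :=
      Finset.single_le_sum (f := fun i => (D.a i).natAbs) (fun _ _ => Nat.zero_le _)
        (Finset.mem_univ i)
    refine hB _ ?_
    rw [Int.abs_eq_natAbs] at hm ⊢
    omega
  have key := euler_char (rmul M D) (fun m => colSub fun i => Vdeg k M.a (21 * m - D.a i))
    (fun m => colSub fun i => A w (21 * m - D.a i)) (fun m g hg i => A_le w _ (hg i))
    (fun m g hg => mem_Deg_iff_col.1 (mul_mem_Deg (mem_Deg_iff_col.2 hg) D.deg (by ring)))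
    (fun m g hg j => by
      change (g * D.φ).col j ∈ _
      rw [col_mul_sum]
      exact Submodule.sum_mem _ fun l _ => smul_mem_A w (D.deg l j) (hg l) (by ring))
    (fun m g hg => by
      have h1 : g ∈ Deg k D.a M.a (21 * m) := mem_Deg_iff_col.2 hg
      refine mem_AA w D (mul_mem_Deg (mul_mem_Deg h1 D.deg rfl) D.deg (by ring))
        (mul_mem_Deg M.deg (mul_mem_Deg (s0_deg M) h1 rfl) (by ring)) (zero_mem _) ?_
      change s0 M * (g * D.φ * D.φ) = _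
      rw [D.mul_φ_mul_φ, M.φ_mul_φ_mul, Matrix.mul_zero, add_zero, Matrix.mul_neg, Matrix.mul_smul])
    (fun m g hg h => by
      have h' : g * D.φ ∈ colSub fun i => A w (21 * (m + 1) + 21 - D.a i) := by
        rw [show 21 * (m + 1) + 21 = 21 * (m + 1 + 1) by ring]
        exact h
      obtain ⟨g', h1, h2⟩ := exact_AA w D (hD (m + 1)) (mem_Deg_iff_col.2 hg) h'
      rw [show 21 * (m + 1) - 21 = 21 * m by ring] at h1
      exact ⟨g', mem_Deg_iff_col.1 h1, h2⟩)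
    (B + ∑ i, (D.a i).natAbs) (fun m hm g hg i => hN m hm i (hg i))
  rw [← key]
  simp only [finrank_colSub, Nat.cast_sum, ← Finset.sum_sub_distrib, Finset.mul_sum]
  rw [Finset.sum_comm]
  refine Finset.sum_congr rfl fun i _ => ?_
  exact (lam_eq_sum w (D.a i) _ fun m hm => ell_eq_zero w (hN m hm i)).symm

end K1cAux

theorem euler (M : MF k) : ∃ l : ℤ → ℤ, (∀ r, l (r + 21) = -l r) ∧
    (∀ r, ∑ j, sg (M.a j - r) = l r - l (r + 14) - l (r + 6) + l (r + 20)) ∧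
    ∀ D : MF k, (∀ m : ℤ, Ex D M (21 * m) m.negOnePow) → ∑ i, l (D.a i) = 0 := by
  obtain ⟨w⟩ := exists_wdata M
  exact ⟨K1cAux.lam w, K1cAux.lam_anti w, K1cAux.lam_koszul w, K1cAux.lam_sum w⟩

end Pool.Agent.Work.MP_8b4bd2_al
end
end

-- merged part: Pool.Agent.Work.MP_8b4bd2_al.Slice
section
-- merged part: Pool.Agent.Work.MP_8b4bd2_al.K1b
section
/-!
Vanishing of the cohomology of `Hom_R(X,Y)` in high degrees.
Let `σ₀ = diagonal [Y.a i even]`, `σ₁ = 1 - σ₀`; `σ₀ φ = φ σ₁`, `σ₀ W = W` (`eq_zero_of_odd`).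
For a cycle `g` of large degree, `σ₀ g = φ u + W w` column by column (P2 for the columns of even
degree, the others vanish), with `σ₁ u = u`. From `σ₀ g φ = ε φ σ₁ g` and (P1), `w φ = f w'`, hence
`w = - w' φ`. With `h = u - ε W w'`, `g' = g - (φ h + ε h φ)` is a cycle with `σ₀ g' = 0`, so
`φ g' = σ₀ φ g' = ε σ₀ g' φ = 0` and `g' = 0`.
-/

namespace Pool.Agent.Work.MP_8b4bd2_al

open MvPolynomial Matrix CategoryTheory MF

universe u

variable {k : Type u} [Field k]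

/-- The projection onto the generators of even height. -/
noncomputable def k1bSig (Y : MF k) : Matrix Y.ι Y.ι (R k) :=
  Matrix.diagonal fun i => if Y.a i % 2 = 0 then 1 else 0

theorem k1b_apply (Y : MF k) {κ : Type*} (A : Matrix Y.ι κ (R k)) (i : Y.ι) (j : κ) :
    (k1bSig Y * A) i j = if Y.a i % 2 = 0 then A i j else 0 := by
  rw [k1bSig, Matrix.diagonal_mul, ite_mul, one_mul, zero_mul]

theorem k1b_sig_phi (Y : MF k) : k1bSig Y * Y.φ = Y.φ * (1 - k1bSig Y) := by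
  ext i j : 1
  rw [k1b_apply, Matrix.mul_sub, Matrix.mul_one, Matrix.sub_apply, k1bSig, Matrix.mul_diagonal]
  have h := Y.deg i j
  by_cases hi : Y.a i % 2 = 0 <;> by_cases hj : Y.a j % 2 = 0
  · rw [eq_zero_of_odd h (by omega)]; simp
  · simp [hi, hj]
  · simp [hi, hj]
  · rw [eq_zero_of_odd h (by omega)]; simp

theorem k1b_sig_phi_mul (Y : MF k) {κ : Type*} (A : Matrix Y.ι κ (R k)) :
    k1bSig Y * (Y.φ * A) = Y.φ * (A - k1bSig Y * A) := by
  rw [← Matrix.mul_assoc, k1b_sig_phi, Matrix.mul_assoc, Matrix.sub_mul, Matrix.one_mul]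

theorem k1b_sig_sig (Y : MF k) {κ : Type*} (A : Matrix Y.ι κ (R k)) :
    k1bSig Y * (k1bSig Y * A) = k1bSig Y * A := by
  ext i j : 1
  rw [k1b_apply, k1b_apply]
  split_ifs <;> rfl

theorem k1b_cancel (Y : MF k) {κ : Type*} {A : Matrix Y.ι κ (R k)} (h : Y.φ * A = 0) : A = 0 :=
  left_cancel Y.φ_inj (h.trans (Matrix.mul_zero _).symm)

theorem k1b_units (ε : ℤˣ) {ι κ : Type*} (A : Matrix ι κ (R k)) : ε • ε • A = A := by
  rw [smul_smul, Int.units_mul_self, one_smul]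

theorem ex_high (X Y : MF k) : ∃ B : ℤ, ∀ d, B ≤ d → ∀ ε, Ex X Y d ε := by
  obtain ⟨D⟩ := exists_wdata Y
  obtain ⟨B, hB⟩ := D.P2
  obtain ⟨C, hC⟩ := (Set.finite_range X.a).bddAbove
  refine ⟨B + C, fun d hd ε g hg hc => ?_⟩
  have hW : k1bSig Y * D.W = D.W := by
    ext i j : 1
    rw [k1b_apply]
    split_ifs with hi
    · rfl
    · have := D.even
      have h1 : D.W i j ∈ Rd k (Y.a i - -D.d₀ + 0) := D.deg i j
      exact (eq_zero_of_odd h1 (by omega)).symm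
  have hW' : ∀ A : Matrix (Fin D.w) X.ι (R k), k1bSig Y * (D.W * A) = D.W * A := fun A => by
    rw [← Matrix.mul_assoc, hW]
  have hσ : k1bSig Y * g ∈ Deg k X.a Y.a d := fun i j => by
    rw [k1b_apply]
    split_ifs
    · exact hg i j
    · exact zero_mem _
  have hcol : ∀ j, ∃ u ∈ Vdeg k Y.a (d - X.a j - 21), ∃ t ∈ Vdeg k (fun _ : Fin D.w => -D.d₀)
      (d - X.a j), (k1bSig Y * g).col j = Y.φ *ᵥ u + D.W *ᵥ t := by
    intro j
    by_cases hj : (d - X.a j) % 2 = 0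
    · have := hC (Set.mem_range_self j)
      exact hB _ (by omega) hj _ (mem_Deg_iff_col.1 hσ j)
    · refine ⟨0, zero_mem _, 0, zero_mem _, funext fun i => ?_⟩
      rw [Matrix.col_apply, k1b_apply, Matrix.mulVec_zero, Matrix.mulVec_zero, add_zero]
      split_ifs with hi
      · exact eq_zero_of_odd (hg i j) (by omega)
      · rfl
  choose u hu t ht hut using hcol
  obtain ⟨U, hU⟩ : ∃ U : Matrix Y.ι X.ι (R k), U = Matrix.of fun i j => u j i := ⟨_, rfl⟩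
  obtain ⟨w, hw⟩ : ∃ w : Matrix (Fin D.w) X.ι (R k), w = Matrix.of fun i j => t j i := ⟨_, rfl⟩
  have dU : U ∈ Deg k X.a Y.a (d - 21) := fun i j => by
    rw [hU]
    exact mem_Rd_congr (mem_Vdeg.1 (hu j) i) (by ring)
  have dw : w ∈ Deg k X.a (fun _ : Fin D.w => -D.d₀) d := fun i j => by
    rw [hw]
    exact mem_Rd_congr (mem_Vdeg.1 (ht j) i) (by ring)
  have e1 : k1bSig Y * g = Y.φ * U + D.W * w := by
    ext i j : 1
    rw [hU, hw]
    exact congrFun (hut j) i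
  have e2 : k1bSig Y * U = 0 := by
    have h1 := k1b_sig_sig Y g
    rw [e1, Matrix.mul_add, hW', k1b_sig_phi_mul, Matrix.mul_sub, add_left_inj,
      sub_eq_self] at h1
    exact k1b_cancel Y h1
  have e3 : D.W * (w * X.φ) = Y.φ * (ε • (g - k1bSig Y * g) - U * X.φ) := by
    have h1 : k1bSig Y * g * X.φ = Y.φ * (ε • (g - k1bSig Y * g)) := by
      rw [Matrix.mul_smul, ← k1b_sig_phi_mul, hc, Matrix.mul_smul, k1b_units, Matrix.mul_assoc]
    rw [Matrix.mul_sub, ← h1, e1, Matrix.add_mul, Matrix.mul_assoc, Matrix.mul_assoc,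
      add_sub_cancel_left]
  have dwφ : w * X.φ ∈ Deg k X.a (fun _ : Fin D.w => -D.d₀) (d + 21) := mul_mem_Deg dw X.deg rfl
  choose t' ht' htt using fun j => D.P1 _ _ (mem_Deg_iff_col.1 dwφ j)
    ⟨(ε • (g - k1bSig Y * g) - U * X.φ).col j, funext fun i => congrFun (congrFun e3 i) j⟩
  obtain ⟨w', hw'⟩ : ∃ w' : Matrix (Fin D.w) X.ι (R k), w' = Matrix.of fun i j => t' j i :=
    ⟨_, rfl⟩
  have dw' : w' ∈ Deg k X.a (fun _ : Fin D.w => -D.d₀) (d - 21) := fun i j => by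
    rw [hw']
    exact mem_Rd_congr (mem_Vdeg.1 (ht' j) i) (by ring)
  have e4 : w * X.φ = (ff : R k) • w' := by
    ext i j : 1
    rw [hw']
    exact congrFun (htt j) i
  have e5 : w' * X.φ = -w := by
    have h1 := X.mul_φ_mul_φ w
    rw [e4, Matrix.smul_mul, ← smul_neg] at h1
    exact smul_right_injective _ ff_ne_zero h1
  obtain ⟨h, hh⟩ : ∃ h, h = U - ε • (D.W * w') := ⟨_, rfl⟩
  refine ⟨h, hh ▸ sub_mem dU (units_smul_mem_Deg ε (mul_mem_Deg D.deg dw' (by ring))), ?_⟩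
  have e6 : k1bSig Y * h = -(ε • (D.W * w')) := by
    rw [hh, Matrix.mul_sub, e2, Matrix.mul_smul, hW', zero_sub]
  have e7 : k1bSig Y * (g - (Y.φ * h + ε • (h * X.φ))) = 0 := by
    rw [Matrix.mul_sub, Matrix.mul_add, k1b_sig_phi_mul, Matrix.mul_smul, ← Matrix.mul_assoc, e6,
      e1, hh, sub_neg_eq_add, sub_add_cancel, Matrix.neg_mul, Matrix.smul_mul, Matrix.mul_assoc,
      e5, Matrix.mul_neg, smul_neg ε (D.W * w), neg_neg, k1b_units, sub_self]
  have e8 : Y.φ * (g - (Y.φ * h + ε • (h * X.φ))) =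
      ε • ((g - (Y.φ * h + ε • (h * X.φ))) * X.φ) := by
    rw [Matrix.mul_sub, Matrix.sub_mul, smul_sub, hc, Matrix.mul_add, Matrix.add_mul, smul_add,
      Y.φ_mul_φ_mul, Matrix.smul_mul, k1b_units, X.mul_φ_mul_φ, Matrix.mul_smul,
      Matrix.mul_assoc, add_comm]
  have e9 := k1b_sig_phi_mul Y (g - (Y.φ * h + ε • (h * X.φ)))
  rw [e7, sub_zero] at e9
  conv_lhs at e9 => rw [e8, Matrix.mul_smul, ← Matrix.mul_assoc, e7, Matrix.zero_mul, smul_zero]
  exact sub_eq_zero.1 (k1b_cancel Y e9.symm)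

end Pool.Agent.Work.MP_8b4bd2_al
end

-- merged part: Pool.Agent.Work.MP_8b4bd2_al.Serre
section
/-!
Half of Serre duality. See /team-store/h86_8b4bd2_plan.md, section 4.
Write `∂ η g = φ g - η g φ`; `∂ (-η) (∂ η g) = 0`. `ex_mod`: make `k₁, k₂` homogeneous (`mcmp`,
`mcmp_smul`); `y^m ∂' k₁ + z^m ∂' k₂ = 0` gives (`koszul` entrywise) `l` with `∂' k₁ = z^m l`,
`∂' k₂ = - y^m l`, take its component of degree `D + 42 - 20 m`; `∂ l = 0`, so `l = ∂' n` (h₃),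
`k₁ - z^m n = ∂ h₁`, `k₂ + y^m n = ∂ h₂` (h₁, h₂), `G - y^m h₁ - z^m h₂` is a cycle (h₀).
`serre`: let `g` be a cycle not in the `k`-subspace `Bd` of boundaries; a functional `Λ` on matrices
kills `Bd`, `Λ g ≠ 0` (`Submodule.exists_dual_map_eq_bot_of_notMem` or similar). For `m` large,
`exists_dual` applied to `p ↦ Λ (single i j p)` gives `G ∈ Deg X.a Y.a (20 m - d)` with
`coeff (soc m) (trace (G * h)) = Λ h` on `Deg Y.a X.a d`. Testing on `h = φ h' + ε h' φ` with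
`h' = single i j p` and `mem_of_pairing` give `φ G + ε G φ ∈ (y^(m+1), z^(m+1))`; `ex_mod (m+1)`
with `D = 20 m - d`, `η = -ε`, `ex_high`; then `trace ((φ H - ε H φ) g) = 0` and `coeff_soc`.
-/

namespace Pool.Agent.Work.MP_8b4bd2_al

open MvPolynomial Matrix CategoryTheory MF

universe u

variable {k : Type u} [Field k]

/-- The differential `g ↦ φ g - η g φ`. -/
noncomputable def dd (X Y : MF k) (η : ℤˣ) :
    Matrix Y.ι X.ι (R k) →ₗ[R k] Matrix Y.ι X.ι (R k) where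
  toFun g := Y.φ * g - η • (g * X.φ)
  map_add' g h := by
    rw [Matrix.mul_add, Matrix.add_mul, smul_add]; abel
  map_smul' c g := by
    rw [Matrix.mul_smul, Matrix.smul_mul, RingHom.id_apply, smul_sub, smul_comm η c]

theorem dd_apply (X Y : MF k) (η : ℤˣ) (g : Matrix Y.ι X.ι (R k)) :
    dd X Y η g = Y.φ * g - η • (g * X.φ) := rfl

theorem dd_neg (X Y : MF k) (η : ℤˣ) (g : Matrix Y.ι X.ι (R k)) :
    dd X Y (-η) g = Y.φ * g + η • (g * X.φ) := by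
  rw [dd_apply, Units.neg_smul, sub_neg_eq_add]

theorem dd_dd (X Y : MF k) (η : ℤˣ) (g : Matrix Y.ι X.ι (R k)) :
    dd X Y η (dd X Y (-η) g) = 0 := by
  rw [dd_neg, dd_apply, Matrix.mul_add, Matrix.add_mul, Y.φ_mul_φ_mul, Matrix.mul_smul,
    Matrix.smul_mul, X.mul_φ_mul_φ, Matrix.mul_assoc]
  rcases Int.units_eq_one_or η with rfl | rfl <;> simp <;> abel

theorem dd_dd' (X Y : MF k) (η : ℤˣ) (g : Matrix Y.ι X.ι (R k)) :
    dd X Y (-η) (dd X Y η g) = 0 := by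
  simpa using dd_dd X Y (-η) g

theorem dd_mem {X Y : MF k} (η : ℤˣ) {d e : ℤ} {g : Matrix Y.ι X.ι (R k)}
    (hg : g ∈ Deg k X.a Y.a d) (he : e = d + 21) : dd X Y η g ∈ Deg k X.a Y.a e :=
  sub_mem (mul_mem_Deg Y.deg hg (by omega)) (units_smul_mem_Deg η (mul_mem_Deg hg X.deg he))

theorem ex_iff {X Y : MF k} {d : ℤ} {η : ℤˣ} : Ex X Y d η ↔
    ∀ g ∈ Deg k X.a Y.a d, dd X Y η g = 0 → ∃ h ∈ Deg k X.a Y.a (d - 21), g = dd X Y (-η) h := by
  simp only [Ex, dd_apply, sub_eq_zero, Units.neg_smul, sub_neg_eq_add]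

theorem trace_dd (X Y : MF k) (η : ℤˣ) (G : Matrix Y.ι X.ι (R k)) (h : Matrix X.ι Y.ι (R k)) :
    trace (dd X Y η G * h) = -(η • trace (G * dd Y X η h)) := by
  have e1 : trace (Y.φ * G * h) = trace (G * (h * Y.φ)) := by
    rw [Matrix.mul_assoc, Matrix.trace_mul_comm, Matrix.mul_assoc]
  rw [dd_apply, dd_apply, Matrix.sub_mul, Matrix.mul_sub, trace_sub, trace_sub, e1,
    Matrix.smul_mul, Matrix.mul_smul, Matrix.mul_assoc]
  rcases Int.units_eq_one_or η with rfl | rfl <;> simp <;> ring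

/-- The Koszul sandwich. -/
theorem ex_mod {X Y : MF k} (m : ℕ) {D : ℤ} {η : ℤˣ} (h₀ : Ex X Y D η)
    (h₁ : Ex X Y (D + 21 - 14 * m) (-η)) (h₂ : Ex X Y (D + 21 - 6 * m) (-η))
    (h₃ : Ex X Y (D + 42 - 20 * m) η) {G : Matrix Y.ι X.ι (R k)} (hG : G ∈ Deg k X.a Y.a D)
    {k₁ k₂ : Matrix Y.ι X.ι (R k)}
    (hc : Y.φ * G - η • (G * X.φ) = (yy : R k) ^ m • k₁ + (zz : R k) ^ m • k₂) :
    ∃ H l₁ l₂ : Matrix Y.ι X.ι (R k),
      G = Y.φ * H + η • (H * X.φ) + (yy : R k) ^ m • l₁ + (zz : R k) ^ m • l₂ := by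
  have hy : (yy : R k) ^ m ∈ Rd k (14 * m) := pow_mem_Rd yy_mem m (by ring)
  have hz : (zz : R k) ^ m ∈ Rd k (6 * m) := pow_mem_Rd zz_mem m (by ring)
  rw [← dd_apply] at hc
  obtain ⟨c₁, hc₁, c₂, hc₂, hc'⟩ : ∃ c₁ ∈ Deg k X.a Y.a (D + 21 - 14 * m),
      ∃ c₂ ∈ Deg k X.a Y.a (D + 21 - 6 * m),
        dd X Y η G = (yy : R k) ^ m • c₁ + (zz : R k) ^ m • c₂ := by
    refine ⟨_, mcmp_mem _ _ _ k₁, _, mcmp_mem _ _ _ k₂, ?_⟩
    rw [← mcmp_smul hy, ← mcmp_smul hz, ← map_add, ← hc, mcmp_of_mem (dd_mem η hG rfl)]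
  have h0 : (yy : R k) ^ m • dd X Y (-η) c₁ + (zz : R k) ^ m • dd X Y (-η) c₂ = 0 := by
    rw [← map_smul, ← map_smul, ← map_add, ← hc', dd_dd']
  have hk : ∀ i j, ∃ u : R k, dd X Y (-η) c₁ i j = zz ^ m * u ∧
      dd X Y (-η) c₂ i j = -(yy ^ m * u) := fun i j =>
    koszul m m (by simpa using congrFun (congrFun h0 i) j)
  choose u hu₁ hu₂ using hk
  have e₁ : dd X Y (-η) c₁ = (zz : R k) ^ m • Matrix.of u := by
    ext i j : 1; simp [hu₁]
  have e₂ : dd X Y (-η) c₂ = -((yy : R k) ^ m • Matrix.of u) := by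
    ext i j : 1; simp [hu₂]
  obtain ⟨l, hl, f₁, f₂⟩ : ∃ l ∈ Deg k X.a Y.a (D + 42 - 20 * m),
      dd X Y (-η) c₁ = (zz : R k) ^ m • l ∧ dd X Y (-η) c₂ = -((yy : R k) ^ m • l) := by
    refine ⟨_, mcmp_mem _ _ _ (Matrix.of u), ?_, ?_⟩
    · rw [← mcmp_of_mem (dd_mem (e := D + 42 - 14 * m) (-η) hc₁ (by ring)), e₁, mcmp_smul hz]
      congr 3; ring
    · rw [← mcmp_of_mem (dd_mem (e := D + 42 - 6 * m) (-η) hc₂ (by ring)), e₂, map_neg,
        mcmp_smul hy]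
      congr 4; ring
  have hl0 : dd X Y η l = 0 := by
    have : (zz : R k) ^ m • dd X Y η l = 0 := by rw [← map_smul, ← f₁, dd_dd]
    exact (smul_eq_zero.1 this).resolve_left (pow_ne_zero m (prime_X' (k := k) 1).ne_zero)
  obtain ⟨n, hn, hln⟩ := ex_iff.1 h₃ l hl hl0
  obtain ⟨g₁, hg₁, eg₁⟩ := ex_iff.1 h₁ (c₁ - (zz : R k) ^ m • n)
    (sub_mem hc₁ (smul_mem_Deg hz hn (by ring))) (by rw [map_sub, map_smul, f₁, hln, sub_self])
  obtain ⟨g₂, hg₂, eg₂⟩ := ex_iff.1 h₂ (c₂ + (yy : R k) ^ m • n)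
    (add_mem hc₂ (smul_mem_Deg hy hn (by ring)))
    (by rw [map_add, map_smul, f₂, hln, neg_add_cancel])
  rw [neg_neg] at eg₁ eg₂
  obtain ⟨H, -, eH⟩ := ex_iff.1 h₀ (G - (yy : R k) ^ m • g₁ - (zz : R k) ^ m • g₂)
    (sub_mem (sub_mem hG (smul_mem_Deg hy hg₁ (by ring))) (smul_mem_Deg hz hg₂ (by ring)))
    (by rw [map_sub, map_sub, map_smul, map_smul, ← eg₁, ← eg₂, hc']; module)
  refine ⟨H, g₁, g₂, ?_⟩
  rw [← dd_neg, ← eH]; abel

/-- The socle monomial of `R/(y^(m+1), z^(m+1))`. -/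
noncomputable def soc (m : ℕ) : Fin 2 →₀ ℕ := Finsupp.single 0 m + Finsupp.single 1 m

@[simp] theorem soc_zero (m : ℕ) : soc m 0 = m := by simp [soc]
@[simp] theorem soc_one (m : ℕ) : soc m 1 = m := by simp [soc]

theorem le_soc {m : ℕ} {s : Fin 2 →₀ ℕ} : s ≤ soc m ↔ s 0 ≤ m ∧ s 1 ≤ m := by
  rw [Finsupp.le_def, Fin.forall_fin_two, soc_zero, soc_one]

theorem exists_dual (m : ℕ) {e : ℤ} (he : e ≤ 6 * m) (L : R k →ₗ[k] k) :
    ∃ P ∈ Rd k (20 * m - e), ∀ p ∈ Rd k e, coeff (soc m) (P * p) = L p := by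
  classical
  let S : Finset (Fin 2 →₀ ℕ) := (Finset.Icc 0 (soc m)).filter
    fun t => 14 * (t 0 : ℤ) + 6 * (t 1 : ℤ) = 20 * m - e
  refine ⟨∑ t ∈ S, monomial t (L (monomial (soc m - t) 1)),
    Submodule.sum_mem _ fun t ht => monomial_mem_Rd _ _ (Finset.mem_filter.1 ht).2, ?_⟩
  intro p hp
  conv_lhs => rw [p.as_sum]
  conv_rhs => rw [p.as_sum]
  rw [Finset.mul_sum, coeff_sum, map_sum]
  refine Finset.sum_congr rfl fun s hs => ?_
  have hw := mem_Rd.1 hp s (mem_support_iff.1 hs)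
  have hle : s ≤ soc m := le_soc.2 ⟨by omega, by omega⟩
  have hle' := le_soc.1 hle
  rw [coeff_mul_monomial', if_pos hle, coeff_sum]
  simp only [coeff_monomial]
  rw [Finset.sum_ite_eq', if_pos, tsub_tsub_cancel_of_le hle]
  · rw [show (monomial s (coeff s p) : R k) = coeff s p • monomial s 1 by
      rw [smul_monomial, smul_eq_mul, mul_one], map_smul, smul_eq_mul, mul_comm]
  · refine Finset.mem_filter.2 ⟨Finset.mem_Icc.2 ⟨bot_le, tsub_le_self⟩, ?_⟩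
    simp only [Finsupp.tsub_apply, soc_zero, soc_one]
    omega

theorem mem_of_pairing (m : ℕ) {e : ℤ} {P : R k} (hP : P ∈ Rd k (20 * m - e))
    (h : ∀ p ∈ Rd k e, coeff (soc m) (P * p) = 0) :
    ∃ p₁ p₂, P = yy ^ (m + 1) * p₁ + zz ^ (m + 1) * p₂ := by
  have key : ∀ (i : Fin 2) (t : Fin 2 →₀ ℕ) (c : k), m + 1 ≤ t i →
      (X i : R k) ^ (m + 1) ∣ monomial t c := by
    intro i t c ht
    refine ⟨monomial (t - Finsupp.single i (m + 1)) c, ?_⟩
    rw [X_pow_eq_monomial, monomial_mul, one_mul, add_tsub_cancel_of_le]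
    exact Finsupp.single_le_iff.2 ht
  have hI : P ∈ Ideal.span {(yy : R k) ^ (m + 1), (zz : R k) ^ (m + 1)} := by
    rw [P.as_sum]
    refine Ideal.sum_mem _ fun t ht => ?_
    have hc := mem_support_iff.1 ht
    have hw := mem_Rd.1 hP t hc
    by_cases h0 : m + 1 ≤ t 0
    · obtain ⟨q, hq⟩ := key 0 t (coeff t P) h0
      rw [hq]
      exact Ideal.mul_mem_right _ _ (Ideal.subset_span (by simp))
    by_cases h1 : m + 1 ≤ t 1
    · obtain ⟨q, hq⟩ := key 1 t (coeff t P) h1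
      rw [hq]
      exact Ideal.mul_mem_right _ _ (Ideal.subset_span (by simp))
    exfalso
    have hle : t ≤ soc m := le_soc.2 ⟨by omega, by omega⟩
    have := h (monomial (soc m - t) 1) (monomial_mem_Rd _ _ (by
      simp only [Finsupp.tsub_apply, soc_zero, soc_one]
      omega))
    rw [coeff_mul_monomial', if_pos tsub_le_self, tsub_tsub_cancel_of_le hle, mul_one] at this
    exact hc this
  obtain ⟨a, b, hab⟩ := Ideal.mem_span_pair.1 hI
  exact ⟨a, b, by rw [← hab]; ring⟩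

theorem coeff_soc (m : ℕ) (p₁ p₂ : R k) :
    coeff (soc m) (yy ^ (m + 1) * p₁ + zz ^ (m + 1) * p₂) = 0 := by
  rw [coeff_add, X_pow_eq_monomial, X_pow_eq_monomial, coeff_monomial_mul', coeff_monomial_mul',
    if_neg, if_neg, add_zero]
  · rw [Finsupp.single_le_iff, soc_one]; omega
  · rw [Finsupp.single_le_iff, soc_zero]; omega

theorem single_mem_Deg {ι κ : Type*} [DecidableEq ι] [DecidableEq κ] {a : ι → ℤ} {b : κ → ℤ}
    {d : ℤ} (i : κ) (j : ι) {p : R k} (hp : p ∈ Rd k (b i - a j + d)) :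
    Matrix.single i j p ∈ Deg k a b d := fun i' j' => by
  rw [Matrix.single_apply]
  split_ifs with hij
  · obtain ⟨rfl, rfl⟩ := hij
    exact hp
  · exact zero_mem _

theorem serre {X Y : MF k} {d : ℤ} {ε : ℤˣ} (h : Ex X Y (22 - d) (-ε)) : Ex Y X d ε := by
  classical
  rw [ex_iff]
  intro g hg hcyc
  by_contra hne
  let Bd : Submodule k (Matrix X.ι Y.ι (R k)) :=
    (Deg k Y.a X.a (d - 21)).map ((dd Y X (-ε)).restrictScalars k)
  have hgB : g ∉ Bd := by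
    rintro ⟨h', hh', e⟩
    exact hne ⟨h', hh', e.symm⟩
  obtain ⟨Λ, hΛg, hΛ⟩ := Submodule.exists_dual_map_eq_bot_of_notMem hgB inferInstance
  have hΛ0 : ∀ h' ∈ Deg k Y.a X.a (d - 21), Λ (dd Y X (-ε) h') = 0 := by
    intro h' hh'
    have : Λ (dd Y X (-ε) h') ∈ Bd.map Λ := ⟨_, ⟨h', hh', rfl⟩, rfl⟩
    rwa [hΛ, Submodule.mem_bot] at this
  obtain ⟨B, hB⟩ := ex_high X Y
  obtain ⟨m, hm₁, hm₂⟩ : ∃ m : ℕ, (∀ i j, X.a i - Y.a j + d ≤ 6 * m) ∧ B + d ≤ 6 * m := by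
    obtain ⟨N, hN⟩ := (Set.finite_range fun p : X.ι × Y.ι => X.a p.1 - Y.a p.2 + d).bddAbove
    refine ⟨N.natAbs + (B + d).natAbs, fun i j => ?_, by omega⟩
    have : X.a i - Y.a j + d ≤ N := hN ⟨(i, j), rfl⟩
    omega
  have hex : ∀ (i : X.ι) (j : Y.ι), ∃ P ∈ Rd k (20 * m - (X.a i - Y.a j + d)),
      ∀ p ∈ Rd k (X.a i - Y.a j + d), coeff (soc m) (P * p) = Λ (Matrix.single i j p) :=
    fun i j => exists_dual m (hm₁ i j) (Λ ∘ₗ Matrix.singleLinearMap k i j)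
  choose P hP hPΛ using hex
  let G : Matrix Y.ι X.ι (R k) := Matrix.of fun j i => P i j
  have hG : G ∈ Deg k X.a Y.a (20 * m - d) := fun j i => mem_Rd_congr (hP i j) (by ring)
  have hpair : ∀ h' ∈ Deg k Y.a X.a d, coeff (soc m) (trace (G * h')) = Λ h' := by
    intro h' hh'
    conv_rhs => rw [Matrix.matrix_eq_sum_single h']
    rw [Matrix.trace, Finset.sum_comm, map_sum, coeff_sum]
    refine Finset.sum_congr rfl fun j _ => ?_
    rw [Matrix.diag_apply, Matrix.mul_apply, map_sum, coeff_sum]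
    exact Finset.sum_congr rfl fun i _ => hPΛ i j _ (hh' i j)
  have hent : ∀ (j : Y.ι) (i : X.ι), ∃ p₁ p₂ : R k,
      dd X Y (-ε) G j i = yy ^ (m + 1) * p₁ + zz ^ (m + 1) * p₂ := by
    intro j i
    refine mem_of_pairing m (e := X.a i - Y.a j + (d - 21))
      (mem_Rd_congr (dd_mem (-ε) hG rfl j i) (by ring)) fun p hp => ?_
    have hs := single_mem_Deg (a := Y.a) (b := X.a) i j hp
    have h1 := hpair _ (dd_mem (e := d) (-ε) hs (by ring))
    rw [hΛ0 _ hs] at h1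
    have h2 := trace_dd X Y (-ε) G (Matrix.single i j p)
    rw [Matrix.trace_mul_single] at h2
    have h3 : dd X Y (-ε) G j i * p = -(-ε • trace (G * dd Y X (-ε) (Matrix.single i j p))) := by
      simpa using h2
    rw [h3]
    rcases Int.units_eq_one_or ε with rfl | rfl <;> simpa using h1
  choose p₁ p₂ hp using hent
  obtain ⟨H, l₁, l₂, eG⟩ := ex_mod (X := X) (Y := Y) (m + 1) (D := 20 * m - d) (η := -ε)
    (hB _ (by omega) _) (hB _ (by push_cast; omega) _) (hB _ (by push_cast; omega) _)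
    (by convert h using 1; push_cast; ring) hG (k₁ := Matrix.of p₁) (k₂ := Matrix.of p₂)
    (by rw [← dd_apply]; ext j i : 1; simp [hp])
  apply hΛg
  rw [← hpair g hg, eG, ← dd_neg, neg_neg, Matrix.add_mul, Matrix.add_mul, trace_add, trace_add,
    trace_dd, hcyc, Matrix.smul_mul, Matrix.smul_mul, trace_smul, trace_smul]
  simpa using coeff_soc m (trace (l₁ * g)) (trace (l₂ * g))

end Pool.Agent.Work.MP_8b4bd2_al
end

-- merged part: Pool.Agent.Work.MP_8b4bd2_al.Slice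
section
/-!
The slicing `U n` on a category presented by matrix factorisations.
`exists_shIso`: `Int.induction_on` with `m.sh`, `twIso`, `twZeroIso`, `shiftFunctorAdd'`; downwards
use that the shift by `1` reflects isomorphisms (`shiftEquiv`). `U_cut`: `X ≅ E M`, `exists_trunc`,
complete `E J` to a triangle with third vertex `B`. For `Y` with `cU n Y` and `f : E Y ⟶ B`:
`f ≫ h : E Y ⟶ (E X₁)[1]` is `E g₁ ≫ sh`, `g₁ : Y ⟶ X₁.tw 21 (-1)`, and `E (g₁ ≫ twMap J) = 0`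
(`sh_nat`), so `J g₁ = - φ h + h φ` with `h` of degree `0`; `key` and `exists_factor` give `h = J h₁`,
so `E g₁ = 0`. Then `f = E g ≫ (E M → B)`, and `g = J g'` by `key`, so `f = 0`.
`U_serre`: `serre` with `d = 0`, `ε = 1` reduces to `Ex N M 22 (-1)`, which is `ex_of_tw` of
`hX` applied to `N.tw (-22) (-1)`.
-/

set_option backward.isDefEq.respectTransparency false
set_option backward.defeqAttrib.useBackward true

namespace Pool.Agent.Work.MP_8b4bd2_al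

open CategoryTheory Limits Pretriangulated Triangulated

open MF

universe u

variable {k : Type u} [Field k]

variable {T : Type*} [Category T] [HasZeroObject T] [Preadditive T] [HasShift T ℤ]
  [∀ n : ℤ, (shiftFunctor T n).Additive] [Pretriangulated T]
  (m : Model k T)

namespace Model

def U (n : ℤ) : ObjectProperty T := fun X => ∃ M : MF k, Nonempty (m.E.obj M ≅ X) ∧ cU n M

theorem hom_zero_iff (X Y : MF k) : (∀ f : m.E.obj X ⟶ m.E.obj Y, f = 0) ↔ Ex X Y 0 1 := by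
  constructor
  · intro h g hg hc
    obtain ⟨l, hl, e⟩ := (m.zero_iff (homMk g hg (by simpa using hc))).1 (h _)
    exact ⟨l, by simpa using hl, by simpa using e⟩
  · intro h f
    have := m.full
    obtain ⟨g, rfl⟩ := m.E.map_surjective f
    obtain ⟨l, hl, e⟩ := h (mat g) (mat_deg g) (by simpa using mat_comm g)
    exact (m.zero_iff g).2 ⟨l, by simpa using hl, by simpa using e⟩

/-- One step of the shift. -/
noncomputable def slice_step (M : MF k) (e e' : ℤ) (ε ε' : ℤˣ) (h : e + 21 = e')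
    (h' : -1 * ε = ε') : m.E.obj (M.tw e' ε') ≅ (m.E.obj (M.tw e ε))⟦(1 : ℤ)⟧ :=
  m.E.mapIso (M.twIso e 21 e' ε (-1) ε' h h').symm ≪≫ m.sh _

theorem exists_shIso (M : MF k) (n : ℤ) :
    Nonempty (m.E.obj (M.tw (21 * n) n.negOnePow) ≅ (m.E.obj M)⟦n⟧) := by
  induction n using Int.induction_on with
  | zero => exact ⟨m.E.mapIso M.twZeroIso ≪≫ (shiftFunctorZero T ℤ).symm.app _⟩
  | succ n ih =>
    obtain ⟨e⟩ := ih
    exact ⟨m.slice_step M (21 * n) _ (n : ℤ).negOnePow _ (by ring)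
      (by rw [Int.negOnePow_succ, neg_one_mul]) ≪≫ (shiftFunctor T (1 : ℤ)).mapIso e ≪≫
        (shiftFunctorAdd' T (n : ℤ) 1 _ rfl).symm.app _⟩
  | pred n ih =>
    obtain ⟨e⟩ := ih
    exact ⟨(shiftFunctor T (1 : ℤ)).preimageIso ((m.slice_step M (21 * (-n - 1)) _
      (-n - 1 : ℤ).negOnePow _ (by ring)
      (by rw [neg_one_mul, ← Int.negOnePow_succ, sub_add_cancel])).symm ≪≫ e ≪≫
        (shiftFunctorAdd' T (-n - 1 : ℤ) 1 _ (by ring)).app _)⟩

theorem V_iff (n : ℤ) (M : MF k) : (m.U n).rightOrthogonal (m.E.obj M) ↔ cV n M := by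
  constructor
  · intro h Y hY
    exact (m.hom_zero_iff Y M).1 fun f => h f ⟨Y, ⟨Iso.refl _⟩, hY⟩
  · rintro h X f ⟨Y, ⟨e⟩, hY⟩
    rw [← cancel_epi e.hom, (m.hom_zero_iff Y M).2 (h Y hY) (e.hom ≫ f), comp_zero]

theorem U_shift (n : ℤ) (X : T) : m.U n X ↔ m.U (n + 21) (X⟦(1 : ℤ)⟧) := by
  constructor
  · rintro ⟨M, ⟨e⟩, hM⟩
    exact ⟨M.tw 21 (-1), ⟨m.sh M ≪≫ (shiftFunctor T (1 : ℤ)).mapIso e⟩, cU_tw hM _ _ rfl⟩
  · rintro ⟨M, ⟨e⟩, hM⟩
    exact ⟨M.tw (-21) (-1), ⟨(shiftFunctor T (1 : ℤ)).preimageIso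
      ((m.slice_step M (-21) 0 (-1) 1 (by ring) (by simp)).symm ≪≫ m.E.mapIso M.twZeroIso ≪≫ e)⟩,
      cU_tw hM _ _ (by ring)⟩

theorem slice_factor {Y M X : MF k} {n : ℤ} (hY : cU n Y) (J : X ⟶ M)
    (hJ : ∀ v, v ∈ sat (Mgt M n) ↔ ∃ t, (mat J).mulVec t = v) {h : Matrix M.ι Y.ι (R k)}
    (hh : h ∈ Deg k Y.a M.a 0) (g : Matrix X.ι Y.ι (R k))
    (hc : h * Y.φ - M.φ * h = mat J * g) : ∃ h₁ ∈ Deg k Y.a X.a 0, mat J * h₁ = h := by
  refine exists_factor (mat_deg J) hh fun j => (hJ _).1 ?_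
  rw [← Matrix.mulVec_single_one]
  refine key hY hh 1 (fun v => (hJ _).2 ⟨g.mulVec v, ?_⟩) _
  rw [one_smul, hc, Matrix.mulVec_mulVec]

theorem U_cut (X : T) (n : ℤ) : ∃ (A B : T) (f : A ⟶ X) (g : X ⟶ B) (h : B ⟶ A⟦(1 : ℤ)⟧),
    Triangle.mk f g h ∈ (distTriang T) ∧ m.U n A ∧ (m.U n).rightOrthogonal B := by
  have := m.essSurj
  have := m.full
  have := m.additive
  obtain ⟨M, ⟨e⟩⟩ : ∃ M, Nonempty (m.E.obj M ≅ X) := ⟨_, ⟨m.E.objObjPreimageIso X⟩⟩
  obtain ⟨X₁, J, hX₁, hinj, hJ⟩ := exists_trunc M n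
  obtain ⟨B, g, h, hT⟩ := distinguished_cocone_triangle (m.E.map J ≫ e.hom)
  refine ⟨_, B, _, g, h, hT, ⟨X₁, ⟨Iso.refl _⟩, hX₁⟩, ?_⟩
  rintro X' f' ⟨Y, ⟨e'⟩, hY⟩
  rw [← cancel_epi e'.hom, comp_zero]
  generalize e'.hom ≫ f' = f
  have h31 : h ≫ (m.E.map J)⟦(1 : ℤ)⟧' = 0 := by
    have := comp_distTriang_mor_zero₃₁ _ hT
    dsimp at this
    rw [← cancel_mono (e.hom⟦(1 : ℤ)⟧'), zero_comp, Category.assoc, ← Functor.map_comp]
    exact this
  obtain ⟨g₁, hg₁⟩ := m.E.map_surjective (f ≫ h ≫ (m.sh X₁).inv)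
  have h1 : m.E.map (g₁ ≫ twMap 21 (-1) J) = 0 := by
    rw [← cancel_mono (m.sh M).hom, Functor.map_comp, Category.assoc, m.sh_nat, hg₁, zero_comp]
    simp [h31]
  obtain ⟨l, hl, hl'⟩ := (m.zero_iff _).1 h1
  have hl1 : (mat J * mat g₁ : Matrix M.ι Y.ι (R k)) = ((-1 : ℤˣ) • M.φ) * l + l * Y.φ := hl'
  have hl0 : (l : Matrix M.ι Y.ι (R k)) ∈ Deg k Y.a M.a 0 :=
    mem_Deg_congr hl fun i j => by simp; ring
  obtain ⟨h₁, hh₁, e₁⟩ := slice_factor hY J hJ hl0 (mat (N := X₁.tw 21 (-1)) g₁) (by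
    rw [hl1, Units.neg_smul, one_smul, Matrix.neg_mul]
    abel)
  have h2 : m.E.map g₁ = 0 := by
    refine (m.zero_iff g₁).2 ⟨h₁, mem_Deg_congr hh₁ fun i j => by simp; ring, ?_⟩
    refine left_cancel hinj (hl1.trans ?_)
    change _ = mat J * (((-1 : ℤˣ) • X₁.φ) * h₁ + h₁ * Y.φ)
    rw [← e₁, Units.neg_smul, one_smul, Units.neg_smul, one_smul, Matrix.neg_mul, Matrix.neg_mul,
      Matrix.mul_add, Matrix.mul_neg, ← Matrix.mul_assoc, mat_comm J, Matrix.mul_assoc,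
      Matrix.mul_assoc]
  have h3 : f ≫ h = 0 := by
    rw [← cancel_mono (m.sh X₁).inv, Category.assoc, ← hg₁, h2, zero_comp]
  obtain ⟨f₁, hf₁⟩ : ∃ f₁ : m.E.obj Y ⟶ X, f = f₁ ≫ g := Triangle.coyoneda_exact₃ _ hT f h3
  obtain ⟨g₂, hg₂⟩ := m.E.map_surjective (f₁ ≫ e.inv)
  obtain ⟨h₂, hh₂, e₂⟩ := slice_factor hY J hJ (mat_deg g₂) 0 (by
    rw [mat_comm, sub_self, Matrix.mul_zero])
  have h4 : X₁.φ * h₂ = h₂ * Y.φ := left_cancel hinj (by
    rw [← Matrix.mul_assoc, ← mat_comm J, Matrix.mul_assoc, e₂, mat_comm, ← Matrix.mul_assoc, e₂])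
  have h5 : g₂ = homMk h₂ hh₂ h4 ≫ J := hom_ext e₂.symm
  have h6 : f₁ = m.E.map (homMk h₂ hh₂ h4) ≫ m.E.map J ≫ e.hom := by
    rw [← Category.assoc, ← Functor.map_comp, ← h5, hg₂, Category.assoc, e.inv_hom_id,
      Category.comp_id]
  have h12 := comp_distTriang_mor_zero₁₂ _ hT
  dsimp at h12
  rw [hf₁, h6, Category.assoc, h12, comp_zero]

theorem U_serre (a : ℤ) (X Y : T) (hX : (m.U a).rightOrthogonal X) (hY : m.U (a + 22) Y)
    (f : X ⟶ Y) : f = 0 := by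
  have := m.essSurj
  obtain ⟨M, ⟨e⟩⟩ : ∃ M, Nonempty (m.E.obj M ≅ X) := ⟨_, ⟨m.E.objObjPreimageIso X⟩⟩
  obtain ⟨N, ⟨e'⟩, hN⟩ := hY
  have hM : cV a M := (m.V_iff a M).1 fun Z g hZ => by
    rw [← cancel_mono e.hom, hX (g ≫ e.hom) hZ, zero_comp]
  have h1 : Ex N M (22 - 0) (-1) := ex_of_tw (-22) 0 0 (-1) 1 1
    (cV_tw hM 0 1 (add_zero a).symm _ (cU_tw hN _ _ (by ring))) (by ring) (by simp)
  have h2 := (m.hom_zero_iff M N).2 (serre h1) (e.hom ≫ f ≫ e'.inv)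
  rw [← cancel_mono e'.inv, ← cancel_epi e.hom, h2, zero_comp, comp_zero]

end Model

end Pool.Agent.Work.MP_8b4bd2_al
end
end

-- merged part: Pool.Agent.Work.MP_8b4bd2_al.Hub8
section
-- merged part: Pool.Agent.Work.MP_8b4bd2_al.Hub3
section
/-!
If `H` is the heart of a hereditary t-structure then `H` is hereditary.
`exists_epi_zero`: `DerivedCategory.right_fac_of_isStrictlyLE` writes `ξ = inv (Q s) ≫ Q g` with
`s : K ⟶ single A` a quasi-isomorphism, `K` strictly `≤ 0`, `g : K ⟶ (single B)[n]`; `P = K.X 0`,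
`p = s.f 0` is epi (it induces an isomorphism on `H^0 = coker`), and `single P → K → (single B)[n]`
is zero. `single_van`: induction on `n ≥ 2`. With `K = ker p` and `δ` from `heart_exists_δ`,
`ξ = δ ≫ η` with `η : K[1] ⟶ B[n]`. For `n > 2`, `η = 0` by induction. For `n = 2`, `η = η₀[1]`,
`η₀ : K ⟶ B[1]` extends along `K → P` on the side of `T` (as `Hom(A, B[2]) = 0`), hence in `D(H)`
by `Eps.pre`, so `δ ≫ η = 0`. You may replace `heartDb` by any definition with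
`ι = t.bounded.lift (singleFunctor H 0) _`.
-/

set_option backward.isDefEq.respectTransparency false
set_option backward.defeqAttrib.useBackward true

namespace Pool.Agent.Work.MP_8b4bd2_al

open CategoryTheory Limits Pretriangulated Triangulated

open DerivedCategory

universe w v u

variable (H : Type u) [Category.{v} H] [Abelian H] [HasDerivedCategory.{w} H]

/-- `H` is the heart of the canonical t-structure on `D(H)`. -/
@[reducible]
noncomputable def heartD : (TStructure.t (C := H)).Heart H where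
  ι := singleFunctor H 0
  essImage_eq_heart := by
    ext X
    constructor
    · rintro ⟨Y, ⟨e⟩⟩
      exact (TStructure.t (C := H)).heart.prop_of_iso e
        ((TStructure.mem_heart_iff _ _).2 ⟨inferInstance, inferInstance⟩)
    · intro hX
      obtain ⟨_, _⟩ := (TStructure.mem_heart_iff _ _).1 hX
      obtain ⟨Y, ⟨e⟩⟩ := exists_iso_singleFunctor_obj_of_isGE_of_isLE X 0
      exact ⟨Y, ⟨e.symm⟩⟩

/-- `H` is the heart of the canonical t-structure on `D^b(H)`. -/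
@[reducible]
noncomputable def heartDb : (TStructure.t (C := H)).onBounded.Heart H where
  ι := (TStructure.t (C := H)).bounded.lift (singleFunctor H 0)
    fun _ => ⟨⟨0, inferInstance⟩, ⟨0, inferInstance⟩⟩
  essImage_eq_heart := by
    ext X
    constructor
    · rintro ⟨Y, ⟨e⟩⟩
      refine (TStructure.t (C := H)).onBounded.heart.prop_of_iso e
        ((TStructure.mem_heart_iff _ _).2 ⟨?_, ?_⟩)
      · exact (ObjectProperty.tStructure_isLE_iff _ _ _ _).2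
          (inferInstanceAs (((singleFunctor H 0).obj Y).IsLE 0))
      · exact (ObjectProperty.tStructure_isGE_iff _ _ _ _).2
          (inferInstanceAs (((singleFunctor H 0).obj Y).IsGE 0))
    · intro hX
      obtain ⟨h₁, h₂⟩ := (TStructure.mem_heart_iff _ _).1 hX
      have := (ObjectProperty.tStructure_isLE_iff _ _ _ _).1 h₁
      have := (ObjectProperty.tStructure_isGE_iff _ _ _ _).1 h₂
      obtain ⟨Y, ⟨e⟩⟩ := exists_iso_singleFunctor_obj_of_isGE_of_isLE X.obj 0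
      exact ⟨Y, ⟨ObjectProperty.isoMk _ e.symm⟩⟩

variable {H}

theorem hub3_epi_zero {A : H} (L : CochainComplex H ℤ) [L.IsStrictlyLE (-1)]
    (ξ : Q.obj ((CochainComplex.singleFunctor H 0).obj A) ⟶ Q.obj L) :
    ∃ (P : H) (p : P ⟶ A), Epi p ∧ Q.map ((CochainComplex.singleFunctor H 0).map p) ≫ ξ = 0 := by
  obtain ⟨K, _, s, _, g, rfl⟩ := right_fac_of_isStrictlyLE ξ 0
  let i : (CochainComplex.singleFunctor H 0).obj (K.X 0) ⟶ K :=
    HomologicalComplex.mkHomFromSingle (𝟙 _) fun k hk =>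
      (K.isZero_of_isStrictlyLE 0 k (by simp at hk; omega)).eq_of_tgt _ _
  let p : K.X 0 ⟶ A := s.f 0 ≫ (HomologicalComplex.singleObjXSelf (ComplexShape.up ℤ) 0 A).hom
  have h₁ : (CochainComplex.singleFunctor H 0).map p = i ≫ s := by
    apply HomologicalComplex.from_single_hom_ext
    simp [i, p, CochainComplex.singleFunctor, CochainComplex.singleFunctors,
      HomologicalComplex.single_map_f_self, HomologicalComplex.mkHomFromSingle_f]
  have h₂ : i ≫ g = 0 := by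
    apply HomologicalComplex.from_single_hom_ext
    exact (L.isZero_of_isStrictlyLE (-1) 0 (by omega)).eq_of_tgt _ _
  refine ⟨K.X 0, p, Preadditive.epi_of_cancel_zero _ fun {Z} u hu => ?_, ?_⟩
  · have h₃ : s ≫ (CochainComplex.singleFunctor H 0).map u = 0 := by
      apply HomologicalComplex.to_single_hom_ext
      have := hu =≫ (HomologicalComplex.singleObjXSelf (ComplexShape.up ℤ) 0 Z).inv
      simpa [p, CochainComplex.singleFunctor, CochainComplex.singleFunctors,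
        HomologicalComplex.single_map_f_self] using this
    apply (singleFunctor H 0).map_injective
    rw [Functor.map_zero]
    change Q.map ((CochainComplex.singleFunctor H 0).map u) = 0
    rw [← cancel_epi (Q.map s), ← Q.map_comp, h₃, Q.map_zero, comp_zero]
  · rw [h₁, Q.map_comp, Category.assoc, IsIso.hom_inv_id_assoc, ← Q.map_comp, h₂, Q.map_zero]

/-- Effaceability. -/
theorem exists_epi_zero {A B : H} {n : ℤ} (hn : 0 < n)
    (ξ : (singleFunctor H 0).obj A ⟶ ((singleFunctor H 0).obj B)⟦n⟧) :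
    ∃ (P : H) (p : P ⟶ A), Epi p ∧ (singleFunctor H 0).map p ≫ ξ = 0 := by
  have h₁ : (((singleFunctor H 0).obj B)⟦n⟧).IsLE (-n) :=
    (TStructure.t (C := H)).isLE_shift _ 0 n (-n) (by omega)
  have h₂ : (((singleFunctor H 0).obj B)⟦n⟧).IsLE (-1) :=
    (TStructure.t (C := H)).isLE_of_le _ (-n) (-1) (by omega)
  obtain ⟨L, _, ⟨e⟩⟩ := exists_iso_Q_obj_of_isLE (((singleFunctor H 0).obj B)⟦n⟧) (-1)
  obtain ⟨P, p, hp, h⟩ := hub3_epi_zero L (ξ ≫ e.hom)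
  refine ⟨P, p, hp, ?_⟩
  rw [← cancel_mono e.hom, Category.assoc, zero_comp]
  exact h

theorem hub3_step {A B : H} {m n : ℤ} (hm : 0 ≤ m) (hn : m + 1 = n)
    (h : ∀ (S : ShortComplex H) (_ : S.ShortExact)
      (η : (singleFunctor H 0).obj S.X₁ ⟶ ((singleFunctor H 0).obj B)⟦m⟧),
      ∃ ζ, η = (singleFunctor H 0).map S.f ≫ ζ)
    (ξ : (singleFunctor H 0).obj A ⟶ ((singleFunctor H 0).obj B)⟦n⟧) : ξ = 0 := by
  letI := heartD H
  obtain ⟨P, p, hp, h₀⟩ := exists_epi_zero (by omega) ξ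
  have hS : (ShortComplex.mk (kernel.ι p) p (kernel.condition p)).ShortExact :=
    { exact := ShortComplex.exact_kernel p }
  obtain ⟨δ, hδ⟩ := heart_exists_δ (TStructure.t (C := H)) hS
  obtain ⟨η, hη⟩ := Triangle.yoneda_exact₃ _ hδ ξ h₀
  let e := (shiftFunctorAdd' (DerivedCategory H) m 1 n hn).app ((singleFunctor H 0).obj B)
  obtain ⟨η₀, hη₀⟩ := (shiftFunctor (DerivedCategory H) (1 : ℤ)).map_surjective (η ≫ e.hom)
  obtain ⟨ζ, hζ⟩ := h _ hS η₀
  have h₁ := comp_distTriang_mor_zero₃₁ _ hδ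
  dsimp at h₁ hη
  rw [hη, ← cancel_mono e.hom, Category.assoc, ← hη₀, hζ, Functor.map_comp, zero_comp,
    ← Category.assoc]
  exact (congrArg (· ≫ ζ⟦(1 : ℤ)⟧') h₁).trans zero_comp

variable {T : Type*} [Category T] [HasZeroObject T] [Preadditive T] [HasShift T ℤ]
  [∀ n : ℤ, (shiftFunctor T n).Additive] [Pretriangulated T]
  {t : TStructure T} [t.Heart H]

theorem Hered.single_van (ht : Hered t) (A B : H) (n : ℤ) (hn : 2 ≤ n)
    (ξ : (singleFunctor H 0).obj A ⟶ ((singleFunctor H 0).obj B)⟦n⟧) : ξ = 0 := by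
  induction n, hn using Int.le_induction generalizing A with
  | base =>
    letI := heartD H
    obtain ⟨ε⟩ := exists_eps t (TStructure.t (C := H)) H
    refine hub3_step (m := 1) zero_le_one rfl (fun S hS η => ?_) ξ
    obtain ⟨δ, hδ⟩ := heart_exists_δ t hS
    let e := (shiftFunctorAdd' T (1 : ℤ) 1 2 rfl).app (t.ιHeart.obj B)
    obtain ⟨g, hg⟩ := Triangle.yoneda_exact₂ _ (rot_of_distTriang _ (rot_of_distTriang _ hδ))
      ((ε.e _ _ η)⟦(1 : ℤ)⟧') (by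
        rw [← cancel_mono e.inv, zero_comp]
        exact ht.van _ _ (t.ιHeart_obj_mem S.X₃) (t.ιHeart_obj_mem B) 2 le_rfl _)
    obtain ⟨g₀, rfl⟩ := (shiftFunctor T (1 : ℤ)).map_surjective g
    have h₁ : ε.e _ _ η = t.ιHeart.map S.f ≫ (-g₀) := by
      apply (shiftFunctor T (1 : ℤ)).map_injective
      rw [hg]
      simp
    refine ⟨(ε.e _ _).symm (-g₀), (ε.e _ _).injective ?_⟩
    rw [h₁]
    exact ((ε.pre S.f _).trans (by rw [AddEquiv.apply_symm_apply])).symm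
  | succ n hn ih =>
    exact hub3_step (by omega) rfl (fun S _ η => ⟨0, by rw [comp_zero, ih _ η]⟩) ξ

theorem Hered.onBounded (ht : Hered t) : Hered (TStructure.t (C := H)).onBounded := by
  refine ⟨fun X => ?_, fun A B hA hB n hn f => ?_⟩
  · obtain ⟨⟨a, ha⟩, ⟨b, hb⟩⟩ := X.property
    exact ⟨⟨a, (ObjectProperty.tStructure_isGE_iff _ _ _ _).2 ha⟩,
      ⟨b, (ObjectProperty.tStructure_isLE_iff _ _ _ _).2 hb⟩⟩
  · obtain ⟨h₁, h₂⟩ := (TStructure.mem_heart_iff _ _).1 hA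
    obtain ⟨h₃, h₄⟩ := (TStructure.mem_heart_iff _ _).1 hB
    have := (ObjectProperty.tStructure_isLE_iff _ _ _ _).1 h₁
    have := (ObjectProperty.tStructure_isGE_iff _ _ _ _).1 h₂
    have := (ObjectProperty.tStructure_isLE_iff _ _ _ _).1 h₃
    have := (ObjectProperty.tStructure_isGE_iff _ _ _ _).1 h₄
    obtain ⟨A', ⟨a⟩⟩ := exists_iso_singleFunctor_obj_of_isGE_of_isLE A.obj 0
    obtain ⟨B', ⟨b⟩⟩ := exists_iso_singleFunctor_obj_of_isGE_of_isLE B.obj 0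
    let ι := (TStructure.t (C := H)).bounded.ι
    let e : ι.obj (B⟦n⟧) ≅ ((singleFunctor H 0).obj B')⟦n⟧ :=
      (ι.commShiftIso n).app B ≪≫ (shiftFunctor _ n).mapIso b
    apply ι.map_injective
    rw [Functor.map_zero, ← cancel_epi a.inv, ← cancel_mono e.hom, comp_zero, zero_comp]
    exact ht.single_van A' B' n hn _

end Pool.Agent.Work.MP_8b4bd2_al
end

-- merged part: Pool.Agent.Work.MP_8b4bd2_al.Hub0
section
/-!
Objects split for a bounded hereditary t-structure.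
`zero`: induction on the amplitude of `X`, then of `Y`, with `t.triangleLEGE_distinguished`
(`truncLE`, `truncGE` and their `IsLE`/`IsGE` instances or `isLE₂`-type lemmas); the base case is
`ht.van` after shifting. `exists_spl`: the third map of the truncation triangle vanishes by `zero`;
`exists_iso_binaryBiproduct_of_distTriang`; summands of `≥ a` objects are `≥ a`
(orthogonality characterisations `isGE_iff_orthogonal`, `isLE_iff_orthogonal`).
`exists_decomp`: induction on the amplitude, index type `Option I` or `I ⊕ Unit`.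
-/

set_option backward.isDefEq.respectTransparency false
set_option backward.defeqAttrib.useBackward true

namespace Pool.Agent.Work.MP_8b4bd2_al

open CategoryTheory Limits Pretriangulated Triangulated

variable {T : Type*} [Category T] [HasZeroObject T] [Preadditive T] [HasShift T ℤ]
  [∀ n : ℤ, (shiftFunctor T n).Additive] [Pretriangulated T]
  {t : TStructure T}

theorem hub0_ind (t : TStructure T) (Q : T → Prop) (c : ℤ) (h0 : ∀ X, IsZero X → Q X)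
    (h2 : ∀ D ∈ distTriang T, ∀ i, t.IsLE D.obj₁ i → t.IsGE D.obj₃ (i + 1) → Q D.obj₁ → Q D.obj₃ →
      Q D.obj₂) (m : ℕ) :
    ∀ a : ℤ, c < a + m → (∀ X i, a ≤ i → i ≤ c → t.IsGE X i → t.IsLE X i → Q X) →
      ∀ X, t.IsGE X a → t.IsLE X c → Q X := by
  induction m with
  | zero => exact fun a h _ X _ _ => h0 X (t.isZero X c a (by omega))
  | succ m ih =>
    intro a h h1 X _ _
    by_cases hca : c < a
    · exact h0 X (t.isZero X c a hca)
    obtain ⟨A, B, hA, hB, f, g, k, mem⟩ := t.exists_triangle X a (a + 1) rfl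
    have hA' : t.IsLE A a := ⟨hA⟩
    have hB' : t.IsGE B (a + 1) := ⟨hB⟩
    have hA'' : t.IsGE A a := by
      have := t.isGE_shift B (a + 1) (-1) (a + 2)
      exact t.isGE₂ _ (inv_rot_of_distTriang _ mem) a (t.isGE_of_ge (B⟦(-1 : ℤ)⟧) a (a + 2)) ‹_›
    have hB'' : t.IsLE B c := by
      have := t.isLE_shift A a 1 (a - 1)
      exact t.isLE₂ _ (rot_of_distTriang _ mem) c ‹_› (t.isLE_of_le (A⟦(1 : ℤ)⟧) (a - 1) c)
    exact h2 _ mem a hA' hB' (h1 A a le_rfl (by omega) hA'' hA')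
      (ih (a + 1) (by omega) (fun Y i hi => h1 Y i (by omega)) B hB' hB'')

theorem hub0_ind' (t : TStructure T) (Q : T → Prop) (a c : ℤ) (h0 : ∀ X, IsZero X → Q X)
    (h1 : ∀ X i, a ≤ i → i ≤ c → t.IsGE X i → t.IsLE X i → Q X)
    (h2 : ∀ D ∈ distTriang T, ∀ i, t.IsLE D.obj₁ i → t.IsGE D.obj₃ (i + 1) → Q D.obj₁ → Q D.obj₃ →
      Q D.obj₂) (X : T) (ha : t.IsGE X a) (hc : t.IsLE X c) : Q X :=
  hub0_ind t Q c h0 h2 (c - a + 1).toNat a (by omega) h1 X ha hc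

theorem hub0_heart {X : T} {i : ℤ} (_ : t.IsGE X i) (_ : t.IsLE X i) : t.heart (X⟦i⟧) :=
  (t.mem_heart_iff _).2 ⟨t.isLE_shift X i i 0, t.isGE_shift X i i 0⟩

theorem hub0_spl (D : Triangle T) (hD : D ∈ distTriang T) (h : D.mor₃ = 0) :
    Nonempty (Spl D.obj₂ D.obj₁ D.obj₃) := by
  obtain ⟨e, -⟩ := exists_iso_binaryBiproduct_of_distTriang D hD h
  exact ⟨⟨biprod.inl ≫ e.inv, biprod.inr ≫ e.inv, e.hom ≫ biprod.fst, e.hom ≫ biprod.snd,
    by simp, by simp, by simp, by simp, by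
      simp only [Category.assoc]
      rw [← Preadditive.comp_add, ← Category.assoc, ← Category.assoc biprod.snd,
        ← Preadditive.add_comp, biprod.total, Category.id_comp, e.hom_inv_id]⟩⟩

theorem hub0_ge {X Y : T} (i : Y ⟶ X) (p : X ⟶ Y) (h : i ≫ p = 𝟙 _) {a : ℤ} (hX : t.IsGE X a) :
    t.IsGE Y a := by
  rw [t.isGE_iff_orthogonal (a - 1) a (by omega)]
  intro Z f _
  rw [← Category.comp_id f, ← h, ← Category.assoc, t.zero (f ≫ i) (a - 1) a, zero_comp]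

theorem hub0_le {X Y : T} (i : Y ⟶ X) (p : X ⟶ Y) (h : i ≫ p = 𝟙 _) {b : ℤ} (hX : t.IsLE X b) :
    t.IsLE Y b := by
  rw [t.isLE_iff_orthogonal b (b + 1) rfl]
  intro Z f _
  rw [← Category.id_comp f, ← h, Category.assoc, t.zero (p ≫ f) b (b + 1), comp_zero]

theorem Hered.zero (ht : Hered t) {X Y : T} (a b : ℤ) (hab : b + 2 ≤ a) [t.IsGE X a] [t.IsLE Y b]
    (f : X ⟶ Y) : f = 0 := by
  obtain ⟨-, c, hc⟩ := ht.bdd X
  obtain ⟨⟨d, hd⟩, -⟩ := ht.bdd Y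
  revert f
  refine hub0_ind' t (fun X => ∀ f : X ⟶ Y, f = 0) a c (fun X h f => h.eq_of_src _ _)
    (fun X i hi _ h1 h2 => ?_) (fun D hD _ _ _ h1 h3 f => ?_) X ‹_› hc
  · refine hub0_ind' t (fun Y => ∀ f : X ⟶ Y, f = 0) d b (fun Y h f => h.eq_of_tgt _ _)
      (fun Y j _ hj h3 h4 f => ?_) (fun D hD _ _ _ h1 h3 f => ?_) Y hd ‹_›
    · have := ht.van _ _ (hub0_heart h1 h2) (hub0_heart h3 h4) (i - j) (by omega)
        (f⟦i⟧' ≫ (shiftFunctorAdd' T j (i - j) i (by omega)).hom.app Y)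
      refine (shiftFunctor T i).map_injective ?_
      rw [Functor.map_zero, ← cancel_mono ((shiftFunctorAdd' T j (i - j) i (by omega)).hom.app Y),
        zero_comp]
      exact this
    · obtain ⟨g, hg⟩ := D.coyoneda_exact₂ hD f (h3 _)
      rw [hg, h1 g, zero_comp]
  · obtain ⟨g, hg⟩ := D.yoneda_exact₂ hD f (h1 _)
    rw [hg, h3 g, comp_zero]

theorem Hered.hub0_split (ht : Hered t) (D : Triangle T) (hD : D ∈ distTriang T) (n : ℤ)
    (_ : t.IsLE D.obj₁ n) (_ : t.IsGE D.obj₃ (n + 1)) : Nonempty (Spl D.obj₂ D.obj₁ D.obj₃) := by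
  have := t.isLE_shift D.obj₁ n 1 (n - 1)
  exact hub0_spl D hD (ht.zero (n + 1) (n - 1) (by omega) _)

theorem Hered.exists_spl (ht : Hered t) (X : T) (n : ℤ) : ∃ (X' X'' : T) (_ : Spl X X' X''),
    t.IsLE X' n ∧ t.IsGE X'' (n + 1) ∧ (∀ a, t.IsGE X a → t.IsGE X' a ∧ t.IsGE X'' a) ∧
      ∀ b, t.IsLE X b → t.IsLE X' b ∧ t.IsLE X'' b := by
  obtain ⟨A, B, hA, hB, f, g, k, mem⟩ := t.exists_triangle X n (n + 1) rfl
  obtain ⟨s⟩ := ht.hub0_split _ mem n ⟨hA⟩ ⟨hB⟩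
  exact ⟨A, B, s, ⟨hA⟩, ⟨hB⟩, fun a h => ⟨hub0_ge _ _ s.h₁₁ h, hub0_ge _ _ s.h₂₂ h⟩,
    fun b h => ⟨hub0_le _ _ s.h₁₁ h, hub0_le _ _ s.h₂₂ h⟩⟩

theorem Hered.exists_decomp (ht : Hered t) (H : Type*) [Category H] [Preadditive H] [t.Heart H]
    (X : T) : ∃ (I : Type) (_ : Fintype I) (A : I → H) (p : I → ℤ)
      (i : ∀ a, (t.ιHeart.obj (A a))⟦p a⟧ ⟶ X) (π : ∀ a, X ⟶ (t.ιHeart.obj (A a))⟦p a⟧),
      (∀ a, i a ≫ π a = 𝟙 _) ∧ (∀ a b, a ≠ b → i a ≫ π b = 0) ∧ ∑ a, π a ≫ i a = 𝟙 X := by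
  obtain ⟨⟨a, ha⟩, c, hc⟩ := ht.bdd X
  refine hub0_ind' t (fun X => ∃ (I : Type) (_ : Fintype I) (A : I → H) (p : I → ℤ)
      (i : ∀ a, (t.ιHeart.obj (A a))⟦p a⟧ ⟶ X) (π : ∀ a, X ⟶ (t.ιHeart.obj (A a))⟦p a⟧),
      (∀ a, i a ≫ π a = 𝟙 _) ∧ (∀ a b, a ≠ b → i a ≫ π b = 0) ∧ ∑ a, π a ≫ i a = 𝟙 X) a c
    (fun X h => ?_) (fun X i _ _ h1 h2 => ?_) (fun D hD n h1 h3 q1 q3 => ?_) X ha hc
  · exact ⟨Empty, inferInstance, Empty.elim, Empty.elim, fun a => a.elim, fun a => a.elim,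
      fun a => a.elim, fun a => a.elim, h.eq_of_src _ _⟩
  · have h := hub0_heart h1 h2
    rw [← t.essImage_ιHeart H] at h
    obtain ⟨A, ⟨e⟩⟩ := h
    let e' : (t.ιHeart.obj A)⟦-i⟧ ≅ X :=
      (shiftFunctor T (-i)).mapIso e ≪≫ (shiftEquiv T i).unitIso.symm.app X
    exact ⟨Unit, inferInstance, fun _ => A, fun _ => -i, fun _ => e'.hom, fun _ => e'.inv,
      fun _ => e'.hom_inv_id, fun _ _ h => absurd rfl h, by simp⟩
  · obtain ⟨s⟩ := ht.hub0_split D hD n h1 h3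
    obtain ⟨I, _, A, p, i, π, a1, a2, a3⟩ := q1
    obtain ⟨J, _, B, q, j, ρ, b1, b2, b3⟩ := q3
    refine ⟨I ⊕ J, inferInstance, Sum.elim A B, Sum.elim p q,
      fun a => match a with
        | .inl a => i a ≫ s.i'
        | .inr b => j b ≫ s.i'',
      fun a => match a with
        | .inl a => s.p' ≫ π a
        | .inr b => s.p'' ≫ ρ b, ?_, ?_, ?_⟩
    · rintro (a | b)
      · simpa using a1 a
      · simpa using b1 b
    · rintro (a | a) (b | b) h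
      · simpa using a2 a b fun e => h (congrArg _ e)
      · simp
      · simp
      · simpa using b2 a b fun e => h (congrArg _ e)
    · have e1 : ∑ a, (s.p' ≫ π a) ≫ i a ≫ s.i' = s.p' ≫ s.i' := by
        conv_rhs => rw [← Category.id_comp s.i', ← a3, Preadditive.sum_comp, Preadditive.comp_sum]
        simp only [Category.assoc]
      have e2 : ∑ a, (s.p'' ≫ ρ a) ≫ j a ≫ s.i'' = s.p'' ≫ s.i'' := by
        conv_rhs => rw [← Category.id_comp s.i'', ← b3, Preadditive.sum_comp, Preadditive.comp_sum]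
        simp only [Category.assoc]
      rw [Fintype.sum_sum_type, ← s.total, ← e1, ← e2]

end Pool.Agent.Work.MP_8b4bd2_al
end

-- merged part: Pool.Agent.Work.MP_8b4bd2_al.Hub5a
section
/-!
Decompositions into shifted objects, and shift bookkeeping, in one category.
-/

set_option backward.isDefEq.respectTransparency false
set_option backward.defeqAttrib.useBackward true

namespace Pool.Agent.Work.MP_8b4bd2_al

open CategoryTheory Limits

variable {T : Type*} [Category T] [HasShift T ℤ]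

noncomputable def el0 {U V : T} (g : U ⟶ V) {p q : ℤ} (h : p = q) : U⟦p⟧ ⟶ V⟦q⟧ :=
  g⟦p⟧' ≫ eqToHom (by rw [h])

@[simp] theorem el0_rfl {U V : T} (g : U ⟶ V) (p : ℤ) : el0 g (rfl : p = p) = g⟦p⟧' := by simp [el0]

noncomputable def el1 {U V : T} (ξ : U ⟶ V⟦(1 : ℤ)⟧) {p q : ℤ} (h : 1 + p = q) : U⟦p⟧ ⟶ V⟦q⟧ :=
  ξ⟦p⟧' ≫ (shiftFunctorAdd' T 1 p q h).inv.app V

theorem el1_inj {U V : T} {ξ ξ' : U ⟶ V⟦(1 : ℤ)⟧} {p q : ℤ} {h : 1 + p = q}
    (e : el1 ξ h = el1 ξ' h) : ξ = ξ' :=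
  (shiftFunctor T p).map_injective (by simpa [el1, cancel_mono] using e)

theorem el1_surj {U V : T} {p q : ℤ} (h : 1 + p = q) (f : U⟦p⟧ ⟶ V⟦q⟧) :
    ∃ ξ : U ⟶ V⟦(1 : ℤ)⟧, f = el1 ξ h :=
  ⟨(shiftFunctor T p).preimage (f ≫ (shiftFunctorAdd' T 1 p q h).hom.app V), by simp [el1]⟩

theorem comp_el1 {U' U V : T} (g : U' ⟶ U) (ξ : U ⟶ V⟦(1 : ℤ)⟧) {p q : ℤ} (h : 1 + p = q) :
    g⟦p⟧' ≫ el1 ξ h = el1 (g ≫ ξ) h := by simp [el1]

theorem el1_comp {U V V' : T} (ξ : U ⟶ V⟦(1 : ℤ)⟧) (g : V ⟶ V') {p q : ℤ} (h : 1 + p = q) :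
    el1 ξ h ≫ g⟦q⟧' = el1 (ξ ≫ g⟦(1 : ℤ)⟧') h := by
  simp [el1, ← (shiftFunctorAdd' T 1 p q h).inv.naturality]

/-- Shift of a map between shifted objects. -/
noncomputable def shm {U V : T} {p q : ℤ} (f : U⟦p⟧ ⟶ V⟦q⟧) (n : ℤ) {p' q' : ℤ} (hp : p + n = p')
    (hq : q + n = q') : U⟦p'⟧ ⟶ V⟦q'⟧ :=
  (shiftFunctorAdd' T p n p' hp).hom.app U ≫ f⟦n⟧' ≫ (shiftFunctorAdd' T q n q' hq).inv.app V

theorem shm_map {U V : T} (g : U ⟶ V) {p : ℤ} (n : ℤ) {p' : ℤ} (hp : p + n = p') :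
    shm (g⟦p⟧') n hp hp = g⟦p'⟧' := by
  have := (shiftFunctorAdd' T p n p' hp).hom.naturality g
  dsimp at this
  simp [shm, ← reassoc_of% this]

theorem shm_el1 {U V : T} (ξ : U ⟶ V⟦(1 : ℤ)⟧) {p q : ℤ} (h : 1 + p = q) (n : ℤ) {p' q' : ℤ}
    (hp : p + n = p') (hq : q + n = q') (h' : 1 + p' = q') : shm (el1 ξ h) n hp hq = el1 ξ h' := by
  have := (shiftFunctorAdd' T p n p' hp).hom.naturality ξ
  dsimp at this
  simp only [shm, el1, Functor.map_comp, Category.assoc, ← reassoc_of% this]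
  rw [shiftFunctorAdd'_assoc_inv_app 1 p n q p' q' h hp (by omega), Iso.hom_inv_id_app_assoc]

theorem add_zero_eq_el0 (U : T) {p p' : ℤ} (h : p + 0 = p') (h' : p' = p) :
    (shiftFunctorAdd' T p 0 p' h).hom.app U ≫ (shiftFunctorZero T ℤ).hom.app (U⟦p⟧) =
      el0 (𝟙 U) h' := by
  subst h'
  simp [shiftFunctorAdd'_add_zero_hom_app]

theorem zero_conj_eq_el1 {U V : T} (ξ : U ⟶ V⟦(1 : ℤ)⟧) {q : ℤ} (h : 0 + 1 = q) (h' : 1 + 0 = q) :
    (shiftFunctorZero T ℤ).hom.app U ≫ ξ ≫ ((shiftFunctorZero T ℤ).inv.app V)⟦(1 : ℤ)⟧' ≫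
      (shiftFunctorAdd' T 0 1 q h).inv.app V = el1 ξ h' := by
  obtain rfl : 1 = q := by omega
  have := (shiftFunctorZero T ℤ).hom.naturality ξ
  dsimp at this
  rw [shiftFunctorAdd'_zero_add_inv_app, el1, shiftFunctorAdd'_add_zero_inv_app, this,
    ← Functor.map_comp]
  simp

variable [Preadditive T]

/-- A decomposition `X = ⊕ (U a)[p a]`. -/
structure Dec (X : T) {I : Type} [Fintype I] (U : I → T) (p : I → ℤ) where
  i : ∀ a, (U a)⟦p a⟧ ⟶ X
  π : ∀ a, X ⟶ (U a)⟦p a⟧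
  h_id : ∀ a, i a ≫ π a = 𝟙 _
  h_ne : ∀ a b, a ≠ b → i a ≫ π b = 0
  total : ∑ a, π a ≫ i a = 𝟙 X

namespace Dec

variable {X Y Z : T} {I J K : Type} [Fintype I] [Fintype J] [Fintype K] {U : I → T} {V : J → T}
  {W : K → T} {p : I → ℤ} {q : J → ℤ} {r : K → ℤ} (d : Dec X U p) (e : Dec Y V q) (c : Dec Z W r)

theorem eq_sum (f : X ⟶ Y) : f = ∑ a, ∑ b, d.π a ≫ (d.i a ≫ f ≫ e.π b) ≫ e.i b := by
  conv_lhs => rw [← Category.id_comp f, ← Category.comp_id f, ← d.total, ← e.total]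
  rw [Finset.sum_comm]
  simp [Preadditive.sum_comp, Preadditive.comp_sum]

theorem ext {f g : X ⟶ Y} (h : ∀ a b, d.i a ≫ f ≫ e.π b = d.i a ≫ g ≫ e.π b) : f = g := by
  rw [d.eq_sum e f, d.eq_sum e g]
  simp only [h]

theorem exists_hom (m : ∀ a b, (U a)⟦p a⟧ ⟶ (V b)⟦q b⟧) :
    ∃ f : X ⟶ Y, ∀ a b, d.i a ≫ f ≫ e.π b = m a b := by
  refine ⟨∑ a, ∑ b, d.π a ≫ m a b ≫ e.i b, fun a b => ?_⟩
  simp only [Preadditive.sum_comp, Preadditive.comp_sum, Category.assoc]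
  rw [Finset.sum_eq_single a, Finset.sum_eq_single b]
  · rw [reassoc_of% d.h_id a, e.h_id, Category.comp_id]
  · intro b' _ hb
    rw [e.h_ne _ _ hb, comp_zero, comp_zero, comp_zero]
  · simp
  · intro a' _ ha
    exact Finset.sum_eq_zero fun b' _ => by rw [reassoc_of% d.h_ne _ _ ha.symm, zero_comp]
  · simp

theorem comp_eq (f : X ⟶ Y) (g : Y ⟶ Z) (a : I) (b : K) : d.i a ≫ (f ≫ g) ≫ c.π b =
    ∑ l, (d.i a ≫ f ≫ e.π l) ≫ (e.i l ≫ g ≫ c.π b) := by
  conv_lhs => rw [← Category.id_comp g, ← e.total]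
  simp [Preadditive.sum_comp, Preadditive.comp_sum]

variable [∀ n : ℤ, (shiftFunctor T n).Additive]

noncomputable def shift (n : ℤ) : Dec (X⟦n⟧) U fun a => p a + n where
  i a := (shiftFunctorAdd' T (p a) n _ rfl).hom.app _ ≫ (d.i a)⟦n⟧'
  π a := (d.π a)⟦n⟧' ≫ (shiftFunctorAdd' T (p a) n _ rfl).inv.app _
  h_id a := by simp [← Functor.map_comp_assoc, d.h_id]
  h_ne a b h := by simp [← Functor.map_comp_assoc, d.h_ne a b h]
  total := by simp [← Functor.map_comp, ← Functor.map_sum, d.total]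

theorem shift_eq (f : X ⟶ Y) (n : ℤ) (a : I) (b : J) :
    (d.shift n).i a ≫ f⟦n⟧' ≫ (e.shift n).π b = shm (d.i a ≫ f ≫ e.π b) n rfl rfl := by
  simp [shift, shm]

theorem zero_eq (a b : I) : (d.shift 0).i a ≫ (shiftFunctorZero T ℤ).hom.app X ≫ d.π b =
    el0 (𝟙 (U a)) (add_zero (p a)) ≫ d.i a ≫ 𝟙 X ≫ d.π b := by
  have := (shiftFunctorZero T ℤ).hom.naturality (d.i a)
  dsimp at this
  simp [shift, reassoc_of% this, ← add_zero_eq_el0 (U a) rfl]

theorem add_eq (m n : ℤ) (a b : I) : (d.shift (m + n)).i a ≫ (shiftFunctorAdd T m n).hom.app X ≫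
    ((d.shift m).shift n).π b = shm (d.i a ≫ 𝟙 X ≫ d.π b) (m + n) rfl (add_assoc _ _ _).symm := by
  have := (shiftFunctorAdd T m n).hom.naturality (d.π b)
  dsimp at this
  simp only [shift, shm, Functor.map_comp, Category.assoc, Category.id_comp, ← reassoc_of% this]
  rw [shiftFunctorAdd'_assoc_inv_app (p b) m n _ _ _ rfl rfl rfl,
    shiftFunctorAdd'_eq_shiftFunctorAdd T m n, Iso.hom_inv_id_app_assoc]

end Dec

theorem exists_dec [HasFiniteBiproducts T] {I : Type} [Fintype I] (U : I → T) (p : I → ℤ) :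
    ∃ X : T, Nonempty (Dec X U p) := by
  classical
  exact ⟨⨁ fun a => (U a)⟦p a⟧, ⟨⟨biproduct.ι _, biproduct.π _, fun a => biproduct.ι_π_self _ a,
    fun a b h => biproduct.ι_π_ne _ h, biproduct.total⟩⟩⟩

/-- The decomposition `U = U[0]`. -/
noncomputable def Dec.single (U : T) : Dec U (fun _ : Unit => U) fun _ => 0 where
  i _ := (shiftFunctorZero T ℤ).hom.app U
  π _ := (shiftFunctorZero T ℤ).inv.app U
  h_id _ := by simp
  h_ne _ _ h := (h rfl).elim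
  total := by simp

end Pool.Agent.Work.MP_8b4bd2_al
end

-- merged part: Pool.Agent.Work.MP_8b4bd2_al.Hub5
section
/-!
The correspondence given by decompositions into shifted objects of the heart.
-/

set_option backward.isDefEq.respectTransparency false
set_option backward.defeqAttrib.useBackward true

namespace Pool.Agent.Work.MP_8b4bd2_al

open CategoryTheory Limits Pretriangulated Triangulated

variable {T₁ : Type*} [Category T₁] [HasZeroObject T₁] [Preadditive T₁] [HasShift T₁ ℤ]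
  [∀ n : ℤ, (shiftFunctor T₁ n).Additive] [Pretriangulated T₁]
  {T₂ : Type*} [Category T₂] [HasZeroObject T₂] [Preadditive T₂] [HasShift T₂ ℤ]
  [∀ n : ℤ, (shiftFunctor T₂ n).Additive] [Pretriangulated T₂]
  {t₁ : TStructure T₁} {t₂ : TStructure T₂}
  {H : Type*} [Category H] [Abelian H] [t₁.Heart H] [t₂.Heart H]

/-- Matched maps between shifted objects of the heart. -/
def Mel (ε : Eps t₁ t₂ H) {A B : H} {p q : ℤ}
    (f₁ : (t₁.ιHeart.obj A)⟦p⟧ ⟶ (t₁.ιHeart.obj B)⟦q⟧)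
    (f₂ : (t₂.ιHeart.obj A)⟦p⟧ ⟶ (t₂.ιHeart.obj B)⟦q⟧) : Prop :=
  (∃ (h : p = q) (g : A ⟶ B), f₁ = el0 (t₁.ιHeart.map g) h ∧ f₂ = el0 (t₂.ιHeart.map g) h) ∨
    (∃ (h : 1 + p = q) (ξ : t₂.ιHeart.obj A ⟶ (t₂.ιHeart.obj B)⟦(1 : ℤ)⟧),
      f₁ = el1 (ε.e _ _ ξ) h ∧ f₂ = el1 ξ h) ∨ (p ≠ q ∧ 1 + p ≠ q ∧ f₁ = 0 ∧ f₂ = 0)

theorem Hered.van_shift {T : Type*} [Category T] [HasZeroObject T] [Preadditive T] [HasShift T ℤ]
    [∀ n : ℤ, (shiftFunctor T n).Additive] [Pretriangulated T] {t : TStructure T} [t.Heart H]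
    (ht : Hered t) {A B : H} {p q : ℤ} (h : p ≠ q) (h' : 1 + p ≠ q)
    (f : (t.ιHeart.obj A)⟦p⟧ ⟶ (t.ιHeart.obj B)⟦q⟧) : f = 0 := by
  have := t.isLE_shift (t.ιHeart.obj A) 0 p (-p)
  have := t.isGE_shift (t.ιHeart.obj A) 0 p (-p)
  have := t.isLE_shift (t.ιHeart.obj B) 0 q (-q)
  have := t.isGE_shift (t.ιHeart.obj B) 0 q (-q)
  by_cases hpq : q < p
  · exact t.zero f (-p) (-q)
  · exact ht.zero (-p) (-q) (by omega) f

namespace Mel

variable {ε : Eps t₁ t₂ H} {A B C : H} {p q r : ℤ}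

theorem of_el0 (h : p = q) (g : A ⟶ B) :
    Mel ε (el0 (t₁.ιHeart.map g) h) (el0 (t₂.ιHeart.map g) h) := Or.inl ⟨h, g, rfl, rfl⟩

theorem of_el1 (h : 1 + p = q) (ξ : t₂.ιHeart.obj A ⟶ (t₂.ιHeart.obj B)⟦(1 : ℤ)⟧) :
    Mel ε (el1 (ε.e _ _ ξ) h) (el1 ξ h) := Or.inr (Or.inl ⟨h, ξ, rfl, rfl⟩)

theorem zero : Mel ε (A := A) (B := B) (p := p) (q := q) 0 0 := by
  by_cases h : p = q
  · exact Or.inl ⟨h, 0, by simp [el0], by simp [el0]⟩
  by_cases h' : 1 + p = q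
  · exact Or.inr (Or.inl ⟨h', 0, by simp [el1], by simp [el1]⟩)
  · exact Or.inr (Or.inr ⟨h, h', rfl, rfl⟩)

theorem ex₁ (h₂ : Hered t₂) (f₂ : (t₂.ιHeart.obj A)⟦p⟧ ⟶ (t₂.ιHeart.obj B)⟦q⟧) :
    ∃ f₁, Mel ε f₁ f₂ := by
  by_cases h : p = q
  · subst h
    obtain ⟨g, rfl⟩ := (t₂.ιHeart ⋙ shiftFunctor T₂ p).map_surjective f₂
    exact ⟨_, Or.inl ⟨rfl, g, rfl, by simp⟩⟩
  by_cases h' : 1 + p = q
  · obtain ⟨ξ, rfl⟩ := el1_surj h' f₂
    exact ⟨_, of_el1 h' ξ⟩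
  · exact ⟨0, h₂.van_shift h h' f₂ ▸ zero⟩

theorem ex₂ (h₁ : Hered t₁) (f₁ : (t₁.ιHeart.obj A)⟦p⟧ ⟶ (t₁.ιHeart.obj B)⟦q⟧) :
    ∃ f₂, Mel ε f₁ f₂ := by
  by_cases h : p = q
  · subst h
    obtain ⟨g, rfl⟩ := (t₁.ιHeart ⋙ shiftFunctor T₁ p).map_surjective f₁
    exact ⟨_, Or.inl ⟨rfl, g, by simp, rfl⟩⟩
  by_cases h' : 1 + p = q
  · obtain ⟨ξ, rfl⟩ := el1_surj h' f₁
    obtain ⟨ξ, rfl⟩ := (ε.e _ _).surjective ξ
    exact ⟨_, of_el1 h' ξ⟩
  · exact ⟨0, h₁.van_shift h h' f₁ ▸ zero⟩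

variable {f₁ g₁ : (t₁.ιHeart.obj A)⟦p⟧ ⟶ (t₁.ιHeart.obj B)⟦q⟧}
  {f₂ g₂ : (t₂.ιHeart.obj A)⟦p⟧ ⟶ (t₂.ιHeart.obj B)⟦q⟧}

theorem eq_iff (hf : Mel ε f₁ f₂) (hg : Mel ε g₁ g₂) : f₁ = g₁ ↔ f₂ = g₂ := by
  rcases hf with ⟨rfl, a, rfl, rfl⟩ | ⟨h, a, rfl, rfl⟩ | ⟨h, h', rfl, rfl⟩ <;>
    rcases hg with ⟨k, b, rfl, rfl⟩ | ⟨k, b, rfl, rfl⟩ | ⟨k, k', rfl, rfl⟩ <;> try omega
  · simp only [el0_rfl]
    exact ⟨fun e => by rw [(t₁.ιHeart ⋙ shiftFunctor T₁ p).map_injective e],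
      fun e => by rw [(t₂.ιHeart ⋙ shiftFunctor T₂ p).map_injective e]⟩
  · exact ⟨fun e => by rw [(ε.e _ _).injective (el1_inj e)], fun e => by rw [el1_inj e]⟩
  · simp

theorem add (hf : Mel ε f₁ f₂) (hg : Mel ε g₁ g₂) : Mel ε (f₁ + g₁) (f₂ + g₂) := by
  rcases hf with ⟨rfl, a, rfl, rfl⟩ | ⟨h, a, rfl, rfl⟩ | ⟨h, h', rfl, rfl⟩ <;>
    rcases hg with ⟨k, b, rfl, rfl⟩ | ⟨k, b, rfl, rfl⟩ | ⟨k, k', rfl, rfl⟩ <;> try omega
  · exact Or.inl ⟨rfl, a + b, by simp, by simp⟩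
  · exact Or.inr (Or.inl ⟨h, a + b, by simp [el1], by simp [el1]⟩)
  · simpa using zero

theorem sum {I : Type*} (s : Finset I) {u₁ : I → ((t₁.ιHeart.obj A)⟦p⟧ ⟶ (t₁.ιHeart.obj B)⟦q⟧)}
    {u₂ : I → ((t₂.ιHeart.obj A)⟦p⟧ ⟶ (t₂.ιHeart.obj B)⟦q⟧)} (h : ∀ a, Mel ε (u₁ a) (u₂ a)) :
    Mel ε (∑ a ∈ s, u₁ a) (∑ a ∈ s, u₂ a) := by
  classical
  induction s using Finset.induction_on with
  | empty => simpa using zero
  | insert a s ha ih => rw [Finset.sum_insert ha, Finset.sum_insert ha]; exact (h a).add ih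

theorem comp (h₁ : Hered t₁) (h₂ : Hered t₂) (hf : Mel ε f₁ f₂)
    {u₁ : (t₁.ιHeart.obj B)⟦q⟧ ⟶ (t₁.ιHeart.obj C)⟦r⟧}
    {u₂ : (t₂.ιHeart.obj B)⟦q⟧ ⟶ (t₂.ιHeart.obj C)⟦r⟧} (hu : Mel ε u₁ u₂) :
    Mel ε (f₁ ≫ u₁) (f₂ ≫ u₂) := by
  rcases hf with ⟨rfl, a, rfl, rfl⟩ | ⟨h, a, rfl, rfl⟩ | ⟨h, h', rfl, rfl⟩ <;>
    rcases hu with ⟨rfl, b, rfl, rfl⟩ | ⟨k, b, rfl, rfl⟩ | ⟨k, k', rfl, rfl⟩ <;>
    try (simpa only [comp_zero, zero_comp] using zero)
  · exact Or.inl ⟨rfl, a ≫ b, by simp, by simp⟩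
  · rw [el0_rfl, el0_rfl, comp_el1, comp_el1, ← ε.pre]
    exact of_el1 _ _
  · rw [el0_rfl, el0_rfl, el1_comp, el1_comp, ← ε.post]
    exact of_el1 _ _
  · exact Or.inr (Or.inr ⟨by omega, by omega, h₁.van_shift (by omega) (by omega) _,
      h₂.van_shift (by omega) (by omega) _⟩)

theorem shm (hf : Mel ε f₁ f₂) (n : ℤ) {p' q' : ℤ} (hp : p + n = p') (hq : q + n = q') :
    Mel ε (shm f₁ n hp hq) (shm f₂ n hp hq) := by
  rcases hf with ⟨rfl, a, rfl, rfl⟩ | ⟨h, a, rfl, rfl⟩ | ⟨h, h', rfl, rfl⟩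
  · obtain rfl : p' = q' := by omega
    rw [el0_rfl, el0_rfl, shm_map, shm_map]
    exact Or.inl ⟨rfl, a, by simp, by simp⟩
  · rw [shm_el1 _ _ _ _ _ (by omega), shm_el1 _ _ _ _ _ (by omega)]
    exact of_el1 _ _
  · simpa [MP_8b4bd2_al.shm] using zero

end Mel

variable (t₁ t₂ H) in
/-- A matching of two objects. -/
structure Mt (X₁ : T₁) (X₂ : T₂) where
  I : Type
  [fin : Fintype I]
  A : I → H
  p : I → ℤ
  d₁ : Dec X₁ (fun a => t₁.ιHeart.obj (A a)) p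
  d₂ : Dec X₂ (fun a => t₂.ιHeart.obj (A a)) p

attribute [instance] Mt.fin

def Mt.Rel (ε : Eps t₁ t₂ H) {X₁ Y₁ : T₁} {X₂ Y₂ : T₂} (d : Mt t₁ t₂ H X₁ X₂) (e : Mt t₁ t₂ H Y₁ Y₂)
    (f₁ : X₁ ⟶ Y₁) (f₂ : X₂ ⟶ Y₂) : Prop :=
  ∀ a b, Mel ε (d.d₁.i a ≫ f₁ ≫ e.d₁.π b) (d.d₂.i a ≫ f₂ ≫ e.d₂.π b)

theorem Mt.rel_id (ε : Eps t₁ t₂ H) {X₁ : T₁} {X₂ : T₂} (d : Mt t₁ t₂ H X₁ X₂) :
    Mt.Rel ε d d (𝟙 _) (𝟙 _) := by
  intro a b
  by_cases h : a = b
  · subst h
    exact Or.inl ⟨rfl, 𝟙 _, by simp [d.d₁.h_id], by simp [d.d₂.h_id]⟩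
  · simpa [d.d₁.h_ne a b h, d.d₂.h_ne a b h] using Mel.zero

noncomputable def corr (ε : Eps t₁ t₂ H) (h₁ : Hered t₁) (h₂ : Hered t₂) : Corr T₁ T₂ where
  M := Mt t₁ t₂ H
  Rel := Mt.Rel ε
  ex₁ d e f₂ := by
    choose m hm using fun a b => Mel.ex₁ (ε := ε) h₂ (d.d₂.i a ≫ f₂ ≫ e.d₂.π b)
    obtain ⟨f, hf⟩ := d.d₁.exists_hom e.d₁ m
    exact ⟨f, fun a b => hf a b ▸ hm a b⟩
  ex₂ d e f₁ := by
    choose m hm using fun a b => Mel.ex₂ (ε := ε) h₁ (d.d₁.i a ≫ f₁ ≫ e.d₁.π b)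
    obtain ⟨f, hf⟩ := d.d₂.exists_hom e.d₂ m
    exact ⟨f, fun a b => hf a b ▸ hm a b⟩
  uniq₁ {_ _ _ _ d e _ _ _} h h' := d.d₁.ext e.d₁ fun a b => ((h a b).eq_iff (h' a b)).2 rfl
  uniq₂ {_ _ _ _ d e _ _ _} h h' := d.d₂.ext e.d₂ fun a b => ((h a b).eq_iff (h' a b)).1 rfl
  rel_id := Mt.rel_id ε
  rel_comp {_ _ _ _ _ _ d e c _ _ _ _} h h' a b := by
    rw [d.d₁.comp_eq e.d₁ c.d₁, d.d₂.comp_eq e.d₂ c.d₂]
    exact Mel.sum _ fun l => (h a l).comp h₁ h₂ (h' l b)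
  rel_add h h' a b := by
    simp only [Preadditive.add_comp, Preadditive.comp_add]
    exact (h a b).add (h' a b)
  surj₁ X := by
    obtain ⟨I, _, A, p, i, π, a, b, c⟩ := h₁.exists_decomp H X
    obtain ⟨Y, ⟨d⟩⟩ := exists_dec (fun a => t₂.ιHeart.obj (A a)) p
    exact ⟨Y, ⟨⟨I, A, p, ⟨i, π, a, b, c⟩, d⟩⟩⟩
  surj₂ X := by
    obtain ⟨I, _, A, p, i, π, a, b, c⟩ := h₂.exists_decomp H X
    obtain ⟨Y, ⟨d⟩⟩ := exists_dec (fun a => t₁.ιHeart.obj (A a)) p
    exact ⟨Y, ⟨⟨I, A, p, d, ⟨i, π, a, b, c⟩⟩⟩⟩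
  sh d n := ⟨d.I, d.A, fun a => d.p a + n, d.d₁.shift n, d.d₂.shift n⟩
  rel_sh {_ _ _ _ d e _ _} n h a b := by
    rw [d.d₁.shift_eq e.d₁, d.d₂.shift_eq e.d₂]
    exact (h a b).shm n rfl rfl
  rel_zero d a b := by
    rw [d.d₁.zero_eq, d.d₂.zero_eq, ← t₁.ιHeart.map_id, ← t₂.ιHeart.map_id]
    exact (Mel.of_el0 _ _).comp h₁ h₂ (d.rel_id ε a b)
  rel_shiftAdd d m n a b := by
    rw [d.d₁.add_eq, d.d₂.add_eq]
    exact (d.rel_id ε a b).shm _ _ _

variable (t₁ t₂) in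
noncomputable def Mt.single (A : H) : Mt t₁ t₂ H (t₁.ιHeart.obj A) (t₂.ιHeart.obj A) :=
  ⟨Unit, fun _ => A, fun _ => 0, Dec.single _, Dec.single _⟩

theorem Mt.rel_single (ε : Eps t₁ t₂ H) {A B : H} (g : A ⟶ B) :
    Mt.Rel ε (Mt.single t₁ t₂ A) (Mt.single t₁ t₂ B) (t₁.ιHeart.map g) (t₂.ιHeart.map g) := by
  intro a b
  refine Or.inl ⟨rfl, g, ?_, ?_⟩
  · have := (shiftFunctorZero T₁ ℤ).hom.naturality (t₁.ιHeart.map g)
    dsimp at this
    simp [Mt.single, Dec.single, ← reassoc_of% this]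
  · have := (shiftFunctorZero T₂ ℤ).hom.naturality (t₂.ιHeart.map g)
    dsimp at this
    simp [Mt.single, Dec.single, ← reassoc_of% this]

include H in
theorem exists_functor_of_hered (h₁ : Hered t₁) (h₂ : Hered t₂) :
    ∃ (Φ : T₂ ⥤ T₁) (_ : Φ.CommShift ℤ), Φ.Additive ∧ Φ.IsEquivalence ∧
      ∀ A ∈ distTriang T₂, t₂.heart A.obj₁ → t₂.heart A.obj₂ → t₂.heart A.obj₃ →
        Φ.mapTriangle.obj A ∈ distTriang T₁ := by
  obtain ⟨ε⟩ := exists_eps t₁ t₂ H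
  obtain ⟨Φ, _, ha, he, hΦ⟩ := (corr ε h₁ h₂).exists_functor
  refine ⟨Φ, inferInstance, ha, he, fun A hA m₁ m₂ m₃ => ?_⟩
  rw [← t₂.essImage_ιHeart H] at m₁ m₂ m₃
  obtain ⟨A₁, ⟨e₁⟩⟩ := m₁
  obtain ⟨A₂, ⟨e₂⟩⟩ := m₂
  obtain ⟨A₃, ⟨e₃⟩⟩ := m₃
  obtain ⟨f, hf⟩ := t₂.ιHeart.map_surjective (e₁.hom ≫ A.mor₁ ≫ e₂.inv)
  obtain ⟨g, hg⟩ := t₂.ιHeart.map_surjective (e₂.hom ≫ A.mor₂ ≫ e₃.inv)
  let ξ := e₃.hom ≫ A.mor₃ ≫ e₁.inv⟦(1 : ℤ)⟧'
  have e : Triangle.mk (t₂.ιHeart.map f) (t₂.ιHeart.map g) ξ ≅ A :=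
    Triangle.isoMk _ _ e₁ e₂ e₃ (by simp [hf]) (by simp [hg]) (by simp [ξ, ← Functor.map_comp])
  obtain ⟨e'⟩ := hΦ (Triangle.mk (t₁.ιHeart.map f) (t₁.ιHeart.map g) (ε.e _ _ ξ))
    (Triangle.mk (t₂.ιHeart.map f) (t₂.ιHeart.map g) ξ) (Mt.single t₁ t₂ A₁) (Mt.single t₁ t₂ A₂)
    (Mt.single t₁ t₂ A₃) (Mt.rel_single ε f) (Mt.rel_single ε g) fun a b =>
      Or.inr (Or.inl ⟨by simp [corr, Mt.single], ξ, zero_conj_eq_el1 _ _ _, zero_conj_eq_el1 _ _ _⟩)
  exact isomorphic_distinguished _ (ε.dist f g ξ (isomorphic_distinguished _ hA _ e)) _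
    (Φ.mapTriangle.mapIso e.symm ≪≫ e')

end Pool.Agent.Work.MP_8b4bd2_al
end

-- merged part: Pool.Agent.Work.MP_8b4bd2_al.Hub7
section
/-!
A fully faithful additive functor that preserves the triangles of the heart is triangulated.
`Δ` = distinguished triangles whose image is distinguished: closed under isomorphism, rotation in both
directions (`Functor.mapTriangleRotateIso`), shifts (`Functor.mapTriangleCommShiftIso`,
`Triangle.shift_distinguished_iff`); contains split triangles (`Spl.dist`, `Spl.map`).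
`Good f` iff some (then every) distinguished triangle starting with `f` is in `Δ`.
(G) In the situation of `glue` with `T', T'' ∈ Δ` and any distinguished `W = (u, v, w)`: `γ`, `η` exist
(exactness), the glued triangle is distinguished, and it is in `Δ` if `W` is (`glue` in `T₁` for the
images; the vanishing hypotheses transfer as `Φ` is fully faithful).
(1) triangles with three vertices in `[n,n]` are in `Δ`. (2) `X ∈ [n,n]`, `Y ∈ [n-1,n-1]`: `Good f`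
(rotate back twice). (3) `X, Y ∈ [n,n]`: let `T = (f, g, h)`, `T' = invRotate T` starts with
`f₁ : C → X`, `C ∈ [n,n+1]`; split `C = C' ⊕ C''` at `n`, `Y' = 0`, `Y'' = X`; (G) with
`T' = (C' → 0 → C'[1])`, `T''` from (2); the third vertex `Z` of the glued triangle is isomorphic to `Y`,
so the inverse rotation of `W` has its vertices in `[n,n]`. (4) `X ∈ [n,n]`, `Y ≥ n`: split `Y` at `n`,
`X'' = 0`, `w = 0`. (5) `X ∈ [a,a+m]`, `Y ∈ [a-1,a+m-1]` by induction on `m`: split `X` at `a`, `Y` at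
`a-1`; `i'' ≫ f ≫ p' = 0` by `Hered.zero`; `Z' ∈ [a-1,a-1]`, `Z'' ≥ a`; `Good w` by (4).
-/

set_option backward.isDefEq.respectTransparency false
set_option backward.defeqAttrib.useBackward true

namespace Pool.Agent.Work.MP_8b4bd2_al

open CategoryTheory Limits Pretriangulated Triangulated

variable {T₁ : Type*} [Category T₁] [HasZeroObject T₁] [Preadditive T₁] [HasShift T₁ ℤ]
  [∀ n : ℤ, (shiftFunctor T₁ n).Additive] [Pretriangulated T₁]
  {T₂ : Type*} [Category T₂] [HasZeroObject T₂] [Preadditive T₂] [HasShift T₂ ℤ]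
  [∀ n : ℤ, (shiftFunctor T₂ n).Additive] [Pretriangulated T₂]
  {t : TStructure T₂}

section Aux

open ZeroObject

/-- The object lies in degrees between `a` and `b`. -/
structure H7I (t : TStructure T₂) (X : T₂) (a b : ℤ) : Prop where
  ge : t.IsGE X a
  le : t.IsLE X b

theorem H7I.shift {X : T₂} {a b : ℤ} (h : H7I t X a b) (n a' b' : ℤ) (ha : n + a' = a)
    (hb : n + b' = b) : H7I t (X⟦n⟧) a' b' :=
  ⟨(t.isGE_shift_iff X a n a' ha).2 h.ge, (t.isLE_shift_iff X b n b' hb).2 h.le⟩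

theorem H7I.mono {X : T₂} {a b : ℤ} (h : H7I t X a b) {a' b' : ℤ} (ha : a' ≤ a) (hb : b ≤ b') :
    H7I t X a' b' := by
  have := h.ge
  have := h.le
  exact ⟨t.isGE_of_ge X a' a ha, t.isLE_of_le X b b' hb⟩

theorem H7I.ext₂ {A : Triangle T₂} (hA : A ∈ distTriang T₂) {a b : ℤ} (h₁ : H7I t A.obj₁ a b)
    (h₃ : H7I t A.obj₃ a b) : H7I t A.obj₂ a b :=
  ⟨t.isGE₂ A hA a h₁.ge h₃.ge, t.isLE₂ A hA b h₁.le h₃.le⟩

theorem H7I.ext₃ {A : Triangle T₂} (hA : A ∈ distTriang T₂) {a b : ℤ}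
    (h₁ : H7I t A.obj₁ (a + 1) (b + 1)) (h₂ : H7I t A.obj₂ a b) : H7I t A.obj₃ a b :=
  H7I.ext₂ (rot_of_distTriang A hA) h₂ (h₁.shift 1 a b (add_comm _ _) (add_comm _ _))

theorem H7I.zero (a b : ℤ) : H7I t (0 : T₂) a b := ⟨inferInstance, inferInstance⟩

theorem H7I.hom {X Y : T₂} {a b c d : ℤ} (hX : H7I t X a b) (hY : H7I t Y c d) (h : b < c)
    (f : X ⟶ Y) : f = 0 := by
  have := hX.le
  have := hY.ge
  exact t.zero f b c h

theorem H7I.spl (ht : Hered t) {X : T₂} {a b : ℤ} (h : H7I t X a b) :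
    ∃ (X' X'' : T₂) (_ : Spl X X' X''), H7I t X' a a ∧ H7I t X'' (a + 1) b := by
  obtain ⟨X', X'', s, h1, h2, h3, h4⟩ := ht.exists_spl X a
  exact ⟨X', X'', s, ⟨(h3 a h.ge).1, h1⟩, h2, (h4 b h.le).2⟩

/-- The decomposition with trivial second summand. -/
noncomputable def h7L (X : T₂) : Spl X X 0 :=
  ⟨𝟙 X, 0, 𝟙 X, 0, by simp, (isZero_zero _).eq_of_src _ _, by simp, by simp, by simp⟩

/-- The decomposition with trivial first summand. -/
noncomputable def h7R (X : T₂) : Spl X 0 X :=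
  ⟨0, 𝟙 X, 0, 𝟙 X, (isZero_zero _).eq_of_src _ _, by simp, by simp, by simp, by simp⟩

variable (Φ : T₂ ⥤ T₁) [Φ.CommShift ℤ]

/-- The image of the triangle is distinguished. -/
def H7P (A : Triangle T₂) : Prop := Φ.mapTriangle.obj A ∈ distTriang T₁

variable {Φ}

omit [HasZeroObject T₂] [Preadditive T₂] [∀ n : ℤ, (shiftFunctor T₂ n).Additive]
  [Pretriangulated T₂] in
theorem h7_iso {A B : Triangle T₂} (e : A ≅ B) : H7P Φ A ↔ H7P Φ B :=
  distinguished_iff_of_iso (Φ.mapTriangle.mapIso e)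

variable [Φ.Additive]

omit [HasZeroObject T₂] [∀ n : ℤ, (shiftFunctor T₂ n).Additive] [Pretriangulated T₂] in
theorem h7_rot (A : Triangle T₂) : H7P Φ A.rotate ↔ H7P Φ A :=
  (distinguished_iff_of_iso (Φ.mapTriangleRotateIso.app A)).symm.trans
    (rotate_distinguished_triangle _).symm

omit [HasZeroObject T₂] [Pretriangulated T₂] in
theorem h7_inv (A : Triangle T₂) : H7P Φ A.invRotate ↔ H7P Φ A :=
  (h7_rot _).symm.trans (h7_iso (invRotCompRot.app A))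

omit [HasZeroObject T₂] [∀ n : ℤ, (shiftFunctor T₂ n).Additive] [Pretriangulated T₂] in
theorem h7_shift (A : Triangle T₂) (n : ℤ) :
    H7P Φ ((Triangle.shiftFunctor T₂ n).obj A) ↔ H7P Φ A :=
  (distinguished_iff_of_iso ((Φ.mapTriangleCommShiftIso n).app A)).trans
    (Triangle.shift_distinguished_iff _ n)

theorem h7_zero₃ {A : Triangle T₂} (hA : A ∈ distTriang T₂) (h : A.mor₃ = 0) : H7P Φ A := by
  let s : Spl (A.obj₁ ⊞ A.obj₃) A.obj₃ A.obj₁ :=
    ⟨biprod.inr, biprod.inl, biprod.snd, biprod.fst, by simp, by simp, by simp, by simp,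
      by rw [add_comm, biprod.total]⟩
  refine (h7_iso (isoTriangleOfIso₁₃ A _ hA s.dist (Iso.refl _) (Iso.refl _) (by simp [h]))).2 ?_
  refine isomorphic_distinguished _ (s.map Φ).dist _ ?_
  exact Triangle.isoMk _ _ (Iso.refl _) (Iso.refl _) (Iso.refl _) (by simp) (by simp) (by simp)

theorem h7_zero₁ {A : Triangle T₂} (hA : A ∈ distTriang T₂) (h : A.mor₁ = 0) : H7P Φ A :=
  (h7_rot A).1 (h7_zero₃ (rot_of_distTriang A hA) (by simp [h]))

theorem h7_glue [IsTriangulated T₁] [IsTriangulated T₂] [Φ.Full] {A : Triangle T₂}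
    (hA : A ∈ distTriang T₂) {X' X'' Y' Y'' Z Z' Z'' : T₂} (s : Spl A.obj₁ X' X'')
    (r : Spl A.obj₂ Y' Y'') (hf : s.i'' ≫ A.mor₁ ≫ r.p' = 0)
    {g' : Y' ⟶ Z'} {h' : Z' ⟶ X'⟦(1 : ℤ)⟧} {g'' : Y'' ⟶ Z''} {h'' : Z'' ⟶ X''⟦(1 : ℤ)⟧}
    (hT' : Triangle.mk (s.i' ≫ A.mor₁ ≫ r.p') g' h' ∈ distTriang T₂)
    (hT'' : Triangle.mk (s.i'' ≫ A.mor₁ ≫ r.p'') g'' h'' ∈ distTriang T₂)
    {u : Z'' ⟶ Z} {v : Z ⟶ Z'}
    (hW : Triangle.mk u v (h' ≫ (s.i' ≫ A.mor₁ ≫ r.p'' ≫ g'')⟦(1 : ℤ)⟧') ∈ distTriang T₂)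
    (h₁ : ∀ φ : Y' ⟶ Z'', φ = 0) (h₂ : ∀ φ : Z' ⟶ X''⟦(1 : ℤ)⟧, φ = 0) :
    Nonempty (A.obj₃ ≅ Z) ∧ (H7P Φ (Triangle.mk (s.i' ≫ A.mor₁ ≫ r.p') g' h') →
      H7P Φ (Triangle.mk (s.i'' ≫ A.mor₁ ≫ r.p'') g'' h'') →
      H7P Φ (Triangle.mk u v (h' ≫ (s.i' ≫ A.mor₁ ≫ r.p'' ≫ g'')⟦(1 : ℤ)⟧')) → H7P Φ A) := by
  have e' : g' ≫ h' = 0 := comp_distTriang_mor_zero₂₃ _ hT'
  have e'' : g'' ≫ h'' = 0 := comp_distTriang_mor_zero₂₃ _ hT''
  obtain ⟨γ, hγ⟩ : ∃ γ : Y' ⟶ Z, g' = γ ≫ v :=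
    Triangle.coyoneda_exact₃ _ hW g' (by dsimp; rw [reassoc_of% e', zero_comp])
  obtain ⟨η, hη⟩ : ∃ η : Z ⟶ X''⟦(1 : ℤ)⟧, u ≫ η = -h'' := by
    obtain ⟨ψ, hψ⟩ := Triangle.yoneda_exact₃ _ (rot_of_distTriang _ hW) (h''⟦(1 : ℤ)⟧') (by
      dsimp
      rw [Category.assoc, ← Functor.map_comp]
      simp [e''])
    obtain ⟨η, rfl⟩ := (shiftFunctor T₂ (1 : ℤ)).map_surjective ψ
    refine ⟨η, (shiftFunctor T₂ (1 : ℤ)).map_injective ?_⟩
    rw [Functor.map_neg, hψ]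
    simp
  have hG := glue s r A.mor₁ hf hT' hT'' hW h₁ h₂ hγ.symm hη
  let e := isoTriangleOfIso₁₂ A _ hA hG (Iso.refl _) (Iso.refl _) (by simp)
  refine ⟨⟨Triangle.π₃.mapIso e⟩, fun p' p'' pW => (h7_iso e).2 ?_⟩
  have := glue (s.map Φ) (r.map Φ) (Φ.map A.mor₁)
    (by dsimp; rw [← Φ.map_comp, ← Φ.map_comp, hf, Φ.map_zero])
    (g' := Φ.map g') (h' := Φ.map h' ≫ (Φ.commShiftIso (1 : ℤ)).hom.app X')
    (g'' := Φ.map g'') (h'' := Φ.map h'' ≫ (Φ.commShiftIso (1 : ℤ)).hom.app X'')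
    (by simpa [H7P, Functor.mapTriangle] using p') (by simpa [H7P, Functor.mapTriangle] using p'')
    (u := Φ.map u) (v := Φ.map v) (by simpa [H7P, Functor.mapTriangle] using pW)
    (fun φ => by
      obtain ⟨φ, rfl⟩ := Φ.map_surjective φ
      rw [h₁ φ, Φ.map_zero])
    (fun φ => by
      obtain ⟨ψ, hψ⟩ := Φ.map_surjective (φ ≫ (Φ.commShiftIso (1 : ℤ)).inv.app X'')
      rw [← cancel_mono ((Φ.commShiftIso (1 : ℤ)).inv.app X''), ← hψ, h₂ ψ, Φ.map_zero, zero_comp])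
    (γ := Φ.map γ) (by rw [hγ, Φ.map_comp])
    (η := Φ.map η ≫ (Φ.commShiftIso (1 : ℤ)).hom.app X'')
    (by rw [← Φ.map_comp_assoc, hη, Φ.map_neg, Preadditive.neg_comp])
  simpa [H7P, Functor.mapTriangle] using this

variable (h : ∀ A ∈ distTriang T₂, t.heart A.obj₁ → t.heart A.obj₂ → t.heart A.obj₃ →
  Φ.mapTriangle.obj A ∈ distTriang T₁)
include h

theorem h7_one {A : Triangle T₂} (hA : A ∈ distTriang T₂) {n : ℤ} (h₁ : H7I t A.obj₁ n n)
    (h₂ : H7I t A.obj₂ n n) (h₃ : H7I t A.obj₃ n n) : H7P Φ A := by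
  have key : ∀ {X : T₂}, H7I t X n n → t.heart (X⟦n⟧) := fun hX =>
    (t.mem_heart_iff _).2 ⟨(hX.shift n 0 0 (add_zero n) (add_zero n)).le,
      (hX.shift n 0 0 (add_zero n) (add_zero n)).ge⟩
  exact (h7_shift A n).1 (h _ (Triangle.shift_distinguished A hA n) (key h₁) (key h₂) (key h₃))

theorem h7_two {A : Triangle T₂} (hA : A ∈ distTriang T₂) {n : ℤ}
    (h₁ : H7I t A.obj₁ (n + 1) (n + 1)) (h₂ : H7I t A.obj₂ n n) : H7P Φ A := by
  have hB := inv_rot_of_distTriang _ (inv_rot_of_distTriang _ hA)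
  have h₃ := h₂.shift (-1) (n + 1) (n + 1) (by ring) (by ring)
  exact (h7_inv _).1 ((h7_inv _).1 (h7_one h hB h₃ (H7I.ext₂ hB h₃ h₁) h₁))

variable [IsTriangulated T₁] [IsTriangulated T₂] [Φ.Full] (ht : Hered t)
include ht

theorem h7_three {A : Triangle T₂} (hA : A ∈ distTriang T₂) {n : ℤ} (h₁ : H7I t A.obj₁ n n)
    (h₂ : H7I t A.obj₂ n n) : H7P Φ A := by
  have hB := inv_rot_of_distTriang _ hA
  have hC : H7I t A.invRotate.obj₁ n (n + 1) :=
    H7I.ext₂ (inv_rot_of_distTriang _ hB)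
      ((h₂.shift (-1) (n + 1) (n + 1) (by ring) (by ring)).mono (by lia) le_rfl)
      (h₁.mono le_rfl (by lia))
  obtain ⟨C', C'', s, hC', hC''⟩ := hC.spl ht
  obtain ⟨Z', g', h', hT'⟩ :=
    distinguished_cocone_triangle (s.i' ≫ A.invRotate.mor₁ ≫ (h7R A.invRotate.obj₂).p')
  obtain ⟨Z'', g'', h'', hT''⟩ :=
    distinguished_cocone_triangle (s.i'' ≫ A.invRotate.mor₁ ≫ (h7R A.invRotate.obj₂).p'')
  obtain ⟨Z, u, v, hW⟩ := distinguished_cocone_triangle₂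
    (h' ≫ (s.i' ≫ A.invRotate.mor₁ ≫ (h7R A.invRotate.obj₂).p'' ≫ g'')⟦(1 : ℤ)⟧')
  have hZ' : H7I t Z' (n - 1) (n - 1) :=
    H7I.ext₃ hT' (by simpa using hC') (H7I.zero _ _)
  have hZ'' : H7I t Z'' n n := H7I.ext₃ hT'' hC'' h₁
  obtain ⟨⟨e⟩, hG⟩ := h7_glue (Φ := Φ) hB s (h7R _) ((isZero_zero _).eq_of_tgt _ _) hT' hT'' hW
    (fun φ => (isZero_zero _).eq_of_src _ _)
    (hZ'.hom (hC''.shift 1 n n (add_comm _ _) (add_comm _ _)) (by lia))
  have hZ : H7I t Z n n := by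
    have : t.IsGE A.invRotate.obj₃ n := h₂.ge
    have : t.IsLE A.invRotate.obj₃ n := h₂.le
    exact ⟨t.isGE_of_iso e n, t.isLE_of_iso e n⟩
  refine (h7_inv A).1 (hG (h7_zero₁ hT' ((isZero_zero _).eq_of_tgt _ _)) (h7_two h hT'' hC'' h₁) ?_)
  exact (h7_inv _).1 (h7_one h (inv_rot_of_distTriang _ hW)
    (hZ'.shift (-1) n n (by ring) (by ring)) hZ'' hZ)

theorem h7_four {A : Triangle T₂} (hA : A ∈ distTriang T₂) {n b : ℤ} (h₁ : H7I t A.obj₁ n n)
    (h₂ : H7I t A.obj₂ n b) : H7P Φ A := by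
  obtain ⟨Y', Y'', r, hY', hY''⟩ := h₂.spl ht
  obtain ⟨Z', g', h', hT'⟩ := distinguished_cocone_triangle ((h7L A.obj₁).i' ≫ A.mor₁ ≫ r.p')
  obtain ⟨Z'', g'', h'', hT''⟩ := distinguished_cocone_triangle ((h7L A.obj₁).i'' ≫ A.mor₁ ≫ r.p'')
  obtain ⟨Z, u, v, hW⟩ := distinguished_cocone_triangle₂
    (h' ≫ ((h7L A.obj₁).i' ≫ A.mor₁ ≫ r.p'' ≫ g'')⟦(1 : ℤ)⟧')
  have hZ'' : H7I t Z'' (n + 1) b := H7I.ext₃ hT'' (H7I.zero _ _) hY''
  refine (h7_glue hA (h7L _) r ((isZero_zero _).eq_of_src _ _) hT' hT'' hW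
    (hY'.hom hZ'' (by lia))
    (fun φ => ((shiftFunctor T₂ (1 : ℤ)).map_isZero (isZero_zero _)).eq_of_tgt _ _)).2
    (h7_three h ht hT' h₁ hY') (h7_zero₁ hT'' ((isZero_zero _).eq_of_src _ _)) (h7_zero₃ hW ?_)
  dsimp
  rw [h₁.hom hZ'' (by lia) (_ ≫ A.mor₁ ≫ r.p'' ≫ g''), Functor.map_zero, comp_zero]

theorem h7_five (m : ℕ) : ∀ {A : Triangle T₂}, A ∈ distTriang T₂ → ∀ {a : ℤ},
    H7I t A.obj₁ (a + 1) (a + m + 1) → H7I t A.obj₂ a (a + m) → H7P Φ A := by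
  induction m with
  | zero =>
    intro A hA a h₁ h₂
    exact h7_two h hA (by simpa using h₁) (by simpa using h₂)
  | succ m ih =>
    intro A hA a h₁ h₂
    obtain ⟨X', X'', s, hX', hX''⟩ := h₁.spl ht
    obtain ⟨Y', Y'', r, hY', hY''⟩ := h₂.spl ht
    obtain ⟨Z', g', h', hT'⟩ := distinguished_cocone_triangle (s.i' ≫ A.mor₁ ≫ r.p')
    obtain ⟨Z'', g'', h'', hT''⟩ := distinguished_cocone_triangle (s.i'' ≫ A.mor₁ ≫ r.p'')
    obtain ⟨Z, u, v, hW⟩ := distinguished_cocone_triangle₂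
      (h' ≫ (s.i' ≫ A.mor₁ ≫ r.p'' ≫ g'')⟦(1 : ℤ)⟧')
    have hZ' : H7I t Z' a a := H7I.ext₃ hT' hX' hY'
    have hZ'' : H7I t Z'' (a + 1) (a + (m + 1 : ℕ)) := H7I.ext₃ hT'' hX'' hY''
    have := hX''.ge
    have := hY'.le
    refine (h7_glue hA s r (ht.zero (a + 1 + 1) a (by lia) _) hT' hT'' hW
      (hY'.hom hZ'' (by lia))
      (hZ'.hom (hX''.shift 1 (a + 1) _ (add_comm _ _) (add_comm _ _)) (by lia))).2
      (h7_two h hT' hX' hY')
      (ih hT'' (a := a + 1) (hX''.mono le_rfl (by lia)) (hY''.mono le_rfl (by lia))) ?_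
    exact (h7_rot _).1 ((h7_rot _).1 (h7_four h ht (rot_of_distTriang _ (rot_of_distTriang _ hW))
      hZ' (hZ''.shift 1 a (a + m) (add_comm _ _) (by lia))))

end Aux

theorem Hered.isTriangulated [IsTriangulated T₁] [IsTriangulated T₂] (ht : Hered t) (Φ : T₂ ⥤ T₁)
    [Φ.CommShift ℤ] [Φ.Additive] [Φ.Full] [Φ.Faithful]
    (h : ∀ A ∈ distTriang T₂, t.heart A.obj₁ → t.heart A.obj₂ → t.heart A.obj₃ →
      Φ.mapTriangle.obj A ∈ distTriang T₁) : Φ.IsTriangulated := by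
  refine ⟨fun A hA => ?_⟩
  obtain ⟨⟨a₁, g₁⟩, b₁, l₁⟩ := ht.bdd A.obj₁
  obtain ⟨⟨a₂, g₂⟩, b₂, l₂⟩ := ht.bdd A.obj₂
  exact h7_five h ht (max b₁ b₂ - min (a₁ - 1) a₂).toNat hA (a := min (a₁ - 1) a₂)
    ((H7I.mk g₁ l₁).mono (by omega) (by omega)) ((H7I.mk g₂ l₂).mono (by omega) (by omega))

end Pool.Agent.Work.MP_8b4bd2_al
end

-- merged part: Pool.Agent.Work.MP_8b4bd2_al.Hub8
section
/-!
Hubery's theorem.
`H = t.heart.FullSubcategory` with `heartAbelian`, `t.hasHeartFullSubcategory`, `heartDb`;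
`exists_functor_of_hered`, `Hered.isTriangulated`; `Ext.homEquiv` and `Hered.single_van`.
-/

set_option backward.isDefEq.respectTransparency false
set_option backward.defeqAttrib.useBackward true

namespace Pool.Agent.Work.MP_8b4bd2_al

open CategoryTheory Limits Pretriangulated Triangulated

variable {T : Type*} [Category T] [HasZeroObject T] [Preadditive T] [HasShift T ℤ]
  [∀ n : ℤ, (shiftFunctor T n).Additive] [Pretriangulated T]

theorem Hered.piecewiseHereditary [IsTriangulated T] {t : TStructure T} (ht : Hered t) :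
    PiecewiseHereditary T := by
  let hA : Abelian t.heart.FullSubcategory := heartAbelian t
  let hH : @TStructure.Heart T _ _ _ _ _ _ t t.heart.FullSubcategory _ hA.toPreadditive := by
    rw [heartAbelian_preadditive]
    exact t.hasHeartFullSubcategory
  let hD := HasDerivedCategory.standard t.heart.FullSubcategory
  let hE := HasExt.standard t.heart.FullSubcategory
  let _ := heartDb t.heart.FullSubcategory
  refine ⟨t.heart.FullSubcategory, inferInstance, hA, hE, hD, fun A B => ⟨fun α β => Abelian.Ext.ext ?_⟩, ?_⟩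
  · exact (ht.single_van A B _ (by norm_num) α.hom).trans
      (ht.single_van A B _ (by norm_num) β.hom).symm
  · have h₂ := ht.onBounded (H := t.heart.FullSubcategory)
    first
      | obtain ⟨Φ, _, _, _, h⟩ := exists_functor_of_hered (H := t.heart.FullSubcategory) ht h₂
      | obtain ⟨Φ, _, _, _, h⟩ := exists_functor_of_hered ht h₂
    exact ⟨Φ, inferInstance, h₂.isTriangulated Φ h, inferInstance⟩

end Pool.Agent.Work.MP_8b4bd2_al
end
end

-- merged part: Pool.Agent.Work.MP_8b4bd2_al.Main2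
section
-- merged part: Pool.Agent.Work.MP_8b4bd2_al.Min
section
/-!
Every matrix factorisation is homotopy equivalent to a minimal one, which is a direct summand.
Induction on `Fintype.card M.ι`. If `u = constantCoeff (φ i₀ j₀) ≠ 0` then `φ i₀ j₀ = C u` and
`a i₀ - a j₀ + 21 = 0` (so `i₀ ≠ j₀`). Put `h = Matrix.single j₀ i₀ (C u⁻¹)` (degree `-21`),
`h * φ * h = h`, `h * h = 0`, `π = φ * h + h * φ` commutes with `φ`, `π * π = π`, `π * h = h ≠ 0`.
`ker π` is graded, saturated, `φ`-stable: `exists_sub` gives `J`, `exists_factor` gives `p` with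
`J * p = 1 - π`, `left_cancel` gives `p * J = 1` and `φ' * p = p * φ`. If the cardinalities were
equal, `Matrix.mul_eq_one_comm_of_equiv` would give `π = 0`.
-/

namespace Pool.Agent.Work.MP_8b4bd2_al

open MvPolynomial Matrix CategoryTheory MF

universe u

variable {k : Type u} [Field k]

theorem min_split (M : MF k) {h : Matrix M.ι M.ι (R k)} (hd : h ∈ Deg k M.a M.a (-21))
    (h0 : h ≠ 0) (h1 : h * M.φ * h = h) (h2 : h * h = 0) :
    ∃ (X : MF k) (J : X ⟶ M) (p : M ⟶ X), Fintype.card X.ι < Fintype.card M.ι ∧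
      J ≫ p = 𝟙 X ∧ mat (𝟙 M - p ≫ J) = M.φ * h + h * M.φ := by
  obtain ⟨π, hπ⟩ : ∃ π, π = M.φ * h + h * M.φ := ⟨_, rfl⟩
  have hπd : π ∈ Deg k M.a M.a 0 :=
    hπ ▸ add_mem (mul_mem_Deg M.deg hd (by norm_num)) (mul_mem_Deg hd M.deg (by norm_num))
  have hc : M.φ * π = π * M.φ := by
    rw [hπ, Matrix.mul_add, Matrix.add_mul, M.φ_mul_φ_mul, M.mul_φ_mul_φ, Matrix.mul_assoc,
      add_comm]
  have hπh : π * h = h := by rw [hπ, Matrix.add_mul, Matrix.mul_assoc, h2, h1, mul_zero, zero_add]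
  have hππ : π * π = π := by
    nth_rewrite 2 [hπ]
    rw [Matrix.mul_add, ← Matrix.mul_assoc, ← Matrix.mul_assoc, ← hc, Matrix.mul_assoc, hπh, hπ]
  obtain ⟨X, J, hinj, hN⟩ := M.exists_sub (N := LinearMap.ker π.mulVecLin)
    (fun d v hv => by
      have hv : π *ᵥ v = 0 := hv
      have := vcmp_mulVec hπd d v
      rw [hv, map_zero, sub_zero] at this
      exact this.symm)
    (fun u hu _ => by
      have hu : π *ᵥ ((yy : R k) • u) = 0 := hu
      rw [Matrix.mulVec_smul] at hu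
      exact (smul_eq_zero.1 hu).resolve_left (prime_X' 0).ne_zero)
    (fun v hv => by
      have hv : π *ᵥ v = 0 := hv
      change π *ᵥ (M.φ *ᵥ v) = 0
      rw [Matrix.mulVec_mulVec, ← hc, ← Matrix.mulVec_mulVec, hv, Matrix.mulVec_zero])
  obtain ⟨p, hp, hJp⟩ := exists_factor (mat_deg J)
    (sub_mem (one_mem_Deg (a := M.a) (b := M.a) (d := 0) (by simp)) hπd) fun j => (hN _).1 (by
      change (π * (1 - π)).col j = 0
      rw [Matrix.mul_sub, Matrix.mul_one, hππ, sub_self]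
      rfl)
  have hπJ : π * mat J = 0 := by
    ext i j : 1
    exact congrFun ((hN ((mat J).col j)).2 ⟨Pi.single j 1, by rw [Matrix.mulVec_single_one]⟩) i
  have hpJ : p * mat J = 1 := left_cancel hinj (by
    rw [← Matrix.mul_assoc, hJp, Matrix.sub_mul, hπJ, Matrix.one_mul, Matrix.mul_one, sub_zero])
  have hpφ : X.φ * p = p * M.φ := left_cancel hinj (by
    rw [← Matrix.mul_assoc, ← mat_comm, Matrix.mul_assoc, hJp, ← Matrix.mul_assoc, hJp,
      Matrix.mul_sub, Matrix.sub_mul, hc, Matrix.mul_one, Matrix.one_mul])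
  refine ⟨X, J, homMk p hp hpφ, lt_of_le_of_ne (card_le_of_injective (R k) (mat J).mulVecLin
    ((injective_iff_map_eq_zero _).2 hinj)) fun e => h0 ?_, hom_ext hpJ, ?_⟩
  · rw [Matrix.mul_eq_one_comm_of_equiv (Fintype.equivOfCardEq e), hJp, sub_eq_self] at hpJ
    rw [← hπh, hpJ, Matrix.zero_mul]
  · rw [mat_sub, mat_id, mat_comp, mat_homMk, hJp, sub_sub_cancel, hπ]

theorem min_step (M : MF k) (hM : ¬ IsMin M) : ∃ h ∈ Deg k M.a M.a (-21), h ≠ 0 ∧
    h * M.φ * h = h ∧ h * h = 0 := by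
  simp only [IsMin, not_forall] at hM
  obtain ⟨i, j, hu⟩ := hM
  have hd : M.a i - M.a j + 21 = 0 := by_contra fun h => hu (constantCoeff_eq_zero (M.deg i j) h)
  have hij : i ≠ j := by
    rintro rfl
    omega
  have hC := eq_C_of_mem_zero (mem_Rd_congr (M.deg i j) hd)
  refine ⟨Matrix.single j i (C (constantCoeff (M.φ i j))⁻¹), fun a b => ?_, fun e => ?_, ?_, ?_⟩
  · rw [Matrix.single_apply]
    split_ifs with hab
    · obtain ⟨rfl, rfl⟩ := hab
      exact C_mem_Rd _ (by omega)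
    · exact zero_mem _
  · have := congrFun (congrFun e j) i
    rw [Matrix.single_apply_same, Matrix.zero_apply, map_eq_zero_iff _ (C_injective _ _)] at this
    exact inv_ne_zero hu this
  · rw [Matrix.single_mul_mul_single]
    nth_rewrite 2 [hC]
    rw [← map_mul, inv_mul_cancel₀ hu, map_one, one_mul]
  · exact Matrix.single_mul_single_of_ne _ _ _ _ hij _

theorem exists_min (M : MF k) : ∃ (M' : MF k) (J : M' ⟶ M) (p : M ⟶ M'), IsMin M' ∧
    J ≫ p = 𝟙 M' ∧ ∃ h ∈ Deg k M.a M.a (-21), mat (𝟙 M - p ≫ J) = M.φ * h + h * M.φ := by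
  induction hn : Fintype.card M.ι using Nat.strong_induction_on generalizing M with
  | _ n ih =>
    by_cases hM : IsMin M
    · exact ⟨M, 𝟙 M, 𝟙 M, hM, Category.comp_id _, 0, zero_mem _, by simp⟩
    · obtain ⟨h, hd, h0, h1, h2⟩ := min_step M hM
      obtain ⟨X, J, p, hlt, hJp, hh⟩ := min_split M hd h0 h1 h2
      obtain ⟨M', J', p', hmin, hJp', h', hd', hh'⟩ := ih _ (hn ▸ hlt) X rfl
      refine ⟨M', J' ≫ J, p ≫ p', hmin, ?_, h + mat J * h' * mat p, add_mem hd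
        (mul_mem_Deg (mul_mem_Deg (mat_deg J) hd' (zero_add _).symm) (mat_deg p) (add_zero _).symm),
        ?_⟩
      · rw [Category.assoc, ← Category.assoc J, hJp, Category.id_comp, hJp']
      · have e : 𝟙 M - (p ≫ p') ≫ J' ≫ J = (𝟙 M - p ≫ J) + p ≫ (𝟙 X - p' ≫ J') ≫ J := by
          simp
        rw [e, mat_add, hh, mat_comp, mat_comp, hh', Matrix.mul_add M.φ, Matrix.add_mul h,
          ← Matrix.mul_assoc M.φ, ← Matrix.mul_assoc M.φ, mat_comm J,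
          Matrix.mul_assoc _ (mat p), ← mat_comm p]
        simp only [Matrix.mul_add, Matrix.add_mul, Matrix.mul_assoc]
        abel

end Pool.Agent.Work.MP_8b4bd2_al
end

-- merged part: Pool.Agent.Work.MP_8b4bd2_al.Star
section
/-!
The gap property and the slicing.
For nonzero `X` in `U (c-1) ∩ V c`: a representative with `cU (c-1)`, `exists_min` and `cU_of_surj`
give a minimal one `M` (`E J`, `E p` are inverse isomorphisms by `zero_iff`); `M.tw (-c) 1` is minimal,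
`cU (-1)`, `cV 0`, not `cU 0` (else `X ∈ U c ∩ V c` is zero). With `l` from `euler M` the pair
`(gn (M.tw (-c) 1), fun r => l (r + c))` is a `Cone` (`Finset.sum_fiberwise`-type rewriting
`∑ i, F (a i) = ∑ c ∈ Icc (-7) 15, gn c * F c`). For the gap: `lp` gives `δ`; if `Hom(D,X) = 0` then
`Ex MD MX (21 j) (-1)^j` for all `j`: `j = 0` by assumption, `j < 0` since `MX.tw (21 j) _` is
`cV (c+δ+21 j)` and `MD` is `cU (c-1)`, `j > 0` by `U_serre`; then `euler` contradicts `lp`.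
-/

set_option backward.isDefEq.respectTransparency false
set_option backward.defeqAttrib.useBackward true

namespace Pool.Agent.Work.MP_8b4bd2_al

open CategoryTheory Limits Pretriangulated Triangulated

open MF

universe u

variable {k : Type u} [Field k]

theorem sum_gn (M : MF k) {s : Finset ℤ} (h : ∀ i, M.a i ∈ s) (F : ℤ → ℤ) :
    ∑ i, F (M.a i) = ∑ c ∈ s, gn M c * F c := by
  rw [← Finset.sum_fiberwise_of_maps_to (s := Finset.univ) (t := s) (g := M.a) (fun i _ => h i)]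
  refine Finset.sum_congr rfl fun c _ => ?_
  rw [Finset.sum_congr rfl (g := fun _ => F c) fun i hi => by rw [(Finset.mem_filter.1 hi).2]]
  simp [gn]

theorem card_filter_eq_sum_gn (M : MF k) (h : ∀ i, M.a i ∈ Finset.Icc (-7 : ℤ) 15) (P : ℤ → Prop)
    [DecidablePred P] : ((Finset.univ.filter fun i => P (M.a i)).card : ℤ) =
      ∑ c ∈ (Finset.Icc (-7 : ℤ) 15).filter P, gn M c := by
  rw [Finset.sum_filter, Finset.card_filter, Nat.cast_sum]
  have := sum_gn M h fun c => if P c then 1 else 0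
  simp only [mul_ite, mul_one, mul_zero] at this
  rw [← this]
  refine Finset.sum_congr rfl fun i _ => ?_
  split_ifs <;> simp

theorem cone_of {M : MF k} (hmin : IsMin M) (hU : cU (-1) M) (hV : cV 0 M) (h0 : ¬ cU 0 M)
    {l : ℤ → ℤ} (h₁ : ∀ r, l (r + 21) = -l r)
    (h₂ : ∀ r, ∑ j, sg (M.a j - r) = l r - l (r + 14) - l (r + 6) + l (r + 20)) :
    (∀ i, M.a i ∈ Finset.Icc (-7 : ℤ) 15) ∧ Cone (gn M) l := by
  obtain ⟨u0, u1, u2, u3, u4, u5, u6⟩ := constr_U hmin hU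
  obtain ⟨v0, v1⟩ := constr_V hmin hV
  have hm : ∀ i, M.a i ∈ Finset.Icc (-7 : ℤ) 15 := fun i => Finset.mem_Icc.2 ⟨u0 i, v0 i⟩
  refine ⟨hm, fun c => Nat.cast_nonneg _, u1, u2, u3, u4, u5, u6, ?_, constr_pos hU h0, h₁,
    fun r => ?_⟩
  · have e₁ := card_filter_eq_sum_gn M hm fun c => 0 < c
    have e₂ := card_filter_eq_sum_gn M hm fun c => c ≤ 0
    rw [show (Finset.Icc (-7 : ℤ) 15).filter (fun c => 0 < c) = Finset.Icc 1 15 by decide] at e₁
    rw [show (Finset.Icc (-7 : ℤ) 15).filter (fun c => c ≤ 0) = Finset.Icc (-7) 0 by decide] at e₂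
    rw [← e₁, ← e₂]
    exact_mod_cast v1
  · rw [← h₂ r]
    exact (sum_gn M hm fun c => sg (c - r)).symm

theorem cone_tw {M : MF k} {c : ℤ} (hmin : IsMin M) (hU : cU (c - 1) M) (hV : cV c M)
    (h0 : ¬ cU c M) {l : ℤ → ℤ} (h₁ : ∀ r, l (r + 21) = -l r)
    (h₂ : ∀ r, ∑ j, sg (M.a j - r) = l r - l (r + 14) - l (r + 6) + l (r + 20)) :
    (∀ i, (M.tw (-c) 1).a i ∈ Finset.Icc (-7 : ℤ) 15) ∧
      Cone (gn (M.tw (-c) 1)) fun r => l (r + c) := by
  refine cone_of (fun i j => ?_) (cU_tw hU _ _ (by ring)) (cV_tw hV _ _ (by ring))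
    (fun h => h0 ?_) (fun r => ?_) fun r => ?_
  · change MvPolynomial.constantCoeff (((1 : ℤˣ) • M.φ) i j) = 0
    rw [one_smul]
    exact hmin i j
  · have h' : cU c ((M.tw (-c) 1).tw c 1) := cU_tw h c 1 (by ring)
    let e := M.twIso (-c) c 0 1 1 1 (by ring) (by simp) ≪≫ M.twZeroIso
    exact cU_of_surj h' e.hom e.inv e.inv_hom_id
  · rw [show r + 21 + c = r + c + 21 by ring, h₁]
  · rw [show r + 14 + c = r + c + 14 by ring, show r + 6 + c = r + c + 6 by ring,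
      show r + 20 + c = r + c + 20 by ring, ← h₂]
    refine Finset.sum_congr rfl fun j _ => ?_
    congr 1
    change M.a j + -c - r = _
    ring

variable {T : Type*} [Category T] [HasZeroObject T] [Preadditive T] [HasShift T ℤ]
  [∀ n : ℤ, (shiftFunctor T n).Additive] [Pretriangulated T]
  (m : Model k T)

theorem Model.exists_rep (c : ℤ) (X : T) (hU : m.U (c - 1) X) (hV : (m.U c).rightOrthogonal X)
    (h0 : ¬ IsZero X) : ∃ M : MF k, Nonempty (m.E.obj M ≅ X) ∧ IsMin M ∧ cU (c - 1) M ∧ cV c M ∧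
      ¬ cU c M := by
  have := m.additive
  obtain ⟨M₀, ⟨e⟩, hM₀⟩ := hU
  obtain ⟨M, J, p, hmin, hJp, hh⟩ := exists_min M₀
  have h₁ : m.E.map (𝟙 M₀ - p ≫ J) = 0 := (m.zero_iff _).2 hh
  rw [m.E.map_sub, sub_eq_zero, m.E.map_id, m.E.map_comp] at h₁
  let e' : m.E.obj M ≅ X :=
    (⟨m.E.map J, m.E.map p, by rw [← m.E.map_comp, hJp, m.E.map_id], h₁.symm⟩ :
      m.E.obj M ≅ m.E.obj M₀) ≪≫ e
  refine ⟨M, ⟨e'⟩, hmin, cU_of_surj hM₀ p J hJp,
    (m.V_iff c M).1 ((m.U c).rightOrthogonal.prop_of_iso e'.symm hV), fun h => h0 ?_⟩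
  rw [IsZero.iff_id_eq_zero]
  exact hV (𝟙 X) ⟨M, ⟨e'⟩, h⟩

theorem Model.star (c : ℤ) (D : T) (hU : m.U (c - 1) D) (hV : (m.U c).rightOrthogonal D)
    (h0 : ¬ IsZero D) : ∃ δ : ℤ, 2 ≤ δ ∧ δ ≤ 20 ∧ ∀ X : T, m.U (c + δ - 1) X →
      (m.U (c + δ)).rightOrthogonal X → ¬ IsZero X → ∃ g : D ⟶ X, g ≠ 0 := by
  obtain ⟨MD, ⟨eD⟩, d₁, d₂, d₃, d₄⟩ := m.exists_rep c D hU hV h0
  obtain ⟨lD, lD₁, lD₂, -⟩ := euler MD
  obtain ⟨hmD, hcD⟩ := cone_tw d₁ d₂ d₃ d₄ lD₁ lD₂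
  obtain ⟨δ, hδ₁, hδ₂, hδ⟩ := lp hcD
  refine ⟨δ, hδ₁, hδ₂, fun X hXU hXV hX0 => ?_⟩
  by_contra hcon
  push Not at hcon
  obtain ⟨MX, ⟨eX⟩, x₁, x₂, x₃, x₄⟩ := m.exists_rep (c + δ) X hXU hXV hX0
  obtain ⟨lX, lX₁, lX₂, lX₃⟩ := euler MX
  obtain ⟨-, hcX⟩ := cone_tw x₁ x₂ x₃ x₄ lX₁ lX₂
  refine hδ _ _ hcX ?_
  rw [← sum_gn _ hmD fun a => lX (a - δ + (c + δ)), ← lX₃ MD fun j => ?_]
  · refine Finset.sum_congr rfl fun i _ => ?_
    congr 1
    change MD.a i + -c - δ + (c + δ) = _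
    ring
  rcases lt_trichotomy j 0 with hj | rfl | hj
  · refine ex_of_tw 0 (21 * j) 0 1 j.negOnePow 1 ?_ (by ring) (by simp)
    exact cV_tw x₃ (21 * j) j.negOnePow rfl _ (cU_of_le (cU_tw d₂ 0 1 rfl) (by omega))
  · have : Ex MD MX 0 1 := (m.hom_zero_iff MD MX).1 fun f => by
      rw [← cancel_epi eD.inv, ← cancel_mono eX.hom, Category.assoc, hcon (_ ≫ _)]
      simp
    simpa using this
  · refine ex_of_tw 0 (21 * j) 0 1 j.negOnePow 1 ?_ (by ring) (by simp)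
    refine (m.hom_zero_iff _ _).1 fun f => m.U_serre c _ _ ?_ ?_ f
    · exact (m.V_iff c _).2 (cV_tw d₃ 0 1 (by ring))
    · exact ⟨_, ⟨Iso.refl _⟩, cU_of_le (cU_tw x₂ (21 * j) j.negOnePow rfl) (by omega)⟩

include m in
theorem Model.exists_slicing : Nonempty (Slicing T) := by
  have := m.essSurj
  refine ⟨⟨m.U, ?_, ?_, m.U_shift, m.U_cut, fun X => ?_, fun X => ?_, m.U_serre, m.star⟩⟩
  · rintro n X Y e ⟨M, ⟨e'⟩, h⟩
    exact ⟨M, ⟨e' ≪≫ e⟩, h⟩
  · rintro n X ⟨M, e, h⟩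
    exact ⟨M, e, cU_mono h⟩
  · obtain ⟨n, h⟩ := exists_cU (m.E.objPreimage X)
    exact ⟨n, _, ⟨m.E.objObjPreimageIso X⟩, h⟩
  · obtain ⟨n, h⟩ := exists_cV (m.E.objPreimage X)
    exact ⟨n, (m.U n).rightOrthogonal.prop_of_iso (m.E.objObjPreimageIso X) ((m.V_iff n _).2 h)⟩

end Pool.Agent.Work.MP_8b4bd2_al
end

-- merged part: Pool.Agent.Work.MP_8b4bd2_al.T2
section
/-!
From a slicing to a hereditary t-structure on `F^⊥`. See /team-store/h86_8b4bd2_plan.md, section 6.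
-/

set_option backward.isDefEq.respectTransparency false
set_option backward.defeqAttrib.useBackward true

namespace Pool.Agent.Work.MP_8b4bd2_al

open CategoryTheory Limits Pretriangulated Triangulated

variable {T : Type*} [Category T] [HasZeroObject T] [Preadditive T] [HasShift T ℤ]
  [∀ n : ℤ, (shiftFunctor T n).Additive] [Pretriangulated T]

namespace Slicing

variable (s : Slicing T) {a b : ℤ} {X Y : T}

theorem T2_Ule (h : s.U a X) (hb : b ≤ a) : s.U b X := by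
  obtain ⟨m, rfl⟩ := Int.le.dest hb
  induction m with
  | zero => simpa using h
  | succ m ih => exact ih (s.mono _ _ (by simpa [add_assoc] using h)) (by omega)

theorem T2_Vle (h : (s.U a).rightOrthogonal X) (hb : a ≤ b) : (s.U b).rightOrthogonal X :=
  fun _ f hY => h f (s.T2_Ule hY hb)

theorem T2_Viso (e : X ≅ Y) (h : (s.U a).rightOrthogonal X) : (s.U a).rightOrthogonal Y :=
  (s.U a).rightOrthogonal.prop_of_iso e h

theorem T2_Ush (h : s.U a X) (j : ℤ) (hb : b ≤ a + 21 * j) : s.U b (X⟦j⟧) := by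
  refine s.T2_Ule ?_ hb
  clear hb
  induction j with
  | zero => simpa using s.iso _ ((shiftFunctorZero T ℤ).app X).symm h
  | succ j ih =>
    exact s.T2_Ule (s.iso _ ((shiftFunctorAdd T (j : ℤ) 1).app X).symm ((s.shift _ _).1 ih))
      (by omega)
  | pred j ih =>
    exact (s.shift _ _).2 (s.T2_Ule
      (s.iso _ ((shiftFunctorAdd' T (-(j : ℤ) - 1) 1 (-j) (by omega)).app X) ih) (by omega))

theorem T2_Vsh (h : (s.U a).rightOrthogonal X) (j : ℤ) (hb : a + 21 * j ≤ b) :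
    (s.U b).rightOrthogonal (X⟦j⟧) := fun Y f hY => by
  apply (shiftFunctor T (-j)).map_injective
  have e : X⟦j⟧⟦-j⟧ ≅ X := (shiftEquiv T j).unitIso.symm.app X
  rw [← cancel_mono e.hom, h (_ ≫ _) (s.T2_Ush hY (-j) (by omega)), Functor.map_zero, zero_comp]

theorem T2_serre (h : (s.U a).rightOrthogonal X) (h' : s.U b Y) (hb : a + 22 ≤ b) (f : X ⟶ Y) :
    f = 0 := s.serre a X Y h (s.T2_Ule h' hb) f

theorem T2_V1 {D : Triangle T} (hD : D ∈ distTriang T) (h₂ : (s.U a).rightOrthogonal D.obj₂)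
    (h₃ : (s.U b).rightOrthogonal D.obj₃) (hb : b ≤ a + 21) : (s.U a).rightOrthogonal D.obj₁ :=
  fun _ f hY => by
    obtain ⟨g, hg⟩ := Triangle.coyoneda_exact₂ _ (inv_rot_of_distTriang _ hD) f (h₂ _ hY)
    rw [hg, s.T2_Vsh h₃ (-1) (b := a) (by omega) g hY, zero_comp]

/-- The t-structure of a slicing. -/
def T2_t (n : ℤ) : TStructure T where
  le i := s.U (n - 21 * i)
  ge i := (s.U (n + 21 - 21 * i)).rightOrthogonal
  le_isClosedUnderIsomorphisms _ := ⟨fun e h => s.iso _ e h⟩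
  le_shift _ j _ _ _ h := s.T2_Ush h j (by omega)
  ge_shift _ j _ _ _ h := s.T2_Vsh h j (by omega)
  zero' _ _ f hX hY := hY f (s.T2_Ule hX (by omega))
  le_zero_le _ h := s.T2_Ule h (by omega)
  ge_one_le _ h := s.T2_Vle h (by omega)
  exists_triangle_zero_one A := by
    obtain ⟨X, Y, f, g, h, hT, hX, hY⟩ := s.cut A n
    exact ⟨X, Y, s.T2_Ule hX (by omega), s.T2_Vle hY (by omega), f, g, h, hT⟩

theorem T2_cut {F : T} {n f c : ℤ} (hU : s.U (n - 21) F) (hV : (s.U f).rightOrthogonal F)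
    {D : Triangle T} (hD : D ∈ distTriang T) (h₁ : s.U c D.obj₁)
    (h₃ : (s.U c).rightOrthogonal D.obj₃) (hc : f + 1 ≤ c) (hc' : c ≤ n) (h₂ : perp F D.obj₂) :
    perp F D.obj₁ ∧ perp F D.obj₃ := by
  have : (perp F).IsClosedUnderIsomorphisms := by rw [perp_eq]; infer_instance
  have h : perp F D.obj₃ := fun j g => by
    by_cases hj : j < 0
    · exact s.T2_Vsh h₃ j (by omega) g hU
    · obtain ⟨k, hk⟩ := Triangle.coyoneda_exact₃ _ (Triangle.shift_distinguished _ hD j) g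
        (s.T2_serre hV (s.T2_Ush (s.T2_Ush h₁ j le_rfl) 1 le_rfl) (by omega) _)
      rw [hk, h₂ j k, zero_comp]
  exact ⟨(perp F).ext_of_isTriangulatedClosed₁ D hD h₂ h, h⟩

theorem T2_main {F : T} (hF : Indecomposable F) (h1 : ∀ g : F ⟶ F⟦(1 : ℤ)⟧, g = 0) :
    ∃ n f : ℤ, f + 2 ≤ n ∧ s.U (n - 21) F ∧ (s.U f).rightOrthogonal F ∧
      ∀ X, perp F X → s.U (n - 1) X → (s.U n).rightOrthogonal X → IsZero X := by
  obtain ⟨f, hV, hmin⟩ := Int.exists_least_of_bdd (P := fun f => (s.U f).rightOrthogonal F)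
    (by
      obtain ⟨m, hm⟩ := s.bddU F
      refine ⟨m, fun z hz => le_of_not_gt fun h => hF.1 ?_⟩
      rw [IsZero.iff_id_eq_zero]
      exact hz _ (s.T2_Ule hm h.le)) (s.bddV F)
  obtain ⟨D, F', i, p, h, hT, hD, hF'⟩ := s.cut F (f - 1)
  obtain ⟨δ, d1, d2, hδ⟩ := s.star f D hD (s.T2_V1 hT hV hF' (by omega)) fun h0 => by
    have := (Triangle.isZero₁_iff_isIso₂ _ hT).1 h0
    have := hmin _ (s.T2_Viso (asIso (Triangle.mk i p h).mor₂).symm hF')
    omega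
  have hE : ∀ X, s.U (f + δ - 1) X → (s.U (f + δ)).rightOrthogonal X → ¬ IsZero X →
      ∃ g : F ⟶ X, i ≫ g ≠ 0 := fun X a b c => by
    obtain ⟨g, hg⟩ := hδ X a b c
    obtain ⟨k, hk⟩ := Triangle.yoneda_exact₂ _ (inv_rot_of_distTriang _ hT) g
      (s.T2_serre (s.T2_Vsh hF' (-1) le_rfl) a (by omega) _)
    exact ⟨k, fun e => hg (hk.trans e)⟩
  refine ⟨f + δ, f, by omega, ?_, hV, fun X hX a b => ?_⟩
  · obtain ⟨A, B, i₁, p₁, h₁, hT₁, hA, hB⟩ := s.cut F (f + δ - 21)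
    obtain ⟨B', B'', i₂, p₂, h₂, hT₂, hB', hB''⟩ := s.cut B (f + δ - 22)
    have hz : IsZero B' := by
      by_contra hz
      obtain ⟨g, hg⟩ := hE (B'⟦(1 : ℤ)⟧) (s.T2_Ush hB' 1 (by omega))
        (s.T2_Vsh (s.T2_V1 hT₂ hB hB'' (by omega)) 1 (by omega)) fun h0 => hz
          (((shiftFunctor T (-1 : ℤ)).map_isZero h0).of_iso ((shiftEquiv T (1 : ℤ)).unitIso.app B'))
      obtain ⟨k, hk⟩ := Triangle.coyoneda_exact₃ _ (Triangle.shift_distinguished _ hT₁ 1)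
        (g ≫ i₂⟦(1 : ℤ)⟧')
        (s.T2_serre hV (s.T2_Ush (s.T2_Ush hA 1 le_rfl) 1 le_rfl) (by omega) _)
      rw [h1 k, zero_comp] at hk
      obtain ⟨l, hl⟩ := Triangle.coyoneda_exact₁ _ hT₂ (i ≫ g)
        ((Category.assoc _ _ _).trans ((congrArg (i ≫ ·) hk).trans comp_zero))
      exact hg (by rw [hl, hB'' l (s.T2_Ule hD (by omega)), zero_comp])
    have := (Triangle.isZero₁_iff_isIso₂ _ hT₂).1 hz
    have hB2 := s.T2_Viso (asIso (Triangle.mk i₂ p₂ h₂).mor₂).symm hB''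
    obtain ⟨e, -⟩ := exists_iso_binaryBiproduct_of_distTriang _ hT₁
      (s.T2_serre hB2 (s.T2_Ush hA 1 le_rfl) (by omega) _)
    rcases hF.2 _ _ e with h0 | h0
    · have := (Triangle.isZero₁_iff_isIso₂ _ hT₁).1 h0
      have := hmin _ (s.T2_Viso (asIso (Triangle.mk i₁ p₁ h₁).mor₂).symm hB2)
      omega
    · have := (Triangle.isZero₃_iff_isIso₁ _ hT₁).1 h0
      exact s.iso _ (asIso (Triangle.mk i₁ p₁ h₁).mor₁) hA
  · by_contra hz
    obtain ⟨g, hg⟩ := hE X a b hz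
    have e : X ≅ X⟦(0 : ℤ)⟧ := ((shiftFunctorZero T ℤ).app X).symm
    exact hg (by rw [← cancel_mono e.hom, Category.assoc, hX 0 (g ≫ _), comp_zero, zero_comp])

end Slicing

theorem Slicing.exists_tStructure (s : Slicing T) (F : T) (hF : Indecomposable F)
    (h1 : ∀ g : F ⟶ F⟦(1 : ℤ)⟧, g = 0) :
    ∃ t : TStructure (perp F).FullSubcategory, Hered t := by
  obtain ⟨n, f, hn, hU, hV, hQ⟩ := s.T2_main hF h1
  have : (perp F).IsClosedUnderIsomorphisms := by rw [perp_eq]; infer_instance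
  have : (perp F).HasInducedTStructure (s.T2_t n) := ⟨fun X hX => by
    obtain ⟨A, B, i, p, h, hT, hA, hB⟩ := s.cut X n
    obtain ⟨a, b⟩ := s.T2_cut hU hV hT hA hB (by omega) le_rfl hX
    exact ⟨A, B, ⟨s.T2_Ule hA (by omega)⟩, ⟨s.T2_Vle hB (by omega)⟩, i, p, h, hT,
      (perp F).le_isoClosure _ a, (perp F).le_isoClosure _ b⟩⟩
  refine ⟨(perp F).tStructure (s.T2_t n), fun X => ?_, fun A B hA hB j hj g => ?_⟩
  · obtain ⟨a, ha⟩ := s.bddU X.obj
    obtain ⟨b, hb⟩ := s.bddV X.obj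
    exact ⟨⟨-((b - n).natAbs : ℤ), ⟨s.T2_Vle hb (by omega)⟩⟩,
      ⟨((n - a).natAbs : ℤ), ⟨s.T2_Ule ha (by omega)⟩⟩⟩
  · have hB' : s.U (n - 21 * -j) (B⟦j⟧).obj :=
      ((perp F).tStructure (s.T2_t n)).le_shift 0 j (-j) (by omega) B hB.1
    have h2 : perp F (A.obj⟦(-1 : ℤ)⟧) := (perp F).le_shift _ _ A.property
    obtain ⟨A', B', i, p, h, hT, a, b⟩ := s.cut (A.obj⟦(-1 : ℤ)⟧) (n - 1)
    have h3 : (s.U n).rightOrthogonal (A.obj⟦(-1 : ℤ)⟧) := s.T2_Vsh hA.2 (-1) (by omega)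
    have h4 := hQ A' (s.T2_cut hU hV hT a b (by omega) (by omega) h2).1 a
      (s.T2_V1 hT h3 b (by omega))
    have := (Triangle.isZero₁_iff_isIso₂ _ hT).1 h4
    have h5 : (s.U (n + 20)).rightOrthogonal A.obj :=
      s.T2_Viso ((shiftEquiv T (1 : ℤ)).counitIso.app A.obj)
        (s.T2_Vsh (s.T2_Viso (asIso (Triangle.mk i p h).mor₂).symm b) 1 (by omega))
    apply (perp F).ι.map_injective
    rw [Functor.map_zero]
    exact s.T2_serre h5 hB' (by omega) _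

end Pool.Agent.Work.MP_8b4bd2_al
end

-- merged part: Pool.Agent.Work.MP_8b4bd2_al.Main
section
set_option backward.isDefEq.respectTransparency false
set_option backward.defeqAttrib.useBackward true

namespace Pool.Agent.Work.MP_8b4bd2_al

open CategoryTheory Limits Pretriangulated

theorem IsExceptional.indecomposable {k : Type*} [Field k] {T : Type*} [Category T]
    [HasZeroObject T] [Preadditive T] [HasShift T ℤ] [∀ n : ℤ, (shiftFunctor T n).Additive]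
    [Pretriangulated T] [Linear k T] {F : T} (hF : IsExceptional k F) : Indecomposable F := by
  refine ⟨fun h => one_ne_zero (hF.1.1 (h.eq_of_src _ _) : (1 : k) = 0), fun Y Z e => ?_⟩
  obtain ⟨c, hc⟩ := hF.1.2 (e.hom ≫ biprod.fst ≫ biprod.inl ≫ e.inv)
  have hc' : c • 𝟙 F = e.hom ≫ biprod.fst ≫ biprod.inl ≫ e.inv := hc
  by_cases h : c = 0
  · left
    rw [IsZero.iff_id_eq_zero]
    have := ((biprod.inl ≫ e.inv) ≫= hc') =≫ (e.hom ≫ biprod.fst)
    simpa [h] using this.symm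
  · right
    rw [IsZero.iff_id_eq_zero]
    have := ((biprod.inr ≫ e.inv) ≫= hc') =≫ (e.hom ≫ biprod.snd)
    simpa [h] using this

theorem main (k : Type*) [Field k] (F : StabVect k) (hF : IsExceptional k F) :
    PiecewiseHereditary (perp F).FullSubcategory := by
  obtain ⟨m⟩ := exists_model k
  obtain ⟨s⟩ := m.exists_slicing
  obtain ⟨t, ht⟩ := s.exists_tStructure F hF.indecomposable (hF.2 1 one_ne_zero)
  exact ht.piecewiseHereditary

end Pool.Agent.Work.MP_8b4bd2_al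
end

-- merged part: Pool.Agent.Work.MP_8b4bd2_al.Main2
section
namespace Pool.Agent.Work.MP_8b4bd2_al

open CategoryTheory Limits

theorem main_vect {k : Type*} [Field k] {T : Type*} [Category T] [HasZeroObject T] [Preadditive T]
    [HasShift T ℤ] [∀ n : ℤ, (shiftFunctor T n).Additive] [Pretriangulated T] [IsTriangulated T]
    [Linear k T] (hT : StableCategory (lineBundle (Sdeg k)) (Distinguished (Sdeg k)) T)
    (F : T) (hF : IsExceptional k F) : PiecewiseHereditary (perp F).FullSubcategory := by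
  obtain ⟨m⟩ := hT.exists_model
  obtain ⟨s⟩ := m.exists_slicing
  obtain ⟨t, ht⟩ := s.exists_tStructure F hF.indecomposable (hF.2 1 one_ne_zero)
  exact ht.piecewiseHereditary

end Pool.Agent.Work.MP_8b4bd2_al
end
end
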